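import Mathlib

set_option autoImplicit false

open scoped Matrix

namespace Pool.Agent.Helper917

/-- Positivity of a matrix over a C*-algebra `A`: the positive elements of the C*-algebra
`M_ι(A)` are exactly the elements of the form `B* B` with `B` in `M_ι(A)`. -/
def IsPos {A ι : Type*} [NonUnitalCStarAlgebra A] [Fintype ι] (M : Matrix ι ι A) : Prop :=
  ∃ B : Matrix ι ι A, M = Bᴴ * B

/-- The multilevel Toeplitz matrix `[a (i - j)]` with `i, j` in the finite set `K`. -/
def toep {G A : Type*} [AddCommGroup G] (a : G → A) (K : Finset G) : Matrix K K A :=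
  Matrix.of fun i j => a ((i : G) - (j : G))

/-- The `A`-extension property of a finite set `S` of an abelian group `G` (here `G = ℤ^d`):
whenever `[a (i - j)]` over `S` is positive and `K ⊇ S` is finite, there are values `b` agreeing
with `a` on `S - S` such that `[b (i - j)]` over `K` is positive. -/
def HasExt {G : Type*} [AddCommGroup G] (A : Type*) [NonUnitalCStarAlgebra A]
    (S : Finset G) : Prop :=
  ∀ a : G → A, IsPos (toep a S) → ∀ K : Finset G, S ⊆ K →
    ∃ b : G → A, (∀ i ∈ S, ∀ j ∈ S, b (i - j) = a (i - j)) ∧ IsPos (toep b K)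

end Pool.Agent.Helper917
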