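import Mathlib
import Pool.Agent.Helper917.ToepDefs

set_option autoImplicit false

open scoped Matrix
open WeakDual

universe u

namespace Pool.Agent.Helper917

/-- the point at infinity -/
noncomputable def infPt (A : Type u) [NonUnitalCommCStarAlgebra A] :
    characterSpace ℂ (Unitization ℂ A) :=
  CharacterSpace.equivAlgHom.symm (Unitization.fstHom ℂ A)

lemma infPt_apply (A : Type u) [NonUnitalCommCStarAlgebra A] (z : Unitization ℂ A) :
    infPt A z = z.fst := rfl

/-- restriction of a character of the unitization -/
noncomputable def charRes (A : Type u) [NonUnitalCommCStarAlgebra A]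
    (ω : {ω : characterSpace ℂ (Unitization ℂ A) // ω ≠ infPt A}) : characterSpace ℂ A :=
  ⟨((CharacterSpace.toCLM ω.1).comp
      (⟨(Unitization.inrNonUnitalAlgHom ℂ A : A →ₗ[ℂ] Unitization ℂ A), by
        exact (Unitization.isometry_inr (𝕜 := ℂ) (A := A)).continuous⟩ : A →L[ℂ] Unitization ℂ A)), by
    refine ⟨fun h => ω.2 ?_, fun x y => ?_⟩
    · apply CharacterSpace.ext
      intro z
      have hz : ω.1 ((z.snd : A) : Unitization ℂ A) = 0 := by
        have := congrArg (fun f : WeakDual ℂ A => f z.snd) h
        exact this
      conv_lhs => rw [← Unitization.inl_fst_add_inr_snd_eq z]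
      rw [map_add, hz, infPt_apply, add_zero]
      have : (Unitization.inl z.fst : Unitization ℂ A) = algebraMap ℂ _ z.fst := rfl
      rw [this, AlgHomClass.commutes]
      rfl
    · show ω.1 ((x * y : A) : Unitization ℂ A) = ω.1 (x : Unitization ℂ A) * ω.1 (y : Unitization ℂ A)
      rw [Unitization.inr_mul, map_mul]⟩

lemma charRes_apply (A : Type u) [NonUnitalCommCStarAlgebra A]
    (ω : {ω : characterSpace ℂ (Unitization ℂ A) // ω ≠ infPt A}) (a : A) :
    charRes A ω a = ω.1 (a : Unitization ℂ A) := rfl

/-- extension of a character to the unitization -/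
noncomputable def charExt (A : Type u) [NonUnitalCommCStarAlgebra A] (φ : characterSpace ℂ A) :
    {ω : characterSpace ℂ (Unitization ℂ A) // ω ≠ infPt A} :=
  ⟨CharacterSpace.equivAlgHom.symm (Unitization.lift (CharacterSpace.toNonUnitalAlgHom φ)), by
    intro h
    apply φ.2.1
    apply ContinuousLinearMap.ext
    intro a
    have := congrArg (fun ω : characterSpace ℂ (Unitization ℂ A) => ω (a : Unitization ℂ A)) h
    simp [infPt_apply, Unitization.lift_apply] at this
    exact this⟩

lemma charExt_apply (A : Type u) [NonUnitalCommCStarAlgebra A] (φ : characterSpace ℂ A)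
    (z : Unitization ℂ A) : (charExt A φ).1 z = z.fst + φ z.snd := by
  show (Unitization.lift (CharacterSpace.toNonUnitalAlgHom φ)) z = _
  rw [Unitization.lift_apply]
  simp

/-- The character space of `A` is the character space of the unitization minus one point. -/
noncomputable def charHomeo (A : Type u) [NonUnitalCommCStarAlgebra A] :
    {ω : characterSpace ℂ (Unitization ℂ A) // ω ≠ infPt A} ≃ₜ characterSpace ℂ A where
  toFun := charRes A
  invFun := charExt A
  left_inv ω := by
    apply Subtype.ext
    apply CharacterSpace.ext
    intro z
    rw [charExt_apply, charRes_apply]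
    conv_rhs => rw [← Unitization.inl_fst_add_inr_snd_eq z]
    rw [map_add]
    have : (Unitization.inl z.fst : Unitization ℂ A) = algebraMap ℂ _ z.fst := rfl
    rw [this, AlgHomClass.commutes]
    rfl
  right_inv φ := by
    apply CharacterSpace.ext
    intro a
    rw [charRes_apply, charExt_apply]
    simp
  continuous_toFun := by
    refine Continuous.subtype_mk (WeakDual.continuous_of_continuous_eval fun a => ?_) _
    have : Continuous fun ω : characterSpace ℂ (Unitization ℂ A) => ω (a : Unitization ℂ A) :=
      (WeakDual.eval_continuous (a : Unitization ℂ A)).comp continuous_subtype_val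
    exact this.comp continuous_subtype_val
  continuous_invFun := by
    refine Continuous.subtype_mk (Continuous.subtype_mk
      (WeakDual.continuous_of_continuous_eval fun z => ?_) _) _
    have h1 : Continuous fun φ : characterSpace ℂ A => φ z.snd :=
      (WeakDual.eval_continuous z.snd).comp continuous_subtype_val
    have h2 : Continuous fun φ : characterSpace ℂ A => z.fst + φ z.snd :=
      continuous_const.add h1
    refine h2.congr fun φ => ?_
    exact (charExt_apply A φ z).symm

end Pool.Agent.Helper917
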