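import Mathlib
import Pool.Agent.Helper917.ToepDefs

set_option autoImplicit false
set_option linter.unusedSimpArgs false

open scoped Matrix

namespace Pool.Agent.Helper917

/-- Cauchy-Schwarz inequality for finite families in a C*-algebra. -/
lemma norm_sum_star_mul_le {A ι : Type*} [NonUnitalCStarAlgebra A] [Fintype ι] (u v : ι → A) :
    ‖∑ k, star (u k) * v k‖ ^ 2 ≤ ‖∑ k, star (u k) * u k‖ * ‖∑ k, star (v k) * v k‖ := by
  let _ := CStarAlgebra.spectralOrder A
  have _ := CStarAlgebra.spectralOrderedRing A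
  let v' : WithCStarModule A (ι → A) := (WithCStarModule.equiv A _).symm (fun i => star (v i))
  let u' : WithCStarModule A (ι → A) := (WithCStarModule.equiv A _).symm (fun i => star (u i))
  have hu : ‖u'‖ = Real.sqrt ‖∑ i, star (u i) * u i‖ := by
    rw [CStarModule.norm_eq_sqrt_norm_inner_self (A := A)]
    congr 2
    rw [WithCStarModule.pi_inner]
    refine Finset.sum_congr rfl fun i _ => ?_
    simp [u', WithCStarModule.inner_def]
  have hv : ‖v'‖ = Real.sqrt ‖∑ i, star (v i) * v i‖ := by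
    rw [CStarModule.norm_eq_sqrt_norm_inner_self (A := A)]
    congr 2
    rw [WithCStarModule.pi_inner]
    refine Finset.sum_congr rfl fun i _ => ?_
    simp [v', WithCStarModule.inner_def]
  have hin : inner A v' u' = ∑ k, star (u k) * v k := by
    rw [WithCStarModule.pi_inner]
    refine Finset.sum_congr rfl fun j _ => ?_
    simp [u', v', WithCStarModule.inner_def]
  have h1 : ‖∑ k, star (u k) * v k‖ ≤ ‖v'‖ * ‖u'‖ := by
    rw [← hin]; exact CStarModule.norm_inner_le _
  calc ‖∑ k, star (u k) * v k‖ ^ 2 ≤ (‖v'‖ * ‖u'‖) ^ 2 := by gcongr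
    _ = ‖∑ k, star (u k) * u k‖ * ‖∑ k, star (v k) * v k‖ := by
      rw [hu, hv, mul_pow, Real.sq_sqrt (norm_nonneg _), Real.sq_sqrt (norm_nonneg _), mul_comm]

/-- For `M = B* B` and a column `x`, `‖(M x)_i‖² ≤ ‖M_{ii}‖ ‖x* M x‖`. -/
lemma norm_row_le {A κ ι : Type*} [NonUnitalCStarAlgebra A] [Fintype κ] [Fintype ι]
    (B : Matrix κ ι A) (x : ι → A) (i : ι) :
    ‖∑ j, (Bᴴ * B) i j * x j‖ ^ 2
      ≤ ‖(Bᴴ * B) i i‖ * ‖∑ k, star (x k) * ∑ j, (Bᴴ * B) k j * x j‖ := by
  set y : κ → A := fun k => ∑ j, B k j * x j with hy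
  have e1 : ∀ i, ∑ j, (Bᴴ * B) i j * x j = ∑ k, star (B k i) * y k := by
    intro i
    simp only [Matrix.mul_apply, Matrix.conjTranspose_apply, hy, Finset.sum_mul, Finset.mul_sum]
    rw [Finset.sum_comm]
    simp only [mul_assoc]
  have e2 : ∑ k, star (x k) * ∑ j, (Bᴴ * B) k j * x j = ∑ k, star (y k) * y k := by
    simp_rw [e1, Finset.mul_sum]
    rw [Finset.sum_comm]
    refine Finset.sum_congr rfl fun k _ => ?_
    conv_rhs => rw [hy]
    simp only [star_sum, star_mul, Finset.sum_mul]
    refine Finset.sum_congr rfl fun j _ => ?_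
    rw [mul_assoc]
  have e3 : (Bᴴ * B) i i = ∑ k, star (B k i) * B k i := by
    simp [Matrix.mul_apply]
  rw [e1, e2, e3]
  exact norm_sum_star_mul_le _ _

lemma IsPos.isHermitian {A ι : Type*} [NonUnitalCStarAlgebra A] [Fintype ι] {M : Matrix ι ι A}
    (h : IsPos M) (i j : ι) : star (M i j) = M j i := by
  obtain ⟨B, rfl⟩ := h
  simp [Matrix.mul_apply, star_sum]

section toep

variable {G A : Type*} [AddCommGroup G] [NonUnitalCStarAlgebra A]

lemma IsPos.toep_row_le {b : G → A} {K : Finset G} (h : IsPos (toep b K)) {m : ℕ}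
    (f : Fin m → G) (hf : ∀ i, f i ∈ K) (x : Fin m → A) (i : Fin m) :
    ‖∑ j, b (f i - f j) * x j‖ ^ 2
      ≤ ‖b 0‖ * ‖∑ k, star (x k) * ∑ j, b (f k - f j) * x j‖ := by
  obtain ⟨B, hB⟩ := h
  have key := norm_row_le (B.submatrix id (fun i => (⟨f i, hf i⟩ : K))) x i
  have e : ∀ i j, ((B.submatrix id (fun i => (⟨f i, hf i⟩ : K)))ᴴ
      * (B.submatrix id (fun i => (⟨f i, hf i⟩ : K)))) i j = b (f i - f j) := by
    intro i j
    have := congrFun (congrFun hB ⟨f i, hf i⟩) ⟨f j, hf j⟩
    simp only [toep, Matrix.of_apply] at this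
    rw [this]
    simp [Matrix.mul_apply]
  simp only [e, sub_self] at key
  exact key

lemma IsPos.toep_row_eq_zero {b : G → A} {K : Finset G} (h : IsPos (toep b K)) {m : ℕ}
    (f : Fin m → G) (hf : ∀ i, f i ∈ K) (x : Fin m → A)
    (hx : ∑ k, star (x k) * ∑ j, b (f k - f j) * x j = 0) (i : Fin m) :
    ∑ j, b (f i - f j) * x j = 0 := by
  have := h.toep_row_le f hf x i
  rw [hx, norm_zero, mul_zero] at this
  have h2 : ‖∑ j, b (f i - f j) * x j‖ = 0 := by
    nlinarith [norm_nonneg (∑ j, b (f i - f j) * x j)]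
  exact norm_eq_zero.1 h2

lemma IsPos.toep_star {b : G → A} {K : Finset G} (h : IsPos (toep b K)) {i j : G}
    (hi : i ∈ K) (hj : j ∈ K) : star (b (i - j)) = b (j - i) := by
  simpa [toep] using h.isHermitian ⟨i, hi⟩ ⟨j, hj⟩

end toep

/-- In a commutative unital C*-algebra, an extension of the data `p, c p, 0, w p` on
`{0, e₁, e₂}` with `c² + |w|² = 1` has a forced value at `2 e₂`. -/
theorem forced_value {G U : Type*} [AddCommGroup G] [CommCStarAlgebra U] (b : G → U)
    (K : Finset G) (h : IsPos (toep b K)) (e₁ e₂ : G) (h0 : 0 ∈ K) (h1 : e₁ ∈ K) (h2 : e₂ ∈ K)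
    (h12 : e₁ + e₂ ∈ K) (h22 : e₂ + e₂ ∈ K) (p c w : U) (hp : star p = p) (hc : star c = c)
    (hcw : c * c + star w * w = 1) (b0 : b 0 = p) (b1 : b e₁ = c * p) (b2 : b e₂ = 0)
    (b12 : b (e₁ - e₂) = w * p) :
    c * (w * b (e₂ + e₂)) = - (c * (star w * p)) := by
  have bm1 : b (-e₁) = c * p := by
    have := h.toep_star h1 h0
    rw [zero_sub, sub_zero, b1, star_mul, hp, hc] at this
    rw [← this, mul_comm]
  have bm2 : b (-e₂) = 0 := by
    have := h.toep_star h2 h0
    rw [zero_sub, sub_zero, b2, star_zero] at this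
    exact this.symm
  have b21 : b (e₂ - e₁) = star w * p := by
    have := h.toep_star h1 h2
    rw [b12, star_mul, hp] at this
    rw [← this, mul_comm]
  -- first relation
  have r1 := h.toep_row_eq_zero ![0, e₁, e₂, e₁ + e₂]
    (by intro i; fin_cases i <;> simp [h0, h1, h2, h12]) ![-c, 1, -star w, 0]
    (by
      simp only [Fin.sum_univ_four, Matrix.cons_val_zero, Matrix.cons_val_one, Matrix.cons_val_two,
        Matrix.cons_val_three, Matrix.head_cons, Matrix.tail_cons, sub_self, zero_sub, sub_zero,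
        Matrix.cons_val, b0, b1, b2, b12, b21, bm1, bm2, star_zero, zero_mul, mul_zero, add_zero]
      rw [star_neg, star_one, star_neg, star_star, hc]
      linear_combination (-p) * hcw) 3
  simp only [Fin.sum_univ_four, Matrix.cons_val_zero, Matrix.cons_val_one, Matrix.cons_val_two,
        Matrix.cons_val_three, Matrix.head_cons, Matrix.tail_cons, sub_self, zero_sub, sub_zero,
        Matrix.cons_val, b0, b1, b2, b12, b21, bm1, bm2, star_zero, zero_mul, mul_zero, add_zero,
        add_sub_cancel_left, add_sub_cancel_right] at r1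
  -- second relation
  have s1 : e₂ - (e₁ + e₂) = -e₁ := by abel
  have s2 : e₂ - (e₂ + e₂) = -e₂ := by abel
  have s3 : e₁ + e₂ - (e₂ + e₂) = e₁ - e₂ := by abel
  have s4 : e₂ + e₂ - (e₁ + e₂) = e₂ - e₁ := by abel
  have r2 := h.toep_row_eq_zero ![e₂, e₁ + e₂, e₂ + e₂, 0]
    (by intro i; fin_cases i <;> simp [h0, h22, h2, h12]) ![-c, 1, -star w, 0]
    (by
      simp only [Fin.sum_univ_four, Matrix.cons_val_zero, Matrix.cons_val_one, Matrix.cons_val_two,
        Matrix.cons_val_three, Matrix.head_cons, Matrix.tail_cons, sub_self, zero_sub, sub_zero,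
        Matrix.cons_val, star_zero, zero_mul, mul_zero, add_zero, s1, s2, s3, s4,
        add_sub_cancel_right, b0, b1, b2, b12, b21, bm1, bm2]
      rw [star_neg, star_one, star_neg, star_star, hc]
      linear_combination (-p) * hcw) 3
  simp only [Fin.sum_univ_four, Matrix.cons_val_zero, Matrix.cons_val_one, Matrix.cons_val_two,
        Matrix.cons_val_three, Matrix.head_cons, Matrix.tail_cons, sub_self, zero_sub, sub_zero,
        Matrix.cons_val, b0, b1, b2, b12, b21, bm1, bm2, star_zero, zero_mul, mul_zero, add_zero,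
        mul_one, zero_add] at r2
  have t1 : star (b (-(e₁ + e₂))) = b (e₁ + e₂) := by
    have := h.toep_star h0 h12
    simpa using this
  have t2 : star (b (-(e₂ + e₂))) = b (e₂ + e₂) := by
    have := h.toep_star h0 h22
    simpa using this
  have r3 := congrArg star r2
  rw [star_add, t1, star_mul, star_neg, star_star, t2, star_zero] at r3
  linear_combination (-c) * r3 - r1

end Pool.Agent.Helper917
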