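import Mathlib
import Pool.Agent.Helper917.ToepDefs
import Pool.Agent.Helper917.ToepKernel

set_option autoImplicit false

open scoped Matrix

namespace Pool.Agent.Helper917

/-- the triple `0, e₁, e₂` -/
def tri {G : Type*} [AddCommGroup G] (e₁ e₂ : G) : Fin 3 → G := ![0, e₁, e₂]

/-- the differences of the triple are as distinct as possible -/
def Generic {G : Type*} [AddCommGroup G] (e₁ e₂ : G) : Prop :=
  ∀ i j k l : Fin 3, tri e₁ e₂ i - tri e₁ e₂ j = tri e₁ e₂ k - tri e₁ e₂ l →
    (i = k ∧ j = l) ∨ (i = j ∧ k = l)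

/-- Prescribing a Gram matrix with constant diagonal as Toeplitz data on `{0, e₁, e₂}`. -/
lemma exists_data {G A : Type*} [AddCommGroup G] [DecidableEq G] [NonUnitalCStarAlgebra A]
    {e₁ e₂ : G} (hf : Generic e₁ e₂) (w : Fin 3 → Fin 3 → A)
    (hw : ∀ i, ∑ k, star (w k i) * w k i = ∑ k, star (w k 0) * w k 0) :
    ∃ a : G → A, (∀ i j, a (tri e₁ e₂ i - tri e₁ e₂ j) = ∑ k, star (w k i) * w k j) ∧
      IsPos (toep a ({0, e₁, e₂} : Finset G)) := by
  classical
  set f := tri e₁ e₂ with hfdef
  let N : Fin 3 → Fin 3 → A := fun i j => ∑ k, star (w k i) * w k j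
  have hinj : Function.Injective f := by
    intro i k h
    rcases hf i 0 k 0 (by rw [← hfdef, h]) with h' | h'
    · exact h'.1
    · rw [h'.1, ← h'.2]
  let a : G → A := fun g => if h : ∃ ij : Fin 3 × Fin 3, g = f ij.1 - f ij.2 then
    N h.choose.1 h.choose.2 else 0
  have ha : ∀ i j, a (f i - f j) = N i j := by
    intro i j
    have h : ∃ ij : Fin 3 × Fin 3, f i - f j = f ij.1 - f ij.2 := ⟨(i, j), rfl⟩
    have h1 : a (f i - f j) = N h.choose.1 h.choose.2 := by simp only [a, h, dif_pos]
    rw [h1]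
    have key : ∀ i' j', f i - f j = f i' - f j' → N i' j' = N i j := by
      intro i' j' hij
      rcases hf _ _ _ _ hij with h' | h'
      · rw [← h'.1, ← h'.2]
      · rw [← h'.1, ← h'.2]
        exact (hw _).trans (hw i).symm
    exact key _ _ h.choose_spec
  refine ⟨a, ha, ?_⟩
  set S : Finset G := {0, e₁, e₂} with hS
  have hSf : S = Finset.univ.image f := by
    ext g
    simp only [hS, Finset.mem_insert, Finset.mem_singleton, Finset.mem_image, Finset.mem_univ,
      true_and, hfdef, tri]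
    constructor
    · rintro (rfl | rfl | rfl)
      · exact ⟨0, rfl⟩
      · exact ⟨1, rfl⟩
      · exact ⟨2, rfl⟩
    · rintro ⟨i, rfl⟩
      fin_cases i <;> simp
  let e : Fin 3 ≃ S := Equiv.ofBijective (fun i => ⟨f i, by rw [hSf]; simp⟩) (by
    constructor
    · intro i j h
      exact hinj (congrArg Subtype.val h)
    · rintro ⟨g, hg⟩
      rw [hSf] at hg
      obtain ⟨i, -, hi⟩ := Finset.mem_image.1 hg
      exact ⟨i, Subtype.ext hi⟩)
  have he : ∀ i, ((e i : S) : G) = f i := fun i => rfl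
  refine ⟨Matrix.of fun s t => w (e.symm s) (e.symm t), ?_⟩
  ext s t
  obtain ⟨i, rfl⟩ := e.surjective s
  obtain ⟨j, rfl⟩ := e.surjective t
  simp only [toep, Matrix.of_apply, he, ha, N, Matrix.mul_apply, Matrix.conjTranspose_apply,
    Equiv.symm_apply_apply]
  exact (Equiv.sum_comp e.symm (fun k => star (w k i) * w k j)).symm

/-- The same extension, pushed forward to another C*-algebra. -/
lemma IsPos.toep_map' {G A B : Type*} [AddCommGroup G] [NonUnitalCStarAlgebra A]
    [NonUnitalCStarAlgebra B] {a : G → A} {K : Finset G} (h : IsPos (toep a K))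
    (f : A →⋆ₙₐ[ℂ] B) : IsPos (toep (fun l => f (a l)) K) := by
  obtain ⟨C, hC⟩ := h
  refine ⟨C.map f, ?_⟩
  ext i j
  have := congrArg f (congrFun (congrFun hC i) j)
  simpa [toep, Matrix.mul_apply, map_sum, map_star] using this

end Pool.Agent.Helper917
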