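import Mathlib
import Pool.Agent.Helper917.ToepDefs
import Pool.Agent.Helper917.ToepKernel
import Pool.Agent.Helper917.ToepData

set_option autoImplicit false
set_option linter.unusedSimpArgs false

open scoped Matrix
open Filter Topology

namespace Pool.Agent.Helper917

section comm

variable {G A : Type*} [AddCommGroup G] [NonUnitalCStarAlgebra A]

/-- the embedding in the unitization -/
noncomputable def J : A →⋆ₙₐ[ℂ] Unitization ℂ A := Unitization.inrNonUnitalStarAlgHom ℂ A

lemma J_inj {x y : A} (h : J x = J y) : x = y := Unitization.inr_injective h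

lemma J_snd (z : Unitization ℂ A) (hz : z.fst = 0) : J z.snd = z := by
  ext
  · simpa [J] using hz.symm
  · simp [J]

lemma norm_J (x : A) : ‖J x‖ = ‖x‖ := Unitization.norm_inr x

/-- left multiplication by an approximate unit -/
lemma tendsto_J_mul {l : Filter A} (hl : l.IsApproximateUnit) (h1 : ∀ᶠ x in l, ‖x‖ ≤ 1)
    {Z : A → Unitization ℂ A} {z : A} (hZ : Tendsto Z l (𝓝 (J z))) :
    Tendsto (fun b => J b * Z b) l (𝓝 (J z)) := by
  have e : (fun b => J b * Z b) = fun b => J b * (Z b - J z) + J (b * z) := by
    ext1 b; rw [map_mul, mul_sub]; abel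
  rw [e, show J z = 0 + J z by simp]
  have hc : Continuous (J : A → Unitization ℂ A) :=
    (AddMonoidHomClass.isometry_of_norm (J : A →⋆ₙₐ[ℂ] Unitization ℂ A) norm_J).continuous
  refine Tendsto.add ?_ ((hc.tendsto _).comp (hl.tendsto_mul_right z))
  rw [zero_add]
  have h0 : Tendsto (fun b => ‖Z b - J z‖) l (𝓝 0) := by
    simpa using (hZ.sub_const (J z)).norm
  refine squeeze_zero_norm' ?_ h0
  filter_upwards [h1] with b hb
  calc ‖J b * (Z b - J z)‖ ≤ ‖J b‖ * ‖Z b - J z‖ := norm_mul_le _ _
    _ ≤ 1 * ‖Z b - J z‖ := by gcongr; rw [norm_J]; exact hb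
    _ = _ := one_mul _

/-- the basic estimate for one pair of translations -/
lemma row_estimate {β : G → A} {K : Finset G} (h : IsPos (toep β K)) {e e' : G} (h0 : 0 ∈ K)
    (h1 : e ∈ K) (h2 : e + e' ∈ K) (b c : A) (U V : Unitization ℂ A) (b0 : β 0 = b * b)
    (b1 : J (β e) = J b * U * J b) (b1' : J (β (-e)) = J b * star U * J b)
    (b2 : J (β e') = J b * V * J b) :
    ‖- (J (β (e + e')) * (star U * J c)) + J b * (V * (J b * J c))‖ ^ 2 ≤
      ‖b * b‖ * ‖star (-(star U * J c)) * (-(J b * (J b * (star U * J c)))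
          + J b * (star U * (J b * J c)))
        + star (J c) * (-(J b * (U * (J b * (star U * J c)))) + J b * (J b * J c))‖ := by
  have key := (h.toep_map' (J : A →⋆ₙₐ[ℂ] Unitization ℂ A)).toep_row_le ![0, e, e + e']
    (by intro i; fin_cases i <;> simp [h0, h1, h2]) ![-(star U * J c), J c, 0] 2
  simp only [Fin.sum_univ_three, Matrix.cons_val_zero, Matrix.cons_val_one, Matrix.cons_val_two,
    Matrix.head_cons, Matrix.tail_cons, sub_self, zero_sub, sub_zero, Matrix.cons_val,
    mul_zero, add_zero, star_zero, zero_mul, add_sub_cancel_left, b0, b1, b1', b2, map_mul] at key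
  have n1 : ‖J b * J b‖ = ‖b * b‖ := by rw [← map_mul, norm_J]
  rw [n1] at key
  simpa only [mul_neg, mul_assoc] using key

lemma J_mul_snd (z : Unitization ℂ A) (c : A) : J (z * J c).snd = z * J c :=
  J_snd _ (by simp [J])

lemma tendsto_key {l : Filter A} (hl : l.IsApproximateUnit) (h1 : ∀ᶠ x in l, ‖x‖ ≤ 1)
    (P : A → A) (c : A) (U V : Unitization ℂ A) (hU : U * star U = 1)
    (hP : ∀ᶠ b in l, ‖- (J (P b) * (star U * J c)) + J b * (V * (J b * J c))‖ ^ 2 ≤
      ‖b * b‖ * ‖star (-(star U * J c)) * (-(J b * (J b * (star U * J c)))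
          + J b * (star U * (J b * J c)))
        + star (J c) * (-(J b * (U * (J b * (star U * J c)))) + J b * (J b * J c))‖) :
    Tendsto (fun b => J (P b) * (star U * J c)) l (𝓝 (V * J c)) := by
  have ec1 : star U * J c = J (star U * J c).snd := (J_mul_snd _ _).symm
  have ec2 : V * J c = J (V * J c).snd := (J_mul_snd _ _).symm
  have T1 : Tendsto (fun b => J b * J c) l (𝓝 (J c)) := tendsto_J_mul hl h1 tendsto_const_nhds
  have T2 : Tendsto (fun b => J b * (star U * J c)) l (𝓝 (star U * J c)) := by
    rw [ec1]; exact tendsto_J_mul hl h1 tendsto_const_nhds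
  have T3 : Tendsto (fun b => J b * (J b * (star U * J c))) l (𝓝 (star U * J c)) := by
    rw [ec1] at T2 ⊢; exact tendsto_J_mul hl h1 T2
  have T4 : Tendsto (fun b => J b * (star U * (J b * J c))) l (𝓝 (star U * J c)) := by
    have := (T1.const_mul (star U))
    rw [ec1] at this ⊢
    exact tendsto_J_mul hl h1 this
  have T5 : Tendsto (fun b => J b * (U * (J b * (star U * J c)))) l (𝓝 (J c)) := by
    have := (T2.const_mul U)
    rw [← mul_assoc, hU, one_mul] at this
    exact tendsto_J_mul hl h1 this
  have T6 : Tendsto (fun b => J b * (J b * J c)) l (𝓝 (J c)) := tendsto_J_mul hl h1 T1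
  have T7 : Tendsto (fun b => J b * (V * (J b * J c))) l (𝓝 (V * J c)) := by
    have := (T1.const_mul V)
    rw [ec2] at this ⊢
    exact tendsto_J_mul hl h1 this
  have TS : Tendsto (fun b => ‖star (-(star U * J c)) * (-(J b * (J b * (star U * J c)))
          + J b * (star U * (J b * J c)))
        + star (J c) * (-(J b * (U * (J b * (star U * J c)))) + J b * (J b * J c))‖) l (𝓝 0) := by
    have := (((T3.neg.add T4).const_mul (star (-(star U * J c)))).add
      ((T5.neg.add T6).const_mul (star (J c)))).norm
    simpa using this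
  have TD : Tendsto (fun b => - (J (P b) * (star U * J c)) + J b * (V * (J b * J c))) l
      (𝓝 0) := by
    rw [tendsto_zero_iff_norm_tendsto_zero]
    have h2 : Tendsto (fun b => ‖- (J (P b) * (star U * J c)) + J b * (V * (J b * J c))‖ ^ 2) l
        (𝓝 0) := by
      refine squeeze_zero' (Eventually.of_forall fun b => by positivity) ?_ TS
      filter_upwards [hP, h1] with b hb hb1
      refine hb.trans ?_
      have : ‖b * b‖ ≤ 1 := (norm_mul_le _ _).trans (by nlinarith [norm_nonneg b])
      exact mul_le_of_le_one_left (norm_nonneg _) this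
    have h3 := h2.sqrt
    simpa using h3
  have := T7.sub TD
  simpa using this

variable [DecidableEq G]

theorem unitaries_comm {e₁ e₂ : G} (hg : Generic e₁ e₂)
    (H : HasExt A ({0, e₁, e₂} : Finset G)) (U V : Unitization ℂ A) (hU : U * star U = 1)
    (hU' : star U * U = 1) (hV : V * star V = 1) (hV' : star V * V = 1) (c : A) :
    U * V * J c = V * U * J c := by
  classical
  let _ := CStarAlgebra.spectralOrder A
  have _ := CStarAlgebra.spectralOrderedRing A
  have hl := CStarAlgebra.increasingApproximateUnit (A := A)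
  set l := CStarAlgebra.approximateUnit A with hldef
  have hneBot : l.NeBot := hl.neBot
  have h1 := hl.eventually_norm
  have hsa := hl.eventually_star_eq
  set K : Finset G := {0, e₁, e₂, e₁ + e₂} with hK
  -- the extension for a self-adjoint `b`
  have hext : ∀ b : A, star b = b → ∃ β : G → A, IsPos (toep β K) ∧ β 0 = b * b ∧
      J (β e₁) = J b * U * J b ∧ J (β (-e₁)) = J b * star U * J b ∧
      J (β e₂) = J b * V * J b ∧ J (β (-e₂)) = J b * star V * J b := by
    intro b hb
    have hJb : star (J b) = J b := by rw [← map_star, hb]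
    let g : Fin 3 → Unitization ℂ A := ![1, U, V]
    have hgu : ∀ i, g i * star (g i) = 1 := by
      intro i; fin_cases i
      · simp [g]
      · exact hU
      · exact hV
    let w0 : Fin 3 → A := fun j => (star (g j) * J b).snd
    have hw0 : ∀ j, J (w0 j) = star (g j) * J b := fun j => J_mul_snd _ _
    let w : Fin 3 → Fin 3 → A := fun k j => if k = 0 then w0 j else 0
    have hsum : ∀ i j, ∑ k, star (w k i) * w k j = star (w0 i) * w0 j := by
      intro i j; simp [w, Fin.sum_univ_three]
    have hJ : ∀ i j, J (star (w0 i) * w0 j) = J b * (g i * star (g j)) * J b := by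
      intro i j
      rw [map_mul, map_star, hw0, hw0, star_mul, star_star, hJb]
      simp only [mul_assoc]
    obtain ⟨a, ha1, ha2⟩ := exists_data hg w (by
      intro i
      rw [hsum, hsum]
      apply J_inj
      rw [hJ, hJ, hgu, hgu])
    obtain ⟨β, hβ1, hβ2⟩ := H a ha2 K (by
      intro x hx
      simp only [Finset.mem_insert, Finset.mem_singleton] at hx
      simp only [hK, Finset.mem_insert, Finset.mem_singleton]
      tauto)
    have hval : ∀ i j, J (β (tri e₁ e₂ i - tri e₁ e₂ j)) = J b * (g i * star (g j)) * J b := by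
      intro i j
      rw [hβ1 _ (by fin_cases i <;> simp [tri]) _ (by fin_cases j <;> simp [tri]), ha1, hsum, hJ]
    refine ⟨β, hβ2, ?_, ?_, ?_, ?_, ?_⟩
    · apply J_inj
      have := hval 0 0
      simpa [tri, g] using this
    · simpa [tri, g] using hval 1 0
    · simpa [tri, g] using hval 0 1
    · simpa [tri, g] using hval 2 0
    · simpa [tri, g] using hval 0 2
  choose! β hβ using hext
  let P : A → A := fun b => β b (e₁ + e₂)
  have L1 : ∀ c : A, Tendsto (fun b => J (P b) * (star U * J c)) l (𝓝 (V * J c)) := by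
    intro c
    refine tendsto_key hl.toIsApproximateUnit h1 P c U V hU ?_
    filter_upwards [hsa] with b hb
    obtain ⟨p1, p2, p3, p4, p5, p6⟩ := hβ b hb
    exact row_estimate p1 (by simp [hK]) (by simp [hK]) (by simp [hK]) b c U V p2 p3 p4 p5
  have L2 : ∀ c : A, Tendsto (fun b => J (P b) * (star V * J c)) l (𝓝 (U * J c)) := by
    intro c
    refine tendsto_key hl.toIsApproximateUnit h1 P c V U hV ?_
    filter_upwards [hsa] with b hb
    obtain ⟨p1, p2, p3, p4, p5, p6⟩ := hβ b hb
    have := row_estimate (e := e₂) (e' := e₁) p1 (by simp [hK]) (by simp [hK])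
      (by simp [hK, add_comm]) b c V U p2 p5 p6 p3
    rwa [add_comm e₂ e₁] at this
  have M1 := L1 (U * J c).snd
  have M2 := L2 (V * J c).snd
  rw [J_mul_snd, ← mul_assoc (star U), hU', one_mul, ← mul_assoc] at M1
  rw [J_mul_snd, ← mul_assoc (star V), hV', one_mul, ← mul_assoc] at M2
  exact tendsto_nhds_unique M2 M1

theorem comm_of_hasExt {e₁ e₂ : G} (hg : Generic e₁ e₂)
    (H : HasExt A ({0, e₁, e₂} : Finset G)) (x y : A) : x * y = y * x := by
  have hUV : ∀ U ∈ unitary (Unitization ℂ A), ∀ V ∈ unitary (Unitization ℂ A),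
      U * V = V * U := by
    intro U hU V hV
    have h1 := fun c : A => unitaries_comm hg H U V hU.2 hU.1 hV.2 hV.1 c
    have hz : ∀ c : A, (U * V - V * U) * J c = 0 := fun c => by rw [sub_mul, h1, sub_self]
    set z := U * V - V * U with hzdef
    have hz0 : z.fst = 0 := by
      have : z.fst = (U * V).fst - (V * U).fst := rfl
      rw [this, Unitization.fst_mul, Unitization.fst_mul, mul_comm, sub_self]
    have h2 := hz (star z.snd)
    rw [← J_snd z hz0, ← map_mul] at h2
    have h3 : (J (z.snd * star z.snd) : Unitization ℂ A) = J 0 := by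
      rw [map_zero]
      simpa [J] using h2
    have h4 := J_inj h3
    have h5 : z.snd = 0 := by
      rwa [CStarRing.mul_star_self_eq_zero_iff] at h4
    have h6 : z = 0 := by rw [← J_snd z hz0, h5, map_zero]
    exact sub_eq_zero.1 h6
  have hspan := CStarAlgebra.span_unitary (Unitization ℂ A)
  have h1 : ∀ Z : Unitization ℂ A, ∀ V ∈ unitary (Unitization ℂ A), Z * V = V * Z := by
    intro Z V hV
    have hZ : Z ∈ Submodule.span ℂ (unitary (Unitization ℂ A) : Set (Unitization ℂ A)) := by
      rw [hspan]; trivial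
    induction hZ using Submodule.span_induction with
    | mem U hU => exact hUV U hU V hV
    | zero => simp
    | add a b _ _ ha hb => rw [add_mul, mul_add, ha, hb]
    | smul r a _ ha => rw [smul_mul_assoc, mul_smul_comm, ha]
  have h2 : ∀ Z W : Unitization ℂ A, Z * W = W * Z := by
    intro Z W
    have hW : W ∈ Submodule.span ℂ (unitary (Unitization ℂ A) : Set (Unitization ℂ A)) := by
      rw [hspan]; trivial
    induction hW using Submodule.span_induction with
    | mem U hU => exact h1 Z U hU
    | zero => simp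
    | add a b _ _ ha hb => rw [add_mul, mul_add, ha, hb]
    | smul r a _ ha => rw [smul_mul_assoc, mul_smul_comm, ha]
  apply J_inj
  rw [map_mul, map_mul]
  exact h2 _ _

end comm

end Pool.Agent.Helper917
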