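import Mathlib

set_option autoImplicit false

namespace Pool.Agent.Helper917

variable {Ω : Type*} [TopologicalSpace Ω] [CompactSpace Ω]

/-- The separation condition for functions vanishing at the point `p`. -/
def SepAt (Ω : Type*) [TopologicalSpace Ω] (p : Ω) : Prop :=
  ∀ f g a : C(Ω, ℂ), f p = 0 → g p = 0 → a p = 0 → f * g = 0 →
    ∃ h : C(Ω, ℂ), h p = 0 ∧ h * f = a * f ∧ h * g = 0

/-- a weighted sum of nonnegative functions -/
lemma exists_weighted_sum (f : ℕ → C(Ω, ℝ)) (u : C(Ω, ℝ)) (h0 : ∀ n x, 0 ≤ f n x)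
    (hu : ∀ n x, f n x ≤ u x) :
    ∃ φ : C(Ω, ℝ), (∀ x, φ x = 0 ↔ ∀ n, f n x = 0) ∧ ∀ x, 0 ≤ φ x := by
  have hsum : Summable (fun n : ℕ => ((1 / 2 : ℝ) ^ n) • f n) := by
    refine Summable.of_norm_bounded (g := fun n : ℕ => (1 / 2 : ℝ) ^ n * ‖u‖)
      ((summable_geometric_two).mul_right _) fun n => ?_
    rw [norm_smul]
    have h1 : ‖f n‖ ≤ ‖u‖ := by
      rw [ContinuousMap.norm_le _ (norm_nonneg _)]
      intro x
      rw [Real.norm_of_nonneg (h0 n x)]
      exact (hu n x).trans ((le_abs_self _).trans (u.norm_coe_le_norm x))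
    have h2 : ‖(1 / 2 : ℝ) ^ n‖ = (1 / 2 : ℝ) ^ n := Real.norm_of_nonneg (by positivity)
    rw [h2]
    gcongr
  have hval : ∀ x, HasSum (fun n : ℕ => ((1 / 2 : ℝ) ^ n) * f n x)
      ((∑' n : ℕ, ((1 / 2 : ℝ) ^ n) • f n) x) := by
    intro x
    have := (ContinuousMap.hasSum_apply hsum.hasSum x)
    simpa using this
  refine ⟨∑' n : ℕ, ((1 / 2 : ℝ) ^ n) • f n, fun x => ?_, fun x => ?_⟩
  · constructor
    · intro h n
      have h1 := hval x
      rw [h, hasSum_zero_iff_of_nonneg (fun n => mul_nonneg (by positivity) (h0 n x))] at h1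
      rcases mul_eq_zero.1 (congrFun h1 n) with h' | h'
      · exact absurd h' (by positivity)
      · exact h'
    · intro h
      refine (hval x).unique ?_
      simp [h]
  · rw [← (hval x).tsum_eq]
    exact tsum_nonneg fun n => mul_nonneg (by positivity) (h0 n x)

/-- A separating function for the level sets of two families. -/
lemma exists_sep {p : Ω} (hsep : SepAt Ω p) (u : C(Ω, ℝ)) (hu0 : ∀ x, 0 ≤ u x) (hup : u p = 0)
    (f g : ℕ → C(Ω, ℝ)) (hf : ∀ n x, f n x ≤ u x) (hg : ∀ n x, -u x ≤ g n x)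
    (hfg : ∀ n m x, f n x ≤ g m x) :
    ∃ χ : C(Ω, ℝ), (∀ x, 0 ≤ χ x) ∧ (∀ x, χ x ≤ u x) ∧ (∀ n x, 0 < f n x → χ x = u x) ∧
      (∀ n x, g n x < 0 → χ x = 0) := by
  obtain ⟨φ, hφ, hφ0⟩ := exists_weighted_sum (fun n => f n ⊔ 0) u (fun n x => by simp)
    (fun n x => by simp [hf n x, hu0 x])
  obtain ⟨ψ, hψ, hψ0⟩ := exists_weighted_sum (fun n => (-g n) ⊔ 0) u (fun n x => by simp)
    (fun n x => by simp [neg_le.1 (hg n x), hu0 x])
  let toC : C(ℝ, ℂ) := ⟨fun r => (r : ℂ), Complex.continuous_ofReal⟩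
  have hφp : φ p = 0 := (hφ p).2 fun n => by
    have := hf n p
    rw [hup] at this
    simpa using this
  have hψp : ψ p = 0 := (hψ p).2 fun n => by
    have := hg n p
    rw [hup] at this
    simp at this
    simpa using this
  have hprod : toC.comp φ * toC.comp ψ = 0 := by
    ext x
    simp only [ContinuousMap.mul_apply, ContinuousMap.comp_apply, ContinuousMap.coe_mk, toC,
      ContinuousMap.zero_apply]
    by_cases hx : φ x = 0
    · simp [hx]
    · have : ψ x = 0 := by
        rw [hφ x] at hx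
        push Not at hx
        obtain ⟨n, hn⟩ := hx
        rw [hψ x]
        intro m
        have hpos : 0 < f n x := by
          by_contra hneg
          exact hn (by simpa using le_of_not_gt hneg)
        have := (hfg n m x)
        simp only [ContinuousMap.sup_apply, ContinuousMap.neg_apply, ContinuousMap.zero_apply,
          sup_eq_right]
        linarith
      simp [this]
  obtain ⟨h, hhp, h1, h2⟩ := hsep (toC.comp φ) (toC.comp ψ) (toC.comp u) (by simp [toC, hφp])
    (by simp [toC, hψp]) (by simp [toC, hup]) hprod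
  let hr : C(Ω, ℝ) := ⟨fun x => (h x).re, by fun_prop⟩
  refine ⟨(hr ⊔ 0) ⊓ u, fun x => ?_, fun x => ?_, fun n x hn => ?_, fun n x hn => ?_⟩
  · simp [hu0 x]
  · simp
  · have hne : φ x ≠ 0 := by
      intro hx
      have := (hφ x).1 hx n
      simp at this
      linarith
    have := congrArg (fun k : C(Ω, ℂ) => k x) h1
    simp only [ContinuousMap.mul_apply, ContinuousMap.comp_apply, ContinuousMap.coe_mk, toC] at this
    have h3 : h x = (u x : ℂ) := mul_right_cancel₀ (by exact_mod_cast hne) this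
    have h4 : hr x = u x := by simp [hr, h3]
    simp [h4, hu0 x]
  · have hne : ψ x ≠ 0 := by
      intro hx
      have := (hψ x).1 hx n
      simp at this
      linarith
    have := congrArg (fun k : C(Ω, ℂ) => k x) h2
    simp only [ContinuousMap.mul_apply, ContinuousMap.comp_apply, ContinuousMap.coe_mk, toC,
      ContinuousMap.zero_apply] at this
    have h3 : h x = 0 := by
      rcases mul_eq_zero.1 this with h' | h'
      · exact h'
      · exact absurd h' (by exact_mod_cast hne)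
    have h4 : hr x = 0 := by simp [hr, h3]
    simp [h4, hu0 x]

/-- One halving step of the interpolation. -/
lemma interp_step {p : Ω} (hsep : SepAt Ω p) (u : C(Ω, ℝ)) (hu0 : ∀ x, 0 ≤ u x) (hup : u p = 0)
    (f g : ℕ → C(Ω, ℝ)) (hf : ∀ n x, f n x ≤ u x) (hg : ∀ n x, -u x ≤ g n x)
    (hfg : ∀ n m x, f n x ≤ g m x) :
    ∃ h : C(Ω, ℝ), (∀ x, |h x| ≤ u x / 2) ∧ (∀ n x, f n x - h x ≤ u x / 2) ∧
      (∀ n x, -(u x / 2) ≤ g n x - h x) := by
  obtain ⟨χ, h1, h2, h3, h4⟩ := exists_sep hsep u hu0 hup f g hf hg hfg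
  refine ⟨χ - (1 / 2 : ℝ) • u, fun x => ?_, fun n x => ?_, fun n x => ?_⟩
  · simp only [ContinuousMap.sub_apply, ContinuousMap.smul_apply, smul_eq_mul]
    rw [abs_le]
    constructor
    · linarith [h1 x]
    · linarith [h2 x]
  · simp only [ContinuousMap.sub_apply, ContinuousMap.smul_apply, smul_eq_mul]
    rcases lt_or_ge 0 (f n x) with h | h
    · rw [h3 n x h]; linarith [hf n x]
    · linarith [h1 x]
  · simp only [ContinuousMap.sub_apply, ContinuousMap.smul_apply, smul_eq_mul]
    rcases lt_or_ge (g n x) 0 with h | h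
    · rw [h4 n x h]; linarith [hg n x]
    · linarith [h2 x]

/-- Countable interpolation for functions vanishing at `p`. -/
theorem interpolation {p : Ω} (hsep : SepAt Ω p) (u : C(Ω, ℝ)) (hu0 : ∀ x, 0 ≤ u x)
    (hup : u p = 0) (f g : ℕ → C(Ω, ℝ)) (hf : ∀ n x, f n x ≤ u x) (hg : ∀ n x, -u x ≤ g n x)
    (hfg : ∀ n m x, f n x ≤ g m x) :
    ∃ h : C(Ω, ℝ), (∀ n x, f n x ≤ h x) ∧ (∀ n x, h x ≤ g n x) := by
  classical
  let R : ℕ → C(Ω, ℝ) → Prop := fun k H =>
    (∀ n x, f n x - H x ≤ (1 / 2) ^ k * u x) ∧ (∀ n x, -((1 / 2) ^ k * u x) ≤ g n x - H x)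
  have step : ∀ k H, R k H → ∃ H', R (k + 1) H' ∧ ∀ x, |H' x - H x| ≤ (1 / 2) ^ (k + 1) * u x := by
    rintro k H ⟨hH1, hH2⟩
    obtain ⟨h, h1, h2, h3⟩ := interp_step hsep (((1 / 2 : ℝ) ^ k) • u)
      (fun x => by
        have h2 : (0 : ℝ) ≤ (1 / 2) ^ k := by positivity
        simpa using mul_nonneg h2 (hu0 x)) (by simp [hup])
      (fun n => f n - H) (fun n => g n - H)
      (fun n x => by simpa using hH1 n x) (fun n x => by simpa using hH2 n x)
      (fun n m x => by simpa using hfg n m x)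
    refine ⟨H + h, ⟨fun n x => ?_, fun n x => ?_⟩, fun x => ?_⟩
    · have := h2 n x
      simp only [ContinuousMap.sub_apply, ContinuousMap.smul_apply, smul_eq_mul,
        ContinuousMap.add_apply] at this ⊢
      rw [pow_succ]; linarith
    · have := h3 n x
      simp only [ContinuousMap.sub_apply, ContinuousMap.smul_apply, smul_eq_mul,
        ContinuousMap.add_apply] at this ⊢
      rw [pow_succ]; linarith
    · have := h1 x
      simp only [ContinuousMap.smul_apply, smul_eq_mul, ContinuousMap.add_apply] at this ⊢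
      rw [pow_succ, add_sub_cancel_left]; linarith
  have h00 : R 0 0 := ⟨fun n x => by simpa using hf n x, fun n x => by simpa using hg n x⟩
  choose! F hF1 hF2 using step
  let H : ℕ → C(Ω, ℝ) := fun k => Nat.rec 0 (fun k H => F k H) k
  have hH0 : H 0 = 0 := rfl
  have hHs : ∀ k, H (k + 1) = F k (H k) := fun k => rfl
  have hR : ∀ k, R k (H k) := by
    intro k
    induction k with
    | zero => exact h00
    | succ k ih => rw [hHs]; exact hF1 k _ ih
  have hd : ∀ k, dist (H k) (H (k + 1)) ≤ ‖u‖ / 2 / 2 ^ k := by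
    intro k
    rw [dist_comm, dist_eq_norm, ContinuousMap.norm_le _ (by positivity)]
    intro x
    rw [Real.norm_eq_abs, hHs]
    refine (hF2 k _ (hR k) x).trans ?_
    have : u x ≤ ‖u‖ := (le_abs_self _).trans (u.norm_coe_le_norm x)
    calc (1 / 2 : ℝ) ^ (k + 1) * u x ≤ (1 / 2) ^ (k + 1) * ‖u‖ := by gcongr
      _ = ‖u‖ / 2 / 2 ^ k := by rw [pow_succ, one_div, inv_pow]; ring
  have hc := cauchySeq_of_le_geometric_two hd
  obtain ⟨h, hlim⟩ := cauchySeq_tendsto_of_complete hc
  have hpt : ∀ x, Filter.Tendsto (fun k => H k x) Filter.atTop (nhds (h x)) := fun x =>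
    ((continuous_eval_const x).tendsto h).comp hlim
  refine ⟨h, fun n x => ?_, fun n x => ?_⟩
  · have l1 : Filter.Tendsto (fun k => f n x - H k x - (1 / 2 : ℝ) ^ k * u x) Filter.atTop
        (nhds (f n x - h x - 0 * u x)) :=
      ((tendsto_const_nhds.sub (hpt x)).sub
        ((tendsto_pow_atTop_nhds_zero_of_lt_one (by norm_num) (by norm_num)).mul_const _))
    have := le_of_tendsto l1 (Filter.Eventually.of_forall fun k => by
      show f n x - H k x - (1 / 2 : ℝ) ^ k * u x ≤ 0
      linarith [(hR k).1 n x])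
    linarith
  · have l1 : Filter.Tendsto (fun k => g n x - H k x + (1 / 2 : ℝ) ^ k * u x) Filter.atTop
        (nhds (g n x - h x + 0 * u x)) :=
      ((tendsto_const_nhds.sub (hpt x)).add
        ((tendsto_pow_atTop_nhds_zero_of_lt_one (by norm_num) (by norm_num)).mul_const _))
    have := ge_of_tendsto l1 (Filter.Eventually.of_forall fun k => by
      show 0 ≤ g n x - H k x + (1 / 2 : ℝ) ^ k * u x
      linarith [(hR k).2 n x])
    linarith

end Pool.Agent.Helper917
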