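import Mathlib
import Pool.Agent.Helper917.Interp

set_option autoImplicit false

namespace Pool.Agent.Helper917

variable {Ω : Type*} [TopologicalSpace Ω] [CompactSpace Ω]

/-- Continuous solutions of countable systems of linear inequalities with constant coefficients
(elimination of one unknown at a time). -/
theorem fourier_motzkin {p : Ω} (hsep : SepAt Ω p) (u : C(Ω, ℝ)) (hu0 : ∀ x, 0 ≤ u x)
    (hup : u p = 0) : ∀ (m : ℕ) (κ : Type) [Countable κ] (q : κ → Fin m → ℝ) (b : κ → C(Ω, ℝ)),
    (∀ x, ∃ y : Fin m → ℝ, (∀ j, |y j| ≤ u x) ∧ ∀ k, b k x ≤ ∑ j, q k j * y j) →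
    ∃ h : Fin m → C(Ω, ℝ), (∀ j x, |h j x| ≤ u x) ∧ ∀ k x, b k x ≤ ∑ j, q k j * h j x := by
  classical
  intro m
  induction m with
  | zero =>
    intro κ _ q b H
    refine ⟨fun j => j.elim0, fun j => j.elim0, fun k x => ?_⟩
    obtain ⟨y, -, hy⟩ := H x
    simpa using hy k
  | succ m ih =>
    intro κ _ q b H
    let last := Fin.last m
    -- lower and upper affine forms
    let βL : Option κ → C(Ω, ℝ) := fun α => match α with
      | none => -u
      | some k => if 0 < q k last then (q k last)⁻¹ • b k else -u
    let rL : Option κ → Fin m → ℝ := fun α j => match α with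
      | none => 0
      | some k => if 0 < q k last then (q k last)⁻¹ * q k j.castSucc else 0
    let βU : Option κ → C(Ω, ℝ) := fun α => match α with
      | none => u
      | some k => if q k last < 0 then (q k last)⁻¹ • b k else u
    let rU : Option κ → Fin m → ℝ := fun α j => match α with
      | none => 0
      | some k => if q k last < 0 then (q k last)⁻¹ * q k j.castSucc else 0
    let q' : κ ⊕ (Option κ × Option κ) → Fin m → ℝ := fun s j => match s with
      | Sum.inl k => if q k last = 0 then q k j.castSucc else 0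
      | Sum.inr (α, γ) => rL α j - rU γ j
    let b' : κ ⊕ (Option κ × Option κ) → C(Ω, ℝ) := fun s => match s with
      | Sum.inl k => if q k last = 0 then b k else 0
      | Sum.inr (α, γ) => βL α - βU γ
    -- basic facts on the affine forms, for a vector `y` at a point `x`
    have factL : ∀ (x : Ω) (y : Fin m → ℝ) (t : ℝ), -u x ≤ t →
        (∀ k, b k x ≤ ∑ j : Fin m, q k j.castSucc * y j + q k last * t) →
        ∀ α, βL α x - ∑ j, rL α j * y j ≤ t := by
      intro x y t ht hk α
      match α with
      | none => simpa [βL, rL] using ht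
      | some k =>
        by_cases hq : 0 < q k last
        · simp only [βL, rL, hq, if_true, ContinuousMap.smul_apply, smul_eq_mul]
          have h1 := hk k
          have h2 : ∑ j : Fin m, (q k last)⁻¹ * q k j.castSucc * y j
              = (q k last)⁻¹ * ∑ j : Fin m, q k j.castSucc * y j := by
            rw [Finset.mul_sum]; simp only [mul_assoc]
          rw [h2, ← mul_sub, inv_mul_le_iff₀ hq]
          linarith
        · simpa [βL, rL, hq] using ht
    have factU : ∀ (x : Ω) (y : Fin m → ℝ) (t : ℝ), t ≤ u x →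
        (∀ k, b k x ≤ ∑ j : Fin m, q k j.castSucc * y j + q k last * t) →
        ∀ α, t ≤ βU α x - ∑ j, rU α j * y j := by
      intro x y t ht hk α
      match α with
      | none => simpa [βU, rU] using ht
      | some k =>
        by_cases hq : q k last < 0
        · simp only [βU, rU, hq, if_true, ContinuousMap.smul_apply, smul_eq_mul]
          have h1 := hk k
          have h2 : ∑ j : Fin m, (q k last)⁻¹ * q k j.castSucc * y j
              = (q k last)⁻¹ * ∑ j : Fin m, q k j.castSucc * y j := by
            rw [Finset.mul_sum]; simp only [mul_assoc]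
          rw [h2, ← mul_sub]
          have h3 : (q k last)⁻¹ * (q k last * t) ≤
              (q k last)⁻¹ * (b k x - ∑ j : Fin m, q k j.castSucc * y j) :=
            mul_le_mul_of_nonpos_left (by linarith) (inv_nonpos.2 hq.le)
          rwa [← mul_assoc, inv_mul_cancel₀ hq.ne, one_mul] at h3
        · simpa [βU, rU, hq] using ht
    obtain ⟨h', h'1, h'2⟩ := ih (κ ⊕ (Option κ × Option κ)) q' b' (by
      intro x
      obtain ⟨y, hy1, hy2⟩ := H x
      refine ⟨fun j => y j.castSucc, fun j => hy1 _, ?_⟩
      have hy3 : ∀ k, b k x ≤ ∑ j : Fin m, q k j.castSucc * y j.castSucc + q k last * y last := by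
        intro k
        have := hy2 k
        rwa [Fin.sum_univ_castSucc] at this
      rintro (k | ⟨α, γ⟩)
      · by_cases hq : q k last = 0
        · simpa [b', q', hq] using hy3 k
        · simp [b', q', hq]
      · have h1 := factL x (fun j => y j.castSucc) (y last) (abs_le.1 (hy1 last)).1 hy3 α
        have h2 := factU x (fun j => y j.castSucc) (y last) (abs_le.1 (hy1 last)).2 hy3 γ
        simp only [b', q', ContinuousMap.sub_apply, sub_mul, Finset.sum_sub_distrib]
        linarith)
    -- families to be interpolated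
    obtain ⟨Lf, hLf⟩ : ∃ Lf : Option κ → C(Ω, ℝ), ∀ α x, Lf α x
        = βL α x - ∑ j, rL α j * h' j x :=
      ⟨fun α => βL α - ∑ j, rL α j • h' j, fun α x => by simp [ContinuousMap.sum_apply]⟩
    obtain ⟨Uf, hUf⟩ : ∃ Uf : Option κ → C(Ω, ℝ), ∀ α x, Uf α x
        = βU α x - ∑ j, rU α j * h' j x :=
      ⟨fun α => βU α - ∑ j, rU α j • h' j, fun α x => by simp [ContinuousMap.sum_apply]⟩
    have hLU : ∀ α γ x, Lf α x ≤ Uf γ x := by
      intro α γ x
      have := h'2 (Sum.inr (α, γ)) x
      simp only [b', q', ContinuousMap.sub_apply, sub_mul, Finset.sum_sub_distrib] at this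
      rw [hLf, hUf]
      linarith
    obtain ⟨e, he⟩ := exists_surjective_nat (Option κ)
    have hL0 : ∀ x, Lf none x = - u x := fun x => (hLf none x).trans (by simp [βL, rL])
    have hU0 : ∀ x, Uf none x = u x := fun x => (hUf none x).trans (by simp [βU, rU])
    obtain ⟨t, ht1, ht2⟩ := interpolation hsep u hu0 hup (fun n => Lf (e n)) (fun n => Uf (e n))
      (fun n x => by rw [← hU0 x]; exact hLU _ _ _) (fun n x => by rw [← hL0 x]; exact hLU _ _ _)
      (fun n m x => hLU _ _ _)
    have ht1' : ∀ α x, Lf α x ≤ t x := by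
      intro α x; obtain ⟨n, rfl⟩ := he α; exact ht1 n x
    have ht2' : ∀ α x, t x ≤ Uf α x := by
      intro α x; obtain ⟨n, rfl⟩ := he α; exact ht2 n x
    refine ⟨Fin.snoc h' t, ?_, ?_⟩
    · intro j x
      refine Fin.lastCases ?_ (fun j => ?_) j
      · rw [Fin.snoc_last, abs_le]
        exact ⟨by rw [← hL0]; exact ht1' _ _, by rw [← hU0]; exact ht2' _ _⟩
      · rw [Fin.snoc_castSucc]; exact h'1 j x
    · intro k x
      rw [Fin.sum_univ_castSucc]
      simp only [Fin.snoc_castSucc, Fin.snoc_last]
      rcases lt_trichotomy (q k last) 0 with hq | hq | hq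
      · have := ht2' (some k) x
        rw [hUf] at this
        simp only [βU, rU, hq, if_true, ContinuousMap.smul_apply, smul_eq_mul] at this
        have h2 : ∑ j : Fin m, (q k last)⁻¹ * q k j.castSucc * h' j x
            = (q k last)⁻¹ * ∑ j : Fin m, q k j.castSucc * h' j x := by
          rw [Finset.mul_sum]; simp only [mul_assoc]
        rw [h2, ← mul_sub] at this
        have h3 := mul_le_mul_of_nonpos_left this hq.le
        rw [← mul_assoc, mul_inv_cancel₀ hq.ne, one_mul] at h3
        show b k x ≤ ∑ j : Fin m, q k j.castSucc * h' j x + q k last * t x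
        linarith
      · have := h'2 (Sum.inl k) x
        simp only [b', q', hq, if_true] at this
        show b k x ≤ ∑ j : Fin m, q k j.castSucc * h' j x + q k last * t x
        rw [hq, zero_mul, add_zero]
        exact this
      · have := ht1' (some k) x
        rw [hLf] at this
        simp only [βL, rL, hq, if_true, ContinuousMap.smul_apply, smul_eq_mul] at this
        have h2 : ∑ j : Fin m, (q k last)⁻¹ * q k j.castSucc * h' j x
            = (q k last)⁻¹ * ∑ j : Fin m, q k j.castSucc * h' j x := by
          rw [Finset.mul_sum]; simp only [mul_assoc]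
        rw [h2, ← mul_sub, inv_mul_le_iff₀ hq] at this
        show b k x ≤ ∑ j : Fin m, q k j.castSucc * h' j x + q k last * t x
        linarith

/-- Coordinate-free version with finitely many complex unknowns. -/
theorem fm_complex {p : Ω} (hsep : SepAt Ω p) (u : C(Ω, ℝ)) (hu0 : ∀ x, 0 ≤ u x)
    (hup : u p = 0) {ι : Type} [Fintype ι] [DecidableEq ι] {κ : Type} [Countable κ]
    (φ : κ → ((ι → ℂ) →ₗ[ℝ] ℝ)) (b : κ → C(Ω, ℝ))
    (H : ∀ x, ∃ y : ι → ℂ, (∀ i, ‖y i‖ ≤ u x) ∧ ∀ k, b k x ≤ φ k y) :
    ∃ h : ι → C(Ω, ℂ), (∀ i, h i p = 0) ∧ ∀ k x, b k x ≤ φ k (fun i => h i x) := by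
  classical
  let e : Fin (Fintype.card (ι × Fin 2)) ≃ ι × Fin 2 := (Fintype.equivFin _).symm
  let v : ι × Fin 2 → (ι → ℂ) := fun s => Pi.single s.1 (if s.2 = 0 then 1 else Complex.I)
  have key : ∀ (k : κ) (y : ι → ℂ), φ k y
      = ∑ j, φ k (v (e j)) * (if (e j).2 = 0 then (y (e j).1).re else (y (e j).1).im) := by
    intro k y
    rw [Equiv.sum_comp e (fun s : ι × Fin 2 =>
      φ k (v s) * (if s.2 = 0 then (y s.1).re else (y s.1).im)), Fintype.sum_prod_type]
    simp only [Fin.sum_univ_two, v, if_true, Fin.one_eq_zero_iff, OfNat.ofNat_ne_one, if_false]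
    have hy : y = ∑ i, ((y i).re • (Pi.single i (1 : ℂ) : ι → ℂ)
        + (y i).im • (Pi.single i Complex.I : ι → ℂ)) := by
      ext i
      rw [Finset.sum_apply, Finset.sum_eq_single i]
      · simp only [Pi.add_apply, Pi.smul_apply, Pi.single_eq_same, Complex.real_smul, mul_one]
        exact (Complex.re_add_im (y i)).symm
      · intro j _ hj
        simp [Pi.single_eq_of_ne hj.symm]
      · simp
    conv_lhs => rw [hy]
    rw [map_sum]
    refine Finset.sum_congr rfl fun i _ => ?_
    rw [map_add, map_smul, map_smul, smul_eq_mul, smul_eq_mul, mul_comm, mul_comm (y i).im]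
  obtain ⟨h, hh1, hh2⟩ := fourier_motzkin hsep u hu0 hup _ κ
    (fun k j => φ k (v (e j))) b (by
      intro x
      obtain ⟨y, hy1, hy2⟩ := H x
      refine ⟨fun j => if (e j).2 = 0 then (y (e j).1).re else (y (e j).1).im, fun j => ?_,
        fun k => ?_⟩
      · refine le_trans ?_ (hy1 (e j).1)
        beta_reduce
        by_cases hj : (e j).2 = 0
        · rw [if_pos hj]; exact Complex.abs_re_le_norm _
        · rw [if_neg hj]; exact Complex.abs_im_le_norm _
      · rw [← key]; exact hy2 k)
  refine ⟨fun i => ⟨fun x => ((h (e.symm (i, 0)) x : ℝ) : ℂ) + Complex.I *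
    ((h (e.symm (i, 1)) x : ℝ) : ℂ), by fun_prop⟩, fun i => ?_, fun k x => ?_⟩
  · have h1 := hh1 (e.symm (i, 0)) p
    have h2 := hh1 (e.symm (i, 1)) p
    rw [hup, abs_nonpos_iff] at h1 h2
    simp [h1, h2]
  · rw [key]
    convert hh2 k x using 4 with j hj
    simp only [ContinuousMap.coe_mk]
    rcases hs : e j with ⟨i, s⟩
    have hj' : j = e.symm (i, s) := by rw [← hs, Equiv.symm_apply_apply]
    fin_cases s
    · simp [hj']
    · simp [hj']

end Pool.Agent.Helper917
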