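import Mathlib

set_option autoImplicit false

namespace Pool.Agent.Helper917

open Complex ComplexConjugate

lemma one_atom (x y k z : ℂ) (s t η : ℝ) (hx : normSq x + s ^ 2 = 1) (hy : normSq y + t ^ 2 = 1)
    (hk : normSq k = 1) (hz : η ^ 2 + normSq z = 1) (h1 : (conj x * z).re = η * s)
    (h2 : (conj y * k * z).re = η * t) :
    ∃ α β : ℂ, normSq α = 1 ∧ normSq β = 1 ∧
      (((1 + η) / 2 : ℝ) : ℂ) * α = (x * (1 + η) + z * s) / 2 ∧
      (((1 + η) / 2 : ℝ) : ℂ) * β = (y * (1 + η) + z * k * t) / 2 ∧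
      (((1 + η) / 2 : ℝ) : ℂ) * (α * conj β)
        = (x * conj y * (1 + η) + (x * conj z * conj k * t + z * s * conj y)
            + (1 - η) * s * t * conj k) / 2 := by
  by_cases hη : 1 + η = 0
  · have hη' : η = -1 := by linarith
    subst hη'
    have hz0 : z = 0 := by
      have : normSq z = 0 := by linarith
      exact normSq_eq_zero.1 this
    subst hz0
    have hs : s = 0 := by simpa using h1
    have ht : t = 0 := by simpa using h2
    subst hs; subst ht
    exact ⟨1, 1, by simp, by simp, by simp, by simp, by simp⟩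
  · have hη' : (((1 + η) / 2 : ℝ) : ℂ) ≠ 0 := by
      exact_mod_cast div_ne_zero hη two_ne_zero
    have n1 : normSq ((x * (1 + η) + z * s) / 2) = ((1 + η) / 2) ^ 2 := by
      have e : normSq (x * (1 + η) + z * s) = (1 + η) ^ 2 := by
        have e1 : normSq (x * (1 + η) + z * s)
            = (1 + η) ^ 2 * normSq x + s ^ 2 * normSq z
              + 2 * (1 + η) * s * (conj x * z).re := by
          simp [normSq_apply]; ring
        rw [e1, h1]
        have hx' : normSq x = 1 - s ^ 2 := by linarith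
        have hz' : normSq z = 1 - η ^ 2 := by linarith
        rw [hx', hz']; ring
      rw [map_div₀, e]
      simp; ring
    have n2 : normSq ((y * (1 + η) + z * k * t) / 2) = ((1 + η) / 2) ^ 2 := by
      have e : normSq (y * (1 + η) + z * k * t) = (1 + η) ^ 2 := by
        have e1 : normSq (y * (1 + η) + z * k * t)
            = (1 + η) ^ 2 * normSq y + t ^ 2 * (normSq z * normSq k)
              + 2 * (1 + η) * t * (conj y * k * z).re := by
          simp [normSq_apply]; ring
        rw [e1, h2, hk]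
        have hy' : normSq y = 1 - t ^ 2 := by linarith
        have hz' : normSq z = 1 - η ^ 2 := by linarith
        rw [hy', hz']; ring
      rw [map_div₀, e]
      simp; ring
    refine ⟨((x * (1 + η) + z * s) / 2) / (((1 + η) / 2 : ℝ) : ℂ),
      ((y * (1 + η) + z * k * t) / 2) / (((1 + η) / 2 : ℝ) : ℂ), ?_, ?_, ?_, ?_, ?_⟩
    · rw [map_div₀, n1, normSq_ofReal, ← sq]
      exact div_self (pow_ne_zero _ (div_ne_zero hη two_ne_zero))
    · rw [map_div₀, n2, normSq_ofReal, ← sq]
      exact div_self (pow_ne_zero _ (div_ne_zero hη two_ne_zero))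
    · rw [mul_div_cancel₀ _ hη']
    · rw [mul_div_cancel₀ _ hη']
    · rw [map_div₀, conj_ofReal]
      have e : ((x * (1 + η) + z * s) / 2) * conj ((y * (1 + η) + z * k * t) / 2)
          = (((1 + η) / 2 : ℝ) : ℂ) *
            ((x * conj y * (1 + η) + (x * conj z * conj k * t + z * s * conj y)
            + (1 - η) * s * t * conj k) / 2) := by
        have hz' : z * conj z = 1 - (η : ℂ) ^ 2 := by
          rw [mul_conj, show normSq z = 1 - η ^ 2 by linarith]
          push_cast; ring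
        simp only [map_div₀, map_add, map_mul, conj_ofReal, map_one, map_ofNat]
        push_cast
        linear_combination (s * t * conj k / 4) * hz'
      have e3 : ∀ P N1 N2 : ℂ, P ≠ 0 → P * (N1 / P * (N2 / P)) = (N1 * N2) / P := by
        intro P N1 N2 hP
        field_simp
      rw [e3 _ _ _ hη', e, mul_div_cancel_left₀ _ hη']

lemma two_atoms (x y k : ℂ) (s t : ℝ) (hx : normSq x + s ^ 2 = 1) (hy : normSq y + t ^ 2 = 1)
    (hk : normSq k = 1) :
    ∃ (p : Fin 2 → ℝ) (α β : Fin 2 → ℂ), (∀ i, 0 ≤ p i) ∧ (∀ i, normSq (α i) = 1) ∧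
      (∀ i, normSq (β i) = 1) ∧ ∑ i, (p i : ℂ) = 1 ∧ ∑ i, (p i : ℂ) * α i = x ∧
      ∑ i, (p i : ℂ) * β i = y ∧
      ∑ i, (p i : ℂ) * (α i * conj (β i)) = x * conj y + s * t * conj k := by
  obtain ⟨h, z, hz, h1, h2⟩ : ∃ (h : ℝ) (z : ℂ), h ^ 2 + normSq z = 1 ∧
      (conj x * z).re = h * s ∧ (conj y * k * z).re = h * t := by
    obtain ⟨v, hv0, hv⟩ : ∃ v : Fin 3 → ℝ, v ≠ 0 ∧
        (Matrix.of ![![-s, x.re, x.im], ![-t, (k * conj y).re, -(k * conj y).im]] :
          Matrix (Fin 2) (Fin 3) ℝ).mulVec v = 0 := by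
      have := LinearMap.ker_ne_bot_of_finrank_lt
        (f := (Matrix.of ![![-s, x.re, x.im], ![-t, (k * conj y).re, -(k * conj y).im]] :
          Matrix (Fin 2) (Fin 3) ℝ).mulVecLin) (by simp)
      obtain ⟨v, hv, hv0⟩ := Submodule.exists_mem_ne_zero_of_ne_bot this
      exact ⟨v, hv0, by simpa using hv⟩
    have h1 := congrFun hv 0
    have h2 := congrFun hv 1
    simp [Matrix.mulVec, dotProduct, Fin.sum_univ_three] at h1 h2
    set N : ℝ := v 0 ^ 2 + v 1 ^ 2 + v 2 ^ 2 with hN
    have hNpos : 0 < N := by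
      rcases (by positivity : (0 : ℝ) ≤ N).lt_or_eq with h | h
      · exact h
      · exfalso
        apply hv0
        have a0 : v 0 = 0 := by nlinarith [sq_nonneg (v 0), sq_nonneg (v 1), sq_nonneg (v 2)]
        have a1 : v 1 = 0 := by nlinarith [sq_nonneg (v 0), sq_nonneg (v 1), sq_nonneg (v 2)]
        have a2 : v 2 = 0 := by nlinarith [sq_nonneg (v 0), sq_nonneg (v 1), sq_nonneg (v 2)]
        ext i
        fin_cases i <;> simp [a0, a1, a2]
    have hsq : (Real.sqrt N) ^ 2 = N := Real.sq_sqrt hNpos.le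
    have hs0 : Real.sqrt N ≠ 0 := (Real.sqrt_pos.2 hNpos).ne'
    refine ⟨v 0 / Real.sqrt N, ⟨v 1 / Real.sqrt N, v 2 / Real.sqrt N⟩, ?_, ?_, ?_⟩
    · rw [normSq_mk]
      field_simp
      rw [hsq]
      ring_nf
      rw [hN]
    · simp
      field_simp
      linarith
    · simp
      field_simp
      linarith
  obtain ⟨α₀, β₀, a1, a2, a3, a4, a5⟩ := one_atom x y k z s t h hx hy hk hz h1 h2
  obtain ⟨α₁, β₁, b1, b2, b3, b4, b5⟩ := one_atom x y k (-z) s t (-h) hx hy hk (by simpa using hz)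
    (by simp at h1 ⊢; linarith) (by simp at h2 ⊢; linarith)
  have hh : h ^ 2 ≤ 1 := by nlinarith [normSq_nonneg z]
  have hh1 : -1 ≤ h := by nlinarith
  have hh2 : h ≤ 1 := by nlinarith
  refine ⟨![(1 + h) / 2, (1 + -h) / 2], ![α₀, α₁], ![β₀, β₁], ?_, ?_, ?_, ?_, ?_, ?_, ?_⟩
  · intro i; fin_cases i
    · simp; linarith
    · simp; linarith
  · intro i; fin_cases i
    · simpa using a1
    · simpa using b1
  · intro i; fin_cases i
    · simpa using a2
    · simpa using b2
  · simp [Fin.sum_univ_two]; ring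
  · simp only [Fin.sum_univ_two, Matrix.cons_val_zero, Matrix.cons_val_one]
    rw [a3, b3]; push_cast; ring
  · simp only [Fin.sum_univ_two, Matrix.cons_val_zero, Matrix.cons_val_one]
    rw [a4, b4]; push_cast; ring
  · simp only [Fin.sum_univ_two, Matrix.cons_val_zero, Matrix.cons_val_one]
    rw [a5, b5]; simp only [map_neg]; push_cast; ring

lemma avg_circle (κ : ℂ) (h : normSq κ ≤ 1) :
    ∃ k : Fin 2 → ℂ, (∀ i, normSq (k i) = 1) ∧ κ = (k 0 + k 1) / 2 := by
  by_cases h0 : κ = 0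
  · refine ⟨![1, -1], ?_, ?_⟩
    · intro i; fin_cases i <;> simp
    · simp [h0]
  · set r : ℝ := ‖κ‖ with hr
    have hr0 : r ≠ 0 := norm_ne_zero_iff.2 h0
    have hr1 : r ^ 2 = normSq κ := by rw [hr, Complex.sq_norm]
    set q : ℝ := Real.sqrt (1 - r ^ 2) with hq
    have hq2 : q ^ 2 = 1 - r ^ 2 := Real.sq_sqrt (by rw [hr1]; linarith)
    set u : ℂ := κ / r with hu
    have hun : normSq u = 1 := by
      rw [hu, map_div₀, normSq_ofReal, ← hr1, ← sq]
      exact div_self (pow_ne_zero _ hr0)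
    have hκ : κ = u * r := by
      rw [hu, div_mul_cancel₀]
      exact_mod_cast hr0
    refine ⟨![u * (r + I * q), u * (r - I * q)], ?_, ?_⟩
    · intro i
      fin_cases i
      · simp only [Fin.zero_eta, Matrix.cons_val_zero]
        rw [map_mul, hun, one_mul]
        simp [normSq_apply]
        nlinarith
      · change normSq (u * (r - I * q)) = 1
        rw [map_mul, hun, one_mul]
        simp [normSq_apply]
        nlinarith
    · simp only [Matrix.cons_val_zero, Matrix.cons_val_one]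
      rw [hκ]; ring

/-- A `3 × 3` complex correlation matrix is a mixture of unimodular rank-one matrices. -/
lemma mixture (x y w : ℂ) (hx : normSq x ≤ 1) (hy : normSq y ≤ 1)
    (hw : normSq (w - x * conj y) ≤ (1 - normSq x) * (1 - normSq y)) :
    ∃ (p : Fin 2 × Fin 2 → ℝ) (α β : Fin 2 × Fin 2 → ℂ), (∀ i, 0 ≤ p i) ∧
      (∀ i, normSq (α i) = 1) ∧ (∀ i, normSq (β i) = 1) ∧
      ∑ i, (p i : ℂ) = 1 ∧ ∑ i, (p i : ℂ) * α i = x ∧
      ∑ i, (p i : ℂ) * β i = y ∧ ∑ i, (p i : ℂ) * (α i * conj (β i)) = w := by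
  set s : ℝ := Real.sqrt (1 - normSq x) with hs
  set t : ℝ := Real.sqrt (1 - normSq y) with ht
  have hs2 : s ^ 2 = 1 - normSq x := Real.sq_sqrt (by linarith)
  have ht2 : t ^ 2 = 1 - normSq y := Real.sq_sqrt (by linarith)
  obtain ⟨κ, hκ, hwκ⟩ : ∃ κ : ℂ, normSq κ ≤ 1 ∧ w = x * conj y + s * t * κ := by
    by_cases hst : s * t = 0
    · refine ⟨0, by simp, ?_⟩
      have : normSq (w - x * conj y) = 0 := by
        apply le_antisymm _ (normSq_nonneg _)
        calc normSq (w - x * conj y) ≤ (1 - normSq x) * (1 - normSq y) := hw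
          _ = (s * t) ^ 2 := by rw [mul_pow, hs2, ht2]
          _ = 0 := by rw [hst]; ring
      have := normSq_eq_zero.1 this
      rw [sub_eq_zero.1 this]; simp
    · have hst' : (s : ℂ) * t ≠ 0 := by exact_mod_cast hst
      refine ⟨(w - x * conj y) / (s * t), ?_, ?_⟩
      · rw [map_div₀, div_le_one (normSq_pos.2 hst')]
        calc normSq (w - x * conj y) ≤ (1 - normSq x) * (1 - normSq y) := hw
          _ = normSq ((s : ℂ) * t) := by
            rw [map_mul, normSq_ofReal, normSq_ofReal, ← sq, ← sq, hs2, ht2]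
      · rw [mul_div_cancel₀ _ hst']; ring
  obtain ⟨k, hk, hκk⟩ := avg_circle κ hκ
  have key := fun j => two_atoms x y (conj (k j)) s t (by linarith) (by linarith)
    (by rw [normSq_conj]; exact hk j)
  choose p α β h1 h2 h3 h4 h5 h6 h7 using key
  refine ⟨fun i => p i.1 i.2 / 2, fun i => α i.1 i.2, fun i => β i.1 i.2,
    fun i => div_nonneg (h1 _ _) (by norm_num), fun i => h2 _ _, fun i => h3 _ _, ?_, ?_, ?_, ?_⟩
  · rw [Fintype.sum_prod_type]
    simp only [Fin.sum_univ_two] at h4 ⊢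
    have := h4 0
    have := h4 1
    push_cast
    linear_combination (1 / 2 : ℂ) * (h4 0) + (1 / 2 : ℂ) * (h4 1)
  · rw [Fintype.sum_prod_type]
    simp only [Fin.sum_univ_two] at h5 ⊢
    push_cast
    linear_combination (1 / 2 : ℂ) * (h5 0) + (1 / 2 : ℂ) * (h5 1)
  · rw [Fintype.sum_prod_type]
    simp only [Fin.sum_univ_two] at h6 ⊢
    push_cast
    linear_combination (1 / 2 : ℂ) * (h6 0) + (1 / 2 : ℂ) * (h6 1)
  · rw [Fintype.sum_prod_type]
    simp only [Fin.sum_univ_two, conj_conj] at h7 ⊢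
    push_cast
    rw [hwκ, hκk]
    linear_combination (1 / 2 : ℂ) * (h7 0) + (1 / 2 : ℂ) * (h7 1)

end Pool.Agent.Helper917
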