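import Mathlib
import Pool.Agent.Helper917.ToepDefs
import Pool.Agent.Helper917.Mixture

set_option autoImplicit false

open scoped Matrix ComplexConjugate
open Complex

namespace Pool.Agent.Helper917

section
open scoped Matrix.Norms.L2Operator MatrixOrder ComplexOrder

lemma isPos_complex_iff {ι : Type*} [Fintype ι] (M : Matrix ι ι ℂ) :
    IsPos M ↔ M.PosSemidef := by
  classical
  constructor
  · rintro ⟨B, rfl⟩
    exact Matrix.posSemidef_conjTranspose_mul_self B
  · intro h
    obtain ⟨B, hB⟩ := (CStarAlgebra.nonneg_iff_eq_star_mul_self (a := M)).1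
      (Matrix.nonneg_iff_posSemidef.2 h)
    exact ⟨B, hB⟩

end

section
open scoped ComplexOrder

variable {G : Type*} [AddCommGroup G]

/-- `χ` behaves like a unitary character -/
def IsChar (χ : G → ℂ) : Prop := ∀ i j, χ (i - j) = χ i * conj (χ j)

lemma IsChar.psd {χ : G → ℂ} (h : IsChar χ) (K : Finset G) : (toep χ K).PosSemidef := by
  have : toep χ K = Matrix.vecMulVec (fun i : K => χ i) (star (fun i : K => χ i)) := by
    ext i j
    simpa [toep, Matrix.vecMulVec_apply] using h i j
  rw [this]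
  exact Matrix.posSemidef_vecMulVec_self_star _

lemma psd_entry {ι : Type*} [Fintype ι] {M : Matrix ι ι ℂ} (h : M.PosSemidef) (i j : ι) :
    M j i = conj (M i j) := (h.1.apply j i).symm

lemma nonneg_eq_ofReal {z : ℂ} (h : 0 ≤ z) : z = (z.re : ℂ) ∧ 0 ≤ z.re := by
  rw [Complex.le_def] at h
  refine ⟨?_, by simpa using h.1⟩
  apply Complex.ext
  · simp
  · simpa using h.2.symm

lemma two_minor (c : ℝ) (x : ℂ) (h : (!![(c : ℂ), conj x; x, (c : ℂ)]).PosSemidef) :
    normSq x ≤ c ^ 2 := by
  have h := h.det_nonneg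
  rw [Matrix.det_fin_two_of, mul_comm (conj x), mul_conj] at h
  have := (Complex.le_def.1 h).1
  simp at this
  nlinarith

lemma three_minors (c : ℝ) (x y w : ℂ)
    (h : (!![(c : ℂ), conj x, conj y; x, (c : ℂ), w; y, conj w, (c : ℂ)]).PosSemidef) :
    normSq x ≤ c ^ 2 ∧ normSq y ≤ c ^ 2 ∧ normSq w ≤ c ^ 2 ∧
      normSq (c * w - x * conj y) ≤ (c ^ 2 - normSq x) * (c ^ 2 - normSq y) := by
  have hx : normSq x ≤ c ^ 2 := by
    apply two_minor
    have := h.submatrix ![0, 1]
    convert this using 1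
    ext i j
    fin_cases i <;> fin_cases j <;> rfl
  have hy : normSq y ≤ c ^ 2 := by
    apply two_minor
    have := h.submatrix ![0, 2]
    convert this using 1
    ext i j
    fin_cases i <;> fin_cases j <;> rfl
  have hw : normSq w ≤ c ^ 2 := by
    apply two_minor
    have := h.submatrix ![2, 1]
    convert this using 1
    ext i j
    fin_cases i <;> fin_cases j <;> rfl
  refine ⟨hx, hy, hw, ?_⟩
  have hc : 0 ≤ c := by
    have := h.diag_nonneg (i := 0)
    simpa using this
  rcases hc.eq_or_lt with h0 | hpos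
  · subst h0
    have hx0 : normSq x = 0 := le_antisymm (by simpa using hx) (normSq_nonneg _)
    rw [normSq_eq_zero.1 hx0]
    simp
  · have hd := h.det_nonneg
    rw [Matrix.det_fin_three] at hd
    have h' := (Complex.le_def.1 hd).1
    simp at h'
    have : c * normSq (c * w - x * conj y)
        ≤ c * ((c ^ 2 - normSq x) * (c ^ 2 - normSq y)) := by
      simp [normSq_apply]
      nlinarith [mul_pos hpos hpos, h']
    exact le_of_mul_le_mul_left this hpos

variable [DecidableEq G]

theorem hasExt_complex_three (e₁ e₂ : G)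
    (hchar : ∀ α β : ℂ, normSq α = 1 → normSq β = 1 →
      ∃ χ : G → ℂ, IsChar χ ∧ χ 0 = 1 ∧ χ e₁ = α ∧ χ e₂ = β) :
    HasExt ℂ ({0, e₁, e₂} : Finset G) := by
  intro a ha K hK
  rw [isPos_complex_iff] at ha
  set S : Finset G := {0, e₁, e₂} with hS
  let f : Fin 3 → S := ![⟨0, by simp [hS]⟩, ⟨e₁, by simp [hS]⟩, ⟨e₂, by simp [hS]⟩]
  have hN := ha.submatrix f
  have n00 : a 0 = conj (a 0) := by simpa [toep, f] using psd_entry hN 0 0
  have n10 : a (-e₁) = conj (a e₁) := by simpa [toep, f] using psd_entry hN 1 0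
  have n20 : a (-e₂) = conj (a e₂) := by simpa [toep, f] using psd_entry hN 2 0
  have n12 : a (e₂ - e₁) = conj (a (e₁ - e₂)) := by simpa [toep, f] using psd_entry hN 1 2
  obtain ⟨hc1, hc0⟩ := nonneg_eq_ofReal (show 0 ≤ a 0 by
    simpa [toep, f] using hN.diag_nonneg (i := 0))
  set c : ℝ := (a 0).re with hc
  have hmat : (toep a S).submatrix f f
      = !![(c : ℂ), conj (a e₁), conj (a e₂); a e₁, (c : ℂ), a (e₁ - e₂);
          a e₂, conj (a (e₁ - e₂)), (c : ℂ)] := by
    ext i j
    fin_cases i <;> fin_cases j <;> simp [toep, f, n10, n20, n12, ← hc1]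
  rw [hmat] at hN
  obtain ⟨m1, m2, m3, m4⟩ := three_minors c _ _ _ hN
  -- it suffices to match the four basic values
  suffices H : ∃ b : G → ℂ, b 0 = c ∧ b e₁ = a e₁ ∧ b e₂ = a e₂ ∧ b (e₁ - e₂) = a (e₁ - e₂) ∧
      (∀ g, b (-g) = conj (b g)) ∧ (toep b K).PosSemidef by
    obtain ⟨b, b0, b1, b2, b12, bneg, bK⟩ := H
    refine ⟨b, ?_, (isPos_complex_iff _).2 bK⟩
    have hneg1 : b (-e₁) = a (-e₁) := by rw [bneg, b1, n10]
    have hneg2 : b (-e₂) = a (-e₂) := by rw [bneg, b2, n20]
    have hneg12 : b (e₂ - e₁) = a (e₂ - e₁) := by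
      rw [← neg_sub, bneg, b12, n12.symm, neg_sub]
    have h00 : b 0 = a 0 := by rw [b0, hc1]
    intro i hi j hj
    simp only [hS, Finset.mem_insert, Finset.mem_singleton] at hi hj
    rcases hi with rfl | rfl | rfl <;> rcases hj with rfl | rfl | rfl <;>
      simp [h00, hneg1, hneg2, hneg12, b1, b2, b12]
  rcases hc0.eq_or_lt with h0 | hpos
  · refine ⟨fun _ => 0, ?_, ?_, ?_, ?_, ?_, ?_⟩
    · simp [← h0]
    · rw [← h0] at m1
      exact (normSq_eq_zero.1 (le_antisymm (by simpa using m1) (normSq_nonneg _))).symm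
    · rw [← h0] at m2
      exact (normSq_eq_zero.1 (le_antisymm (by simpa using m2) (normSq_nonneg _))).symm
    · rw [← h0] at m3
      exact (normSq_eq_zero.1 (le_antisymm (by simpa using m3) (normSq_nonneg _))).symm
    · simp
    · have : toep (fun _ : G => (0 : ℂ)) K = 0 := by ext i j; simp [toep]
      rw [this]
      exact Matrix.PosSemidef.zero
  · have hc' : (c : ℂ) ≠ 0 := by exact_mod_cast hpos.ne'
    obtain ⟨p, α, β, hp, hα, hβ, hp1, hpα, hpβ, hpw⟩ := mixture (a e₁ / c) (a e₂ / c)
      (a (e₁ - e₂) / c)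
      (by rw [map_div₀, normSq_ofReal, ← sq, div_le_one (by positivity)]; exact m1)
      (by rw [map_div₀, normSq_ofReal, ← sq, div_le_one (by positivity)]; exact m2)
      (by
        have e1 : a (e₁ - e₂) / c - a e₁ / c * conj (a e₂ / c)
            = (c * a (e₁ - e₂) - a e₁ * conj (a e₂)) / ((c ^ 2 : ℝ) : ℂ) := by
          rw [map_div₀, conj_ofReal]
          push_cast
          field_simp
        rw [e1, map_div₀, map_div₀, map_div₀, normSq_ofReal, normSq_ofReal, div_le_iff₀ (by positivity)]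
        have e2 : (1 - normSq (a e₁) / (c * c)) * (1 - normSq (a e₂) / (c * c)) * (c ^ 2 * c ^ 2)
            = (c ^ 2 - normSq (a e₁)) * (c ^ 2 - normSq (a e₂)) := by
          field_simp
        rw [e2]
        exact m4)
    choose χ hχ1 hχ2 hχ3 hχ4 using fun i => hchar (α i) (β i) (hα i) (hβ i)
    refine ⟨fun g => c * ∑ i, (p i : ℂ) * χ i g, ?_, ?_, ?_, ?_, ?_, ?_⟩
    · simp [hχ2, hp1]
    · simp only [hχ3, hpα]; field_simp
    · simp only [hχ4, hpβ]; field_simp
    · have : ∀ i, χ i (e₁ - e₂) = α i * conj (β i) := by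
        intro i; rw [hχ1, hχ3, hχ4]
      simp only [this, hpw]; field_simp
    · intro g
      have : ∀ i, χ i (-g) = conj (χ i g) := by
        intro i
        have := hχ1 i 0 g
        rwa [zero_sub, hχ2, one_mul] at this
      simp [this, map_sum]
    · have : toep (fun g => (c : ℂ) * ∑ i, (p i : ℂ) * χ i g) K
          = ∑ i, ((c * p i : ℝ) : ℂ) • toep (χ i) K := by
        ext i j
        simp only [toep, Matrix.of_apply, Matrix.sum_apply, Matrix.smul_apply, smul_eq_mul,
          Finset.mul_sum]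
        refine Finset.sum_congr rfl fun k _ => ?_
        push_cast; ring
      rw [this]
      refine Matrix.posSemidef_sum _ fun i _ => ?_
      refine (IsChar.psd (hχ1 i) K).smul ?_
      exact_mod_cast mul_nonneg hpos.le (hp i)

end

end Pool.Agent.Helper917
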