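import Mathlib
import Pool.Agent.Helper917.ToepDefs
import Pool.Agent.Helper917.ToepScalar
import Pool.Agent.Helper917.FourierMotzkin

set_option autoImplicit false

open scoped Matrix ComplexConjugate

namespace Pool.Agent.Helper917

/-- images of positive matrices under *-homomorphisms are positive -/
lemma IsPos.map {A B ι : Type*} [NonUnitalCStarAlgebra A] [NonUnitalCStarAlgebra B] [Fintype ι]
    {M : Matrix ι ι A} (h : IsPos M) (f : A →⋆ₙₐ[ℂ] B) : IsPos (M.map f) := by
  obtain ⟨C, rfl⟩ := h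
  refine ⟨C.map f, ?_⟩
  ext i j
  simp [Matrix.mul_apply, map_sum, map_star]

lemma IsPos.toep_map {G A B : Type*} [AddCommGroup G] [NonUnitalCStarAlgebra A]
    [NonUnitalCStarAlgebra B] {a : G → A} {K : Finset G} (h : IsPos (toep a K))
    (f : A →⋆ₙₐ[ℂ] B) : IsPos (toep (fun l => f (a l)) K) := by
  have : toep (fun l => f (a l)) K = (toep a K).map f := by
    ext i j; simp [toep]
  rw [this]; exact h.map f

section scalar
open scoped ComplexOrder

variable {G : Type*} [AddCommGroup G]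

lemma psd_toep_norm_le {c : G → ℂ} {K : Finset G} (h : (toep c K).PosSemidef) {i j : G}
    (hi : i ∈ K) (hj : j ∈ K) : ‖c (i - j)‖ ≤ (c 0).re := by
  have hN := h.submatrix ![⟨j, hj⟩, ⟨i, hi⟩]
  have h1 : c (j - i) = conj (c (i - j)) := by
    simpa [toep] using psd_entry h ⟨i, hi⟩ ⟨j, hj⟩
  obtain ⟨hc1, hc0⟩ := nonneg_eq_ofReal (show 0 ≤ c 0 by
    simpa [toep] using h.diag_nonneg (i := ⟨i, hi⟩))
  have hm : (toep c K).submatrix ![⟨j, hj⟩, ⟨i, hi⟩] ![⟨j, hj⟩, ⟨i, hi⟩]
      = !![((c 0).re : ℂ), conj (c (i - j)); c (i - j), ((c 0).re : ℂ)] := by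
    ext a b
    fin_cases a <;> fin_cases b <;> simp [toep, h1, ← hc1]
  rw [hm] at hN
  have := two_minor _ _ hN
  rw [← Complex.sq_norm] at this
  exact (sq_le_sq₀ (norm_nonneg _) hc0).1 this

end scalar

/-- four directions in the plane -/
noncomputable def dir4 : Fin 4 → ℂ := ![1, -1, Complex.I, -Complex.I]

lemma eq_of_dir4 {z a : ℂ} (h : ∀ s, (dir4 s * a).re ≤ (dir4 s * z).re) : z = a := by
  have h0 := h 0
  have h1 := h 1
  have h2 := h 2
  have h3 := h 3
  simp [dir4] at h0 h1 h2 h3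
  exact Complex.ext (le_antisymm h1 h0) (le_antisymm h2 h3)

section core
open scoped ComplexOrder

variable {Ω : Type*} [TopologicalSpace Ω] [CompactSpace Ω]
variable {G : Type} [AddCommGroup G] [DecidableEq G]

/-- extension by zero of a vector indexed by `L` -/
noncomputable def ext0 (L : Finset G) (g : G) : (L → ℂ) →ₗ[ℝ] ℂ where
  toFun y := if h : g ∈ L then y ⟨g, h⟩ else 0
  map_add' y z := by
    by_cases h : g ∈ L <;> simp [h]
  map_smul' c y := by
    by_cases h : g ∈ L <;> simp [h]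

theorem core_ext {p : Ω} (hsep : SepAt Ω p) (S K : Finset G) (hSK : S ⊆ K) (hS : HasExt ℂ S)
    (a : G → C(Ω, ℂ)) (ha0 : ∀ l, a l p = 0) (ha : IsPos (toep a S)) :
    ∃ b : G → C(Ω, ℂ), (∀ l, b l p = 0) ∧ (∀ i ∈ S, ∀ j ∈ S, b (i - j) = a (i - j)) ∧
      ∀ x, (toep (fun l => b l x) K).PosSemidef := by
  classical
  rcases S.eq_empty_or_nonempty with rfl | ⟨s₀, hs₀⟩
  · refine ⟨fun _ => 0, by simp, by simp, fun x => ?_⟩
    have : toep (fun _ : G => ((0 : C(Ω, ℂ)) x)) K = 0 := by ext i j; simp [toep]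
    rw [this]
    exact Matrix.PosSemidef.zero
  -- scalar extensions at each point
  have hpt : ∀ x, ∃ c : G → ℂ, (∀ i ∈ S, ∀ j ∈ S, c (i - j) = a (i - j) x) ∧
      (toep c K).PosSemidef := by
    intro x
    have h1 : IsPos (toep (fun l => a l x) S) :=
      ha.toep_map ((ContinuousMap.evalStarAlgHom ℂ ℂ x).toNonUnitalStarAlgHom)
    obtain ⟨c, hc1, hc2⟩ := hS _ h1 K hSK
    exact ⟨c, hc1, (isPos_complex_iff _).1 hc2⟩
  let u : C(Ω, ℝ) := ⟨fun x => (a 0 x).re, by fun_prop⟩
  have hu : ∀ (x : Ω) (c : G → ℂ), (∀ i ∈ S, ∀ j ∈ S, c (i - j) = a (i - j) x) →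
      (c 0).re = u x := by
    intro x c hc
    have := hc s₀ hs₀ s₀ hs₀
    rw [sub_self] at this
    rw [this]; rfl
  have hu0 : ∀ x, 0 ≤ u x := by
    intro x
    obtain ⟨c, hc1, hc2⟩ := hpt x
    rw [← hu x c hc1]
    have := hc2.diag_nonneg (i := ⟨s₀, hSK hs₀⟩)
    have h2 := (Complex.le_def.1 this).1
    simpa [toep] using h2
  have hup : u p = 0 := by simp [u, ha0]
  obtain ⟨T, hTc, hTd⟩ := TopologicalSpace.exists_countable_dense (K → ℂ)
  have : Countable T := hTc
  let L : Finset G := Finset.image₂ (fun i j => i - j) K K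
  have hL : ∀ i ∈ K, ∀ j ∈ K, i - j ∈ L := fun i hi j hj => Finset.mem_image₂_of_mem hi hj
  let φ1 : (S × S) × Fin 4 → ((L → ℂ) →ₗ[ℝ] ℝ) := fun s =>
    Complex.reLm ∘ₗ (LinearMap.mulLeft ℝ (dir4 s.2)) ∘ₗ ext0 L (s.1.1 - s.1.2 : G)
  let φ2 : (K × K) × Fin 4 → ((L → ℂ) →ₗ[ℝ] ℝ) := fun s =>
    Complex.reLm ∘ₗ (LinearMap.mulLeft ℝ (dir4 s.2)) ∘ₗ (ext0 L (s.1.1 - s.1.2 : G)
      - (Complex.conjAe.toLinearMap ∘ₗ ext0 L (s.1.2 - s.1.1 : G)))
  let φ3 : T → ((L → ℂ) →ₗ[ℝ] ℝ) := fun ξ =>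
    Complex.reLm ∘ₗ (∑ i : K, ∑ j : K, (LinearMap.mulLeft ℝ (conj ((ξ : K → ℂ) i)
      * (ξ : K → ℂ) j)) ∘ₗ ext0 L (i - j : G))
  let b1 : (S × S) × Fin 4 → C(Ω, ℝ) := fun s =>
    ⟨fun x => (dir4 s.2 * a (s.1.1 - s.1.2 : G) x).re, by fun_prop⟩
  obtain ⟨h, hh0, hh⟩ := fm_complex hsep u hu0 hup (ι := L)
    (κ := ((S × S) × Fin 4) ⊕ (((K × K) × Fin 4) ⊕ T))
    (Sum.elim φ1 (Sum.elim φ2 φ3)) (Sum.elim b1 (Sum.elim (fun _ => 0) (fun _ => 0))) (by
      intro x
      obtain ⟨c, hc1, hc2⟩ := hpt x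
      have hE : ∀ i ∈ K, ∀ j ∈ K, ext0 L (i - j) (fun l : L => c l) = c (i - j) := by
        intro i hi j hj
        simp [ext0, hL i hi j hj]
      refine ⟨fun l => c l, ?_, ?_⟩
      · rintro ⟨l, hl⟩
        obtain ⟨i, hi, j, hj, rfl⟩ := Finset.mem_image₂.1 hl
        rw [← hu x c hc1]
        exact psd_toep_norm_le hc2 hi hj
      · rintro (⟨⟨i, j⟩, s⟩ | ⟨⟨i, j⟩, s⟩ | ξ)
        · simp only [Sum.elim_inl, φ1, b1, LinearMap.comp_apply, LinearMap.mulLeft_apply,
            Complex.reLm_coe]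
          rw [hE _ (hSK i.2) _ (hSK j.2), hc1 _ i.2 _ j.2]
          exact le_rfl
        · simp only [Sum.elim_inr, Sum.elim_inl, φ2, LinearMap.comp_apply, LinearMap.sub_apply,
            LinearMap.mulLeft_apply, ContinuousMap.zero_apply, Complex.reLm_coe]
          rw [hE _ i.2 _ j.2, hE _ j.2 _ i.2]
          have : c (i - j : G) = conj (c (j - i : G)) := by
            simpa [toep] using psd_entry hc2 j i
          rw [this]
          simp
        · simp only [Sum.elim_inr, φ3, LinearMap.comp_apply, LinearMap.sum_apply,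
            LinearMap.mulLeft_apply, ContinuousMap.zero_apply, Complex.reLm_coe]
          have h1 := hc2.dotProduct_mulVec_nonneg (ξ : K → ℂ)
          have h2 := (Complex.le_def.1 h1).1
          simp only [Complex.zero_re] at h2
          refine h2.trans_eq ?_
          congr 1
          simp only [dotProduct, Matrix.mulVec, Finset.mul_sum, toep, Matrix.of_apply, Pi.star_apply]
          refine Finset.sum_congr rfl fun i _ => Finset.sum_congr rfl fun j _ => ?_
          rw [hE _ i.2 _ j.2]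
          simp only [Complex.star_def]
          ring)
  refine ⟨fun g => if hg : g ∈ L then h ⟨g, hg⟩ else 0, ?_, ?_, ?_⟩
  · intro l
    by_cases hl : l ∈ L
    · simp [hl, hh0]
    · simp [hl]
  · intro i hi j hj
    ext x
    have hmem := hL i (hSK hi) j (hSK hj)
    simp only [hmem, dif_pos]
    apply eq_of_dir4
    intro s
    have := hh (Sum.inl ((⟨i, hi⟩, ⟨j, hj⟩), s)) x
    simp only [Sum.elim_inl, φ1, b1, LinearMap.comp_apply, LinearMap.mulLeft_apply,
            Complex.reLm_coe, ext0, LinearMap.coe_mk, AddHom.coe_mk] at this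
    simpa [hmem] using this
  · intro x
    set M := toep (fun l => (if hg : l ∈ L then h ⟨l, hg⟩ else 0 : C(Ω, ℂ)) x) K with hM
    have hMe : ∀ i j : K, M i j = ext0 L (i - j : G) (fun l => h l x) := by
      intro i j
      have hmem := hL i i.2 j j.2
      simp [hM, toep, ext0, hmem]
    have hherm : M.IsHermitian := by
      ext i j
      rw [Matrix.conjTranspose_apply]
      have : M j i = conj (M i j) := by
        apply eq_of_dir4
        intro s
        have := hh (Sum.inr (Sum.inl ((j, i), s))) x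
        simp only [Sum.elim_inr, Sum.elim_inl, φ2, LinearMap.comp_apply, LinearMap.sub_apply,
            LinearMap.mulLeft_apply, ContinuousMap.zero_apply, Complex.reLm_coe, ← hMe] at this
        rw [mul_sub, Complex.sub_re] at this
        simpa using this
      rw [this]; simp
    refine Matrix.PosSemidef.of_dotProduct_mulVec_nonneg hherm fun ξ => ?_
    have hre : ∀ ξ : K → ℂ, 0 ≤ (star ξ ⬝ᵥ M *ᵥ ξ).re := by
      have hcl : IsClosed {ξ : K → ℂ | 0 ≤ (star ξ ⬝ᵥ M *ᵥ ξ).re} := by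
        apply isClosed_le continuous_const
        simp only [dotProduct, Matrix.mulVec, Pi.star_apply]
        fun_prop
      have hsub : T ⊆ {ξ : K → ℂ | 0 ≤ (star ξ ⬝ᵥ M *ᵥ ξ).re} := by
        intro ξ hξ
        have := hh (Sum.inr (Sum.inr ⟨ξ, hξ⟩)) x
        simp only [Sum.elim_inr, φ3, LinearMap.comp_apply, LinearMap.sum_apply,
            LinearMap.mulLeft_apply, ContinuousMap.zero_apply, Complex.reLm_coe, ← hMe] at this
        refine this.trans_eq ?_
        congr 1
        simp only [dotProduct, Matrix.mulVec, Finset.mul_sum, Pi.star_apply]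
        refine Finset.sum_congr rfl fun i _ => Finset.sum_congr rfl fun j _ => ?_
        simp only [Complex.star_def]
        ring
      intro ξ
      have := hcl.closure_subset_iff.2 hsub (hTd ξ)
      exact this
    have him : (star ξ ⬝ᵥ M *ᵥ ξ).im = 0 := by
      have := hherm.im_star_dotProduct_mulVec_self ξ
      simpa using this
    rw [Complex.le_def]
    exact ⟨hre ξ, him.symm⟩

end core

end Pool.Agent.Helper917
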