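import Mathlib
import Pool.Agent.Helper917.ToepDefs
import Pool.Agent.Helper917.ToepKernel
import Pool.Agent.Helper917.ToepData
import Pool.Agent.Helper917.Interp

set_option autoImplicit false

open scoped Matrix ComplexConjugate

namespace Pool.Agent.Helper917

variable {G A : Type*} [AddCommGroup G] [DecidableEq G] [NonUnitalCStarAlgebra A]
variable {Ω : Type*} [TopologicalSpace Ω] [CompactSpace Ω]

/-- the separation property for one nonnegative function `q²`, from the extension property -/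
lemma sep_square {e₁ e₂ : G} (hg : Generic e₁ e₂) (H : HasExt A ({0, e₁, e₂} : Finset G))
    {p : Ω} (Φ : A →⋆ₙₐ[ℂ] C(Ω, ℂ)) (hΦi : Function.Injective Φ) (hΦp : ∀ a, Φ a p = 0)
    (hΦs : ∀ f : C(Ω, ℂ), f p = 0 → ∃ a, Φ a = f)
    (F E : C(Ω, ℝ)) (hF : ∀ x, |F x| ≤ 1 / 2) (hE : ∀ x, |E x| ≤ 1 / 2)
    (hFE : ∀ x, F x * E x = 0) (q : C(Ω, ℝ)) (hq : q p = 0) :
    ∃ h : C(Ω, ℂ), h p = 0 ∧ (∀ x, F x ≠ 0 → h x = ((q x ^ 2 : ℝ) : ℂ)) ∧
      (∀ x, E x ≠ 0 → h x = 0) := by
  classical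
  let c : C(Ω, ℂ) := ⟨fun x => ((Real.sqrt (1 - F x ^ 2 - E x ^ 2) : ℝ) : ℂ), by fun_prop⟩
  let w : C(Ω, ℂ) := ⟨fun x => (F x : ℂ) + Complex.I * (E x : ℂ), by fun_prop⟩
  let qc : C(Ω, ℂ) := ⟨fun x => (q x : ℂ), by fun_prop⟩
  have hpos : ∀ x, 0 < 1 - F x ^ 2 - E x ^ 2 := by
    intro x
    have h1 := sq_le_sq' (by linarith [(abs_le.1 (hF x)).1]) (abs_le.1 (hF x)).2
    have h2 := sq_le_sq' (by linarith [(abs_le.1 (hE x)).1]) (abs_le.1 (hE x)).2
    nlinarith
  have hcs : star c = c := by ext x; simp [c]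
  have hqs : star qc = qc := by ext x; simp [qc]
  have hc0 : ∀ x, c x ≠ 0 := by
    intro x
    simp only [c, ContinuousMap.coe_mk]
    exact_mod_cast (Real.sqrt_pos.2 (hpos x)).ne'
  have hcw : c * c + star w * w = 1 := by
    ext x
    have h1 : ((Real.sqrt (1 - F x ^ 2 - E x ^ 2) : ℝ) : ℂ)
        * ((Real.sqrt (1 - F x ^ 2 - E x ^ 2) : ℝ) : ℂ) = 1 - (F x : ℂ) ^ 2 - (E x : ℂ) ^ 2 := by
      rw [← Complex.ofReal_mul, Real.mul_self_sqrt (hpos x).le]
      push_cast; ring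
    simp only [c, w, ContinuousMap.add_apply, ContinuousMap.mul_apply, ContinuousMap.star_apply,
      ContinuousMap.coe_mk, ContinuousMap.one_apply, h1, star_add, star_mul, Complex.star_def,
      Complex.conj_ofReal, Complex.conj_I]
    linear_combination (-(E x : ℂ) ^ 2) * Complex.I_sq
  let Wc : Fin 3 → Fin 3 → C(Ω, ℂ) := ![![qc, c * qc, 0], ![0, star w * qc, qc], ![0, 0, 0]]
  have hWp : ∀ k i, Wc k i p = 0 := by
    intro k i
    fin_cases k <;> fin_cases i <;> simp [Wc, qc, hq]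
  choose W hW using fun k i => hΦs (Wc k i) (hWp k i)
  obtain ⟨a, ha1, ha2⟩ := exists_data hg W (by
    intro i
    apply hΦi
    simp only [Fin.sum_univ_three, map_add, map_mul, map_star, hW]
    fin_cases i
    · rfl
    · simp [Wc, hcs, hqs]
      linear_combination (qc * qc) * hcw
    · simp [Wc, hqs])
  set K : Finset G := {0, e₁, e₂, e₁ + e₂, e₂ + e₂} with hK
  obtain ⟨β, hβ1, hβ2⟩ := H a ha2 K (by
      intro x hx
      simp only [Finset.mem_insert, Finset.mem_singleton] at hx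
      simp only [hK, Finset.mem_insert, Finset.mem_singleton]
      tauto)
  have hval : ∀ i j, Φ (β (tri e₁ e₂ i - tri e₁ e₂ j)) = ∑ k, star (Wc k i) * Wc k j := by
    intro i j
    rw [hβ1 _ (by fin_cases i <;> simp [tri]) _ (by fin_cases j <;> simp [tri]), ha1, map_sum]
    simp only [map_mul, map_star, hW]
  have hpos' := hβ2.toep_map' Φ
  have key := forced_value (fun l => Φ (β l)) K hpos' e₁ e₂ (by simp [hK]) (by simp [hK])
    (by simp [hK]) (by simp [hK]) (by simp [hK]) (qc * qc) c w (by rw [star_mul, hqs]) hcs hcw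
    (by have := hval 0 0
        simpa [tri, Fin.sum_univ_three, Wc, hqs] using this)
    (by have := hval 1 0
        simp [tri, Fin.sum_univ_three, Wc, hqs, hcs] at this
        rw [this]; ring)
    (by have := hval 2 0
        simpa [tri, Fin.sum_univ_three, Wc, hqs, hcs] using this)
    (by have := hval 1 2
        simp [tri, Fin.sum_univ_three, Wc, hqs, hcs] at this
        rw [this]; ring)
  set B : C(Ω, ℂ) := Φ (β (e₂ + e₂)) with hB
  have hpt : ∀ x, w x * B x = -(star (w x) * (qc x * qc x)) := by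
    intro x
    have := congrArg (fun f : C(Ω, ℂ) => f x) key
    simp only [ContinuousMap.mul_apply, ContinuousMap.neg_apply, ContinuousMap.star_apply] at this
    apply mul_left_cancel₀ (hc0 x)
    rw [this]; ring
  refine ⟨(1 / 2 : ℂ) • (qc * qc - B), ?_, ?_, ?_⟩
  · simp [hB, hΦp, qc, hq]
  · intro x hx
    have hE0 : E x = 0 := (mul_eq_zero.1 (hFE x)).resolve_left hx
    have hwx : w x = (F x : ℂ) := by simp [w, hE0]
    have h1 := hpt x
    rw [hwx] at h1
    have h2 : B x = -(qc x * qc x) := by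
      apply mul_left_cancel₀ (show (F x : ℂ) ≠ 0 by exact_mod_cast hx)
      rw [h1]; simp
    simp only [ContinuousMap.smul_apply, ContinuousMap.sub_apply, ContinuousMap.mul_apply, h2,
      smul_eq_mul]
    simp [qc]; ring
  · intro x hx
    have hF0 : F x = 0 := (mul_eq_zero.1 (hFE x)).resolve_right hx
    have hwx : w x = Complex.I * (E x : ℂ) := by simp [w, hF0]
    have h1 := hpt x
    rw [hwx] at h1
    have h2 : B x = qc x * qc x := by
      apply mul_left_cancel₀ (show Complex.I * (E x : ℂ) ≠ 0 from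
        mul_ne_zero Complex.I_ne_zero (by exact_mod_cast hx))
      rw [h1]; simp
    simp only [ContinuousMap.smul_apply, ContinuousMap.sub_apply, ContinuousMap.mul_apply, h2,
      smul_eq_mul, sub_self, mul_zero]

theorem sepAt_of_hasExt {e₁ e₂ : G} (hg : Generic e₁ e₂)
    (H : HasExt A ({0, e₁, e₂} : Finset G))
    {p : Ω} (Φ : A →⋆ₙₐ[ℂ] C(Ω, ℂ)) (hΦi : Function.Injective Φ) (hΦp : ∀ a, Φ a p = 0)
    (hΦs : ∀ f : C(Ω, ℂ), f p = 0 → ∃ a, Φ a = f) : SepAt Ω p := by
  intro f g a hf hgp ha hfg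
  -- scaled squares
  let F : C(Ω, ℝ) := ⟨fun x => ‖f x‖ / (2 * (‖f‖ + 1)), by fun_prop⟩
  let E : C(Ω, ℝ) := ⟨fun x => ‖g x‖ / (2 * (‖g‖ + 1)), by fun_prop⟩
  have bound : ∀ (f : C(Ω, ℂ)) (x : Ω), |‖f x‖ / (2 * (‖f‖ + 1))| ≤ 1 / 2 := by
    intro f x
    have h1 : ‖f x‖ ≤ ‖f‖ := f.norm_coe_le_norm x
    have h2 : 0 < ‖f‖ + 1 := by positivity
    rw [abs_of_nonneg (by positivity), div_le_iff₀ (by positivity)]
    linarith
  have hFne : ∀ x, f x ≠ 0 → F x ≠ 0 := by
    intro x hx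
    have : 0 < ‖f x‖ := norm_pos_iff.2 hx
    simp only [F, ContinuousMap.coe_mk]
    positivity
  have hEne : ∀ x, g x ≠ 0 → E x ≠ 0 := by
    intro x hx
    have : 0 < ‖g x‖ := norm_pos_iff.2 hx
    simp only [E, ContinuousMap.coe_mk]
    positivity
  have hFE : ∀ x, F x * E x = 0 := by
    intro x
    have h1 : f x * g x = 0 := by
      have := congrArg (fun k : C(Ω, ℂ) => k x) hfg
      simpa using this
    rcases mul_eq_zero.1 h1 with h | h
    · simp [F, h]
    · simp [E, h]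
  have key : ∀ r : C(Ω, ℝ), r p = 0 → ∃ h : C(Ω, ℂ), h p = 0 ∧
      (∀ x, f x ≠ 0 → h x = ((max (r x) 0 : ℝ) : ℂ)) ∧ (∀ x, g x ≠ 0 → h x = 0) := by
    intro r hr
    let q : C(Ω, ℝ) := ⟨fun x => Real.sqrt (max (r x) 0), by fun_prop⟩
    obtain ⟨h, h1, h2, h3⟩ := sep_square hg H Φ hΦi hΦp hΦs F E (bound f) (bound g) hFE q
      (by simp [q, hr])
    refine ⟨h, h1, fun x hx => ?_, fun x hx => h3 x (hEne x hx)⟩
    rw [h2 x (hFne x hx)]
    simp only [q, ContinuousMap.coe_mk]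
    rw [Real.sq_sqrt (le_max_right _ _)]
  obtain ⟨h1, a1, b1, c1⟩ := key ⟨fun x => (a x).re, by fun_prop⟩ (by simp [ha])
  obtain ⟨h2, a2, b2, c2⟩ := key ⟨fun x => -(a x).re, by fun_prop⟩ (by simp [ha])
  obtain ⟨h3, a3, b3, c3⟩ := key ⟨fun x => (a x).im, by fun_prop⟩ (by simp [ha])
  obtain ⟨h4, a4, b4, c4⟩ := key ⟨fun x => -(a x).im, by fun_prop⟩ (by simp [ha])
  have hmax : ∀ r : ℝ, max r 0 - max (-r) 0 = r := by
    intro r
    rcases le_total r 0 with h | h
    · rw [max_eq_right h, max_eq_left (by linarith)]; ring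
    · rw [max_eq_left h, max_eq_right (by linarith)]; ring
  refine ⟨(h1 - h2) + Complex.I • (h3 - h4), by simp [a1, a2, a3, a4], ?_, ?_⟩
  · ext x
    by_cases hx : f x = 0
    · simp [hx]
    · simp only [ContinuousMap.mul_apply, ContinuousMap.add_apply, ContinuousMap.sub_apply,
        ContinuousMap.smul_apply, smul_eq_mul, b1 x hx, b2 x hx, b3 x hx, b4 x hx,
        ContinuousMap.coe_mk]
      congr 1
      rw [← Complex.ofReal_sub, ← Complex.ofReal_sub, hmax, hmax, mul_comm Complex.I]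
      exact Complex.re_add_im (a x)
  · ext x
    by_cases hx : g x = 0
    · simp [hx]
    · simp [c1 x hx, c2 x hx, c3 x hx, c4 x hx]

end Pool.Agent.Helper917
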