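import Mathlib
import Pool.Agent.Helper917.ToepDefs

set_option autoImplicit false

open scoped Matrix

namespace Pool.Agent.Helper917

section
open scoped Matrix.Norms.L2Operator MatrixOrder ComplexOrder

/-- A continuous family of positive semidefinite matrices has a continuous square root. -/
lemma exists_sqrt {Ω ι : Type*} [TopologicalSpace Ω] [CompactSpace Ω] [Fintype ι]
    (M : Matrix ι ι C(Ω, ℂ)) (hM : ∀ x, (M.map (fun f => f x)).PosSemidef) :
    ∃ B : Matrix ι ι C(Ω, ℂ), M = Bᴴ * B ∧ ∀ p, (∀ i j, M i j p = 0) → ∀ i j, B i j p = 0 := by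
  classical
  have hc : Continuous (fun x => M.map (fun f => f x)) := by
    refine continuous_matrix fun i j => ?_
    exact (M i j).continuous
  have hs : Continuous (fun x => CFC.sqrt (M.map (fun f => f x))) := by
    refine CFC.continuousOn_sqrt.comp_continuous hc fun x => ?_
    exact Matrix.nonneg_iff_posSemidef.2 (hM x)
  let B : Matrix ι ι C(Ω, ℂ) := Matrix.of fun i j =>
    ⟨fun x => CFC.sqrt (M.map (fun f => f x)) i j, hs.matrix_elem i j⟩
  have hB : ∀ x, B.map (fun f => f x) = CFC.sqrt (M.map (fun f => f x)) := by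
    intro x; ext i j; simp [B]
  refine ⟨B, ?_, ?_⟩
  · ext i j x
    have h0 : (0 : Matrix ι ι ℂ) ≤ M.map (fun f => f x) := Matrix.nonneg_iff_posSemidef.2 (hM x)
    have h1 := CFC.sqrt_mul_sqrt_self (M.map (fun f => f x)) h0
    have h2 : (CFC.sqrt (M.map (fun f => f x)))ᴴ = CFC.sqrt (M.map (fun f => f x)) :=
      (CFC.sqrt_nonneg _).isSelfAdjoint
    have h3 : M.map (fun f => f x) = (B.map (fun f => f x))ᴴ * (B.map (fun f => f x)) := by
      rw [hB, h2, h1]
    have h4 := congrFun (congrFun h3 i) j
    simpa [Matrix.mul_apply] using h4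
  · intro p hp i j
    have h0 : M.map (fun f => f p) = 0 := by ext i j; simp [hp]
    have := congrFun (congrFun (hB p) i) j
    rw [h0, CFC.sqrt_zero] at this
    simpa using this

end

end Pool.Agent.Helper917
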