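import Mathlib
import Pool.Agent.Helper917.ToepDefs
import Pool.Agent.Helper917.ToepKernel
import Pool.Agent.Helper917.ToepScalar
import Pool.Agent.Helper917.ToepData
import Pool.Agent.Helper917.Interp
import Pool.Agent.Helper917.Core
import Pool.Agent.Helper917.SqrtCont
import Pool.Agent.Helper917.Comm
import Pool.Agent.Helper917.SepNec
import Pool.Agent.Helper917.Gelfand

set_option autoImplicit false

open scoped Matrix ComplexConjugate

namespace Pool.Agent.Helper917

section

variable {A : Type*} [NonUnitalCStarAlgebra A]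
variable {Ω : Type*} [TopologicalSpace Ω] [CompactSpace Ω]

/-- Sufficiency: the separation condition gives the extension property. -/
theorem hasExt_of_sepAt {G : Type} [AddCommGroup G] [DecidableEq G] {p : Ω}
    (Φ : A →⋆ₙₐ[ℂ] C(Ω, ℂ)) (hΦi : Function.Injective Φ) (hΦp : ∀ a, Φ a p = 0)
    (hΦs : ∀ f : C(Ω, ℂ), f p = 0 → ∃ a, Φ a = f) (hsep : SepAt Ω p) (S : Finset G)
    (hS : HasExt ℂ S) : HasExt A S := by
  intro a ha K hSK
  obtain ⟨b', hb'0, hb'1, hb'2⟩ := core_ext hsep S K hSK hS (fun l => Φ (a l))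
    (fun l => hΦp _) (ha.toep_map' Φ)
  choose b hb using fun l => hΦs (b' l) (hb'0 l)
  refine ⟨b, fun i hi j hj => ?_, ?_⟩
  · apply hΦi
    rw [hb, hb'1 i hi j hj]
  · obtain ⟨B', hB', hB'0⟩ := exists_sqrt (toep b' K) (fun x => by
      have : (toep b' K).map (fun f => f x) = toep (fun l => b' l x) K := by
        ext i j; simp [toep]
      rw [this]; exact hb'2 x)
    choose B hB using fun i j => hΦs (B' i j) (hB'0 p (fun i j => by simp [toep, hb'0]) i j)
    refine ⟨Matrix.of B, ?_⟩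
    ext i j
    apply hΦi
    have := congrFun (congrFun hB' i) j
    simp only [toep, Matrix.of_apply, Matrix.mul_apply, Matrix.conjTranspose_apply] at this ⊢
    rw [hb, this, map_sum]
    simp only [map_mul, map_star, hB]

/-- Evaluation at a character transfers the extension property to the scalars. -/
theorem hasExt_complex_of_character {G : Type*} [AddCommGroup G] (χ : A →⋆ₙₐ[ℂ] ℂ) (y : A)
    (hy : χ y ≠ 0) (S : Finset G) (hS : HasExt A S) : HasExt ℂ S := by
  intro c hc K hSK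
  obtain ⟨B, hB⟩ := hc
  obtain ⟨z, hz⟩ : ∃ z : A, χ z = 1 := ⟨(χ y)⁻¹ • y, by simp [map_smul, hy]⟩
  obtain ⟨b, hb1, hb2⟩ := hS (fun l => c l • (star z * z)) (by
    refine ⟨Matrix.of fun i j => B i j • z, ?_⟩
    ext i j
    have := congrFun (congrFun hB i) j
    simp only [toep, Matrix.of_apply, Matrix.mul_apply, Matrix.conjTranspose_apply] at this ⊢
    rw [this, Finset.sum_smul]
    refine Finset.sum_congr rfl fun k _ => ?_
    rw [star_smul, smul_mul_smul_comm]) K hSK
  refine ⟨fun l => χ (b l), fun i hi j hj => ?_, hb2.toep_map' χ⟩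
  have h1 := congrArg χ (hb1 i hi j hj)
  rw [map_smul, map_mul, map_star, hz] at h1
  simpa using h1

end

/-- `{0, v, 3v}` lacks the scalar extension property. -/
theorem not_hasExt_complex {G : Type*} [AddCommGroup G] [DecidableEq G] (v : G)
    (hg : Generic v (3 • v)) : ¬ HasExt ℂ ({0, v, 3 • v} : Finset G) := by
  intro H
  obtain ⟨a, ha1, ha2⟩ := exists_data (A := ℂ) hg ![![1, 1, 0], ![0, 0, 1], ![0, 0, 0]] (by
    intro i; fin_cases i <;> simp [Fin.sum_univ_three])
  obtain ⟨b, hb1, hb2⟩ := H a ha2 ({0, v, 2 • v, 3 • v} : Finset G) (by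
    intro x hx
    simp only [Finset.mem_insert, Finset.mem_singleton] at hx ⊢
    tauto)
  have hval : ∀ i j, b (tri v (3 • v) i - tri v (3 • v) j) = a (tri v (3 • v) i - tri v (3 • v) j) :=
    fun i j => hb1 _ (by fin_cases i <;> simp [tri]) _ (by fin_cases j <;> simp [tri])
  have b0 : b 0 = 1 := by
    have := (hval 0 0).trans (ha1 0 0)
    simpa [tri, Fin.sum_univ_three] using this
  have b1 : b v = 1 := by
    have := (hval 1 0).trans (ha1 1 0)
    simpa [tri, Fin.sum_univ_three] using this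
  have bm1 : b (-v) = 1 := by
    have := (hval 0 1).trans (ha1 0 1)
    simpa [tri, Fin.sum_univ_three] using this
  have b2 : b (2 • v) = 0 := by
    have := (hval 2 1).trans (ha1 2 1)
    have e : 3 • v - v = 2 • v := by
      rw [show (3 : ℕ) • v = 2 • v + v by rw [← succ_nsmul]]; abel
    simpa [tri, Fin.sum_univ_three, e] using this
  have key := hb2.toep_row_eq_zero ![0, v, 2 • v]
    (by intro i; fin_cases i <;> simp) ![-1, 1, 0]
    (by simp [Fin.sum_univ_three, b0, b1, bm1]) 2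
  have e : 2 • v - v = v := by rw [two_nsmul]; abel
  simp [Fin.sum_univ_three, b2, b1, e] at key

section final

variable (A : Type*) [NonUnitalCStarAlgebra A]

/-- the algebraic separation property of a commutative C*-algebra -/
def AlgSep : Prop := ∀ f g a : A, f * g = 0 → ∃ h : A, h * f = a * f ∧ h * g = 0

variable {A}

lemma sepAt_iff_algSep {Ω : Type*} [TopologicalSpace Ω] [CompactSpace Ω] {p : Ω}
    (Φ : A →⋆ₙₐ[ℂ] C(Ω, ℂ)) (hΦi : Function.Injective Φ) (hΦp : ∀ a, Φ a p = 0)
    (hΦs : ∀ f : C(Ω, ℂ), f p = 0 → ∃ a, Φ a = f) : SepAt Ω p ↔ AlgSep A := by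
  constructor
  · intro H f g a hfg
    obtain ⟨h', hp, h1, h2⟩ := H (Φ f) (Φ g) (Φ a) (hΦp _) (hΦp _) (hΦp _)
      (by rw [← map_mul, hfg, map_zero])
    obtain ⟨h, rfl⟩ := hΦs h' hp
    exact ⟨h, hΦi (by rw [map_mul, map_mul, h1]), hΦi (by rw [map_mul, h2, map_zero])⟩
  · intro H f' g' a' hf hg ha hfg
    obtain ⟨f, rfl⟩ := hΦs f' hf
    obtain ⟨g, rfl⟩ := hΦs g' hg
    obtain ⟨a, rfl⟩ := hΦs a' ha
    obtain ⟨h, h1, h2⟩ := H f g a (hΦi (by rw [map_mul, hfg, map_zero]))
    exact ⟨Φ h, hΦp _, by rw [← map_mul, h1, map_mul], by rw [← map_mul, h2, map_zero]⟩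

/-- Algebraic form of the classification; `v, e₁, e₂` are suitable elements of the group. -/
theorem classification_aux {G : Type} [AddCommGroup G] [DecidableEq G] {e₁ e₂ : G}
    (hg : Generic e₁ e₂) (h3 : HasExt ℂ ({0, e₁, e₂} : Finset G)) (v : G)
    (hv : Generic v (3 • v)) :
    (∀ S : Finset G, HasExt ℂ S ↔ HasExt A S) ↔
      Nontrivial A ∧ (∀ x y : A, x * y = y * x) ∧ AlgSep A := by
  constructor
  · intro H
    have h1 : HasExt A ({0, e₁, e₂} : Finset G) := (H _).1 h3
    have hcomm := comm_of_hasExt hg h1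
    refine ⟨?_, hcomm, ?_⟩
    · by_contra hn
      rw [not_nontrivial_iff_subsingleton] at hn
      apply not_hasExt_complex v hv
      rw [H]
      intro a _ K _
      exact ⟨a, fun _ _ _ _ => rfl, 0, Subsingleton.elim _ _⟩
    · obtain ⟨Ω, _, _, _, p, Φ, hΦi, hΦp, hΦs⟩ := exists_gelfand A hcomm
      exact (sepAt_iff_algSep Φ hΦi hΦp hΦs).1 (sepAt_of_hasExt hg h1 Φ hΦi hΦp hΦs)
  · rintro ⟨hn, hcomm, hsep⟩ S
    obtain ⟨Ω, _, _, _, p, Φ, hΦi, hΦp, hΦs⟩ := exists_gelfand A hcomm
    constructor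
    · exact hasExt_of_sepAt Φ hΦi hΦp hΦs ((sepAt_iff_algSep Φ hΦi hΦp hΦs).2 hsep) S
    · obtain ⟨y, hy⟩ := exists_ne (0 : A)
      have h1 : Φ y ≠ 0 := fun h => hy (hΦi (by rw [h, map_zero]))
      obtain ⟨x, hx⟩ : ∃ x, Φ y x ≠ 0 := by
        by_contra hcon
        push Not at hcon
        exact h1 (by ext x; simpa using hcon x)
      exact hasExt_complex_of_character
        (((ContinuousMap.evalStarAlgHom ℂ ℂ x).toNonUnitalStarAlgHom).comp Φ) y hx S

end final

end Pool.Agent.Helper917
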