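import Mathlib
import Pool.Agent.Helper917.ToepDefs
import Pool.Agent.Helper917.Interp

set_option autoImplicit false

namespace Pool.Agent.Helper917

/-- The topological condition: disjoint open sigma-compact sets have disjoint closures. -/
def SigmaSep (X : Type*) [TopologicalSpace X] : Prop :=
  ∀ U V : Set X, IsOpen U → IsSigmaCompact U → IsOpen V → IsSigmaCompact V →
    Disjoint U V → Disjoint (closure U) (closure V)

lemma SigmaSep.of_homeomorph {X Y : Type*} [TopologicalSpace X] [TopologicalSpace Y]
    (e : X ≃ₜ Y) (h : SigmaSep X) : SigmaSep Y := by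
  intro U V hU hU' hV hV' hUV
  have h1 := h (e ⁻¹' U) (e ⁻¹' V) (hU.preimage e.continuous)
    (by rw [← e.image_symm]; exact hU'.image e.symm.continuous) (hV.preimage e.continuous)
    (by rw [← e.image_symm]; exact hV'.image e.symm.continuous) (hUV.preimage e)
  rw [← e.preimage_closure, ← e.preimage_closure] at h1
  rw [Set.disjoint_left] at h1 ⊢
  intro y hy hy'
  exact h1 (a := e.symm y) (by simpa using hy) (by simpa using hy')

section

variable {Ω : Type*} [TopologicalSpace Ω]

/-- A cozero set is sigma-compact. -/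
lemma isSigmaCompact_cozero [CompactSpace Ω] (f : C(Ω, ℂ)) : IsSigmaCompact {x | f x ≠ 0} := by
  refine ⟨fun n : ℕ => {x | 1 / ((n : ℝ) + 1) ≤ ‖f x‖}, fun n => ?_, ?_⟩
  · apply IsClosed.isCompact
    exact isClosed_le continuous_const (by fun_prop)
  · ext x
    simp only [Set.mem_iUnion, Set.mem_ofPred_eq]
    constructor
    · rintro ⟨n, hn⟩ h0
      rw [h0, norm_zero] at hn
      have : (0 : ℝ) < 1 / ((n : ℝ) + 1) := by positivity
      linarith
    · intro h
      obtain ⟨n, hn⟩ := exists_nat_one_div_lt (norm_pos_iff.2 h)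
      exact ⟨n, hn.le⟩

lemma isSigmaCompact_image_val {p : Ω} (U : Set {ω : Ω // ω ≠ p}) :
    IsSigmaCompact U ↔ IsSigmaCompact (Subtype.val '' U) :=
  Topology.IsEmbedding.subtypeVal.isSigmaCompact_iff

end

variable {Ω : Type*} [TopologicalSpace Ω] [CompactSpace Ω] [T2Space Ω]

/-- An open sigma-compact set is a cozero set. -/
lemma exists_cozero (U : Set Ω) (hU : IsOpen U) (hU' : IsSigmaCompact U) :
    ∃ F : C(Ω, ℝ), ∀ x, F x ≠ 0 ↔ x ∈ U := by
  obtain ⟨K, hK, hKU⟩ := hU'
  have key : ∀ n, ∃ f : C(Ω, ℝ), (∀ x ∈ K n, f x = 1) ∧ (∀ x ∉ U, f x = 0) ∧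
      ∀ x, 0 ≤ f x ∧ f x ≤ 1 := by
    intro n
    obtain ⟨f, h1, h2, h3⟩ := exists_continuous_zero_one_of_isClosed (s := Uᶜ) (t := K n)
      hU.isClosed_compl (hK n).isClosed (by
        rw [Set.disjoint_compl_left_iff_subset, ← hKU]
        exact Set.subset_iUnion K n)
    exact ⟨f, fun x hx => h2 hx, fun x hx => h1 hx, fun x => ⟨(h3 x).1, (h3 x).2⟩⟩
  choose f h1 h2 h3 using key
  obtain ⟨φ, hφ, -⟩ := exists_weighted_sum f 1 (fun n x => (h3 n x).1) (fun n x => by
    simpa using (h3 n x).2)
  refine ⟨φ, fun x => ?_⟩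
  constructor
  · intro h
    by_contra hx
    exact h ((hφ x).2 fun n => h2 n x hx)
  · intro hx h
    rw [← hKU] at hx
    obtain ⟨n, hn⟩ := Set.mem_iUnion.1 hx
    have := (hφ x).1 h n
    rw [h1 n x hn] at this
    exact one_ne_zero this

theorem sepAt_iff_sigmaSep (p : Ω) : SepAt Ω p ↔ SigmaSep {ω : Ω // ω ≠ p} := by
  have hop : IsOpen {ω : Ω | ω ≠ p} := isOpen_ne
  constructor
  · intro H U V hU hU' hV hV' hUV
    rw [Set.disjoint_left]
    intro x hxU hxV
    obtain ⟨F, hF⟩ := exists_cozero (Subtype.val '' U) (hop.isOpenMap_subtype_val _ hU)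
      ((isSigmaCompact_image_val U).1 hU')
    obtain ⟨E, hE⟩ := exists_cozero (Subtype.val '' V) (hop.isOpenMap_subtype_val _ hV)
      ((isSigmaCompact_image_val V).1 hV')
    obtain ⟨a, ha1, ha2, -⟩ := exists_continuous_zero_one_of_isClosed (s := {p})
      (t := {(x : Ω)}) isClosed_singleton isClosed_singleton (by
        simpa using x.2.symm)
    let toC : C(ℝ, ℂ) := ⟨fun r => (r : ℂ), Complex.continuous_ofReal⟩
    have hFp : F p = 0 := by
      by_contra h
      obtain ⟨y, -, hy⟩ := (hF p).1 h
      exact y.2 hy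
    have hEp : E p = 0 := by
      by_contra h
      obtain ⟨y, -, hy⟩ := (hE p).1 h
      exact y.2 hy
    have hap : a p = 0 := ha1 rfl
    have hax : a x = 1 := ha2 rfl
    obtain ⟨h, -, h1, h2⟩ := H (toC.comp F) (toC.comp E) (toC.comp a) (by simp [toC, hFp])
      (by simp [toC, hEp]) (by simp [toC, hap]) (by
        ext y
        simp only [toC, ContinuousMap.mul_apply, ContinuousMap.comp_apply, ContinuousMap.coe_mk,
          ContinuousMap.zero_apply]
        by_cases hy : F y = 0
        · simp [hy]
        · by_cases hy' : E y = 0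
          · simp [hy']
          · exfalso
            obtain ⟨u, hu, hu'⟩ := (hF y).1 hy
            obtain ⟨v, hv, hv'⟩ := (hE y).1 hy'
            have : u = v := Subtype.ext (hu'.trans hv'.symm)
            subst this
            exact Set.disjoint_left.1 hUV hu hv)
    have c1 : Set.EqOn h (toC.comp a) (Subtype.val '' U) := by
      intro y hy
      have := congrArg (fun k : C(Ω, ℂ) => k y) h1
      simp only [ContinuousMap.mul_apply] at this
      refine mul_right_cancel₀ ?_ this
      have := (hF y).2 hy
      simpa [toC] using this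
    have c2 : Set.EqOn h (0 : C(Ω, ℂ)) (Subtype.val '' V) := by
      intro y hy
      have := congrArg (fun k : C(Ω, ℂ) => k y) h2
      simp only [ContinuousMap.mul_apply, ContinuousMap.zero_apply] at this
      rcases mul_eq_zero.1 this with h' | h'
      · simpa using h'
      · exact absurd h' (by have := (hE y).2 hy; simpa [toC] using this)
    have d1 := c1.closure h.continuous (toC.comp a).continuous
      (closure_subtype.1 hxU : (x : Ω) ∈ closure (Subtype.val '' U))
    have d2 := c2.closure h.continuous (0 : C(Ω, ℂ)).continuous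
      (closure_subtype.1 hxV : (x : Ω) ∈ closure (Subtype.val '' V))
    rw [d1] at d2
    simp [toC, hax] at d2
  · intro H f g a hf hg ha hfg
    let U : Set Ω := {x | f x ≠ 0}
    let V : Set Ω := {x | g x ≠ 0}
    have hU : IsOpen U := isOpen_ne_fun (by fun_prop) (by fun_prop)
    have hV : IsOpen V := isOpen_ne_fun (by fun_prop) (by fun_prop)
    have hUp : ∀ x ∈ U, x ≠ p := by
      rintro x hx rfl
      exact hx hf
    have hVp : ∀ x ∈ V, x ≠ p := by
      rintro x hx rfl
      exact hx hg
    let U' : Set {ω : Ω // ω ≠ p} := Subtype.val ⁻¹' U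
    let V' : Set {ω : Ω // ω ≠ p} := Subtype.val ⁻¹' V
    have hUU' : Subtype.val '' U' = U := by
      ext x
      exact ⟨fun ⟨y, hy, hyx⟩ => hyx ▸ hy, fun hx => ⟨⟨x, hUp x hx⟩, hx, rfl⟩⟩
    have hVV' : Subtype.val '' V' = V := by
      ext x
      exact ⟨fun ⟨y, hy, hyx⟩ => hyx ▸ hy, fun hx => ⟨⟨x, hVp x hx⟩, hx, rfl⟩⟩
    have hdisj := H U' V' (hU.preimage continuous_subtype_val)
      ((isSigmaCompact_image_val U').2 (by rw [hUU']; exact isSigmaCompact_cozero f))
      (hV.preimage continuous_subtype_val)
      ((isSigmaCompact_image_val V').2 (by rw [hVV']; exact isSigmaCompact_cozero g)) (by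
        rw [Set.disjoint_left]
        intro x hx hx'
        have := congrArg (fun k : C(Ω, ℂ) => k x) hfg
        simp only [ContinuousMap.mul_apply, ContinuousMap.zero_apply] at this
        rcases mul_eq_zero.1 this with h | h
        · exact hx h
        · exact hx' h)
    have hCD : ∀ x, x ∈ closure U → x ∈ closure V → x = p := by
      intro x hx hx'
      by_contra hxp
      have e1 : (⟨x, hxp⟩ : {ω : Ω // ω ≠ p}) ∈ closure U' := by
        rw [closure_subtype, hUU']; exact hx
      have e2 : (⟨x, hxp⟩ : {ω : Ω // ω ≠ p}) ∈ closure V' := by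
        rw [closure_subtype, hVV']; exact hx'
      exact Set.disjoint_left.1 hdisj e1 e2
    classical
    let C : Set Ω := closure U
    let D : Set Ω := closure V ∪ {p}
    have hC : IsClosed C := isClosed_closure
    have hD : IsClosed D := isClosed_closure.union isClosed_singleton
    let k : Ω → ℂ := fun x => if x ∈ C then a x else 0
    have hkC : ContinuousOn k C := by
      refine (a.continuous.continuousOn).congr fun x hx => ?_
      simp [k, hx]
    have hkD : ContinuousOn k D := by
      refine (continuousOn_const (c := (0 : ℂ))).congr fun x hx => ?_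
      by_cases hxC : x ∈ C
      · have : x = p := by
          rcases hx with hx | hx
          · exact hCD x hxC hx
          · exact hx
        subst this
        simp [k, ha]
      · simp [k, hxC]
    have hkCD := hkC.union_of_isClosed hkD hC hD
    obtain ⟨h, hh⟩ := ContinuousMap.exists_restrict_eq (hC.union hD)
      (⟨fun x => k x, hkCD.domRestrict⟩ : C((C ∪ D : Set Ω), ℂ))
    have hval : ∀ x, x ∈ C ∪ D → h x = k x := by
      intro x hx
      exact congrArg (fun r : C((C ∪ D : Set Ω), ℂ) => r ⟨x, hx⟩) hh
    refine ⟨h, ?_, ?_, ?_⟩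
    · rw [hval p (Or.inr (Or.inr rfl))]
      by_cases hpC : p ∈ C
      · simp [k, ha]
      · simp [k, hpC]
    · ext x
      simp only [ContinuousMap.mul_apply]
      by_cases hx : f x = 0
      · simp [hx]
      · have hxC : x ∈ C := subset_closure hx
        rw [hval x (Or.inl hxC)]
        simp [k, hxC]
    · ext x
      simp only [ContinuousMap.mul_apply, ContinuousMap.zero_apply]
      by_cases hx : g x = 0
      · simp [hx]
      · have hxD : x ∈ closure V := subset_closure hx
        rw [hval x (Or.inr (Or.inl hxD))]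
        by_cases hxC : x ∈ C
        · have : x = p := hCD x hxC hxD
          subst this
          simp [k, ha]
        · simp [k, hxC]

end Pool.Agent.Helper917
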