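import Mathlib
import Pool.Agent.Helper917.ToepDefs
import Pool.Agent.Helper917.Interp
import Pool.Agent.Helper917.TopSep
import Pool.Agent.Helper917.CharSpace
import Pool.Agent.Helper917.Classif

set_option autoImplicit false

open scoped Matrix
open WeakDual

universe u

namespace Pool.Agent.Helper917

lemma algSep_iff_sigmaSep_comm (A : Type u) [NonUnitalCommCStarAlgebra A] :
    AlgSep A ↔ SigmaSep (characterSpace ℂ A) := by
  let Γ := gelfandStarTransform (Unitization ℂ A)
  let p : characterSpace ℂ (Unitization ℂ A) := infPt A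
  have hp : ∀ z : Unitization ℂ A, Γ z p = z.fst := fun z => rfl
  let Φ : A →⋆ₙₐ[ℂ] C(characterSpace ℂ (Unitization ℂ A), ℂ) :=
    (Γ : Unitization ℂ A →⋆ₙₐ[ℂ] _).comp (Unitization.inrNonUnitalStarAlgHom ℂ A)
  have h1 : Function.Injective Φ := by
    intro x y h
    have h1 : Γ (x : Unitization ℂ A) = Γ (y : Unitization ℂ A) := h
    exact Unitization.inr_injective (Γ.injective h1)
  have h2 : ∀ a, Φ a p = 0 := by
    intro a
    have : Γ (a : Unitization ℂ A) p = 0 := by rw [hp]; simp
    exact this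
  have h3 : ∀ f : C(characterSpace ℂ (Unitization ℂ A), ℂ), f p = 0 → ∃ a, Φ a = f := by
    intro f hf
    refine ⟨(Γ.symm f).snd, ?_⟩
    have h1 : (Γ.symm f).fst = 0 := by
      rw [← hp, StarAlgEquiv.apply_symm_apply, hf]
    have h2 : (((Γ.symm f).snd : A) : Unitization ℂ A) = Γ.symm f := by
      ext
      · simpa using h1.symm
      · simp
    show Γ (((Γ.symm f).snd : A) : Unitization ℂ A) = f
    rw [h2, StarAlgEquiv.apply_symm_apply]
  rw [← sepAt_iff_algSep Φ h1 h2 h3, sepAt_iff_sigmaSep]
  exact ⟨fun h => h.of_homeomorph (charHomeo A), fun h => h.of_homeomorph (charHomeo A).symm⟩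

lemma algSep_iff_sigmaSep (A : Type u) [inst : NonUnitalCStarAlgebra A]
    (hcomm : ∀ x y : A, x * y = y * x) : AlgSep A ↔ SigmaSep (characterSpace ℂ A) := by
  let _ : NonUnitalCommCStarAlgebra A := { inst with mul_comm := hcomm }
  exact algSep_iff_sigmaSep_comm A

end Pool.Agent.Helper917
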