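import Mathlib

set_option autoImplicit false

open MeasureTheory AddCircle Filter Topology
open scoped ComplexConjugate ENNReal InnerProductSpace

namespace Pool.Agent.Helper917.Hardy

instance instFactZeroLtOne : Fact ((0 : ℝ) < 1) := ⟨zero_lt_one⟩

/-- The unit circle, parametrised as `ℝ/ℤ`: the class of `t` stands for `ζ = exp(2πit)`, which is
`fourier 1 t`. -/
abbrev Circ : Type := AddCircle (1 : ℝ)

/-- Normalised Lebesgue measure on the circle. -/
noncomputable abbrev mu : Measure Circ := haarAddCircle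

/-- `L²(𝕋, E)`. -/
abbrev L2 (E : Type*) [NormedAddCommGroup E] : Type _ := Lp E 2 mu

section mulOp

variable {E F : Type*} [NormedAddCommGroup E] [NormedSpace ℂ E]
  [NormedAddCommGroup F] [NormedSpace ℂ F]

lemma aesm_apply {A : Circ → E →L[ℂ] F} (hA : AEStronglyMeasurable A mu) {f : Circ → E}
    (hf : AEStronglyMeasurable f mu) : AEStronglyMeasurable (fun t => A t (f t)) mu :=
  (isBoundedBilinearMap_apply.continuous).comp_aestronglyMeasurable (hA.prodMk hf)

lemma memLp_apply {A : Circ → E →L[ℂ] F} (hA : AEStronglyMeasurable A mu) {c : ℝ}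
    (hc : ∀ᵐ t ∂mu, ‖A t‖ ≤ c) (f : L2 E) : MemLp (fun t => A t (f t)) 2 mu :=
  (Lp.memLp f).of_le_mul (aesm_apply hA (Lp.aestronglyMeasurable f)) (by
    filter_upwards [hc] with t ht
    exact (A t).le_of_opNorm_le ht (f t))

/-- Pointwise application of a bounded measurable operator-valued function. -/
noncomputable def mulOp (A : Circ → E →L[ℂ] F) (hA : AEStronglyMeasurable A mu) (c : ℝ)
    (hc : ∀ᵐ t ∂mu, ‖A t‖ ≤ c) : L2 E →L[ℂ] L2 F :=
  LinearMap.mkContinuous
    { toFun := fun f => MemLp.toLp (fun t => A t (f t)) (memLp_apply hA hc f)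
      map_add' := by
        intro f g
        apply Lp.ext
        refine (MemLp.coeFn_toLp _).trans ?_
        refine EventuallyEq.trans ?_ (Lp.coeFn_add _ _).symm
        filter_upwards [Lp.coeFn_add f g, MemLp.coeFn_toLp (memLp_apply hA hc f),
          MemLp.coeFn_toLp (memLp_apply hA hc g)] with t h1 h2 h3
        rw [h1, Pi.add_apply, Pi.add_apply, map_add, h2, h3]
      map_smul' := by
        intro c' f
        apply Lp.ext
        refine (MemLp.coeFn_toLp _).trans ?_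
        refine EventuallyEq.trans ?_ (Lp.coeFn_smul _ _).symm
        filter_upwards [Lp.coeFn_smul c' f, MemLp.coeFn_toLp (memLp_apply hA hc f)] with t h1 h2
        rw [h1, Pi.smul_apply, Pi.smul_apply, map_smul, h2, RingHom.id_apply] }
    c (by
      intro f
      apply Lp.norm_le_mul_norm_of_ae_le_mul
      filter_upwards [hc, MemLp.coeFn_toLp (memLp_apply hA hc f)] with t h1 h2
      simp only [LinearMap.coe_mk, AddHom.coe_mk]
      rw [h2]
      exact (A t).le_of_opNorm_le h1 (f t))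

lemma coeFn_mulOp (A : Circ → E →L[ℂ] F) (hA : AEStronglyMeasurable A mu) (c : ℝ)
    (hc : ∀ᵐ t ∂mu, ‖A t‖ ≤ c) (f : L2 E) : mulOp A hA c hc f =ᵐ[mu] fun t => A t (f t) :=
  MemLp.coeFn_toLp (memLp_apply hA hc f)

lemma norm_mulOp_apply_le (A : Circ → E →L[ℂ] F) (hA : AEStronglyMeasurable A mu) (c : ℝ)
    (hc : ∀ᵐ t ∂mu, ‖A t‖ ≤ c) (f : L2 E) : ‖mulOp A hA c hc f‖ ≤ c * ‖f‖ := by
  apply Lp.norm_le_mul_norm_of_ae_le_mul
  filter_upwards [hc, coeFn_mulOp A hA c hc f] with t h1 h2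
  rw [h2]
  exact (A t).le_of_opNorm_le h1 (f t)

lemma norm_scalar_le {m : Circ → ℂ} {c : ℝ} (hc : ∀ᵐ t ∂mu, ‖m t‖ ≤ c) :
    ∀ᵐ t ∂mu, ‖m t • ContinuousLinearMap.id ℂ E‖ ≤ c := by
  filter_upwards [hc] with t ht
  refine (norm_smul_le (m t) (ContinuousLinearMap.id ℂ E)).trans ?_
  calc ‖m t‖ * ‖ContinuousLinearMap.id ℂ E‖ ≤ c * 1 := by
        have h0 : 0 ≤ c := (norm_nonneg _).trans ht
        gcongr
        exact ContinuousLinearMap.norm_id_le
    _ = c := mul_one c

/-- Multiplication by a bounded measurable scalar function. -/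
noncomputable def mulS (m : Circ → ℂ) (hm : AEStronglyMeasurable m mu) (c : ℝ)
    (hc : ∀ᵐ t ∂mu, ‖m t‖ ≤ c) : L2 E →L[ℂ] L2 E :=
  mulOp (fun t => m t • ContinuousLinearMap.id ℂ E) (hm.smul_const _) c (norm_scalar_le hc)

lemma coeFn_mulS (m : Circ → ℂ) (hm : AEStronglyMeasurable m mu) (c : ℝ)
    (hc : ∀ᵐ t ∂mu, ‖m t‖ ≤ c) (f : L2 E) : mulS m hm c hc f =ᵐ[mu] fun t => m t • f t := by
  refine (coeFn_mulOp _ _ _ _ f).trans ?_
  filter_upwards with t
  simp

lemma norm_mulS_apply_le (m : Circ → ℂ) (hm : AEStronglyMeasurable m mu) (c : ℝ)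
    (hc : ∀ᵐ t ∂mu, ‖m t‖ ≤ c) (f : L2 E) : ‖mulS m hm c hc f‖ ≤ c * ‖f‖ :=
  norm_mulOp_apply_le _ _ _ _ f

/-- Multiplication by a continuous scalar function. -/
noncomputable def mulC (m : C(Circ, ℂ)) : L2 E →L[ℂ] L2 E :=
  mulS m m.continuous.aestronglyMeasurable ‖m‖ (ae_of_all _ fun t => m.norm_coe_le_norm t)

lemma coeFn_mulC (m : C(Circ, ℂ)) (f : L2 E) : mulC m f =ᵐ[mu] fun t => m t • f t :=
  coeFn_mulS _ _ _ _ f

lemma norm_mulC_apply_le (m : C(Circ, ℂ)) (f : L2 E) : ‖mulC m f‖ ≤ ‖m‖ * ‖f‖ :=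
  norm_mulS_apply_le _ _ _ _ f

lemma mulC_mulC (m n : C(Circ, ℂ)) (f : L2 E) : mulC m (mulC n f) = mulC (m * n) f := by
  apply Lp.ext
  filter_upwards [coeFn_mulC m (mulC n f), coeFn_mulC n f, coeFn_mulC (m * n) f] with t h1 h2 h3
  rw [h1, h2, h3, ContinuousMap.mul_apply, mul_smul]

lemma mulC_one (f : L2 E) : mulC (1 : C(Circ, ℂ)) f = f := by
  apply Lp.ext
  filter_upwards [coeFn_mulC 1 f] with t h1
  rw [h1, ContinuousMap.one_apply, one_smul]

lemma mulC_add (m n : C(Circ, ℂ)) (f : L2 E) : mulC (m + n) f = mulC m f + mulC n f := by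
  apply Lp.ext
  filter_upwards [coeFn_mulC m f, coeFn_mulC n f, coeFn_mulC (m + n) f,
    Lp.coeFn_add (mulC m f) (mulC n f)] with t h1 h2 h3 h4
  rw [h3, h4, Pi.add_apply, h1, h2, ContinuousMap.add_apply, add_smul]

lemma mulC_smul (c : ℂ) (m : C(Circ, ℂ)) (f : L2 E) : mulC (c • m) f = c • mulC m f := by
  apply Lp.ext
  filter_upwards [coeFn_mulC m f, coeFn_mulC (c • m) f,
    Lp.coeFn_smul c (mulC m f)] with t h1 h3 h4
  rw [h3, h4, Pi.smul_apply, h1, ContinuousMap.smul_apply, smul_assoc]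

end mulOp

section fourier

variable {E : Type*} [NormedAddCommGroup E] [InnerProductSpace ℂ E] [CompleteSpace E]

lemma fourier_mul (m n : ℤ) : (fourier m * fourier n : C(Circ, ℂ)) = fourier (m + n) := by
  ext t
  rw [ContinuousMap.mul_apply, fourier_add]

lemma inner_mulC_left (m : C(Circ, ℂ)) (f g : L2 E) :
    ⟪mulC m f, g⟫_ℂ = ⟪f, mulC (star m) g⟫_ℂ := by
  rw [L2.inner_def, L2.inner_def]
  apply integral_congr_ae
  filter_upwards [coeFn_mulC m f, coeFn_mulC (star m) g] with t h1 h2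
  rw [h1, h2, inner_smul_left, inner_smul_right, ContinuousMap.star_apply]
  rfl

lemma star_fourier (n : ℤ) : star (fourier n : C(Circ, ℂ)) = fourier (-n) := by
  ext t
  rw [ContinuousMap.star_apply, fourier_neg]
  rfl

lemma integrable_L2 (f : L2 E) : Integrable f mu :=
  (Lp.memLp f).integrable (by norm_num)

/-- the function `ζⁿ e` -/
noncomputable def mono (n : ℤ) : E →ₗ[ℂ] L2 E :=
  (mulC (fourier n)).toLinearMap ∘ₗ (Lp.constL 2 mu ℂ : E →L[ℂ] L2 E).toLinearMap

lemma coeFn_mono (n : ℤ) (e : E) : mono n e =ᵐ[mu] fun t => fourier n t • e := by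
  have h1 : (mono n e : L2 E) = mulC (fourier n) (Lp.const 2 mu e) := rfl
  rw [h1]
  filter_upwards [coeFn_mulC (fourier n) (Lp.const 2 mu e), Lp.coeFn_const (p := 2) (μ := mu) e]
    with t h1 h2
  rw [h1, h2]
  rfl

lemma inner_mono (n : ℤ) (e : E) (f : L2 E) : ⟪mono n e, f⟫_ℂ = ⟪e, fourierCoeff f n⟫_ℂ := by
  rw [L2.inner_def, fourierCoeff, ← integral_inner ((integrable_L2 f).fourier_smul (-n)) e]
  apply integral_congr_ae
  filter_upwards [coeFn_mono n e] with t h1
  rw [h1, inner_smul_left, inner_smul_right, fourier_neg]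

lemma fourierCoeff_mono (n m : ℤ) (e : E) :
    fourierCoeff (mono n e : L2 E) m = if m = n then e else 0 := by
  rw [fourierCoeff_congr_ae (coeFn_mono n e)]
  have h1 := congrFun (fourierCoeff_fourier (T := (1 : ℝ)) n) m
  unfold fourierCoeff at h1 ⊢
  have h2 : ∀ t : Circ, fourier (-m) t • fourier n t • e = (fourier (-m) t • fourier n t) • e :=
    fun t => (smul_assoc _ _ _).symm
  simp_rw [h2]
  rw [integral_smul_const, h1, Pi.single_apply]
  split_ifs <;> simp

lemma norm_mono (n : ℤ) (e : E) : ‖(mono n e : L2 E)‖ = ‖e‖ := by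
  have h1 : ⟪(mono n e : L2 E), mono n e⟫_ℂ = ⟪e, e⟫_ℂ := by
    rw [inner_mono, fourierCoeff_mono, if_pos rfl]
  rw [inner_self_eq_norm_sq_to_K, inner_self_eq_norm_sq_to_K] at h1
  have h2 : ‖(mono n e : L2 E)‖ ^ 2 = ‖e‖ ^ 2 := by exact_mod_cast h1
  exact (pow_left_inj₀ (norm_nonneg _) (norm_nonneg _) two_ne_zero).1 h2

/-- the isometric embedding `e ↦ ζⁿ e` -/
noncomputable def monoI (n : ℤ) : E →ₗᵢ[ℂ] L2 E := ⟨mono n, norm_mono n⟩

lemma orthogonalFamily_mono : OrthogonalFamily ℂ (fun _ : ℤ => E) (fun n => monoI n) := by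
  intro i j hij e e'
  show ⟪mono i e, mono j e'⟫_ℂ = 0
  rw [inner_mono, fourierCoeff_mono, if_neg hij, inner_zero_right]

lemma fourierCoeff_clm_apply {F : Type*} [NormedAddCommGroup F] [NormedSpace ℂ F]
    [CompleteSpace F] (A : E →L[ℂ] F) (f : Circ → E) (hf : Integrable f mu) (n : ℤ) :
    fourierCoeff (fun t => A (f t)) n = A (fourierCoeff f n) := by
  unfold fourierCoeff
  rw [← A.integral_comp_comm (hf.fourier_smul (-n))]
  simp only [map_smul]

/-- injectivity of the Fourier transform -/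
lemma eq_zero_of_fourierCoeff [SecondCountableTopology E] (f : L2 E)
    (h : ∀ n, fourierCoeff f n = 0) : f = 0 := by
  apply Lp.eq_zero_iff_ae_eq_zero.2
  apply ae_eq_zero_of_forall_inner (𝕜 := ℂ)
  intro e
  have h1 : ((innerSL ℂ e).compLp f : L2 ℂ) = 0 := by
    apply (fourierBasis (T := (1 : ℝ))).repr.injective
    ext n
    rw [fourierBasis_repr, fourierCoeff_congr_ae ((innerSL ℂ e).coeFn_compLp' f),
      fourierCoeff_clm_apply _ _ (integrable_L2 f), h n]
    simp
  have h2 := (innerSL ℂ e).coeFn_compLp' f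
  rw [h1] at h2
  filter_upwards [h2, Lp.coeFn_zero ℂ 2 mu] with t h3 h4
  rw [h4] at h3
  simpa using h3.symm

lemma isHilbertSum_mono [SecondCountableTopology E] :
    IsHilbertSum ℂ (fun _ : ℤ => E) (fun n => (monoI n : E →ₗᵢ[ℂ] L2 E)) := by
  refine IsHilbertSum.mk orthogonalFamily_mono ?_
  rw [top_le_iff, Submodule.topologicalClosure_eq_top_iff, eq_bot_iff]
  intro f hf
  rw [Submodule.mem_bot]
  apply eq_zero_of_fourierCoeff
  intro n
  apply ext_inner_left ℂ
  intro e
  rw [inner_zero_right, ← inner_mono]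
  rw [Submodule.mem_orthogonal] at hf
  exact hf _ (Submodule.mem_iSup_of_mem n ⟨e, rfl⟩)

/-- The Fourier transform on `L²(𝕋, E)` as a unitary operator. -/
noncomputable def four [SecondCountableTopology E] : L2 E ≃ₗᵢ[ℂ] lp (fun _ : ℤ => E) 2 :=
  (isHilbertSum_mono (E := E)).linearIsometryEquiv

lemma four_apply [SecondCountableTopology E] (f : L2 E) (n : ℤ) :
    four f n = fourierCoeff f n := by
  apply ext_inner_left ℂ
  intro e
  have h1 := lp.inner_single_left (𝕜 := ℂ) (G := fun _ : ℤ => E) n e (four f)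
  have h2 : (four (E := E)).symm (lp.single 2 n e) = mono n e :=
    (isHilbertSum_mono (E := E)).linearIsometryEquiv_symm_apply_single e
  have h3 := LinearIsometryEquiv.inner_map_map (four (E := E)).symm (lp.single 2 n e) (four f)
  rw [h2, LinearIsometryEquiv.symm_apply_apply, inner_mono] at h3
  rw [h3]
  exact h1.symm

lemma fourierCoeff_four_symm [SecondCountableTopology E] (w : lp (fun _ : ℤ => E) 2) (n : ℤ) :
    fourierCoeff (four.symm w : L2 E) n = w n := by
  rw [← four_apply, LinearIsometryEquiv.apply_symm_apply]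

lemma ext_fourierCoeff [SecondCountableTopology E] {f g : L2 E}
    (h : ∀ n, fourierCoeff f n = fourierCoeff g n) : f = g := by
  apply (four (E := E)).injective
  ext n
  rw [four_apply, four_apply, h n]

lemma hasSum_inner_fourierCoeff [SecondCountableTopology E] (f g : L2 E) :
    HasSum (fun n : ℤ => ⟪fourierCoeff f n, fourierCoeff g n⟫_ℂ) ⟪f, g⟫_ℂ := by
  have h := lp.hasSum_inner (𝕜 := ℂ) (G := fun _ : ℤ => E) (four f) (four g)
  rw [LinearIsometryEquiv.inner_map_map] at h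
  simpa only [four_apply] using h

lemma hasSum_sq_norm_fourierCoeff [SecondCountableTopology E] (f : L2 E) :
    HasSum (fun n : ℤ => ‖fourierCoeff f n‖ ^ 2) (‖f‖ ^ 2) := by
  have h := hasSum_inner_fourierCoeff f f
  simp only [inner_self_eq_norm_sq_to_K] at h
  have h2 := (Complex.reCLM).hasSum h
  convert h2 using 1
  · ext n
    show _ = (((‖fourierCoeff f n‖ : ℂ)) ^ 2).re
    norm_cast
  · show _ = (((‖f‖ : ℂ)) ^ 2).re
    norm_cast

end fourier

end Pool.Agent.Helper917.Hardy
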