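import Mathlib
import Pool.Agent.Helper917.VecL2

set_option autoImplicit false

open MeasureTheory AddCircle Filter Topology
open scoped ComplexConjugate ENNReal InnerProductSpace

namespace Pool.Agent.Helper917.Hardy

section basic

variable {E : Type*} [NormedAddCommGroup E] [InnerProductSpace ℂ E] [CompleteSpace E]

/-- the Fourier coefficient as a continuous linear map -/
noncomputable def coeffL (n : ℤ) : L2 E →L[ℂ] E :=
  ContinuousLinearMap.adjoint (monoI n : E →ₗᵢ[ℂ] L2 E).toContinuousLinearMap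

lemma coeffL_apply (n : ℤ) (f : L2 E) : coeffL n f = fourierCoeff f n := by
  apply ext_inner_left ℂ
  intro e
  rw [coeffL, ContinuousLinearMap.adjoint_inner_right]
  exact inner_mono n e f

variable (E) in
/-- The Hardy space `H²(E)`, as the subspace of `L²(𝕋, E)` of all functions whose Fourier
coefficients of negative index vanish. -/
noncomputable def H2 : Submodule ℂ (L2 E) where
  carrier := {f | ∀ n : ℤ, n < 0 → fourierCoeff f n = 0}
  add_mem' := by
    intro f g hf hg n hn
    rw [← coeffL_apply, map_add, coeffL_apply, coeffL_apply, hf n hn, hg n hn, add_zero]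
  zero_mem' := by
    intro n _
    rw [← coeffL_apply, map_zero]
  smul_mem' := by
    intro c f hf n hn
    rw [← coeffL_apply, map_smul, coeffL_apply, hf n hn, smul_zero]

lemma mem_H2 {f : L2 E} : f ∈ H2 E ↔ ∀ n : ℤ, n < 0 → fourierCoeff f n = 0 := Iff.rfl

lemma isClosed_H2 : IsClosed (H2 E : Set (L2 E)) := by
  have : (H2 E : Set (L2 E)) = ⋂ n : ℤ, ⋂ _ : n < 0, {f | coeffL n f = 0} := by
    ext f
    simp [mem_H2, coeffL_apply]
  rw [this]
  exact isClosed_iInter fun n => isClosed_iInter fun _ =>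
    isClosed_eq (coeffL n).continuous continuous_const

instance : CompleteSpace (H2 E) := isClosed_H2.completeSpace_coe

instance : (H2 E).HasOrthogonalProjection := inferInstance

/-- The Riesz projection `P₊`, the orthogonal projection of `L²(𝕋, E)` onto `H²(E)`. -/
noncomputable def riesz (f : L2 E) : L2 E := (H2 E).starProjection f

/-- The backward shift `f ↦ (f - f(0)) / z`. -/
noncomputable def backShift (f : L2 E) : L2 E :=
  mulC (fourier (-1)) (f - Lp.const 2 mu (fourierCoeff f 0))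

lemma fourierCoeff_add' (f g : L2 E) (n : ℤ) :
    fourierCoeff (f + g : L2 E) n = fourierCoeff f n + fourierCoeff g n := by
  rw [← coeffL_apply, map_add, coeffL_apply, coeffL_apply]

lemma fourierCoeff_sub' (f g : L2 E) (n : ℤ) :
    fourierCoeff (f - g : L2 E) n = fourierCoeff f n - fourierCoeff g n := by
  rw [← coeffL_apply, map_sub, coeffL_apply, coeffL_apply]

lemma fourierCoeff_smul' (c : ℂ) (f : L2 E) (n : ℤ) :
    fourierCoeff (c • f : L2 E) n = c • fourierCoeff f n := by
  rw [← coeffL_apply, map_smul, coeffL_apply]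

lemma norm_fourierCoeff_le (f : L2 E) (n : ℤ) : ‖fourierCoeff f n‖ ≤ ‖f‖ := by
  rw [← coeffL_apply]
  refine (coeffL n).le_of_opNorm_le ?_ f |>.trans (one_mul _).le
  rw [coeffL]
  refine (LinearIsometryEquiv.norm_map ContinuousLinearMap.adjoint _).le.trans ?_
  exact (monoI n : E →ₗᵢ[ℂ] L2 E).norm_toContinuousLinearMap_le

lemma fourierCoeff_mulC_fourier (m n : ℤ) (f : L2 E) :
    fourierCoeff (mulC (fourier m) f : L2 E) n = fourierCoeff f (n - m) := by
  rw [fourierCoeff_congr_ae (coeFn_mulC (fourier m) f)]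
  unfold fourierCoeff
  apply integral_congr_ae
  filter_upwards with t
  rw [smul_smul, ← fourier_add]
  congr 2
  ring

lemma fourierCoeff_const (e : E) (n : ℤ) :
    fourierCoeff (Lp.const 2 mu e : L2 E) n = if n = 0 then e else 0 := by
  rw [← fourierCoeff_mono 0 n e, fourierCoeff_congr_ae (coeFn_mono 0 e),
    fourierCoeff_congr_ae (Lp.coeFn_const (p := 2) (μ := mu) e)]
  unfold fourierCoeff
  simp [fourier_zero]

lemma fourierCoeff_backShift (f : L2 E) (n : ℤ) :
    fourierCoeff (backShift f) n = if n = -1 then 0 else fourierCoeff f (n + 1) := by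
  rw [backShift, fourierCoeff_mulC_fourier, fourierCoeff_sub', fourierCoeff_const]
  by_cases h : n = -1
  · subst h
    simp
  · have h1 : n - -1 ≠ 0 := by omega
    have h2 : n - -1 = n + 1 := by ring
    rw [if_neg h1, if_neg h, sub_zero, h2]

lemma mono_mem_H2 (n : ℤ) (hn : 0 ≤ n) (e : E) : (mono n e : L2 E) ∈ H2 E := by
  intro m hm
  rw [fourierCoeff_mono, if_neg (by omega)]

lemma riesz_mem (f : L2 E) : riesz f ∈ H2 E := (H2 E).starProjection_apply_mem f

lemma fourierCoeff_riesz (f : L2 E) (n : ℤ) :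
    fourierCoeff (riesz f) n = if n < 0 then 0 else fourierCoeff f n := by
  split_ifs with h
  · exact riesz_mem f n h
  · apply ext_inner_left ℂ
    intro e
    rw [← inner_mono, ← inner_mono]
    have h1 := (H2 E).inner_starProjection_left_eq_right (mono n e) f
    rw [riesz, ← h1, Submodule.starProjection_eq_self_iff.2 (mono_mem_H2 n (not_lt.1 h) e)]

lemma riesz_eq_self {f : L2 E} (hf : f ∈ H2 E) : riesz f = f :=
  Submodule.starProjection_eq_self_iff.2 hf

lemma norm_riesz_le (f : L2 E) : ‖riesz f‖ ≤ ‖f‖ :=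
  (H2 E).norm_starProjection_apply_le f

lemma inner_riesz_left {f g : L2 E} (hg : g ∈ H2 E) : ⟪riesz f, g⟫_ℂ = ⟪f, g⟫_ℂ := by
  rw [riesz, (H2 E).inner_starProjection_left_eq_right,
    Submodule.starProjection_eq_self_iff.2 hg]

end basic

section model

variable {E F : Type*} [NormedAddCommGroup E] [InnerProductSpace ℂ E] [CompleteSpace E]
  [NormedAddCommGroup F] [InnerProductSpace ℂ F] [CompleteSpace F]

/-- `θ` is a bounded analytic function on the unit disc with values in the bounded operators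
`E → F`, its (strong, radial) boundary values are given by `Θ`, and `θ` is inner: the boundary
values are isometries almost everywhere. -/
structure IsInner (θ : ℂ → E →L[ℂ] F) (Θ : Circ → E →L[ℂ] F) : Prop where
  analytic : DifferentiableOn ℂ θ (Metric.ball 0 1)
  bounded : ∃ C : ℝ, ∀ z ∈ Metric.ball (0 : ℂ) 1, ‖θ z‖ ≤ C
  boundary : ∀ᵐ t ∂mu, ∀ e : E,
    Tendsto (fun r : ℝ => θ (r * fourier 1 t) e) (𝓝[<] 1) (𝓝 (Θ t e))
  isometric : ∀ᵐ t ∂mu, ∀ e : E, ‖Θ t e‖ = ‖e‖

/-- `θ` is `*`-outer: for `θ~(z) = θ(z̄)*`, whose boundary function is `t ↦ Θ(-t)*`, the set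
`θ~ H²(F)` is dense in `H²(E)`. -/
def IsStarOuter (Θ : Circ → E →L[ℂ] F) : Prop :=
  ∀ f ∈ H2 E, f ∈ closure {g : L2 E | ∃ u ∈ H2 F,
    g =ᵐ[mu] fun t => ContinuousLinearMap.adjoint (Θ (-t)) (u t)}

/-- The model space `K_θ = H²(F) ⊖ θ H²(E)`. -/
def modelSpace (Θ : Circ → E →L[ℂ] F) : Set (L2 F) :=
  {x | x ∈ H2 F ∧ ∀ g : L2 F, (∃ f ∈ H2 E, g =ᵐ[mu] fun t => Θ t (f t)) → ⟪g, x⟫_ℂ = 0}

/-- The kernel of the operator `θ* : L²(F) → L²(E)`, `h ↦ θ(ζ)* h(ζ)`. -/
def kerAdj (Θ : Circ → E →L[ℂ] F) : Set (L2 F) :=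
  {h | ∀ᵐ t ∂mu, ContinuousLinearMap.adjoint (Θ t) (h t) = 0}

/-- `x` is cyclic for `T* = (f ↦ (f - f(0)) / z)` on `K_θ`: the closed linear span of the vectors
`T*ⁿ x`, `n ≥ 0`, is all of `K_θ`. -/
def IsCyclicVector (Θ : Circ → E →L[ℂ] F) (x : L2 F) : Prop :=
  closure (Submodule.span ℂ (Set.range fun n : ℕ => backShift^[n] x) : Set (L2 F)) =
    modelSpace Θ

end model

end Pool.Agent.Helper917.Hardy
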