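import Mathlib
import Pool.Agent.Helper917.VecL2
import Pool.Agent.Helper917.HardyDefs

set_option autoImplicit false

open MeasureTheory AddCircle Filter Topology
open scoped ComplexConjugate ENNReal InnerProductSpace

namespace Pool.Agent.Helper917.Hardy

variable {F : Type*} [NormedAddCommGroup F] [InnerProductSpace ℂ F] [CompleteSpace F]
  [SecondCountableTopology F]

lemma hasSum_int_of_nat {α : Type*} [AddCommMonoid α] [TopologicalSpace α] {f : ℤ → α} {s : α}
    (h0 : ∀ n : ℤ, n < 0 → f n = 0) : HasSum (fun n : ℕ => f n) s ↔ HasSum f s := by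
  have := Function.Injective.hasSum_iff (f := f) (a := s) (g := fun n : ℕ => (n : ℤ))
    Nat.cast_injective (by
    intro x hx
    apply h0
    by_contra hcon
    push Not at hcon
    exact hx ⟨x.toNat, by simp [hcon]⟩)
  exact this

lemma ext_H2 {f g : L2 F} (hf : f ∈ H2 F) (hg : g ∈ H2 F)
    (h : ∀ n : ℕ, fourierCoeff f n = fourierCoeff g n) : f = g := by
  apply ext_fourierCoeff
  intro n
  rcases lt_or_ge n 0 with hn | hn
  · rw [hf n hn, hg n hn]
  · obtain ⟨m, rfl⟩ := Int.eq_ofNat_of_zero_le hn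
    exact h m

lemma hasSum_inner_H2 {f g : L2 F} (hf : f ∈ H2 F) :
    HasSum (fun n : ℕ => ⟪fourierCoeff f n, fourierCoeff g n⟫_ℂ) ⟪f, g⟫_ℂ := by
  rw [hasSum_int_of_nat (f := fun n : ℤ => ⟪fourierCoeff f n, fourierCoeff g n⟫_ℂ)]
  · exact hasSum_inner_fourierCoeff f g
  · intro n hn
    show ⟪fourierCoeff f n, fourierCoeff g n⟫_ℂ = 0
    rw [hf n hn, inner_zero_left]

lemma hasSum_sq_H2 {f : L2 F} (hf : f ∈ H2 F) :
    HasSum (fun n : ℕ => ‖fourierCoeff f n‖ ^ 2) (‖f‖ ^ 2) := by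
  rw [hasSum_int_of_nat (f := fun n : ℤ => ‖fourierCoeff f n‖ ^ 2)]
  · exact hasSum_sq_norm_fourierCoeff f
  · intro n hn
    show ‖fourierCoeff f n‖ ^ 2 = 0
    rw [hf n hn, norm_zero]
    norm_num

lemma exists_H2 (a : ℕ → F) (h : Summable fun n => ‖a n‖ ^ 2) :
    ∃ f ∈ H2 F, ∀ n : ℕ, fourierCoeff f n = a n := by
  let b : ℤ → F := fun n => if 0 ≤ n then a n.toNat else 0
  have hb : Summable fun n : ℤ => ‖b n‖ ^ 2 := by
    have h1 : HasSum (fun n : ℕ => ‖b n‖ ^ 2) (∑' n, ‖a n‖ ^ 2) := by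
      have : (fun n : ℕ => ‖b n‖ ^ 2) = fun n => ‖a n‖ ^ 2 := by
        ext n
        simp [b]
      rw [this]
      exact h.hasSum
    rw [hasSum_int_of_nat (f := fun n : ℤ => ‖b n‖ ^ 2)] at h1
    · exact h1.summable
    · intro n hn
      simp [b, not_le.2 hn]
  have hmem : Memℓp b 2 := by
    rw [memℓp_gen_iff (by norm_num)]
    simpa using hb
  refine ⟨four.symm ⟨b, hmem⟩, ?_, ?_⟩
  · intro n hn
    rw [fourierCoeff_four_symm]
    show b n = 0
    simp [b, not_le.2 hn]
  · intro n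
    rw [fourierCoeff_four_symm]
    show b n = a n
    simp [b]

lemma backShift_mem {f : L2 F} (hf : f ∈ H2 F) : backShift f ∈ H2 F := by
  intro n hn
  rw [fourierCoeff_backShift]
  split_ifs with h
  · rfl
  · exact hf _ (by omega)

lemma riesz_mulC_fourier_neg_one {f : L2 F} (hf : f ∈ H2 F) :
    riesz (mulC (fourier (-1)) f) = backShift f := by
  apply ext_fourierCoeff
  intro n
  rw [fourierCoeff_riesz, fourierCoeff_backShift, fourierCoeff_mulC_fourier]
  split_ifs with h1 h2 h2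
  · rfl
  · rw [hf _ (by omega)]
  · omega
  · congr 1

omit [SecondCountableTopology F] in
lemma fourierCoeff_backShift_nat (f : L2 F) (n : ℕ) :
    fourierCoeff (backShift f) n = fourierCoeff f (n + 1 : ℕ) := by
  rw [fourierCoeff_backShift, if_neg (by omega)]
  norm_cast

omit [SecondCountableTopology F] in
lemma mulC_fourier_mem {f : L2 F} (hf : f ∈ H2 F) (n : ℕ) : mulC (fourier (n : ℤ)) f ∈ H2 F := by
  intro m hm
  rw [fourierCoeff_mulC_fourier]
  exact hf _ (by omega)

end Pool.Agent.Helper917.Hardy
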