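import Mathlib
import Pool.Agent.Helper917.VecL2
import Pool.Agent.Helper917.HardyDefs
import Pool.Agent.Helper917.HardySeq

set_option autoImplicit false

open MeasureTheory AddCircle Filter Topology
open scoped ComplexConjugate ENNReal InnerProductSpace InnerProduct

namespace Pool.Agent.Helper917.Hardy

variable {H E F : Type*} [NormedAddCommGroup H] [InnerProductSpace ℂ H] [CompleteSpace H]
  [NormedAddCommGroup E] [InnerProductSpace ℂ E] [CompleteSpace E]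
  [NormedAddCommGroup F] [InnerProductSpace ℂ F] [CompleteSpace F]

/-- The block operator `(x, f) ↦ (T x + B f, C x + D f)` from `H ⊕ F` to `H ⊕ E` is unitary. -/
structure UColl (T : H →L[ℂ] H) (B : F →L[ℂ] H) (C : H →L[ℂ] E) (D : F →L[ℂ] E) : Prop where
  u11 : ∀ x, (T†) (T x) + (C†) (C x) = x
  u12 : ∀ f, (T†) (B f) + (C†) (D f) = 0
  u21 : ∀ x, (B†) (T x) + (D†) (C x) = 0
  u22 : ∀ f, (B†) (B f) + (D†) (D f) = f
  v11 : ∀ x, T ((T†) x) + B ((B†) x) = x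
  v12 : ∀ g, T ((C†) g) + B ((D†) g) = 0
  v21 : ∀ x, C ((T†) x) + D ((B†) x) = 0
  v22 : ∀ g, C ((C†) g) + D ((D†) g) = g

variable {T : H →L[ℂ] H} {B : F →L[ℂ] H} {C : H →L[ℂ] E} {D : F →L[ℂ] E}

/-- squared norms through the inner product -/
lemma nsq {X : Type*} [NormedAddCommGroup X] [InnerProductSpace ℂ X] (x : X) :
    ((‖x‖ ^ 2 : ℝ) : ℂ) = ⟪x, x⟫_ℂ := by
  rw [inner_self_eq_norm_sq_to_K]
  norm_cast

lemma UColl.norm_adj (hU : UColl T B C D) (x : H) (g : E) :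
    ‖(T†) x + (C†) g‖ ^ 2 + ‖(B†) x + (D†) g‖ ^ 2 = ‖x‖ ^ 2 + ‖g‖ ^ 2 := by
  have key : ⟪(T†) x + (C†) g, (T†) x + (C†) g⟫_ℂ + ⟪(B†) x + (D†) g, (B†) x + (D†) g⟫_ℂ
      = ⟪x, x⟫_ℂ + ⟪g, g⟫_ℂ := by
    have e1 : ⟪x, x⟫_ℂ = ⟪x, T ((T†) x)⟫_ℂ + ⟪x, B ((B†) x)⟫_ℂ := by
      rw [← inner_add_right, hU.v11]
    have e2 : ⟪g, g⟫_ℂ = ⟪g, C ((C†) g)⟫_ℂ + ⟪g, D ((D†) g)⟫_ℂ := by
      rw [← inner_add_right, hU.v22]
    have e3 : ⟪x, T ((C†) g)⟫_ℂ + ⟪x, B ((D†) g)⟫_ℂ = 0 := by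
      rw [← inner_add_right, hU.v12, inner_zero_right]
    have e4 : ⟪g, C ((T†) x)⟫_ℂ + ⟪g, D ((B†) x)⟫_ℂ = 0 := by
      rw [← inner_add_right, hU.v21, inner_zero_right]
    simp only [inner_add_left, inner_add_right, ContinuousLinearMap.adjoint_inner_left]
    rw [e1, e2]
    linear_combination e3 + e4
  rw [← nsq, ← nsq, ← nsq, ← nsq] at key
  exact_mod_cast key

lemma UColl.norm_fwd (hU : UColl T B C D) (x : H) (f : F) :
    ‖T x + B f‖ ^ 2 + ‖C x + D f‖ ^ 2 = ‖x‖ ^ 2 + ‖f‖ ^ 2 := by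
  have key : ⟪T x + B f, T x + B f⟫_ℂ + ⟪C x + D f, C x + D f⟫_ℂ
      = ⟪x, x⟫_ℂ + ⟪f, f⟫_ℂ := by
    have e1 : ⟪x, x⟫_ℂ = ⟪x, (T†) (T x)⟫_ℂ + ⟪x, (C†) (C x)⟫_ℂ := by
      rw [← inner_add_right, hU.u11]
    have e2 : ⟪f, f⟫_ℂ = ⟪f, (B†) (B f)⟫_ℂ + ⟪f, (D†) (D f)⟫_ℂ := by
      rw [← inner_add_right, hU.u22]
    have e3 : ⟪x, (T†) (B f)⟫_ℂ + ⟪x, (C†) (D f)⟫_ℂ = 0 := by
      rw [← inner_add_right, hU.u12, inner_zero_right]
    have e4 : ⟪f, (B†) (T x)⟫_ℂ + ⟪f, (D†) (C x)⟫_ℂ = 0 := by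
      rw [← inner_add_right, hU.u21, inner_zero_right]
    rw [e1, e2]
    simp only [inner_add_left, inner_add_right, ContinuousLinearMap.adjoint_inner_right] at *
    linear_combination e3 + e4
  rw [← nsq, ← nsq, ← nsq, ← nsq] at key
  exact_mod_cast key

lemma UColl.norm_Bstar (hU : UColl T B C D) (x : H) :
    ‖(B†) x‖ ^ 2 = ‖x‖ ^ 2 - ‖(T†) x‖ ^ 2 := by
  have := hU.norm_adj x 0
  simp at this
  linarith

lemma UColl.norm_T_adj_le (hU : UColl T B C D) : ‖(T†)‖ ≤ 1 := by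
  apply ContinuousLinearMap.opNorm_le_bound _ zero_le_one
  intro x
  have := hU.norm_Bstar x
  rw [one_mul]
  apply le_of_sq_le_sq _ (norm_nonneg _)
  nlinarith [sq_nonneg ‖(B†) x‖]

/-- `R_z = (1 - z T*)⁻¹ C*` -/
noncomputable def Rz (T : H →L[ℂ] H) (C : H →L[ℂ] E) (z : ℂ) : E →L[ℂ] H :=
  (Ring.inverse (1 - z • (T†))) ∘L (C†)

/-- `θ(z) = D* + z B* R_z` -/
noncomputable def th (T : H →L[ℂ] H) (B : F →L[ℂ] H) (C : H →L[ℂ] E) (D : F →L[ℂ] E) (z : ℂ) :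
    E →L[ℂ] F :=
  (D†) + z • ((B†) ∘L Rz T C z)

lemma UColl.isUnit (hU : UColl T B C D) {z : ℂ} (hz : ‖z‖ < 1) : IsUnit (1 - z • (T†)) := by
  apply isUnit_one_sub_of_norm_lt_one
  rw [norm_smul]
  calc ‖z‖ * ‖(T†)‖ ≤ ‖z‖ * 1 := by gcongr; exact hU.norm_T_adj_le
    _ < 1 := by rw [mul_one]; exact hz

lemma UColl.Rz_eq (hU : UColl T B C D) {z : ℂ} (hz : ‖z‖ < 1) (g : E) :
    Rz T C z g = (C†) g + z • (T†) (Rz T C z g) := by
  have h1 := Ring.mul_inverse_cancel _ (hU.isUnit hz)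
  have h2 := congrArg (fun A : H →L[ℂ] H => A ((C†) g)) h1
  simp only [ContinuousLinearMap.mul_apply, ContinuousLinearMap.sub_apply,
    ContinuousLinearMap.smul_apply, ContinuousLinearMap.one_apply] at h2
  rw [← h2]
  simp [Rz]

/-- basic norm identity -/
lemma UColl.norm_th_aux (hU : UColl T B C D) {z : ℂ} {R : H} {g : E}
    (hR : R = (C†) g + z • (T†) R) :
    ‖R‖ ^ 2 + ‖(D†) g + z • (B†) R‖ ^ 2 = ‖z‖ ^ 2 * ‖R‖ ^ 2 + ‖g‖ ^ 2 := by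
  have h1 := hU.norm_adj (z • R) g
  rw [map_smul, map_smul, norm_smul, mul_pow] at h1
  rw [← h1]
  congr 2
  · conv_lhs => rw [hR]
    rw [add_comm]
  · rw [add_comm]

lemma UColl.norm_th_le (hU : UColl T B C D) {z : ℂ} (hz : ‖z‖ < 1) (g : E) :
    ‖th T B C D z g‖ ≤ ‖g‖ := by
  have h1 := hU.norm_th_aux (hU.Rz_eq hz g)
  have h2 : th T B C D z g = (D†) g + z • (B†) (Rz T C z g) := rfl
  rw [← h2] at h1
  have h3 : ‖z‖ ^ 2 ≤ 1 := by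
    have := norm_nonneg z
    nlinarith
  apply le_of_sq_le_sq _ (norm_nonneg _)
  nlinarith [sq_nonneg ‖Rz T C z g‖]

lemma UColl.norm_th_le' (hU : UColl T B C D) {z : ℂ} (hz : ‖z‖ < 1) :
    ‖th T B C D z‖ ≤ 1 := by
  apply ContinuousLinearMap.opNorm_le_bound _ zero_le_one
  intro g
  rw [one_mul]
  exact hU.norm_th_le hz g

lemma UColl.differentiableAt_Rz (hU : UColl T B C D) {z : ℂ} (hz : ‖z‖ < 1) :
    DifferentiableAt ℂ (Rz T C) z := by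
  have h1 : DifferentiableAt ℂ (fun z : ℂ => (1 : H →L[ℂ] H) - z • (T†)) z := by fun_prop
  have h2 : DifferentiableAt ℂ (fun z : ℂ => Ring.inverse ((1 : H →L[ℂ] H) - z • (T†))) z := by
    have h3 := differentiableAt_inverse (𝕜 := ℂ) (hU.isUnit hz)
    exact h3.comp z h1
  exact h2.clm_comp (differentiableAt_const _)

lemma UColl.differentiableAt_th (hU : UColl T B C D) {z : ℂ} (hz : ‖z‖ < 1) :
    DifferentiableAt ℂ (th T B C D) z := by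
  have h1 := hU.differentiableAt_Rz hz
  have h2 : DifferentiableAt ℂ (fun z => (B†) ∘L Rz T C z) z :=
    (differentiableAt_const _).clm_comp h1
  unfold th
  fun_prop

end Pool.Agent.Helper917.Hardy
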