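import Mathlib
import Pool.Agent.Helper917.VecL2
import Pool.Agent.Helper917.HardyDefs
import Pool.Agent.Helper917.HardySeq
import Pool.Agent.Helper917.Collig

set_option autoImplicit false

open MeasureTheory AddCircle Filter Topology
open scoped ComplexConjugate ENNReal InnerProductSpace InnerProduct

namespace Pool.Agent.Helper917.Hardy

variable {H E F : Type*} [NormedAddCommGroup H] [InnerProductSpace ℂ H] [CompleteSpace H]
  [NormedAddCommGroup E] [InnerProductSpace ℂ E] [CompleteSpace E]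
  [NormedAddCommGroup F] [InnerProductSpace ℂ F] [CompleteSpace F]

variable {T : H →L[ℂ] H} {B : F →L[ℂ] H} {C : H →L[ℂ] E} {D : F →L[ℂ] E}

/-- `Rb` gives the radial boundary values of `R_z` almost everywhere, in operator norm. -/
def HasBd (T : H →L[ℂ] H) (C : H →L[ℂ] E) (Rb : Circ → E →L[ℂ] H) : Prop :=
  ∀ᵐ t ∂mu, Tendsto (fun r : ℝ => Rz T C (r * fourier 1 t)) (𝓝[<] 1) (𝓝 (Rb t))

/-- the boundary function -/
noncomputable def Th (B : F →L[ℂ] H) (D : F →L[ℂ] E) (Rb : Circ → E →L[ℂ] H) (t : Circ) :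
    E →L[ℂ] F :=
  (D†) + (fourier 1 t : ℂ) • ((B†) ∘L Rb t)

lemma norm_fourier_apply (n : ℤ) (t : Circ) : ‖(fourier n t : ℂ)‖ = 1 := by
  rw [fourier_apply, Circle.norm_coe]

lemma norm_r_fourier {r : ℝ} (h0 : 0 ≤ r) (t : Circ) : ‖(r * fourier 1 t : ℂ)‖ = r := by
  rw [norm_mul, norm_fourier_apply, mul_one, Complex.norm_real, Real.norm_of_nonneg h0]

lemma eventually_Ioo : ∀ᶠ r : ℝ in 𝓝[<] 1, r ∈ Set.Ioo (0 : ℝ) 1 :=
  Ioo_mem_nhdsLT one_pos

variable {Rb : Circ → E →L[ℂ] H}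

lemma tendsto_ofReal_one : Tendsto (fun r : ℝ => (r : ℂ)) (𝓝[<] 1) (𝓝 1) := by
  have : Tendsto (fun r : ℝ => (r : ℂ)) (𝓝 1) (𝓝 ((1 : ℝ) : ℂ)) :=
    (Complex.continuous_ofReal.tendsto 1)
  rw [Complex.ofReal_one] at this
  exact this.mono_left nhdsWithin_le_nhds

lemma HasBd.tendsto_th (hb : HasBd T C Rb) : ∀ᵐ t ∂mu,
    Tendsto (fun r : ℝ => th T B C D (r * fourier 1 t)) (𝓝[<] 1) (𝓝 (Th B D Rb t)) := by
  filter_upwards [hb] with t ht
  unfold th Th
  have h1 : Tendsto (fun r : ℝ => (r * fourier 1 t : ℂ)) (𝓝[<] 1) (𝓝 (1 * fourier 1 t)) :=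
    tendsto_ofReal_one.mul_const _
  rw [one_mul] at h1
  have h2 : Tendsto (fun r : ℝ => (B†) ∘L Rz T C (r * fourier 1 t)) (𝓝[<] 1)
      (𝓝 ((B†) ∘L Rb t)) :=
    ((ContinuousLinearMap.compL ℂ E H F (B†)).continuous.tendsto _).comp ht
  exact tendsto_const_nhds.add (h1.smul h2)

lemma HasBd.Rb_eq (hb : HasBd T C Rb) (hU : UColl T B C D) : ∀ᵐ t ∂mu, ∀ g,
    Rb t g = (C†) g + (fourier 1 t : ℂ) • (T†) (Rb t g) := by
  filter_upwards [hb] with t ht g
  have h1 : Tendsto (fun r : ℝ => (r * fourier 1 t : ℂ)) (𝓝[<] 1) (𝓝 (1 * fourier 1 t)) :=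
    tendsto_ofReal_one.mul_const _
  rw [one_mul] at h1
  have h2 : Tendsto (fun r : ℝ => Rz T C (r * fourier 1 t) g) (𝓝[<] 1) (𝓝 (Rb t g)) :=
    ((ContinuousLinearMap.apply ℂ H g).continuous.tendsto _).comp ht
  have h3 : Tendsto (fun r : ℝ => (C†) g + (r * fourier 1 t : ℂ) •
      (T†) (Rz T C (r * fourier 1 t) g)) (𝓝[<] 1)
      (𝓝 ((C†) g + (fourier 1 t : ℂ) • (T†) (Rb t g))) :=
    tendsto_const_nhds.add (h1.smul (((T†).continuous.tendsto _).comp h2))
  refine tendsto_nhds_unique (h2.congr' ?_) h3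
  filter_upwards [eventually_Ioo] with r hr
  exact hU.Rz_eq (by rw [norm_r_fourier hr.1.le]; exact hr.2) g

lemma HasBd.norm_Th (hb : HasBd T C Rb) (hU : UColl T B C D) : ∀ᵐ t ∂mu, ∀ g,
    ‖Th B D Rb t g‖ = ‖g‖ := by
  filter_upwards [hb.Rb_eq hU] with t ht g
  have h1 := hU.norm_th_aux (ht g)
  rw [norm_fourier_apply, one_pow, one_mul] at h1
  have h2 : Th B D Rb t g = (D†) g + (fourier 1 t : ℂ) • (B†) (Rb t g) := rfl
  rw [h2]
  refine (pow_left_inj₀ (norm_nonneg _) (norm_nonneg _) two_ne_zero).1 ?_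
  linarith

lemma UColl.continuous_th_circ (hU : UColl T B C D) {r : ℝ} (hr : r ∈ Set.Ioo (0 : ℝ) 1) :
    Continuous fun t : Circ => th T B C D (r * fourier 1 t) := by
  rw [continuous_iff_continuousAt]
  intro t
  have h1 : ContinuousAt (th T B C D) (r * fourier 1 t) :=
    (hU.differentiableAt_th (by rw [norm_r_fourier hr.1.le]; exact hr.2)).continuousAt
  exact h1.comp (f := fun t : Circ => (r * fourier 1 t : ℂ))
    (continuous_const.mul (fourier 1).continuous).continuousAt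

lemma UColl.continuous_Rz_circ (hU : UColl T B C D) {r : ℝ} (hr : r ∈ Set.Ioo (0 : ℝ) 1) :
    Continuous fun t : Circ => Rz T C (r * fourier 1 t) := by
  rw [continuous_iff_continuousAt]
  intro t
  have h1 : ContinuousAt (Rz T C) (r * fourier 1 t) :=
    (hU.differentiableAt_Rz (by rw [norm_r_fourier hr.1.le]; exact hr.2)).continuousAt
  exact h1.comp (f := fun t : Circ => (r * fourier 1 t : ℂ))
    (continuous_const.mul (fourier 1).continuous).continuousAt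

/-- a sequence of radii tending to `1` -/
lemma exists_radii : ∃ ρ : ℕ → ℝ, (∀ n, ρ n ∈ Set.Ioo (0 : ℝ) 1) ∧ Tendsto ρ atTop (𝓝[<] 1) := by
  refine ⟨fun n => 1 - 1 / ((n : ℝ) + 2), fun n => ⟨?_, ?_⟩, ?_⟩
  · have h1 : (0 : ℝ) < (n : ℝ) + 2 := by positivity
    have h2 : 1 / ((n : ℝ) + 2) < 1 := by
      rw [div_lt_one h1]
      have : (0 : ℝ) ≤ n := by positivity
      linarith
    linarith
  · have : (0 : ℝ) < 1 / ((n : ℝ) + 2) := by positivity
    linarith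
  · rw [tendsto_nhdsWithin_iff]
    constructor
    · have h1 : Tendsto (fun n : ℕ => 1 / ((n : ℝ) + 2)) atTop (𝓝 0) := by
        have := tendsto_one_div_add_atTop_nhds_zero_nat (𝕜 := ℝ)
        have h2 := (tendsto_add_atTop_iff_nat 1).2 this
        refine h2.congr fun n => ?_
        push_cast
        ring
      simpa using (tendsto_const_nhds (x := (1 : ℝ))).sub h1
    · filter_upwards with n
      have : (0 : ℝ) < 1 / ((n : ℝ) + 2) := by positivity
      show 1 - 1 / ((n : ℝ) + 2) < 1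
      linarith

lemma HasBd.aesm (hb : HasBd T C Rb) (hU : UColl T B C D) :
    AEStronglyMeasurable (Th B D Rb) mu := by
  obtain ⟨ρ, h1, h2⟩ := exists_radii
  refine aestronglyMeasurable_of_tendsto_ae (u := atTop)
    (f := fun n t => th T B C D (ρ n * fourier 1 t)) (fun n => ?_) ?_
  · exact (hU.continuous_th_circ (h1 n)).aestronglyMeasurable
  · filter_upwards [hb.tendsto_th (B := B) (D := D)] with t ht
    exact ht.comp h2

lemma HasBd.norm_le (hb : HasBd T C Rb) (hU : UColl T B C D) :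
    ∀ᵐ t ∂mu, ‖Th B D Rb t‖ ≤ 1 := by
  filter_upwards [hb.norm_Th hU] with t ht
  apply ContinuousLinearMap.opNorm_le_bound _ zero_le_one
  intro g
  rw [ht, one_mul]

/-- The multiplication operator by the boundary function. -/
noncomputable def MTh (hU : UColl T B C D) (hb : HasBd T C Rb) : L2 E →L[ℂ] L2 F :=
  mulOp (Th B D Rb) (hb.aesm hU) 1 (hb.norm_le hU)

lemma coeFn_MTh (hU : UColl T B C D) (hb : HasBd T C Rb) (f : L2 E) :
    MTh hU hb f =ᵐ[mu] fun t => Th B D Rb t (f t) := coeFn_mulOp _ _ _ _ f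

lemma norm_MTh (hU : UColl T B C D) (hb : HasBd T C Rb) (f : L2 E) :
    ‖MTh hU hb f‖ = ‖f‖ := by
  have key : ⟪MTh hU hb f, MTh hU hb f⟫_ℂ = ⟪f, f⟫_ℂ := by
    rw [L2.inner_def, L2.inner_def]
    apply integral_congr_ae
    filter_upwards [coeFn_MTh hU hb f, hb.norm_Th hU] with t h1 h2
    rw [h1, ← nsq, ← nsq, h2]
  rw [← nsq, ← nsq] at key
  have h2 : ‖MTh hU hb f‖ ^ 2 = ‖f‖ ^ 2 := by exact_mod_cast key
  exact (pow_left_inj₀ (norm_nonneg _) (norm_nonneg _) two_ne_zero).1 h2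

lemma inner_MTh (hU : UColl T B C D) (hb : HasBd T C Rb) (f g : L2 E) :
    ⟪MTh hU hb f, MTh hU hb g⟫_ℂ = ⟪f, g⟫_ℂ :=
  (LinearMap.norm_map_iff_inner_map_map (MTh hU hb)).1 (norm_MTh hU hb) f g

lemma MTh_mulC (hU : UColl T B C D) (hb : HasBd T C Rb) (m : C(Circ, ℂ)) (f : L2 E) :
    MTh hU hb (mulC m f) = mulC m (MTh hU hb f) := by
  apply Lp.ext
  filter_upwards [coeFn_MTh hU hb (mulC m f), coeFn_mulC m f, coeFn_mulC m (MTh hU hb f),
    coeFn_MTh hU hb f] with t h1 h2 h3 h4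
  rw [h1, h2, h3, h4, map_smul]

/-- applying a fixed operator -/
noncomputable def cL {X Y : Type*} [NormedAddCommGroup X] [NormedSpace ℂ X]
    [NormedAddCommGroup Y] [NormedSpace ℂ Y] (A : X →L[ℂ] Y) : L2 X →L[ℂ] L2 Y :=
  A.compLpL 2 mu

lemma coeFn_cL {X Y : Type*} [NormedAddCommGroup X] [NormedSpace ℂ X]
    [NormedAddCommGroup Y] [NormedSpace ℂ Y] (A : X →L[ℂ] Y) (f : L2 X) :
    cL A f =ᵐ[mu] fun t => A (f t) := A.coeFn_compLpL f

lemma fourierCoeff_cL {X Y : Type*} [NormedAddCommGroup X] [InnerProductSpace ℂ X]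
    [CompleteSpace X] [NormedAddCommGroup Y] [InnerProductSpace ℂ Y] [CompleteSpace Y]
    (A : X →L[ℂ] Y) (f : L2 X) (n : ℤ) :
    fourierCoeff (cL A f) n = A (fourierCoeff f n) := by
  rw [fourierCoeff_congr_ae (coeFn_cL A f)]
  exact fourierCoeff_clm_apply A f (integrable_L2 f) n

/-- the states of the system -/
noncomputable def stt (T : H →L[ℂ] H) (C : H →L[ℂ] E) (v : ℕ → E) (r : ℂ) : ℕ → H
  | 0 => 0
  | (k + 1) => r • ((C†) (v k) + (T†) (stt T C v r k))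

lemma tendsto_stt (v : ℕ → E) (k : ℕ) :
    Tendsto (fun r : ℝ => stt T C v r k) (𝓝[<] 1) (𝓝 (stt T C v 1 k)) := by
  induction k with
  | zero => exact tendsto_const_nhds
  | succ k ih =>
    simp only [stt]
    exact tendsto_ofReal_one.smul (tendsto_const_nhds.add (((T†).continuous.tendsto _).comp ih))

/-- `W_r = R_{rζ} v` -/
noncomputable def Wr (hU : UColl T B C D) {r : ℝ} (hr : r ∈ Set.Ioo (0 : ℝ) 1) :
    L2 E →L[ℂ] L2 H :=
  mulOp (fun t => Rz T C (r * fourier 1 t)) (hU.continuous_Rz_circ hr).aestronglyMeasurable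
    ‖(⟨_, hU.continuous_Rz_circ hr⟩ : C(Circ, E →L[ℂ] H))‖
    (ae_of_all _ fun t =>
      (⟨_, hU.continuous_Rz_circ hr⟩ : C(Circ, E →L[ℂ] H)).norm_coe_le_norm t)

lemma coeFn_Wr (hU : UColl T B C D) {r : ℝ} (hr : r ∈ Set.Ioo (0 : ℝ) 1) (v : L2 E) :
    Wr hU hr v =ᵐ[mu] fun t => Rz T C (r * fourier 1 t) (v t) := coeFn_mulOp _ _ _ _ v

lemma Wr_eq (hU : UColl T B C D) {r : ℝ} (hr : r ∈ Set.Ioo (0 : ℝ) 1) (v : L2 E) :
    Wr hU hr v = cL (C†) v + (r : ℂ) • mulC (fourier 1) (cL (T†) (Wr hU hr v)) := by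
  apply Lp.ext
  filter_upwards [coeFn_Wr hU hr v, coeFn_cL (C†) v, coeFn_cL (T†) (Wr hU hr v),
    coeFn_mulC (fourier 1) (cL (T†) (Wr hU hr v)),
    Lp.coeFn_smul (r : ℂ) (mulC (fourier 1) (cL (T†) (Wr hU hr v))),
    Lp.coeFn_add (cL (C†) v) ((r : ℂ) • mulC (fourier 1) (cL (T†) (Wr hU hr v)))]
    with t h1 h2 h3 h4 h5 h6
  rw [h6, Pi.add_apply, h5, Pi.smul_apply, h4, h3, h2, h1, smul_smul]
  exact hU.Rz_eq (by rw [norm_r_fourier hr.1.le]; exact hr.2) (v t)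

lemma fourierCoeff_Wr (hU : UColl T B C D) {r : ℝ} (hr : r ∈ Set.Ioo (0 : ℝ) 1) (v : L2 E)
    (k : ℤ) : fourierCoeff (Wr hU hr v) k =
      (C†) (fourierCoeff v k) + (r : ℂ) • (T†) (fourierCoeff (Wr hU hr v) (k - 1)) := by
  conv_lhs => rw [Wr_eq hU hr v]
  rw [fourierCoeff_add', fourierCoeff_smul', fourierCoeff_mulC_fourier, fourierCoeff_cL,
    fourierCoeff_cL]

lemma fourierCoeff_Wr_neg (hU : UColl T B C D) {r : ℝ} (hr : r ∈ Set.Ioo (0 : ℝ) 1) {v : L2 E}
    (hv : v ∈ H2 E) (k : ℤ) (hk : k < 0) : fourierCoeff (Wr hU hr v) k = 0 := by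
  have key : ∀ j : ℕ, ∀ k : ℤ, k < 0 → ‖fourierCoeff (Wr hU hr v) k‖ ≤ r ^ j * ‖Wr hU hr v‖ := by
    intro j
    induction j with
    | zero =>
      intro k _
      rw [pow_zero, one_mul]
      exact norm_fourierCoeff_le _ _
    | succ j ih =>
      intro k hk
      rw [fourierCoeff_Wr, hv k hk, map_zero, zero_add, norm_smul, Complex.norm_real,
        Real.norm_of_nonneg hr.1.le]
      have h1 := ih (k - 1) (by omega)
      have h2 : ‖(T†) (fourierCoeff (Wr hU hr v) (k - 1))‖ ≤ 1 * _ :=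
        (T†).le_of_opNorm_le hU.norm_T_adj_le _
      rw [one_mul] at h2
      calc r * ‖(T†) (fourierCoeff (Wr hU hr v) (k - 1))‖ ≤ r * (r ^ j * ‖Wr hU hr v‖) := by
            have := hr.1.le
            gcongr
            exact h2.trans h1
        _ = r ^ (j + 1) * ‖Wr hU hr v‖ := by ring
  have h1 : Tendsto (fun j : ℕ => r ^ j * ‖Wr hU hr v‖) atTop (𝓝 (0 * ‖Wr hU hr v‖)) :=
    (tendsto_pow_atTop_nhds_zero_of_lt_one hr.1.le hr.2).mul_const _
  rw [zero_mul] at h1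
  have h2 : ‖fourierCoeff (Wr hU hr v) k‖ ≤ 0 :=
    ge_of_tendsto h1 (Eventually.of_forall fun j => key j k hk)
  exact norm_le_zero_iff.1 h2

lemma stt_eq (hU : UColl T B C D) {r : ℝ} (hr : r ∈ Set.Ioo (0 : ℝ) 1) {v : L2 E}
    (hv : v ∈ H2 E) (k : ℕ) :
    (r : ℂ) • fourierCoeff (Wr hU hr v) ((k : ℤ) - 1) =
      stt T C (fun n => fourierCoeff v n) r k := by
  induction k with
  | zero =>
    rw [fourierCoeff_Wr_neg hU hr hv _ (by simp)]
    simp [stt]
  | succ k ih =>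
    have e : (((k + 1 : ℕ) : ℤ) - 1) = k := by push_cast; ring
    rw [e, fourierCoeff_Wr, ← map_smul, ih]
    rfl

/-- coefficients of `θ(rζ) v(ζ)` -/
lemma fourierCoeff_thr (hU : UColl T B C D) {r : ℝ} (hr : r ∈ Set.Ioo (0 : ℝ) 1) {v : L2 E}
    (hv : v ∈ H2 E) (k : ℤ) :
    fourierCoeff (fun t => th T B C D (r * fourier 1 t) (v t)) k =
      (D†) (fourierCoeff v k) + (B†) ((r : ℂ) • fourierCoeff (Wr hU hr v) (k - 1)) := by
  have h0 : (fun t => th T B C D (r * fourier 1 t) (v t)) =ᵐ[mu]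
      (cL (D†) v + (r : ℂ) • mulC (fourier 1) (cL (B†) (Wr hU hr v)) : L2 F) := by
    filter_upwards [coeFn_Wr hU hr v, coeFn_cL (D†) v, coeFn_cL (B†) (Wr hU hr v),
      coeFn_mulC (fourier 1) (cL (B†) (Wr hU hr v)),
      Lp.coeFn_smul (r : ℂ) (mulC (fourier 1) (cL (B†) (Wr hU hr v))),
      Lp.coeFn_add (cL (D†) v) ((r : ℂ) • mulC (fourier 1) (cL (B†) (Wr hU hr v)))]
      with t h1 h2 h3 h4 h5 h6
    rw [h6, Pi.add_apply, h5, Pi.smul_apply, h4, h3, h2, h1, smul_smul]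
    rfl
  rw [fourierCoeff_congr_ae h0, fourierCoeff_add', fourierCoeff_smul', fourierCoeff_mulC_fourier,
    fourierCoeff_cL, fourierCoeff_cL, map_smul]

lemma tendsto_fourierCoeff_thr (hU : UColl T B C D) (hb : HasBd T C Rb) (v : L2 E) (k : ℤ) :
    Tendsto (fun r : ℝ => fourierCoeff (fun t => th T B C D (r * fourier 1 t) (v t)) k)
      (𝓝[<] 1) (𝓝 (fourierCoeff (MTh hU hb v) k)) := by
  rw [fourierCoeff_congr_ae (coeFn_MTh hU hb v)]
  unfold fourierCoeff
  refine tendsto_integral_filter_of_dominated_convergence (fun t => ‖v t‖) ?_ ?_ ?_ ?_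
  · filter_upwards [eventually_Ioo] with r hr
    exact ((fourier (-k)).continuous.aestronglyMeasurable).smul
      (aesm_apply (hU.continuous_th_circ hr).aestronglyMeasurable (Lp.aestronglyMeasurable v))
  · filter_upwards [eventually_Ioo] with r hr
    filter_upwards with t
    rw [norm_smul, norm_fourier_apply, one_mul]
    exact hU.norm_th_le (by rw [norm_r_fourier hr.1.le]; exact hr.2) _
  · exact (integrable_L2 v).norm
  · filter_upwards [hb.tendsto_th (B := B) (D := D)] with t ht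
    exact tendsto_const_nhds.smul (((ContinuousLinearMap.apply ℂ F (v t)).continuous.tendsto _).comp ht)

/-- coefficients of `Θ v` for `v ∈ H²(E)` -/
theorem fourierCoeff_MTh (hU : UColl T B C D) (hb : HasBd T C Rb) {v : L2 E} (hv : v ∈ H2 E)
    (k : ℕ) : fourierCoeff (MTh hU hb v) k =
      (D†) (fourierCoeff v k) + (B†) (stt T C (fun n => fourierCoeff v n) 1 k) := by
  refine tendsto_nhds_unique (tendsto_fourierCoeff_thr hU hb v k) ?_
  have h1 : Tendsto (fun r : ℝ => (D†) (fourierCoeff v k) +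
      (B†) (stt T C (fun n => fourierCoeff v n) r k)) (𝓝[<] 1)
      (𝓝 ((D†) (fourierCoeff v k) + (B†) (stt T C (fun n => fourierCoeff v n) 1 k))) :=
    tendsto_const_nhds.add (((B†).continuous.tendsto _).comp (tendsto_stt _ _))
  refine h1.congr' ?_
  filter_upwards [eventually_Ioo] with r hr
  rw [fourierCoeff_thr hU hr hv, stt_eq hU hr hv]

theorem MTh_mem_H2 (hU : UColl T B C D) (hb : HasBd T C Rb) {v : L2 E} (hv : v ∈ H2 E) :
    MTh hU hb v ∈ H2 F := by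
  intro k hk
  refine tendsto_nhds_unique (tendsto_fourierCoeff_thr hU hb v k) ?_
  refine tendsto_const_nhds.congr' ?_
  filter_upwards [eventually_Ioo] with r hr
  rw [fourierCoeff_thr hU hr hv, hv k hk, fourierCoeff_Wr_neg hU hr hv _ (by omega)]
  simp

end Pool.Agent.Helper917.Hardy
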