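import Mathlib
import Pool.Agent.Helper917.VecL2
import Pool.Agent.Helper917.HardyDefs
import Pool.Agent.Helper917.Collig

set_option autoImplicit false

open MeasureTheory AddCircle Filter Topology
open scoped ComplexConjugate ENNReal InnerProductSpace InnerProduct

namespace Pool.Agent.Helper917.Hardy

variable {H E : Type*} [NormedAddCommGroup H] [InnerProductSpace ℂ H] [CompleteSpace H]
  [NormedAddCommGroup E] [InnerProductSpace ℂ E] [CompleteSpace E]

/-- the space `{(a, b) : T* a + C* b = 0}`, the orthogonal complement of `{(T x, C x)}` -/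
noncomputable def Fs (T : H →L[ℂ] H) (C : H →L[ℂ] E) : Submodule ℂ (WithLp 2 (H × E)) :=
  LinearMap.ker ((T†) ∘L (WithLp.fstL 2 ℂ H E) + (C†) ∘L (WithLp.sndL 2 ℂ H E)).toLinearMap

lemma mem_Fs {T : H →L[ℂ] H} {C : H →L[ℂ] E} (p : WithLp 2 (H × E)) :
    p ∈ Fs T C ↔ (T†) p.fst + (C†) p.snd = 0 := Iff.rfl

instance (T : H →L[ℂ] H) (C : H →L[ℂ] E) : CompleteSpace (Fs T C) :=
  (ContinuousLinearMap.isClosed_ker _).completeSpace_coe

/-- first coordinate -/
noncomputable def Bc (T : H →L[ℂ] H) (C : H →L[ℂ] E) : Fs T C →L[ℂ] H :=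
  (WithLp.fstL 2 ℂ H E) ∘L (Fs T C).subtypeL

/-- second coordinate -/
noncomputable def Dc (T : H →L[ℂ] H) (C : H →L[ℂ] E) : Fs T C →L[ℂ] E :=
  (WithLp.sndL 2 ℂ H E) ∘L (Fs T C).subtypeL

lemma Bc_apply (T : H →L[ℂ] H) (C : H →L[ℂ] E) (f : Fs T C) :
    Bc T C f = (f : WithLp 2 (H × E)).fst := rfl

lemma Dc_apply (T : H →L[ℂ] H) (C : H →L[ℂ] E) (f : Fs T C) :
    Dc T C f = (f : WithLp 2 (H × E)).snd := rfl

variable {T : H →L[ℂ] H} {C : H →L[ℂ] E}

lemma Bc_adj (hV : ∀ x, (T†) (T x) + (C†) (C x) = x) (x : H) :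
    (((Bc T C)†) x : WithLp 2 (H × E)) = WithLp.toLp 2 (x - T ((T†) x), -C ((T†) x)) := by
  have hmem : WithLp.toLp 2 (x - T ((T†) x), -C ((T†) x)) ∈ Fs T C := by
    rw [mem_Fs]
    show (T†) (x - T ((T†) x)) + (C†) (-C ((T†) x)) = 0
    rw [map_sub, map_neg]
    have := hV ((T†) x)
    rw [← sub_eq_add_neg, sub_sub, this, sub_self]
  have : ((Bc T C)†) x = ⟨_, hmem⟩ := by
    apply ext_inner_left ℂ
    intro f
    rw [ContinuousLinearMap.adjoint_inner_right]
    show ⟪(f : WithLp 2 (H × E)).fst, x⟫_ℂ =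
      ⟪(f : WithLp 2 (H × E)).fst, x - T ((T†) x)⟫_ℂ + ⟪(f : WithLp 2 (H × E)).snd, -C ((T†) x)⟫_ℂ
    have hf := (mem_Fs (f : WithLp 2 (H × E))).1 f.2
    have h1 : ⟪(T†) (f : WithLp 2 (H × E)).fst + (C†) (f : WithLp 2 (H × E)).snd, (T†) x⟫_ℂ = 0 := by
      rw [hf, inner_zero_left]
    rw [inner_add_left, ContinuousLinearMap.adjoint_inner_left,
      ContinuousLinearMap.adjoint_inner_left] at h1
    rw [inner_sub_right, inner_neg_right]
    linear_combination h1
  rw [this]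

lemma Dc_adj (hV : ∀ x, (T†) (T x) + (C†) (C x) = x) (g : E) :
    (((Dc T C)†) g : WithLp 2 (H × E)) = WithLp.toLp 2 (-T ((C†) g), g - C ((C†) g)) := by
  have hmem : WithLp.toLp 2 (-T ((C†) g), g - C ((C†) g)) ∈ Fs T C := by
    rw [mem_Fs]
    show (T†) (-T ((C†) g)) + (C†) (g - C ((C†) g)) = 0
    rw [map_sub, map_neg]
    have := hV ((C†) g)
    calc -(T†) (T ((C†) g)) + ((C†) g - (C†) (C ((C†) g)))
        = (C†) g - ((T†) (T ((C†) g)) + (C†) (C ((C†) g))) := by abel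
      _ = 0 := by rw [this, sub_self]
  have : ((Dc T C)†) g = ⟨_, hmem⟩ := by
    apply ext_inner_left ℂ
    intro f
    rw [ContinuousLinearMap.adjoint_inner_right]
    show ⟪(f : WithLp 2 (H × E)).snd, g⟫_ℂ =
      ⟪(f : WithLp 2 (H × E)).fst, -T ((C†) g)⟫_ℂ + ⟪(f : WithLp 2 (H × E)).snd, g - C ((C†) g)⟫_ℂ
    have hf := (mem_Fs (f : WithLp 2 (H × E))).1 f.2
    have h1 : ⟪(T†) (f : WithLp 2 (H × E)).fst + (C†) (f : WithLp 2 (H × E)).snd, (C†) g⟫_ℂ = 0 := by
      rw [hf, inner_zero_left]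
    rw [inner_add_left, ContinuousLinearMap.adjoint_inner_left,
      ContinuousLinearMap.adjoint_inner_left] at h1
    rw [inner_sub_right, inner_neg_right]
    linear_combination h1
  rw [this]

lemma Bc_adj_fst (hV : ∀ x, (T†) (T x) + (C†) (C x) = x) (x : H) :
    (((Bc T C)†) x : WithLp 2 (H × E)).fst = x - T ((T†) x) := by
  rw [Bc_adj hV]
  rfl

lemma Bc_adj_snd (hV : ∀ x, (T†) (T x) + (C†) (C x) = x) (x : H) :
    (((Bc T C)†) x : WithLp 2 (H × E)).snd = -C ((T†) x) := by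
  rw [Bc_adj hV]
  rfl

lemma Dc_adj_fst (hV : ∀ x, (T†) (T x) + (C†) (C x) = x) (g : E) :
    (((Dc T C)†) g : WithLp 2 (H × E)).fst = -T ((C†) g) := by
  rw [Dc_adj hV]
  rfl

lemma Dc_adj_snd (hV : ∀ x, (T†) (T x) + (C†) (C x) = x) (g : E) :
    (((Dc T C)†) g : WithLp 2 (H × E)).snd = g - C ((C†) g) := by
  rw [Dc_adj hV]
  rfl

lemma Fs_ext {p q : Fs T C} (h1 : (p : WithLp 2 (H × E)).fst = (q : WithLp 2 (H × E)).fst)
    (h2 : (p : WithLp 2 (H × E)).snd = (q : WithLp 2 (H × E)).snd) : p = q := by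
  apply Subtype.ext
  apply WithLp.ofLp_injective
  exact Prod.ext h1 h2

theorem uColl_concrete (hV : ∀ x, (T†) (T x) + (C†) (C x) = x) :
    UColl T (Bc T C) C (Dc T C) where
  u11 := hV
  u12 f := (mem_Fs (f : WithLp 2 (H × E))).1 f.2
  u21 x := by
    apply Fs_ext
    · show (((Bc T C)†) (T x) : WithLp 2 (H × E)).fst +
        (((Dc T C)†) (C x) : WithLp 2 (H × E)).fst = 0
      rw [Bc_adj_fst hV, Dc_adj_fst hV]
      have := congrArg T (hV x)
      rw [map_add] at this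
      calc T x - T ((T†) (T x)) + -T ((C†) (C x))
          = T x - (T ((T†) (T x)) + T ((C†) (C x))) := by abel
        _ = 0 := by rw [this, sub_self]
    · show (((Bc T C)†) (T x) : WithLp 2 (H × E)).snd +
        (((Dc T C)†) (C x) : WithLp 2 (H × E)).snd = 0
      rw [Bc_adj_snd hV, Dc_adj_snd hV]
      have := congrArg C (hV x)
      rw [map_add] at this
      calc -C ((T†) (T x)) + (C x - C ((C†) (C x)))
          = C x - (C ((T†) (T x)) + C ((C†) (C x))) := by abel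
        _ = 0 := by rw [this, sub_self]
  u22 f := by
    have hf := (mem_Fs (f : WithLp 2 (H × E))).1 f.2
    apply Fs_ext
    · show (((Bc T C)†) (Bc T C f) : WithLp 2 (H × E)).fst +
        (((Dc T C)†) (Dc T C f) : WithLp 2 (H × E)).fst = _
      rw [Bc_adj_fst hV, Dc_adj_fst hV, Bc_apply, Dc_apply]
      have := congrArg T hf
      rw [map_add, map_zero] at this
      calc (f : WithLp 2 (H × E)).fst - T ((T†) (f : WithLp 2 (H × E)).fst)
            + -T ((C†) (f : WithLp 2 (H × E)).snd)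
          = (f : WithLp 2 (H × E)).fst - (T ((T†) (f : WithLp 2 (H × E)).fst)
            + T ((C†) (f : WithLp 2 (H × E)).snd)) := by abel
        _ = _ := by rw [this, sub_zero]
    · show (((Bc T C)†) (Bc T C f) : WithLp 2 (H × E)).snd +
        (((Dc T C)†) (Dc T C f) : WithLp 2 (H × E)).snd = _
      rw [Bc_adj_snd hV, Dc_adj_snd hV, Bc_apply, Dc_apply]
      have := congrArg C hf
      rw [map_add, map_zero] at this
      calc -C ((T†) (f : WithLp 2 (H × E)).fst) + ((f : WithLp 2 (H × E)).snd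
            - C ((C†) (f : WithLp 2 (H × E)).snd))
          = (f : WithLp 2 (H × E)).snd - (C ((T†) (f : WithLp 2 (H × E)).fst)
            + C ((C†) (f : WithLp 2 (H × E)).snd)) := by abel
        _ = _ := by rw [this, sub_zero]
  v11 x := by
    rw [Bc_apply, Bc_adj_fst hV]
    abel
  v12 g := by
    rw [Bc_apply, Dc_adj_fst hV]
    abel
  v21 x := by
    rw [Dc_apply, Bc_adj_snd hV]
    abel
  v22 g := by
    rw [Dc_apply, Dc_adj_snd hV]
    abel

/-- A unitary colligation with given `T` and `C`. -/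
theorem exists_uColl {H E : Type} [NormedAddCommGroup H] [InnerProductSpace ℂ H] [CompleteSpace H]
    [NormedAddCommGroup E] [InnerProductSpace ℂ E] [CompleteSpace E]
    [SecondCountableTopology H] [SecondCountableTopology E] {T : H →L[ℂ] H} {C : H →L[ℂ] E}
    (hV : ∀ x, (T†) (T x) + (C†) (C x) = x) :
    ∃ (F : Type) (_ : NormedAddCommGroup F) (_ : InnerProductSpace ℂ F) (_ : CompleteSpace F)
      (_ : SecondCountableTopology F) (B : F →L[ℂ] H) (D : F →L[ℂ] E), UColl T B C D := by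
  have h1 : SecondCountableTopology (WithLp 2 (H × E)) :=
    (WithLp.prodContinuousLinearEquiv 2 ℂ H E).toHomeomorph.secondCountableTopology
  exact ⟨Fs T C, inferInstance, inferInstance, inferInstance, inferInstance, Bc T C, Dc T C,
    uColl_concrete hV⟩

end Pool.Agent.Helper917.Hardy
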