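import Mathlib
import Pool.Agent.Helper917.VecL2
import Pool.Agent.Helper917.HardyDefs
import Pool.Agent.Helper917.HardySeq
import Pool.Agent.Helper917.Collig
import Pool.Agent.Helper917.ColligBd

set_option autoImplicit false

open MeasureTheory AddCircle Filter Topology
open scoped ComplexConjugate ENNReal InnerProductSpace InnerProduct

namespace Pool.Agent.Helper917.Hardy

variable {H E F : Type*} [NormedAddCommGroup H] [InnerProductSpace ℂ H] [CompleteSpace H]
  [NormedAddCommGroup E] [InnerProductSpace ℂ E] [CompleteSpace E]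
  [NormedAddCommGroup F] [InnerProductSpace ℂ F] [CompleteSpace F]
  [SecondCountableTopology E] [SecondCountableTopology F]

variable {T : H →L[ℂ] H} {B : F →L[ℂ] H} {C : H →L[ℂ] E} {D : F →L[ℂ] E}

/-- `T*ⁿ → 0` strongly -/
def Pure (T : H →L[ℂ] H) : Prop := ∀ x, Tendsto (fun n : ℕ => ((T†) ^ n) x) atTop (𝓝 0)

lemma hasSum_Bstar (hU : UColl T B C D) (hp : Pure T) (y : H) :
    HasSum (fun n : ℕ => ‖(B†) (((T†) ^ n) y)‖ ^ 2) (‖y‖ ^ 2) := by
  have h1 : ∀ N : ℕ, ∑ n ∈ Finset.range N, ‖(B†) (((T†) ^ n) y)‖ ^ 2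
      = ‖y‖ ^ 2 - ‖((T†) ^ N) y‖ ^ 2 := by
    intro N
    induction N with
    | zero => simp
    | succ N ih =>
      rw [Finset.sum_range_succ, ih, hU.norm_Bstar]
      have : (T†) (((T†) ^ N) y) = ((T†) ^ (N + 1)) y := by
        rw [pow_succ', ContinuousLinearMap.mul_apply]
      rw [this]
      ring
  rw [hasSum_iff_tendsto_nat_of_nonneg (fun n => by positivity)]
  simp_rw [h1]
  have h2 : Tendsto (fun N : ℕ => ‖((T†) ^ N) y‖ ^ 2) atTop (𝓝 0) := by
    have := (hp y).norm.pow 2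
    simpa using this
  simpa using (tendsto_const_nhds (x := ‖y‖ ^ 2)).sub h2

lemma exists_obs (hU : UColl T B C D) (hp : Pure T) (y : H) :
    ∃ f ∈ H2 F, ∀ n : ℕ, fourierCoeff f n = (B†) (((T†) ^ n) y) :=
  exists_H2 _ (hasSum_Bstar hU hp y).summable

/-- the observability operator `O y = ∑ ζⁿ B* T*ⁿ y` -/
noncomputable def obs (hU : UColl T B C D) (hp : Pure T) : H →ₗᵢ[ℂ] L2 F where
  toFun y := (exists_obs hU hp y).choose
  map_add' x y := by
    apply ext_H2 (exists_obs hU hp (x + y)).choose_spec.1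
      ((H2 F).add_mem (exists_obs hU hp x).choose_spec.1 (exists_obs hU hp y).choose_spec.1)
    intro n
    rw [fourierCoeff_add', (exists_obs hU hp (x + y)).choose_spec.2,
      (exists_obs hU hp x).choose_spec.2, (exists_obs hU hp y).choose_spec.2, map_add, map_add]
  map_smul' c y := by
    apply ext_H2 (exists_obs hU hp (c • y)).choose_spec.1
      ((H2 F).smul_mem _ (exists_obs hU hp y).choose_spec.1)
    intro n
    rw [fourierCoeff_smul', (exists_obs hU hp (c • y)).choose_spec.2]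
    show _ = c • fourierCoeff (exists_obs hU hp y).choose n
    rw [(exists_obs hU hp y).choose_spec.2, map_smul, map_smul]
  norm_map' y := by
    have h1 := hasSum_sq_H2 (exists_obs hU hp y).choose_spec.1
    simp_rw [(exists_obs hU hp y).choose_spec.2] at h1
    have h2 := h1.unique (hasSum_Bstar hU hp y)
    exact (pow_left_inj₀ (norm_nonneg _) (norm_nonneg _) two_ne_zero).1 h2

lemma obs_mem (hU : UColl T B C D) (hp : Pure T) (y : H) : obs hU hp y ∈ H2 F :=
  (exists_obs hU hp y).choose_spec.1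

lemma fourierCoeff_obs (hU : UColl T B C D) (hp : Pure T) (y : H) (n : ℕ) :
    fourierCoeff (obs hU hp y) n = (B†) (((T†) ^ n) y) :=
  (exists_obs hU hp y).choose_spec.2 n

lemma backShift_obs (hU : UColl T B C D) (hp : Pure T) (y : H) :
    backShift (obs hU hp y) = obs hU hp ((T†) y) := by
  apply ext_H2 (backShift_mem (obs_mem hU hp y)) (obs_mem hU hp _)
  intro n
  rw [fourierCoeff_backShift_nat, fourierCoeff_obs, fourierCoeff_obs, pow_succ,
    ContinuousLinearMap.mul_apply]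

lemma inner_obs (hU : UColl T B C D) (hp : Pure T) (x y : H) :
    ⟪obs hU hp x, obs hU hp y⟫_ℂ = ⟪x, y⟫_ℂ := (obs hU hp).inner_map_map x y

/-- energy balance -/
lemma stt_energy (hU : UColl T B C D) (v : ℕ → E) (k : ℕ) :
    ‖stt T C v 1 (k + 1)‖ ^ 2 + ‖(D†) (v k) + (B†) (stt T C v 1 k)‖ ^ 2
      = ‖stt T C v 1 k‖ ^ 2 + ‖v k‖ ^ 2 := by
  have h1 := hU.norm_adj (stt T C v 1 k) (v k)
  rw [← h1]
  congr 2
  · rw [stt, one_smul, add_comm]
  · rw [add_comm]

lemma stt_B (hU : UColl T B C D) (v : ℕ → E) (k : ℕ) :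
    B ((D†) (v k) + (B†) (stt T C v 1 k)) = stt T C v 1 k - T (stt T C v 1 (k + 1)) := by
  rw [stt, one_smul, map_add, map_add]
  have h1 := hU.v11 (stt T C v 1 k)
  have h2 := hU.v12 (v k)
  rw [eq_sub_iff_add_eq]
  calc B ((D†) (v k)) + B ((B†) (stt T C v 1 k)) +
        (T ((C†) (v k)) + T ((T†) (stt T C v 1 k)))
      = (T ((C†) (v k)) + B ((D†) (v k))) +
        (T ((T†) (stt T C v 1 k)) + B ((B†) (stt T C v 1 k))) := by abel
    _ = stt T C v 1 k := by rw [h1, h2, zero_add]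

lemma norm_stt_sq_le (hU : UColl T B C D) (v : ℕ → E) (k : ℕ) :
    ‖stt T C v 1 k‖ ^ 2 ≤ ∑ j ∈ Finset.range k, ‖v j‖ ^ 2 := by
  induction k with
  | zero => simp [stt]
  | succ k ih =>
    have h1 := stt_energy hU v k
    rw [Finset.sum_range_succ]
    nlinarith [sq_nonneg ‖(D†) (v k) + (B†) (stt T C v 1 k)‖]

/-- orthogonality of the two pieces -/
theorem inner_MTh_obs {Rb : Circ → E →L[ℂ] H} (hU : UColl T B C D) (hb : HasBd T C Rb)
    (hp : Pure T) {v : L2 E} (hv : v ∈ H2 E) (y : H) :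
    ⟪MTh hU hb v, obs hU hp y⟫_ℂ = 0 := by
  set s : ℕ → H := stt T C (fun n => fourierCoeff v n) 1 with hs
  have h1 := hasSum_inner_H2 (g := obs hU hp y) (MTh_mem_H2 hU hb hv)
  have h2 : ∀ k : ℕ, ⟪fourierCoeff (MTh hU hb v) k, fourierCoeff (obs hU hp y) k⟫_ℂ
      = ⟪s k, ((T†) ^ k) y⟫_ℂ - ⟪s (k + 1), ((T†) ^ (k + 1)) y⟫_ℂ := by
    intro k
    have h0 : B ((D†) (fourierCoeff v k) + (B†) (stt T C (fun n : ℕ => fourierCoeff v n) 1 k)) =
        s k - T (s (k + 1)) := stt_B hU (fun n : ℕ => fourierCoeff v n) k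
    rw [fourierCoeff_MTh hU hb hv, fourierCoeff_obs, ContinuousLinearMap.adjoint_inner_right,
      h0, inner_sub_left, pow_succ' (T†), ContinuousLinearMap.mul_apply,
      ContinuousLinearMap.adjoint_inner_right]
  simp_rw [h2] at h1
  have h3 := h1.tendsto_sum_nat
  simp_rw [Finset.sum_range_sub'] at h3
  have h4 : Tendsto (fun n : ℕ => ⟪s n, ((T†) ^ n) y⟫_ℂ) atTop (𝓝 0) := by
    apply squeeze_zero_norm (a := fun n => ‖v‖ * ‖((T†) ^ n) y‖)
    · intro n
      refine (norm_inner_le_norm _ _).trans ?_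
      gcongr
      apply le_of_sq_le_sq _ (norm_nonneg _)
      refine (norm_stt_sq_le hU _ n).trans ?_
      exact sum_le_hasSum _ (fun _ _ => by positivity) (hasSum_sq_H2 hv)
    · have := (hp y).norm.const_mul ‖v‖
      simpa using this
  have h5 : Tendsto (fun n : ℕ => ⟪s 0, ((T†) ^ 0) y⟫_ℂ - ⟪s n, ((T†) ^ n) y⟫_ℂ) atTop
      (𝓝 (⟪s 0, ((T†) ^ 0) y⟫_ℂ - 0)) := tendsto_const_nhds.sub h4
  have h6 : s 0 = 0 := rfl
  rw [h6, inner_zero_left, sub_zero] at h5
  rw [h6] at h3
  simp only [inner_zero_left] at h3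
  exact tendsto_nhds_unique h3 h5

/-- every `u ∈ H²(F)` orthogonal to the range of `O` lies in `Θ H²(E)` -/
theorem exists_MTh_eq {Rb : Circ → E →L[ℂ] H} (hU : UColl T B C D) (hb : HasBd T C Rb)
    (hp : Pure T) {u : L2 F} (hu : u ∈ H2 F) (horth : ∀ y, ⟪u, obs hU hp y⟫_ℂ = 0) :
    ∃ v ∈ H2 E, MTh hU hb v = u := by
  let Oa : L2 F →L[ℂ] H := ContinuousLinearMap.adjoint (obs hU hp).toContinuousLinearMap
  let h : ℕ → H := fun k => Oa (backShift^[k] u)
  have hit : ∀ k : ℕ, backShift^[k] u ∈ H2 F ∧ ∀ n : ℕ,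
      fourierCoeff (backShift^[k] u) n = fourierCoeff u (n + k : ℕ) := by
    intro k
    induction k with
    | zero => exact ⟨hu, fun n => rfl⟩
    | succ k ih =>
      rw [Function.iterate_succ_apply']
      refine ⟨backShift_mem ih.1, fun n => ?_⟩
      rw [fourierCoeff_backShift_nat, ih.2]
      congr 1
      push_cast
      ring
  have hinner : ∀ k y, ⟪h k, y⟫_ℂ = ⟪backShift^[k] u, obs hU hp y⟫_ℂ := by
    intro k y
    exact ContinuousLinearMap.adjoint_inner_left _ _ _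
  have hrec : ∀ k, h k = T (h (k + 1)) + B (fourierCoeff u k) := by
    intro k
    apply ext_inner_right ℂ
    intro y
    rw [hinner, inner_add_left]
    have h1 := hasSum_inner_H2 (g := obs hU hp y) (hit k).1
    have h2 := hasSum_inner_H2 (g := obs hU hp ((T†) y)) (hit (k + 1)).1
    rw [← hinner] at h2
    have h3 : ∀ n : ℕ, ⟪fourierCoeff (backShift^[k + 1] u) n,
        fourierCoeff (obs hU hp ((T†) y)) n⟫_ℂ =
        ⟪fourierCoeff (backShift^[k] u) (n + 1 : ℕ), fourierCoeff (obs hU hp y) (n + 1 : ℕ)⟫_ℂ := by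
      intro n
      rw [(hit (k + 1)).2, (hit k).2, ← backShift_obs, fourierCoeff_backShift_nat]
      congr 2
      congr 1
      ring
    simp_rw [h3] at h2
    have h4 := (hasSum_nat_add_iff' 1).2 h1
    have h5 := h4.unique h2
    rw [Finset.sum_range_one] at h5
    rw [← ContinuousLinearMap.adjoint_inner_right T]
    have h6 : ⟪fourierCoeff (backShift^[k] u) (0 : ℕ), fourierCoeff (obs hU hp y) (0 : ℕ)⟫_ℂ
        = ⟪B (fourierCoeff u k), y⟫_ℂ := by
      rw [(hit k).2, fourierCoeff_obs, ContinuousLinearMap.adjoint_inner_right, zero_add,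
        pow_zero, one_apply_eq_self]
    rw [h6] at h5
    rw [← h5]
    ring
  have h0 : h 0 = 0 := by
    apply ext_inner_right ℂ
    intro y
    rw [hinner, inner_zero_left]
    exact horth y
  let w : ℕ → E := fun k => C (h (k + 1)) + D (fourierCoeff u k)
  have hen : ∀ k, ‖h k‖ ^ 2 + ‖w k‖ ^ 2 = ‖h (k + 1)‖ ^ 2 + ‖fourierCoeff u k‖ ^ 2 := by
    intro k
    have := hU.norm_fwd (h (k + 1)) (fourierCoeff u k)
    rw [← hrec k] at this
    exact this
  have hhn : ∀ k, ‖h k‖ ≤ ‖u‖ := by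
    intro k
    have h1 : ‖Oa‖ ≤ 1 := by
      refine (LinearIsometryEquiv.norm_map ContinuousLinearMap.adjoint _).le.trans ?_
      exact (obs hU hp).norm_toContinuousLinearMap_le
    have h2 : ‖backShift^[k] u‖ ≤ ‖u‖ := by
      induction k with
      | zero => exact le_rfl
      | succ k ih =>
        rw [Function.iterate_succ_apply', ← riesz_mulC_fourier_neg_one (hit k).1]
        refine (norm_riesz_le _).trans ((norm_mulC_apply_le _ _).trans ?_)
        rw [fourier_norm, one_mul]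
        exact ih
    calc ‖h k‖ ≤ 1 * ‖backShift^[k] u‖ := Oa.le_of_opNorm_le h1 _
      _ ≤ ‖u‖ := by rw [one_mul]; exact h2
  have hsum : ∀ N, ∑ k ∈ Finset.range N, ‖w k‖ ^ 2 ≤ ‖u‖ ^ 2 + ‖u‖ ^ 2 := by
    intro N
    have h1 : ∑ k ∈ Finset.range N, ‖w k‖ ^ 2 =
        ‖h N‖ ^ 2 - ‖h 0‖ ^ 2 + ∑ k ∈ Finset.range N, ‖fourierCoeff u k‖ ^ 2 := by
      induction N with
      | zero => simp
      | succ N ih =>
        rw [Finset.sum_range_succ, Finset.sum_range_succ, ih]
        linarith [hen N]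
    rw [h1, h0, norm_zero]
    have h2 : ∑ k ∈ Finset.range N, ‖fourierCoeff u k‖ ^ 2 ≤ ‖u‖ ^ 2 :=
      sum_le_hasSum _ (fun _ _ => by positivity) (hasSum_sq_H2 hu)
    have h3 : ‖h N‖ ^ 2 ≤ ‖u‖ ^ 2 := by
      have := hhn N
      gcongr
    linarith
  have hsw : Summable fun k => ‖w k‖ ^ 2 :=
    summable_of_sum_range_le (fun k => by positivity) hsum
  obtain ⟨v, hv, hvc⟩ := exists_H2 w hsw
  have hst : ∀ k, stt T C (fun n => fourierCoeff v n) 1 k = h k := by
    intro k
    induction k with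
    | zero => rw [h0]; rfl
    | succ k ih =>
      rw [stt, one_smul, ih, hvc]
      show (C†) (C (h (k + 1)) + D (fourierCoeff u k)) + (T†) (h k) = h (k + 1)
      rw [hrec k, map_add, map_add]
      have h1 := hU.u11 (h (k + 1))
      have h2 := hU.u12 (fourierCoeff u k)
      calc (C†) (C (h (k + 1))) + (C†) (D (fourierCoeff u k)) +
            ((T†) (T (h (k + 1))) + (T†) (B (fourierCoeff u k)))
          = ((T†) (T (h (k + 1))) + (C†) (C (h (k + 1)))) +
            ((T†) (B (fourierCoeff u k)) + (C†) (D (fourierCoeff u k))) := by abel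
        _ = h (k + 1) := by rw [h1, h2, add_zero]
  refine ⟨v, hv, ?_⟩
  apply ext_H2 (MTh_mem_H2 hU hb hv) hu
  intro k
  rw [fourierCoeff_MTh hU hb hv, hst, hvc]
  show (D†) (C (h (k + 1)) + D (fourierCoeff u k)) + (B†) (h k) = _
  rw [hrec k, map_add, map_add]
  have h1 := hU.u21 (h (k + 1))
  have h2 := hU.u22 (fourierCoeff u k)
  calc (D†) (C (h (k + 1))) + (D†) (D (fourierCoeff u k)) +
        ((B†) (T (h (k + 1))) + (B†) (B (fourierCoeff u k)))
      = ((B†) (T (h (k + 1))) + (D†) (C (h (k + 1)))) +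
        ((B†) (B (fourierCoeff u k)) + (D†) (D (fourierCoeff u k))) := by abel
    _ = fourierCoeff u k := by rw [h1, h2, zero_add]

end Pool.Agent.Helper917.Hardy
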