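import Mathlib
import Pool.Agent.Helper917.VecL2
import Pool.Agent.Helper917.HardyDefs
import Pool.Agent.Helper917.HardySeq
import Pool.Agent.Helper917.Collig
import Pool.Agent.Helper917.ColligBd
import Pool.Agent.Helper917.ModelSp

set_option autoImplicit false

open MeasureTheory AddCircle Filter Topology
open scoped ComplexConjugate ENNReal InnerProductSpace InnerProduct

namespace Pool.Agent.Helper917.Hardy

section misc

variable {E F : Type*} [NormedAddCommGroup E] [InnerProductSpace ℂ E] [CompleteSpace E]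
  [NormedAddCommGroup F] [InnerProductSpace ℂ F] [CompleteSpace F]

lemma inner_riesz_right {f g : L2 F} (hg : g ∈ H2 F) : ⟪g, riesz f⟫_ℂ = ⟪g, f⟫_ℂ := by
  rw [← inner_conj_symm, inner_riesz_left hg, inner_conj_symm]

lemma mulC_fourier_zero (f : L2 F) : mulC (fourier 0) f = f := by
  have : (fourier 0 : C(Circ, ℂ)) = 1 := by
    ext t
    rw [fourier_zero]
    rfl
  rw [this, mulC_one]

lemma mulC_fourier_mulC_fourier (m n : ℤ) (f : L2 F) :
    mulC (fourier m) (mulC (fourier n) f) = mulC (fourier (m + n)) f := by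
  rw [mulC_mulC, fourier_mul]

lemma norm_mulC_fourier_le (n : ℤ) (f : L2 F) : ‖mulC (fourier n) f‖ ≤ ‖f‖ := by
  refine (norm_mulC_apply_le _ _).trans ?_
  rw [fourier_norm, one_mul]

lemma inner_backShift [SecondCountableTopology F] {a w : L2 F} (ha : a ∈ H2 F) (hw : w ∈ H2 F) :
    ⟪a, backShift w⟫_ℂ = ⟪mulC (fourier 1) a, w⟫_ℂ := by
  rw [← riesz_mulC_fourier_neg_one hw, inner_riesz_right ha, inner_mulC_left, star_fourier]

lemma backShift_iterate_mem [SecondCountableTopology F] {w : L2 F} (hw : w ∈ H2 F) (n : ℕ) :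
    backShift^[n] w ∈ H2 F := by
  induction n with
  | zero => exact hw
  | succ n ih =>
    rw [Function.iterate_succ_apply']
    exact backShift_mem ih

lemma inner_backShift_iterate [SecondCountableTopology F] {a w : L2 F} (ha : a ∈ H2 F)
    (hw : w ∈ H2 F) (n : ℕ) :
    ⟪a, backShift^[n] w⟫_ℂ = ⟪mulC (fourier n) a, w⟫_ℂ := by
  induction n generalizing a with
  | zero => simp [mulC_fourier_zero]
  | succ n ih =>
    have h1 : mulC (fourier 1) a ∈ H2 F := by exact_mod_cast mulC_fourier_mem ha 1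
    rw [Function.iterate_succ_apply', inner_backShift ha (backShift_iterate_mem hw n),
      ih h1, mulC_fourier_mulC_fourier]
    push_cast
    rfl

lemma riesz_fourier_backShift [SecondCountableTopology F] (h : L2 F) (n : ℤ) :
    backShift (riesz (mulC (fourier (n + 1)) h)) = riesz (mulC (fourier n) h) := by
  apply ext_fourierCoeff
  intro k
  rw [fourierCoeff_backShift, fourierCoeff_riesz, fourierCoeff_riesz, fourierCoeff_mulC_fourier,
    fourierCoeff_mulC_fourier]
  have e : k + 1 - (n + 1) = k - n := by ring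
  rw [e]
  by_cases h1 : k = -1
  · subst h1; simp
  · rw [if_neg h1]
    by_cases h2 : k < 0
    · rw [if_pos (by omega), if_pos h2]
    · rw [if_neg (by omega), if_neg h2]

lemma tendsto_tail [SecondCountableTopology E] (f : L2 E) :
    Tendsto (fun n : ℕ => ‖mulC (fourier (n : ℤ)) f - riesz (mulC (fourier (n : ℤ)) f)‖) atTop
      (𝓝 0) := by
  have hinj : Function.Injective (fun j : ℕ => Int.negSucc j) := fun a b h => by
    simpa using h
  have hs : Summable fun j : ℕ => ‖fourierCoeff f (Int.negSucc j)‖ ^ 2 :=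
    (hasSum_sq_norm_fourierCoeff f).summable.comp_injective hinj
  have key : ∀ n : ℕ, ‖mulC (fourier (n : ℤ)) f - riesz (mulC (fourier (n : ℤ)) f)‖ ^ 2 =
      ∑' j : ℕ, ‖fourierCoeff f (Int.negSucc (j + n))‖ ^ 2 := by
    intro n
    set g := mulC (fourier (n : ℤ)) f - riesz (mulC (fourier (n : ℤ)) f) with hg
    have hc : ∀ k, fourierCoeff g k = if k < 0 then fourierCoeff f (k - n) else 0 := by
      intro k
      rw [hg, fourierCoeff_sub', fourierCoeff_riesz, fourierCoeff_mulC_fourier]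
      split_ifs <;> simp
    have h1 := hasSum_sq_norm_fourierCoeff g
    have h2 := (hinj.hasSum_iff (f := fun k : ℤ => ‖fourierCoeff g k‖ ^ 2) (a := ‖g‖ ^ 2) (by
      intro k hk
      have : 0 ≤ k := by
        by_contra hneg
        push Not at hneg
        obtain ⟨m, rfl⟩ := Int.eq_negSucc_of_lt_zero hneg
        exact hk ⟨m, rfl⟩
      rw [hc, if_neg (not_lt.2 this), norm_zero]
      norm_num)).2 h1
    rw [← h2.tsum_eq]
    congr 1
    ext j
    rw [Function.comp_apply, hc, if_pos (Int.negSucc_lt_zero j)]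
    congr 3
    simp only [Int.negSucc_eq]
    push_cast
    ring
  have h1 := tendsto_sum_nat_add (fun j : ℕ => ‖fourierCoeff f (Int.negSucc j)‖ ^ 2)
  have h2 : Tendsto (fun n : ℕ => √(∑' j : ℕ, ‖fourierCoeff f (Int.negSucc (j + n))‖ ^ 2)) atTop
      (𝓝 (√0)) := (Real.continuous_sqrt.tendsto 0).comp h1
  rw [Real.sqrt_zero] at h2
  refine h2.congr fun n => ?_
  rw [← key, Real.sqrt_sq (norm_nonneg _)]

/-- reflection `(ρ f)(t) = f(-t)` -/
lemma mp_neg : MeasurePreserving (fun t : Circ => -t) mu mu := Measure.measurePreserving_neg mu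

noncomputable def rho : L2 E →ₗᵢ[ℂ] L2 E := Lp.compMeasurePreservingₗᵢ ℂ (fun t : Circ => -t) mp_neg

lemma coeFn_rho (f : L2 E) : rho f =ᵐ[mu] fun t => f (-t) :=
  Lp.coeFn_compMeasurePreserving f mp_neg

lemma fourierCoeff_rho (f : L2 E) (n : ℤ) : fourierCoeff (rho f) n = fourierCoeff f (-n) := by
  rw [fourierCoeff_congr_ae (coeFn_rho f)]
  unfold fourierCoeff
  rw [← integral_neg_eq_self (fun t : Circ => (fourier (- -n) t : ℂ) • f t) mu]
  congr 1
  ext t
  congr 1
  simp [fourier_apply]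

lemma rho_rho [SecondCountableTopology E] (f : L2 E) : rho (rho f) = f := by
  apply ext_fourierCoeff
  intro n
  rw [fourierCoeff_rho, fourierCoeff_rho, neg_neg]

lemma inner_rho [SecondCountableTopology E] (f g : L2 E) : ⟪rho f, g⟫_ℂ = ⟪f, rho g⟫_ℂ := by
  rw [← rho.inner_map_map f (rho g), rho_rho]

end misc

section main

variable {H E F : Type*} [NormedAddCommGroup H] [InnerProductSpace ℂ H] [CompleteSpace H]
  [NormedAddCommGroup E] [InnerProductSpace ℂ E] [CompleteSpace E]
  [NormedAddCommGroup F] [InnerProductSpace ℂ F] [CompleteSpace F]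
  [SecondCountableTopology E] [SecondCountableTopology F]

variable {T : H →L[ℂ] H} {B : F →L[ℂ] H} {C : H →L[ℂ] E} {D : F →L[ℂ] E}
  {Rb : Circ → E →L[ℂ] H}

omit [SecondCountableTopology E] [SecondCountableTopology F] in
lemma eq_MTh_of_ae (hU : UColl T B C D) (hb : HasBd T C Rb) {g : L2 F} {f : L2 E}
    (h : g =ᵐ[mu] fun t => Th B D Rb t (f t)) : g = MTh hU hb f :=
  Lp.ext (h.trans (coeFn_MTh hU hb f).symm)

theorem mem_modelSpace_iff (hU : UColl T B C D) (hb : HasBd T C Rb) (hp : Pure T) (x : L2 F) :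
    x ∈ modelSpace (Th B D Rb) ↔ ∃ y, obs hU hp y = x := by
  constructor
  · rintro ⟨hx, hxo⟩
    let Oa : L2 F →L[ℂ] H := ContinuousLinearMap.adjoint (obs hU hp).toContinuousLinearMap
    refine ⟨Oa x, ?_⟩
    set x1 := obs hU hp (Oa x) with hx1
    have h1 : ∀ y, ⟪x - x1, obs hU hp y⟫_ℂ = 0 := by
      intro y
      rw [inner_sub_left, hx1, inner_obs, sub_eq_zero]
      exact (ContinuousLinearMap.adjoint_inner_left
        (obs hU hp).toContinuousLinearMap y x).symm
    have h2 : x - x1 ∈ H2 F := (H2 F).sub_mem hx (obs_mem hU hp _)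
    obtain ⟨v, hv, hvx⟩ := exists_MTh_eq hU hb hp h2 h1
    have h3 : ⟪x - x1, x⟫_ℂ = 0 := by
      rw [← hvx]
      exact hxo _ ⟨v, hv, coeFn_MTh hU hb v⟩
    have h4 : ⟪x - x1, x - x1⟫_ℂ = 0 := by
      rw [inner_sub_right, h3, hx1, h1, sub_zero]
    rw [inner_self_eq_zero, sub_eq_zero] at h4
    exact h4.symm
  · rintro ⟨y, rfl⟩
    refine ⟨obs_mem hU hp y, ?_⟩
    rintro g ⟨f, hf, hg⟩
    rw [eq_MTh_of_ae hU hb hg]
    exact inner_MTh_obs hU hb hp hf y

omit [SecondCountableTopology E] [SecondCountableTopology F] in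
lemma kerAdj_inner (hU : UColl T B C D) (hb : HasBd T C Rb) {h : L2 F}
    (hh : h ∈ kerAdj (Th B D Rb)) (f : L2 E) : ⟪MTh hU hb f, h⟫_ℂ = 0 := by
  rw [L2.inner_def]
  apply integral_eq_zero_of_ae
  filter_upwards [hh, coeFn_MTh hU hb f] with t h1 h2
  rw [h2, ← ContinuousLinearMap.adjoint_inner_right, h1, inner_zero_right]
  rfl

omit [SecondCountableTopology E] [SecondCountableTopology F] in
lemma kerAdj_mulC {h : L2 F} (hh : h ∈ kerAdj (Th B D Rb)) (m : C(Circ, ℂ)) :
    mulC m h ∈ kerAdj (Th B D Rb) := by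
  show ∀ᵐ t ∂mu, _
  filter_upwards [hh, coeFn_mulC m h] with t h1 h2
  rw [h2, map_smul, h1, smul_zero]

lemma riesz_mem_modelSpace (hU : UColl T B C D) (hb : HasBd T C Rb) {h : L2 F}
    (hh : h ∈ kerAdj (Th B D Rb)) : riesz h ∈ modelSpace (Th B D Rb) := by
  refine ⟨riesz_mem h, ?_⟩
  rintro g ⟨f, hf, hg⟩
  rw [eq_MTh_of_ae hU hb hg, inner_riesz_right (MTh_mem_H2 hU hb hf)]
  exact kerAdj_inner hU hb hh f

/-- the backward orbit attached to an element of the kernel -/
theorem exists_orbit (hU : UColl T B C D) (hb : HasBd T C Rb) (hp : Pure T) {h : L2 F}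
    (hh : h ∈ kerAdj (Th B D Rb)) :
    ∃ x : ℕ → H, (∀ n, (T†) (x (n + 1)) = x n) ∧ (∀ n, ‖x n‖ ≤ ‖h‖) ∧
      obs hU hp (x 0) = riesz h := by
  have h1 : ∀ n : ℕ, ∃ x, obs hU hp x = riesz (mulC (fourier (n : ℤ)) h) := fun n =>
    (mem_modelSpace_iff hU hb hp _).1 (riesz_mem_modelSpace hU hb (kerAdj_mulC hh _))
  choose x hx using h1
  refine ⟨x, fun n => ?_, fun n => ?_, ?_⟩
  · apply (obs hU hp).injective
    rw [← backShift_obs, hx, hx, Nat.cast_succ, riesz_fourier_backShift]
  · rw [← (obs hU hp).norm_map, hx]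
    exact (norm_riesz_le _).trans (norm_mulC_fourier_le _ _)
  · rw [hx, Nat.cast_zero, mulC_fourier_zero]

/-- Bounded backward orbits of `T*` start either at `0` or at a cyclic vector of `T*`. -/
def OrbitProp (T : H →L[ℂ] H) : Prop :=
  ∀ (x : ℕ → H) (M : ℝ), (∀ n, (T†) (x (n + 1)) = x n) → (∀ n, ‖x n‖ ≤ M) →
    x 0 = 0 ∨ ∀ y, (∀ n : ℕ, ⟪((T†) ^ n) (x 0), y⟫_ℂ = 0) → y = 0

lemma backShift_iterate_obs (hU : UColl T B C D) (hp : Pure T) (y : H) (n : ℕ) :
    backShift^[n] (obs hU hp y) = obs hU hp (((T†) ^ n) y) := by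
  induction n with
  | zero => simp
  | succ n ih =>
    rw [Function.iterate_succ_apply', ih, backShift_obs, pow_succ', mul_apply_eq_comp]

theorem cyclic_of_orbitProp (hU : UColl T B C D) (hb : HasBd T C Rb) (hp : Pure T)
    (ho : OrbitProp T) {h : L2 F} (hh : h ∈ kerAdj (Th B D Rb)) :
    riesz h = 0 ∨ IsCyclicVector (Th B D Rb) (riesz h) := by
  obtain ⟨x, hx1, hx2, hx3⟩ := exists_orbit hU hb hp hh
  rcases ho x ‖h‖ hx1 hx2 with h0 | h0
  · left
    rw [← hx3, h0, map_zero]
  · right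
    unfold IsCyclicVector
    rw [← hx3]
    simp_rw [backShift_iterate_obs hU hp]
    have e1 : (Set.range fun n : ℕ => obs hU hp (((T†) ^ n) (x 0))) =
        (obs hU hp) '' (Set.range fun n : ℕ => ((T†) ^ n) (x 0)) := by
      rw [← Set.range_comp]
      rfl
    set S := Submodule.span ℂ (Set.range fun n : ℕ => ((T†) ^ n) (x 0)) with hS
    have e2 : (Submodule.span ℂ (Set.range fun n : ℕ => obs hU hp (((T†) ^ n) (x 0))) :
        Set (L2 F)) = (obs hU hp) '' (S : Set H) := by
      rw [e1, hS]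
      have := Submodule.map_span (obs hU hp).toLinearMap
        (Set.range fun n : ℕ => ((T†) ^ n) (x 0))
      exact (congrArg (fun K : Submodule ℂ (L2 F) => (K : Set (L2 F))) this).symm
    rw [e2]
    have e3 : Topology.IsClosedEmbedding (obs hU hp) := (obs hU hp).isometry.isClosedEmbedding
    rw [e3.closure_image_eq]
    have e4 : S.topologicalClosure = ⊤ := by
      rw [Submodule.topologicalClosure_eq_top_iff, eq_bot_iff]
      intro y hy
      rw [Submodule.mem_bot]
      apply h0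
      intro n
      rw [Submodule.mem_orthogonal] at hy
      exact hy _ (Submodule.subset_span ⟨n, rfl⟩)
    have e5 : closure (S : Set H) = Set.univ := by
      have := congrArg (fun K : Submodule ℂ H => (K : Set H)) e4
      simpa using this
    rw [e5, Set.image_univ]
    ext z
    rw [mem_modelSpace_iff hU hb hp]
    rfl

end main

end Pool.Agent.Helper917.Hardy
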