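import Mathlib
import Pool.Agent.Helper917.VecL2

set_option autoImplicit false

open MeasureTheory AddCircle Filter Topology
open scoped ComplexConjugate ENNReal InnerProductSpace InnerProduct BoundedContinuousFunction

namespace Pool.Agent.Helper917.Hardy

/-- a real integrable function annihilating all continuous functions vanishes -/
lemma real_ae_zero {u : Circ → ℝ} (hu : Integrable u mu)
    (h : ∀ f : Circ →ᵇ ℝ, ∫ t, f t * u t ∂mu = 0) : u =ᵐ[mu] 0 := by
  let a : Circ → ℝ≥0∞ := fun t => ENNReal.ofReal (u t)
  let b : Circ → ℝ≥0∞ := fun t => ENNReal.ofReal (-u t)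
  have ha : AEMeasurable a mu := hu.aemeasurable.ennreal_ofReal
  have hb : AEMeasurable b mu := hu.neg.aemeasurable.ennreal_ofReal
  have hfa : ∫⁻ t, a t ∂mu ≠ ∞ := hu.lintegral_lt_top.ne
  have hfb : ∫⁻ t, b t ∂mu ≠ ∞ := hu.neg.lintegral_lt_top.ne
  have : IsFiniteMeasure (mu.withDensity a) := isFiniteMeasure_withDensity hfa
  have : IsFiniteMeasure (mu.withDensity b) := isFiniteMeasure_withDensity hfb
  have h1 : mu.withDensity a = mu.withDensity b := by
    apply ext_of_forall_integral_eq_of_IsFiniteMeasure
    intro f
    rw [integral_withDensity_eq_integral_toReal_smul₀ ha (by simp [a]),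
      integral_withDensity_eq_integral_toReal_smul₀ hb (by simp [b]), ← sub_eq_zero,
      ← integral_sub]
    · rw [← h f]
      congr 1
      ext t
      simp only [a, b, ENNReal.toReal_ofReal', smul_eq_mul]
      rcases le_total (u t) 0 with h | h
      · rw [max_eq_right h, max_eq_left (by linarith)]; ring
      · rw [max_eq_left h, max_eq_right (by linarith)]; ring
    · have h2 : Integrable (fun t => max (u t) 0 * f t) mu :=
        (hu.pos_part).mul_bdd (c := ‖f‖) f.continuous.aestronglyMeasurable
          (ae_of_all _ fun t => f.norm_coe_le_norm t)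
      refine h2.congr (ae_of_all _ fun t => ?_)
      simp [a, ENNReal.toReal_ofReal']
    · have h2 : Integrable (fun t => max (-u t) 0 * f t) mu :=
        (hu.neg_part).mul_bdd (c := ‖f‖) f.continuous.aestronglyMeasurable
          (ae_of_all _ fun t => f.norm_coe_le_norm t)
      refine h2.congr (ae_of_all _ fun t => ?_)
      simp [b, ENNReal.toReal_ofReal']
  rw [withDensity_eq_iff ha hb hfa] at h1
  filter_upwards [h1] with t ht
  have h2 := congrArg ENNReal.toReal ht
  simp only [a, b, ENNReal.toReal_ofReal'] at h2
  show u t = 0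
  rcases le_total (u t) 0 with h | h
  · rw [max_eq_right h, max_eq_left (by linarith)] at h2; linarith
  · rw [max_eq_left h, max_eq_right (by linarith)] at h2; linarith

/-- a complex integrable function annihilating all continuous functions vanishes -/
lemma complex_ae_zero {k : Circ → ℂ} (hk : Integrable k mu)
    (h : ∀ f : C(Circ, ℂ), ∫ t, f t * k t ∂mu = 0) : k =ᵐ[mu] 0 := by
  have hr : (fun t => (k t).re) =ᵐ[mu] 0 := by
    apply real_ae_zero hk.re
    intro f
    let fc : C(Circ, ℂ) := ⟨fun t => (f t : ℂ), by fun_prop⟩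
    have h1 := congrArg Complex.re (h fc)
    have h2 : Integrable (fun t => fc t * k t) mu :=
      hk.bdd_mul (c := ‖fc‖) fc.continuous.aestronglyMeasurable
        (ae_of_all _ fun t => fc.norm_coe_le_norm t)
    rw [← Complex.reCLM_apply, ← Complex.reCLM.integral_comp_comm h2] at h1
    simpa [fc] using h1
  have hi : (fun t => (k t).im) =ᵐ[mu] 0 := by
    apply real_ae_zero hk.im
    intro f
    let fc : C(Circ, ℂ) := ⟨fun t => (f t : ℂ), by fun_prop⟩
    have h1 := congrArg Complex.im (h fc)
    have h2 : Integrable (fun t => fc t * k t) mu :=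
      hk.bdd_mul (c := ‖fc‖) fc.continuous.aestronglyMeasurable
        (ae_of_all _ fun t => fc.norm_coe_le_norm t)
    rw [← Complex.imCLM_apply, ← Complex.imCLM.integral_comp_comm h2] at h1
    simpa [fc] using h1
  filter_upwards [hr, hi] with t h1 h2
  exact Complex.ext h1 h2

/-- the functional `f ↦ ∫ f k` on continuous functions -/
noncomputable def intL {k : Circ → ℂ} (hk : Integrable k mu) : C(Circ, ℂ) →L[ℂ] ℂ :=
  LinearMap.mkContinuous
    { toFun := fun f => ∫ t, f t * k t ∂mu
      map_add' := by
        intro f g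
        have hi : ∀ f : C(Circ, ℂ), Integrable (fun t => f t * k t) mu := fun f =>
          hk.bdd_mul (c := ‖f‖) f.continuous.aestronglyMeasurable
            (ae_of_all _ fun t => f.norm_coe_le_norm t)
        rw [← integral_add (hi f) (hi g)]
        congr 1
        ext t
        rw [ContinuousMap.add_apply, add_mul]
      map_smul' := by
        intro c f
        rw [RingHom.id_apply, smul_eq_mul, ← integral_const_mul]
        congr 1
        ext t
        rw [ContinuousMap.smul_apply, smul_eq_mul, mul_assoc] }
    (∫ t, ‖k t‖ ∂mu) (by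
      intro f
      show ‖∫ t, f t * k t ∂mu‖ ≤ _
      refine (norm_integral_le_integral_norm _).trans ?_
      rw [mul_comm, ← integral_const_mul]
      refine integral_mono_of_nonneg (ae_of_all _ fun t => norm_nonneg _)
        (hk.norm.const_mul _) (ae_of_all _ fun t => ?_)
      show ‖f t * k t‖ ≤ ‖f‖ * ‖k t‖
      rw [norm_mul]
      gcongr
      exact f.norm_coe_le_norm t)

lemma intL_apply {k : Circ → ℂ} (hk : Integrable k mu) (f : C(Circ, ℂ)) :
    intL hk f = ∫ t, f t * k t ∂mu := rfl

/-- uniqueness of Fourier coefficients in `L¹` -/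
lemma ae_zero_of_fourier {k : Circ → ℂ} (hk : Integrable k mu)
    (h : ∀ n : ℤ, ∫ t, fourier n t * k t ∂mu = 0) : k =ᵐ[mu] 0 := by
  apply complex_ae_zero hk
  intro f
  have h1 : (Submodule.span ℂ (Set.range (fourier : ℤ → C(Circ, ℂ)))).topologicalClosure ≤
      LinearMap.ker (intL hk).toLinearMap := by
    apply Submodule.topologicalClosure_minimal
    · rw [Submodule.span_le]
      rintro _ ⟨n, rfl⟩
      exact h n
    · exact (intL hk).isClosed_ker
  rw [span_fourier_closure_eq_top] at h1
  exact h1 (Submodule.mem_top (x := f))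

end Pool.Agent.Helper917.Hardy
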