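import Mathlib
import Pool.Agent.Helper917.VecL2
import Pool.Agent.Helper917.HardyDefs
import Pool.Agent.Helper917.HardySeq
import Pool.Agent.Helper917.Collig
import Pool.Agent.Helper917.ColligBd
import Pool.Agent.Helper917.ModelSp
import Pool.Agent.Helper917.ModelMain

set_option autoImplicit false

open MeasureTheory AddCircle Filter Topology
open scoped ComplexConjugate ENNReal InnerProductSpace InnerProduct

namespace Pool.Agent.Helper917.Hardy

variable {H E F : Type*} [NormedAddCommGroup H] [InnerProductSpace ℂ H] [CompleteSpace H]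
  [NormedAddCommGroup E] [InnerProductSpace ℂ E] [CompleteSpace E]
  [NormedAddCommGroup F] [InnerProductSpace ℂ F] [CompleteSpace F]

variable {T : H →L[ℂ] H} {B : F →L[ℂ] H} {C : H →L[ℂ] E} {D : F →L[ℂ] E}
  {Rb : Circ → E →L[ℂ] H}

lemma aesm_adj (hU : UColl T B C D) (hb : HasBd T C Rb) :
    AEStronglyMeasurable (fun t => (Th B D Rb t)†) mu :=
  (ContinuousLinearMap.adjoint (𝕜 := ℂ) (E := E) (F := F)).continuous.comp_aestronglyMeasurable
    (hb.aesm hU)

lemma norm_adj_le (hU : UColl T B C D) (hb : HasBd T C Rb) :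
    ∀ᵐ t ∂mu, ‖(Th B D Rb t)†‖ ≤ 1 := by
  filter_upwards [hb.norm_le hU] with t ht
  rw [LinearIsometryEquiv.norm_map]
  exact ht

/-- multiplication by the adjoint boundary function -/
noncomputable def MThA (hU : UColl T B C D) (hb : HasBd T C Rb) : L2 F →L[ℂ] L2 E :=
  mulOp (fun t => (Th B D Rb t)†) (aesm_adj hU hb) 1 (norm_adj_le hU hb)

lemma coeFn_MThA (hU : UColl T B C D) (hb : HasBd T C Rb) (f : L2 F) :
    MThA hU hb f =ᵐ[mu] fun t => ((Th B D Rb t)†) (f t) := coeFn_mulOp _ _ _ _ f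

lemma inner_MThA (hU : UColl T B C D) (hb : HasBd T C Rb) (f : L2 E) (u : L2 F) :
    ⟪MTh hU hb f, u⟫_ℂ = ⟪f, MThA hU hb u⟫_ℂ := by
  rw [L2.inner_def, L2.inner_def]
  apply integral_congr_ae
  filter_upwards [coeFn_MTh hU hb f, coeFn_MThA hU hb u] with t h1 h2
  rw [h1, h2, ContinuousLinearMap.adjoint_inner_right]

/-- the operator `u ↦ θ~ u` -/
noncomputable def Gt (hU : UColl T B C D) (hb : HasBd T C Rb) : L2 F →L[ℂ] L2 E :=
  (rho : L2 E →ₗᵢ[ℂ] L2 E).toContinuousLinearMap ∘L (MThA hU hb) ∘L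
    (rho : L2 F →ₗᵢ[ℂ] L2 F).toContinuousLinearMap

lemma Gt_apply (hU : UColl T B C D) (hb : HasBd T C Rb) (u : L2 F) :
    Gt hU hb u = rho (MThA hU hb (rho u)) := rfl

lemma coeFn_Gt (hU : UColl T B C D) (hb : HasBd T C Rb) (u : L2 F) :
    Gt hU hb u =ᵐ[mu] fun t => ContinuousLinearMap.adjoint (Th B D Rb (-t)) (u t) := by
  rw [Gt_apply]
  have h1 := mp_neg.quasiMeasurePreserving.ae (coeFn_MThA hU hb (rho u))
  have h2 := mp_neg.quasiMeasurePreserving.ae (coeFn_rho u)
  filter_upwards [coeFn_rho (MThA hU hb (rho u)), h1, h2] with t e1 e2 e3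
  rw [e1, e2, e3, neg_neg]

variable [SecondCountableTopology E] [SecondCountableTopology F]

lemma inner_Gt (hU : UColl T B C D) (hb : HasBd T C Rb) (u : L2 F) (g : L2 E) :
    ⟪u, rho (MTh hU hb (rho g))⟫_ℂ = ⟪Gt hU hb u, g⟫_ℂ := by
  rw [← inner_rho, ← inner_conj_symm, inner_MThA, inner_conj_symm, Gt_apply, inner_rho]

omit [SecondCountableTopology E] [SecondCountableTopology F] in
/-- `Θ` maps `ζᵐ e` to a function with no coefficients below `m` -/
lemma fourierCoeff_MTh_mono (hU : UColl T B C D) (hb : HasBd T C Rb) (m : ℤ) (e : E) (k : ℤ)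
    (hk : k < m) : fourierCoeff (MTh hU hb (mono m e)) k = 0 := by
  have h1 : (mono m e : L2 E) = mulC (fourier m) (mono 0 e) := by
    have h2 : (mono 0 e : L2 E) = mulC (fourier 0) (Lp.const 2 mu e) := rfl
    rw [h2, mulC_fourier_mulC_fourier, add_zero]
    rfl
  rw [h1, MTh_mulC, fourierCoeff_mulC_fourier]
  exact MTh_mem_H2 hU hb (mono_mem_H2 0 le_rfl e) _ (by omega)

lemma inner_eq_zero_of_coeff {f g : L2 F}
    (h : ∀ k, fourierCoeff f k = 0 ∨ fourierCoeff g k = 0) : ⟪f, g⟫_ℂ = 0 := by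
  refine (hasSum_inner_fourierCoeff f g).unique ?_
  have : (fun n : ℤ => ⟪fourierCoeff f n, fourierCoeff g n⟫_ℂ) = fun _ => 0 := by
    ext k
    rcases h k with h | h <;> simp [h]
  rw [this]
  exact hasSum_zero

lemma rho_mono (n : ℤ) (e : E) : (rho (mono n e) : L2 E) = mono (-n) e := by
  apply ext_fourierCoeff
  intro k
  rw [fourierCoeff_rho, fourierCoeff_mono, fourierCoeff_mono]
  by_cases h : -k = n
  · rw [if_pos h, if_pos (by omega)]
  · rw [if_neg h, if_neg (by omega)]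

lemma Gt_mem (hU : UColl T B C D) (hb : HasBd T C Rb) {u : L2 F} (hu : u ∈ H2 F) :
    Gt hU hb u ∈ H2 E := by
  intro n hn
  apply ext_inner_left ℂ
  intro e
  rw [inner_zero_right, ← inner_mono, ← inner_conj_symm, ← inner_Gt, inner_conj_symm]
  apply inner_eq_zero_of_coeff
  intro k
  rcases lt_or_ge k 0 with hk | hk
  · right
    exact hu k hk
  · left
    rw [fourierCoeff_rho, rho_mono]
    exact fourierCoeff_MTh_mono hU hb _ e _ (by omega)

/-- class `C_{1·}` -/
def C1 (T : H →L[ℂ] H) : Prop :=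
  ∀ x, Tendsto (fun n : ℕ => (T ^ n) x) atTop (𝓝 0) → x = 0

/-- the key step: no nonzero `f ∈ L² ⊖ H²` is mapped by `Θ` into `H²` -/
theorem eq_zero_of_MTh_mem (hU : UColl T B C D) (hb : HasBd T C Rb) (hp : Pure T) (hc : C1 T)
    {f : L2 E} (hf : ∀ k : ℤ, 0 ≤ k → fourierCoeff f k = 0) (hx : MTh hU hb f ∈ H2 F) :
    f = 0 := by
  have h1 : MTh hU hb f ∈ modelSpace (Th B D Rb) := by
    refine ⟨hx, ?_⟩
    rintro g ⟨v, hv, hg⟩
    rw [eq_MTh_of_ae hU hb hg, inner_MTh]
    apply inner_eq_zero_of_coeff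
    intro k
    rcases lt_or_ge k 0 with hk | hk
    · left; exact hv k hk
    · right; exact hf k hk
  obtain ⟨y, hy⟩ := (mem_modelSpace_iff hU hb hp _).1 h1
  have h2 : ∀ n : ℕ, ‖(T ^ n) y‖ ≤
      ‖mulC (fourier (n : ℤ)) f - riesz (mulC (fourier (n : ℤ)) f)‖ := by
    intro n
    set d := mulC (fourier (n : ℤ)) f - riesz (mulC (fourier (n : ℤ)) f) with hd
    set z := (T ^ n) y with hz
    have h3 : ⟪z, z⟫_ℂ = ⟪MTh hU hb d, obs hU hp z⟫_ℂ := by
      have e1 : ⟪z, z⟫_ℂ = ⟪y, ((T†) ^ n) z⟫_ℂ := by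
        rw [← ContinuousLinearMap.star_eq_adjoint, ← star_pow,
          ContinuousLinearMap.star_eq_adjoint, ContinuousLinearMap.adjoint_inner_right]
      rw [e1, ← inner_obs hU hp, ← backShift_iterate_obs,
        inner_backShift_iterate (obs_mem hU hp y) (obs_mem hU hp z), hy, ← MTh_mulC, hd, map_sub,
        inner_sub_left, inner_MTh_obs hU hb hp (riesz_mem _), sub_zero]
    have h4 : ‖z‖ ^ 2 ≤ ‖d‖ * ‖z‖ := by
      have h5 : ‖(⟪z, z⟫_ℂ : ℂ)‖ = ‖z‖ ^ 2 := by
        rw [← nsq, Complex.norm_real, Real.norm_of_nonneg (by positivity)]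
      rw [← h5, h3]
      refine (norm_inner_le_norm _ _).trans ?_
      rw [norm_MTh, (obs hU hp).norm_map]
    by_contra hcon
    push Not at hcon
    have h6 : 0 < ‖z‖ := (norm_nonneg d).trans_lt hcon
    nlinarith
  have h3 : y = 0 := by
    apply hc
    rw [tendsto_zero_iff_norm_tendsto_zero]
    exact squeeze_zero (fun n => norm_nonneg _) h2 (tendsto_tail f)
  have h4 : ‖MTh hU hb f‖ = 0 := by
    rw [← hy, h3, map_zero, norm_zero]
  rw [norm_MTh] at h4
  exact norm_eq_zero.1 h4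

theorem starOuter (hU : UColl T B C D) (hb : HasBd T C Rb) (hp : Pure T) (hc : C1 T) :
    IsStarOuter (Th B D Rb) := by
  intro f hf
  let P : Submodule ℂ (L2 E) := (Submodule.map (Gt hU hb).toLinearMap (H2 F)).topologicalClosure
  have hPle : P ≤ H2 E := by
    apply Submodule.topologicalClosure_minimal _ _ isClosed_H2
    rintro _ ⟨u, hu, rfl⟩
    exact Gt_mem hU hb hu
  have : CompleteSpace P := (Submodule.isClosed_topologicalClosure _).completeSpace_coe
  set g := f - P.starProjection f with hg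
  have hgP : ∀ w ∈ P, ⟪w, g⟫_ℂ = 0 := by
    intro w hw
    exact (Submodule.mem_orthogonal _ _).1 (P.sub_starProjection_mem_orthogonal f) w hw
  have hgH : g ∈ H2 E := (H2 E).sub_mem hf (hPle (P.starProjection_apply_mem f))
  have hx' : ∀ u ∈ H2 F, ⟪u, rho (MTh hU hb (rho g))⟫_ℂ = 0 := by
    intro u hu
    rw [inner_Gt]
    exact hgP _ (Submodule.le_topologicalClosure _ ⟨u, hu, rfl⟩)
  have hc0 : ∀ n : ℤ, 0 ≤ n → fourierCoeff (rho (MTh hU hb (rho g)) : L2 F) n = 0 := by
    intro n hn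
    apply ext_inner_left ℂ
    intro e
    rw [inner_zero_right, ← inner_mono]
    exact hx' _ (mono_mem_H2 n hn e)
  have hf0 : mulC (fourier (-1)) (rho g) = (0 : L2 E) := by
    apply eq_zero_of_MTh_mem hU hb hp hc
    · intro k hk
      rw [fourierCoeff_mulC_fourier, fourierCoeff_rho]
      exact hgH _ (by omega)
    · intro k hk
      rw [MTh_mulC, fourierCoeff_mulC_fourier]
      have h5 := hc0 (-(k - -1)) (by omega)
      rw [fourierCoeff_rho, neg_neg] at h5
      exact h5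
  have hg0 : g = 0 := by
    have h1 := congrArg (fun w : L2 E => mulC (fourier 1) w) hf0
    simp only [mulC_fourier_mulC_fourier, map_zero] at h1
    rw [show (1 : ℤ) + -1 = 0 by norm_num, mulC_fourier_zero] at h1
    rw [← rho_rho g, h1, map_zero]
  have hfP : f ∈ P := by
    rw [hg, sub_eq_zero] at hg0
    rw [hg0]
    exact P.starProjection_apply_mem f
  have h6 : f ∈ closure ((Submodule.map (Gt hU hb).toLinearMap (H2 F)) : Set (L2 E)) := hfP
  refine closure_mono ?_ h6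
  rintro _ ⟨u, hu, rfl⟩
  exact ⟨u, hu, coeFn_Gt hU hb u⟩

end Pool.Agent.Helper917.Hardy
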