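import Mathlib
import Pool.Agent.Helper917.VecL2
import Pool.Agent.Helper917.HardyDefs
import Pool.Agent.Helper917.HardySeq
import Pool.Agent.Helper917.ModelMain
import Pool.Agent.Helper917.ScalarL1

set_option autoImplicit false

open MeasureTheory AddCircle Filter Topology
open scoped ComplexConjugate ENNReal InnerProductSpace InnerProduct

namespace Pool.Agent.Helper917.Hardy

lemma integral_fourier (n : ℤ) : ∫ t : Circ, (fourier n t : ℂ) ∂mu = if n = 0 then 1 else 0 := by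
  have h1 := congrFun (fourierCoeff_fourier (T := (1 : ℝ)) 0) (-n)
  unfold fourierCoeff at h1
  simp only [fourier_zero, smul_eq_mul, mul_one, neg_neg] at h1
  rw [h1, Pi.single_apply]
  by_cases h : n = 0
  · simp [h]
  · rw [if_neg (by omega), if_neg h]

lemma integrable_norm_sq (g : L2 ℂ) : Integrable (fun t => ((‖g t‖ ^ 2 : ℝ) : ℂ)) mu :=
  ((Lp.memLp g).integrable_norm_pow two_ne_zero).ofReal

/-- a function in `L²` whose shifts are orthogonal to it has constant modulus -/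
lemma norm_const_of_orth {g : L2 ℂ} (h : ∀ n : ℕ, ⟪mulC (fourier ((n : ℤ) + 1)) g, g⟫_ℂ = 0) :
    ∀ᵐ t ∂mu, ‖g t‖ ^ 2 = ‖g‖ ^ 2 := by
  have hval : ∀ m : ℤ, ⟪mulC (fourier m) g, g⟫_ℂ =
      ∫ t, (fourier (-m) t : ℂ) * ((‖g t‖ ^ 2 : ℝ) : ℂ) ∂mu := by
    intro m
    rw [L2.inner_def]
    apply integral_congr_ae
    filter_upwards [coeFn_mulC (fourier m) g] with t ht
    rw [ht, inner_smul_left, fourier_neg, ← nsq]
  have hint := integrable_norm_sq g
  have h0 : ∫ t, ((‖g t‖ ^ 2 : ℝ) : ℂ) ∂mu = ((‖g‖ ^ 2 : ℝ) : ℂ) := by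
    have := hval 0
    rw [mulC_fourier_zero, ← nsq] at this
    rw [this]
    simp [fourier_zero]
  have hneg : ∀ n : ℕ, ∫ t, (fourier (-((n : ℤ) + 1)) t : ℂ) * ((‖g t‖ ^ 2 : ℝ) : ℂ) ∂mu = 0 :=
    fun n => by rw [← hval]; exact h n
  have hpos : ∀ n : ℕ, ∫ t, (fourier ((n : ℤ) + 1) t : ℂ) * ((‖g t‖ ^ 2 : ℝ) : ℂ) ∂mu = 0 := by
    intro n
    have h1 := congrArg (starRingEnd ℂ) (hneg n)
    rw [← integral_conj, map_zero] at h1
    rw [← h1]
    congr 1
    ext t
    rw [map_mul, Complex.conj_ofReal, fourier_neg, Complex.conj_conj]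
  have key := ae_zero_of_fourier (k := fun t => ((‖g t‖ ^ 2 : ℝ) : ℂ) - ((‖g‖ ^ 2 : ℝ) : ℂ))
    (hint.sub (integrable_const _)) (by
      intro n
      have e1 : ∀ t : Circ, (fourier n t : ℂ) * (((‖g t‖ ^ 2 : ℝ) : ℂ) - ((‖g‖ ^ 2 : ℝ) : ℂ)) =
          (fourier n t : ℂ) * ((‖g t‖ ^ 2 : ℝ) : ℂ) - (fourier n t : ℂ) * ((‖g‖ ^ 2 : ℝ) : ℂ) :=
        fun t => mul_sub _ _ _
      simp_rw [e1]
      have i1 : Integrable (fun t => (fourier n t : ℂ) * ((‖g t‖ ^ 2 : ℝ) : ℂ)) mu :=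
        hint.fourier_smul n
      have i2 : Integrable (fun t : Circ => (fourier n t : ℂ) * ((‖g‖ ^ 2 : ℝ) : ℂ)) mu :=
        (integrable_const (((‖g‖ ^ 2 : ℝ) : ℂ))).fourier_smul n
      rw [integral_sub i1 i2, integral_mul_const, integral_fourier]
      rcases lt_trichotomy n 0 with hn | hn | hn
      · obtain ⟨m, rfl⟩ : ∃ m : ℕ, n = -((m : ℤ) + 1) := ⟨(-n - 1).toNat, by omega⟩
        rw [hneg, if_neg (by omega), zero_mul, sub_zero]
      · subst hn
        simp only [fourier_zero, one_mul, if_true]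
        rw [h0, sub_self]
      · obtain ⟨m, rfl⟩ : ∃ m : ℕ, n = (m : ℤ) + 1 := ⟨(n - 1).toNat, by omega⟩
        rw [hpos, if_neg (by omega), zero_mul, sub_zero])
  filter_upwards [key] with t ht
  have : (((‖g t‖ ^ 2 : ℝ) : ℂ)) = ((‖g‖ ^ 2 : ℝ) : ℂ) := sub_eq_zero.1 ht
  exact_mod_cast this

/-- a wandering vector of the invariant subspace generated by `f` -/
lemma exists_wandering {f : L2 ℂ} (hf : f ∈ H2 ℂ) (h0 : fourierCoeff f 0 ≠ 0) :
    ∃ g : L2 ℂ, fourierCoeff g 0 ≠ 0 ∧ (∀ n : ℕ, ⟪mulC (fourier ((n : ℤ) + 1)) g, g⟫_ℂ = 0) ∧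
      ∀ N : Submodule ℂ (L2 ℂ), IsClosed (N : Set (L2 ℂ)) → f ∈ N →
        (∀ n : ℕ, mulC (fourier ((n : ℤ) + 1)) f ∈ N) → g ∈ N := by
  obtain ⟨M1, hM1⟩ : ∃ M1 : Submodule ℂ (L2 ℂ), M1 = (Submodule.span ℂ
    (Set.range fun n : ℕ => mulC (fourier ((n : ℤ) + 1)) f)).topologicalClosure := ⟨_, rfl⟩
  have hcl : IsClosed (M1 : Set (L2 ℂ)) := by
    rw [hM1]
    exact Submodule.isClosed_topologicalClosure _
  have : CompleteSpace M1 := hcl.completeSpace_coe
  have hgen : ∀ n : ℕ, mulC (fourier ((n : ℤ) + 1)) f ∈ M1 := fun n => by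
    rw [hM1]
    exact Submodule.le_topologicalClosure _ (Submodule.subset_span ⟨n, rfl⟩)
  have hle : ∀ N : Submodule ℂ (L2 ℂ), IsClosed (N : Set (L2 ℂ)) →
      (∀ n : ℕ, mulC (fourier ((n : ℤ) + 1)) f ∈ N) → M1 ≤ N := by
    intro N hN h
    rw [hM1]
    apply Submodule.topologicalClosure_minimal _ _ hN
    rw [Submodule.span_le]
    rintro _ ⟨n, rfl⟩
    exact h n
  clear hM1
  have hker : ∀ m ∈ M1, fourierCoeff m 0 = 0 := by
    have : M1 ≤ LinearMap.ker (coeffL (E := ℂ) 0).toLinearMap := by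
      apply hle _ (coeffL (E := ℂ) 0).isClosed_ker
      intro n
      rw [LinearMap.mem_ker]
      exact (coeffL_apply _ _).trans (by
        rw [fourierCoeff_mulC_fourier]
        exact hf _ (by omega))
    intro m hm
    rw [← coeffL_apply]
    exact LinearMap.mem_ker.1 (this hm)
  have hsh : ∀ m ∈ M1, mulC (fourier 1) m ∈ M1 := by
    have : M1 ≤ M1.comap (mulC (fourier 1)).toLinearMap := by
      apply hle _ (hcl.preimage (mulC (fourier 1)).continuous)
      intro n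
      rw [Submodule.mem_comap]
      have h1 : (mulC (fourier 1)).toLinearMap (mulC (fourier ((n : ℤ) + 1)) f) =
        mulC (fourier (((n + 1 : ℕ) : ℤ) + 1)) f := by
        refine (mulC_fourier_mulC_fourier 1 _ f).trans ?_
        congr 2
        push_cast
        ring
      rw [h1]
      exact hgen (n + 1)
    exact fun m hm => Submodule.mem_comap.1 (this hm)
  obtain ⟨p, hp, hgo⟩ : ∃ p ∈ M1, ∀ m ∈ M1, ⟪m, f - p⟫_ℂ = 0 :=
    ⟨M1.starProjection f, M1.starProjection_apply_mem f, fun m hm =>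
      (Submodule.mem_orthogonal _ _).1 (M1.sub_starProjection_mem_orthogonal f) m hm⟩
  refine ⟨f - p, ?_, ?_, ?_⟩
  · rw [fourierCoeff_sub', hker p hp, sub_zero]
    exact h0
  · have hg1 : ∀ n : ℕ, mulC (fourier ((n : ℤ) + 1)) (f - p) ∈ M1 := by
      intro n
      induction n with
      | zero =>
        rw [map_sub]
        refine M1.sub_mem (hgen 0) ?_
        have := hsh _ hp
        simpa using this
      | succ n ih =>
        have := hsh _ ih
        rw [mulC_fourier_mulC_fourier] at this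
        push_cast
        rwa [add_comm 1] at this
    exact fun n => hgo _ (hg1 n)
  · intro N hN h1 h2
    exact N.sub_mem h1 (hle N hN h2 hp)

lemma H2_aux {f : L2 ℂ} (hf : f ∈ H2 ℂ) (h0 : fourierCoeff f 0 ≠ 0) : ∀ᵐ t ∂mu, f t ≠ 0 := by
  obtain ⟨g, hg0, hgo, hgN⟩ := exists_wandering hf h0
  have hconst := norm_const_of_orth hgo
  have hgne : g ≠ 0 := by
    intro h
    apply hg0
    rw [h, ← coeffL_apply, map_zero]
  -- vanishing set
  let Z : Set Circ := {t | f t = 0}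
  have hZ : MeasurableSet Z := (Lp.stronglyMeasurable f).measurable (measurableSet_singleton 0)
  let m : Circ → ℂ := Z.indicator (fun _ => (1 : ℂ))
  have hm : AEStronglyMeasurable m mu :=
    (stronglyMeasurable_const.indicator hZ).aestronglyMeasurable
  have hm1 : ∀ᵐ t ∂mu, ‖m t‖ ≤ 1 := ae_of_all _ fun t => by
    simp only [m, Set.indicator]
    split_ifs <;> simp
  have hmf : ∀ t, m t * f t = 0 := by
    intro t
    by_cases ht : t ∈ Z
    · have : f t = 0 := ht
      rw [this, mul_zero]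
    · simp [m, ht]
  have hN : g ∈ LinearMap.ker (mulS (E := ℂ) m hm 1 hm1).toLinearMap := by
    apply hgN _ (mulS (E := ℂ) m hm 1 hm1).isClosed_ker
    · rw [LinearMap.mem_ker]
      apply Lp.eq_zero_iff_ae_eq_zero.2
      filter_upwards [coeFn_mulS m hm 1 hm1 f] with t h1
      exact h1.trans (hmf t)
    · intro n
      rw [LinearMap.mem_ker]
      apply Lp.eq_zero_iff_ae_eq_zero.2
      filter_upwards [coeFn_mulS m hm 1 hm1 (mulC (fourier ((n : ℤ) + 1)) f),
        coeFn_mulC (fourier ((n : ℤ) + 1)) f] with t h1 h2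
      refine h1.trans ?_
      rw [h2, smul_eq_mul, smul_eq_mul, mul_left_comm, hmf, mul_zero]
      rfl
  have h3 := Lp.eq_zero_iff_ae_eq_zero.1 (LinearMap.mem_ker.1 hN)
  have hpos : 0 < ‖g‖ ^ 2 := by
    have : 0 < ‖g‖ := norm_pos_iff.2 hgne
    positivity
  filter_upwards [hconst, h3, coeFn_mulS m hm 1 hm1 g] with t h4 h5 h6 h7
  have ht : t ∈ Z := h7
  have h8 : m t • g t = 0 := h6.symm.trans h5
  have h9 : m t = 1 := by simp [m, ht]
  rw [h9, one_smul] at h8
  rw [h8, norm_zero, zero_pow two_ne_zero] at h4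
  rw [← h4] at hpos
  exact lt_irrefl _ hpos

/-- A nonzero function in `H²` is nonzero almost everywhere. -/
theorem H2_ae_ne_zero {f : L2 ℂ} (hf : f ∈ H2 ℂ) (hne : f ≠ 0) : ∀ᵐ t ∂mu, f t ≠ 0 := by
  classical
  have hex : ∃ n : ℕ, fourierCoeff f n ≠ 0 := by
    by_contra hcon
    push Not at hcon
    apply hne
    apply ext_H2 hf (H2 ℂ).zero_mem
    intro n
    rw [hcon n, ← coeffL_apply, map_zero]
  let k := Nat.find hex
  have hk : fourierCoeff f k ≠ 0 := Nat.find_spec hex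
  have hk' : ∀ m < k, fourierCoeff f (m : ℕ) = 0 := fun m hm => by
    have := Nat.find_min hex hm
    push Not at this
    exact this
  have h1 : mulC (fourier (-(k : ℤ))) f ∈ H2 ℂ := by
    intro n hn
    rw [fourierCoeff_mulC_fourier]
    rcases lt_or_ge (n - -(k : ℤ)) 0 with h | h
    · exact hf _ h
    · obtain ⟨m, hm⟩ := Int.eq_ofNat_of_zero_le h
      rw [hm]
      exact hk' m (by omega)
  have h2 := H2_aux h1 (by
    rw [fourierCoeff_mulC_fourier]
    simpa using hk)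
  filter_upwards [h2, coeFn_mulC (fourier (-(k : ℤ))) f] with t h3 h4 h5
  rw [h4, h5, smul_zero] at h3
  exact h3 rfl

end Pool.Agent.Helper917.Hardy
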