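import Mathlib
import Pool.Agent.Helper917.VecL2
import Pool.Agent.Helper917.HardyDefs
import Pool.Agent.Helper917.HardySeq
import Pool.Agent.Helper917.ModelSp
import Pool.Agent.Helper917.ModelMain
import Pool.Agent.Helper917.StarOuter
import Pool.Agent.Helper917.UniqH2

set_option autoImplicit false

open MeasureTheory AddCircle Filter Topology
open scoped ComplexConjugate ENNReal InnerProductSpace InnerProduct

namespace Pool.Agent.Helper917.Hardy

/-- The properties of the symbol `φ` and of `w = √(1 - |φ|²)` used in the construction. -/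
structure Sym (φ w : C(Circ, ℂ)) : Prop where
  anal : ∀ n : ℤ, n < 0 → fourierCoeff φ n = 0
  rel : star φ * φ + star w * w = 1
  near : ∀ t, ‖1 - φ t‖ ≤ 1 / 2
  inj : Function.Injective φ
  pos : mu {t | w t = 0} ≠ 0
  mean : ‖fourierCoeff φ 0‖ < 1
  gap : ∀ᵐ t ∂mu, ∃ δ > 0, ∀ s, w s ≠ 0 → δ ≤ ‖1 - fourier 1 t * conj (φ s)‖

variable {φ w : C(Circ, ℂ)}

lemma fourierCoeff_mulC_mono (m : C(Circ, ℂ)) (n l : ℤ) (c : ℂ) :
    fourierCoeff (mulC m (mono n c : L2 ℂ)) l = fourierCoeff m (l - n) * c := by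
  have h1 : (mulC m (mono n c : L2 ℂ) : Circ → ℂ) =ᵐ[mu] fun t => m t * (fourier n t * c) := by
    filter_upwards [coeFn_mulC m (mono n c : L2 ℂ), coeFn_mono n c] with t h1 h2
    rw [h1, h2]
    rfl
  rw [fourierCoeff_congr_ae h1]
  unfold fourierCoeff
  rw [← integral_mul_const]
  congr 1
  ext t
  rw [smul_eq_mul, smul_eq_mul]
  have : (fourier (-(l - n)) t : ℂ) = fourier (-l) t * fourier n t := by
    rw [← fourier_add]
    congr 1
    ring
  rw [this]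
  ring

lemma fourierCoeff_star (m : C(Circ, ℂ)) (n : ℤ) :
    fourierCoeff (star m : C(Circ, ℂ)) n = conj (fourierCoeff m (-n)) := by
  unfold fourierCoeff
  rw [← integral_conj]
  congr 1
  ext t
  rw [smul_eq_mul, smul_eq_mul, map_mul, neg_neg, fourier_neg, ContinuousMap.star_apply]
  rfl

lemma mulC_mem (ha : ∀ n : ℤ, n < 0 → fourierCoeff φ n = 0) {f : L2 ℂ} (hf : f ∈ H2 ℂ) :
    mulC φ f ∈ H2 ℂ := by
  intro n hn
  apply ext_inner_left ℂ
  intro e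
  rw [inner_zero_right, ← inner_mono, ← inner_conj_symm, inner_mulC_left, inner_conj_symm]
  apply inner_eq_zero_of_coeff
  intro k
  rcases lt_or_ge k 0 with hk | hk
  · right; exact hf k hk
  · left
    rw [fourierCoeff_mulC_mono, fourierCoeff_star, ha _ (by omega), map_zero, zero_mul]

lemma ext_H2_inner {f g : L2 ℂ} (hf : f ∈ H2 ℂ) (hg : g ∈ H2 ℂ)
    (h : ∀ y ∈ H2 ℂ, ⟪y, f⟫_ℂ = ⟪y, g⟫_ℂ) : f = g := by
  have h1 := h (f - g) ((H2 ℂ).sub_mem hf hg)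
  rw [← sub_eq_zero, ← inner_sub_right, inner_self_eq_zero, sub_eq_zero] at h1
  exact h1

lemma riesz_star_riesz (ha : ∀ n : ℤ, n < 0 → fourierCoeff φ n = 0) (f : L2 ℂ) :
    riesz (mulC (star φ) (riesz f)) = riesz (mulC (star φ) f) := by
  apply ext_H2_inner (riesz_mem _) (riesz_mem _)
  intro y hy
  rw [inner_riesz_right hy, inner_riesz_right hy, ← inner_mulC_left, ← inner_mulC_left,
    inner_riesz_right (mulC_mem ha hy)]

/-- the analytic Toeplitz operator -/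
noncomputable def Tp (ha : ∀ n : ℤ, n < 0 → fourierCoeff φ n = 0) : H2 ℂ →L[ℂ] H2 ℂ :=
  (mulC φ ∘L (H2 ℂ).subtypeL).codRestrict (H2 ℂ) fun f => mulC_mem ha f.2

lemma Tp_coe (ha : ∀ n : ℤ, n < 0 → fourierCoeff φ n = 0) (f : H2 ℂ) :
    (Tp ha f : L2 ℂ) = mulC φ (f : L2 ℂ) := rfl

/-- multiplication by `w` -/
noncomputable def Cp (w : C(Circ, ℂ)) : H2 ℂ →L[ℂ] L2 ℂ := mulC w ∘L (H2 ℂ).subtypeL

lemma Cp_apply (f : H2 ℂ) : Cp w f = mulC w (f : L2 ℂ) := rfl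

lemma Tp_adj_coe (ha : ∀ n : ℤ, n < 0 → fourierCoeff φ n = 0) (f : H2 ℂ) :
    ((((Tp ha)†) f : H2 ℂ) : L2 ℂ) = riesz (mulC (star φ) (f : L2 ℂ)) := by
  apply ext_H2_inner (((Tp ha)†) f).2 (riesz_mem _)
  intro y hy
  rw [inner_riesz_right hy, ← inner_mulC_left]
  exact ContinuousLinearMap.adjoint_inner_right (Tp ha) (⟨y, hy⟩ : H2 ℂ) f

lemma Cp_adj_coe (g : L2 ℂ) :
    ((((Cp w)†) g : H2 ℂ) : L2 ℂ) = riesz (mulC (star w) g) := by
  apply ext_H2_inner (((Cp w)†) g).2 (riesz_mem _)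
  intro y hy
  rw [inner_riesz_right hy, ← inner_mulC_left]
  exact ContinuousLinearMap.adjoint_inner_right (Cp w) (⟨y, hy⟩ : H2 ℂ) g

lemma riesz_add (f g : L2 ℂ) : riesz (f + g) = riesz f + riesz g := map_add _ f g

lemma Sym.iso (h : Sym φ w) (x : H2 ℂ) :
    ((Tp h.anal)†) (Tp h.anal x) + ((Cp w)†) (Cp w x) = x := by
  apply Subtype.ext
  show ((((Tp h.anal)†) (Tp h.anal x) : H2 ℂ) : L2 ℂ) + ((((Cp w)†) (Cp w x) : H2 ℂ) : L2 ℂ) = x
  rw [Tp_adj_coe, Cp_adj_coe, Tp_coe, Cp_apply, ← riesz_add, mulC_mulC, mulC_mulC, ← mulC_add,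
    h.rel, mulC_one, riesz_eq_self x.2]

lemma Tp_pow_coe (ha : ∀ n : ℤ, n < 0 → fourierCoeff φ n = 0) (n : ℕ) (f : H2 ℂ) :
    (((Tp ha) ^ n) f : L2 ℂ) = mulC (φ ^ n) (f : L2 ℂ) := by
  induction n with
  | zero => rw [pow_zero, pow_zero, mulC_one]; rfl
  | succ n ih =>
    rw [pow_succ', mul_apply_eq_comp, Tp_coe, ih, mulC_mulC, ← pow_succ']

lemma Tp_adj_pow_coe (ha : ∀ n : ℤ, n < 0 → fourierCoeff φ n = 0) (n : ℕ) (f : H2 ℂ) :
    (((((Tp ha)†) ^ n) f : H2 ℂ) : L2 ℂ) = riesz (mulC (star φ ^ n) (f : L2 ℂ)) := by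
  induction n with
  | zero =>
    rw [pow_zero, pow_zero, mulC_one]
    exact (riesz_eq_self f.2).symm
  | succ n ih =>
    rw [pow_succ', mul_apply_eq_comp, Tp_adj_coe, ih, riesz_star_riesz ha, mulC_mulC, ← pow_succ']

lemma Sym.norm_sq (h : Sym φ w) (t : Circ) : ‖φ t‖ ^ 2 + ‖w t‖ ^ 2 = 1 := by
  have h1 := congrArg (fun f : C(Circ, ℂ) => f t) h.rel
  simp only [ContinuousMap.add_apply, ContinuousMap.mul_apply, ContinuousMap.star_apply,
    ContinuousMap.one_apply, Complex.star_def, Complex.conj_mul'] at h1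
  exact_mod_cast h1

lemma Sym.norm_le (h : Sym φ w) (t : Circ) : ‖φ t‖ ≤ 1 := by
  have := h.norm_sq t
  nlinarith [norm_nonneg (φ t), sq_nonneg ‖w t‖]

lemma Sym.norm_eq_one (h : Sym φ w) {t : Circ} (ht : w t = 0) : ‖φ t‖ = 1 := by
  have := h.norm_sq t
  rw [ht, norm_zero] at this
  nlinarith [norm_nonneg (φ t)]

lemma Sym.norm_phi (h : Sym φ w) : ‖φ‖ ≤ 1 := by
  rw [ContinuousMap.norm_le _ zero_le_one]
  exact h.norm_le

lemma Sym.norm_star_pow (h : Sym φ w) (n : ℕ) : ‖star φ ^ n‖ ≤ 1 := by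
  rw [ContinuousMap.norm_le _ zero_le_one]
  intro t
  rw [ContinuousMap.pow_apply, norm_pow, ContinuousMap.star_apply, norm_star]
  exact pow_le_one₀ (norm_nonneg _) (h.norm_le t)

/-- class `C_{1·}` -/
lemma Sym.c1 (h : Sym φ w) : C1 (Tp h.anal) := by
  intro x hx
  by_contra hne
  have hne' : (x : L2 ℂ) ≠ 0 := fun h0 => hne (Subtype.ext h0)
  have hae := H2_ae_ne_zero x.2 hne'
  let Z : Set Circ := {t | w t = 0}
  have hZ : MeasurableSet Z := w.continuous.measurable (measurableSet_singleton 0)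
  let m : Circ → ℂ := Z.indicator (fun _ => (1 : ℂ))
  have hm : AEStronglyMeasurable m mu :=
    (stronglyMeasurable_const.indicator hZ).aestronglyMeasurable
  have hm1 : ∀ᵐ t ∂mu, ‖m t‖ ≤ 1 := ae_of_all _ fun t => by
    simp only [m, Set.indicator]
    split_ifs <;> simp
  have h1 : ∀ n : ℕ, ‖mulS (E := ℂ) m hm 1 hm1 (x : L2 ℂ)‖ ≤ ‖((Tp h.anal) ^ n) x‖ := by
    intro n
    have e : ‖((Tp h.anal) ^ n) x‖ = ‖mulC (φ ^ n) (x : L2 ℂ)‖ := by
      rw [← Tp_pow_coe h.anal]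
      rfl
    rw [e]
    have := Lp.norm_le_mul_norm_of_ae_le_mul (c := 1) (f := mulS (E := ℂ) m hm 1 hm1 (x : L2 ℂ))
      (g := mulC (φ ^ n) (x : L2 ℂ)) (by
        filter_upwards [coeFn_mulS m hm 1 hm1 (x : L2 ℂ), coeFn_mulC (φ ^ n) (x : L2 ℂ)]
          with t h1 h2
        rw [h1, h2, one_mul, norm_smul, norm_smul, ContinuousMap.pow_apply, norm_pow]
        by_cases ht : t ∈ Z
        · rw [h.norm_eq_one ht]
          simp [m, ht]
        · simp only [m, Set.indicator, ht, if_false, norm_zero, zero_mul]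
          positivity)
    rwa [one_mul] at this
  have h2 : ‖mulS (E := ℂ) m hm 1 hm1 (x : L2 ℂ)‖ ≤ 0 := by
    have h3 := hx.norm
    rw [norm_zero] at h3
    exact ge_of_tendsto h3 (Eventually.of_forall h1)
  have h3 : mulS (E := ℂ) m hm 1 hm1 (x : L2 ℂ) = 0 := norm_le_zero_iff.1 h2
  have h4 := Lp.eq_zero_iff_ae_eq_zero.1 h3
  apply h.pos
  have h5 : ∀ᵐ t ∂mu, t ∉ Z := by
    filter_upwards [hae, h4, coeFn_mulS m hm 1 hm1 (x : L2 ℂ)] with t h5 h6 h7 h8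
    have h9 : m t • (x : L2 ℂ) t = 0 := h7.symm.trans h6
    have h10 : m t = 1 := by simp [m, h8]
    rw [h10, one_smul] at h9
    exact h5 h9
  have h6 := ae_iff.1 h5
  simpa using h6

end Pool.Agent.Helper917.Hardy
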