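import Mathlib
import Pool.Agent.Helper917.VecL2
import Pool.Agent.Helper917.HardyDefs
import Pool.Agent.Helper917.ScalarL1
import Pool.Agent.Helper917.SymBasic

set_option autoImplicit false

open MeasureTheory AddCircle Filter Topology
open scoped ComplexConjugate ENNReal InnerProductSpace InnerProduct

namespace Pool.Agent.Helper917.Hardy

variable {φ w : C(Circ, ℂ)}

/-- an integrable function supported on `{w = 0}` all of whose `φ`-moments vanish is zero -/
theorem Sym.moment (h : Sym φ w) {k : Circ → ℂ} (hk : Integrable k mu)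
    (hz : ∀ᵐ t ∂mu, w t ≠ 0 → k t = 0) (hm : ∀ n : ℕ, ∫ t, (φ t) ^ n * k t ∂mu = 0) :
    k =ᵐ[mu] 0 := by
  -- the space annihilated
  let W : Submodule ℂ C(Circ, ℂ) :=
    { carrier := {g | ∀ j : ℕ, intL hk (g * φ ^ j) = 0}
      add_mem' := by
        intro a b ha hb j
        rw [add_mul, map_add, ha j, hb j, add_zero]
      zero_mem' := by
        intro j
        rw [zero_mul, map_zero]
      smul_mem' := by
        intro c a ha j
        rw [smul_mul_assoc, map_smul, ha j, smul_zero] }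
  have hWmem : ∀ g, g ∈ W ↔ ∀ j : ℕ, intL hk (g * φ ^ j) = 0 := fun g => Iff.rfl
  have hWcl : IsClosed (W : Set C(Circ, ℂ)) := by
    have : (W : Set C(Circ, ℂ)) = ⋂ j : ℕ, {g | intL hk (g * φ ^ j) = 0} := by
      ext g
      simp [hWmem]
    rw [this]
    refine isClosed_iInter fun j => isClosed_eq ?_ continuous_const
    exact (intL hk).continuous.comp (continuous_id.mul continuous_const)
  -- the stabiliser
  let S : Subalgebra ℂ C(Circ, ℂ) :=
    { carrier := {f | ∀ g ∈ W, f * g ∈ W}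
      mul_mem' := by
        intro a b ha hb g hg
        rw [mul_assoc]
        exact ha _ (hb g hg)
      add_mem' := by
        intro a b ha hb g hg
        rw [add_mul]
        exact W.add_mem (ha g hg) (hb g hg)
      algebraMap_mem' := by
        intro r g hg
        rw [← Algebra.smul_def]
        exact W.smul_mem r hg }
  have hSmem : ∀ f, f ∈ S ↔ ∀ g ∈ W, f * g ∈ W := fun f => Iff.rfl
  have hScl : IsClosed (S : Set C(Circ, ℂ)) := by
    have : (S : Set C(Circ, ℂ)) = ⋂ g ∈ W, {f | f * g ∈ W} := by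
      ext f
      simp [hSmem]
    rw [this]
    refine isClosed_iInter fun g => isClosed_iInter fun _ => ?_
    exact hWcl.preimage (continuous_id.mul continuous_const)
  have hφS : φ ∈ S := by
    intro g hg j
    have := hg (j + 1)
    rw [← this]
    congr 1
    ring
  have h1W : (1 : C(Circ, ℂ)) ∈ W := by
    intro j
    rw [one_mul, intL_apply, ← hm j]
    rfl
  -- the inverse of `φ`
  have hnorm : ‖1 - φ‖ < 1 := by
    have : ‖1 - φ‖ ≤ 1 / 2 := by
      rw [ContinuousMap.norm_le _ (by norm_num)]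
      exact h.near
    linarith
  have hpow : ∀ n : ℕ, (1 - φ) ^ n ∈ S := fun n => S.pow_mem (S.sub_mem S.one_mem hφS) n
  set ψ : C(Circ, ℂ) := ∑' n : ℕ, (1 - φ) ^ n with hψ
  have hψS : ψ ∈ S := by
    have hsum : Summable fun n : ℕ => (1 - φ) ^ n := summable_geometric_of_norm_lt_one hnorm
    have hlim := hsum.hasSum.tendsto_sum_nat
    exact hScl.mem_of_tendsto hlim (Eventually.of_forall fun n =>
      S.sum_mem fun i _ => hpow i)
  have hψφ : ψ * φ = 1 := by
    have := geom_series_mul_neg (1 - φ) hnorm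
    rw [sub_sub_cancel] at this
    exact this
  -- `star φ` lies in the stabiliser
  have hstar : star φ ∈ S := by
    intro g hg j
    have h1 : intL hk (ψ * g * φ ^ j) = 0 := hψS g hg j
    rw [← h1, intL_apply, intL_apply]
    apply integral_congr_ae
    filter_upwards [hz] with t ht
    by_cases hw : w t = 0
    · have e1 : ψ t * φ t = 1 := congrArg (fun f : C(Circ, ℂ) => f t) hψφ
      have e2 : conj (φ t) * φ t = 1 := by
        rw [Complex.conj_mul', h.norm_eq_one hw]
        norm_num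
      have e3 : φ t ≠ 0 := by
        intro h0
        rw [h0, mul_zero] at e1
        exact zero_ne_one e1
      have e4 : conj (φ t) = ψ t := mul_right_cancel₀ e3 (e2.trans e1.symm)
      simp only [ContinuousMap.mul_apply, ContinuousMap.star_apply, Complex.star_def, e4]
    · rw [ht hw, mul_zero, mul_zero]
  -- Stone-Weierstrass
  have hadj : (StarAlgebra.adjoin ℂ {φ} : StarSubalgebra ℂ C(Circ, ℂ)).toSubalgebra ≤ S := by
    rw [StarAlgebra.adjoin_toSubalgebra, Algebra.adjoin_le_iff]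
    intro f hf
    simp only [Set.star_singleton, Set.mem_union, Set.mem_singleton_iff] at hf
    rcases hf with rfl | rfl
    · exact hφS
    · exact hstar
  have hsw := ContinuousMap.starSubalgebra_topologicalClosure_eq_top_of_separatesPoints
    (StarAlgebra.adjoin ℂ {φ} : StarSubalgebra ℂ C(Circ, ℂ)) (by
      intro x y hxy
      refine ⟨φ, ⟨φ, StarAlgebra.self_mem_adjoin_singleton ℂ φ, rfl⟩, ?_⟩
      exact fun h0 => hxy (h.inj h0))
  have hall : ∀ f : C(Circ, ℂ), f ∈ S := by
    intro f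
    have h1 : f ∈ (StarAlgebra.adjoin ℂ {φ} : StarSubalgebra ℂ C(Circ, ℂ)).topologicalClosure := by
      rw [hsw]
      trivial
    have h2 : f ∈ closure ((StarAlgebra.adjoin ℂ {φ} : StarSubalgebra ℂ C(Circ, ℂ)) :
        Set C(Circ, ℂ)) := h1
    exact closure_minimal (fun x hx => hadj hx) hScl h2
  apply complex_ae_zero hk
  intro f
  have h1 := hall f 1 h1W 0
  rw [mul_one, pow_zero, mul_one, intL_apply] at h1
  exact h1

/-- bounded backward orbits -/
theorem Sym.orbitProp (h : Sym φ w) : OrbitProp (Tp h.anal) := by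
  intro x M hx hM
  let b : ℕ → ℝ := fun n => ‖x n‖ ^ 2
  have hrel : ∀ n j : ℕ, (x n : L2 ℂ) = riesz (mulC (star φ ^ j) (x (n + j) : L2 ℂ)) := by
    intro n j
    rw [← Tp_adj_pow_coe h.anal]
    congr 1
    induction j with
    | zero => simp
    | succ j ih =>
      rw [pow_succ, mul_apply_eq_comp, ← add_assoc, hx, ih]
  let c : ℕ → L2 ℂ := fun n => mulC (star φ ^ n) (x n : L2 ℂ)
  have hcon : ∀ (n : ℕ) (f : L2 ℂ), ‖mulC (star φ ^ n) f‖ ≤ ‖f‖ := by
    intro n f
    refine (norm_mulC_apply_le _ _).trans ?_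
    have := h.norm_star_pow n
    calc ‖star φ ^ n‖ * ‖f‖ ≤ 1 * ‖f‖ := by gcongr
      _ = ‖f‖ := one_mul _
  have hdist : ∀ n j : ℕ, ‖c (n + j) - c n‖ ^ 2 ≤ b (n + j) - b n := by
    intro n j
    set u : L2 ℂ := mulC (star φ ^ j) (x (n + j) : L2 ℂ) with hu
    have e1 : c (n + j) - c n = mulC (star φ ^ n) (u - riesz u) := by
      show mulC (star φ ^ (n + j)) (x (n + j) : L2 ℂ) - mulC (star φ ^ n) (x n : L2 ℂ) = _
      rw [hrel n j, map_sub, ← hu, hu, mulC_mulC, pow_add]
    have e2 : ‖u - riesz u‖ ^ 2 = ‖u‖ ^ 2 - ‖riesz u‖ ^ 2 := by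
      have h1 : ⟪riesz u, u - riesz u⟫_ℂ = 0 := by
        rw [inner_sub_right, ← inner_riesz_right (riesz_mem u), sub_self]
      have h2 := norm_add_sq_eq_norm_sq_add_norm_sq_of_inner_eq_zero (riesz u) (u - riesz u) h1
      rw [add_sub_cancel] at h2
      nlinarith
    have e3 : ‖riesz u‖ = ‖x n‖ := by
      rw [← hrel n j]
      rfl
    have e4 : ‖u‖ ≤ ‖x (n + j)‖ := hcon j _
    rw [e1]
    have e5 : ‖mulC (star φ ^ n) (u - riesz u)‖ ^ 2 ≤ ‖u - riesz u‖ ^ 2 := by
      have := hcon n (u - riesz u)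
      gcongr
    refine e5.trans ?_
    rw [e2, e3]
    show _ ≤ ‖x (n + j)‖ ^ 2 - ‖x n‖ ^ 2
    have : ‖u‖ ^ 2 ≤ ‖x (n + j)‖ ^ 2 := by gcongr
    linarith
  have hmono : Monotone b := by
    apply monotone_nat_of_le_succ
    intro n
    have := hdist n 1
    nlinarith [sq_nonneg ‖c (n + 1) - c n‖]
  have hbdd : BddAbove (Set.range b) := by
    refine ⟨M ^ 2, ?_⟩
    rintro _ ⟨n, rfl⟩
    have := hM n
    show ‖x n‖ ^ 2 ≤ M ^ 2
    gcongr
  have hL := tendsto_atTop_ciSup hmono hbdd
  set L := ⨆ n, b n with hLdef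
  have hcauchy : CauchySeq c := by
    apply cauchySeq_of_le_tendsto_0 (fun n => √(L - b n) + √(L - b n))
    · intro n m N hn hm
      have key : ∀ n, N ≤ n → dist (c n) (c N) ≤ √(L - b N) := by
        intro n hn
        obtain ⟨j, rfl⟩ := Nat.exists_eq_add_of_le hn
        rw [dist_eq_norm]
        apply Real.le_sqrt_of_sq_le
        refine (hdist N j).trans ?_
        have := le_ciSup hbdd (N + j)
        linarith
      calc dist (c n) (c m) ≤ dist (c n) (c N) + dist (c m) (c N) := dist_triangle_right _ _ _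
        _ ≤ _ := add_le_add (key n hn) (key m hm)
    · have h1 : Tendsto (fun n => √(L - b n)) atTop (𝓝 √(L - L)) :=
        (Real.continuous_sqrt.tendsto _).comp (tendsto_const_nhds.sub hL)
      rw [sub_self, Real.sqrt_zero] at h1
      simpa using h1.add h1
  obtain ⟨cl, hcl⟩ := cauchySeq_tendsto_of_complete hcauchy
  have hP : riesz cl = (x 0 : L2 ℂ) := by
    have h1 : Tendsto (fun n => riesz (c n)) atTop (𝓝 (riesz cl)) :=
      ((H2 ℂ).starProjection.continuous.tendsto _).comp hcl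
    refine tendsto_nhds_unique h1 ?_
    have : (fun n => riesz (c n)) = fun _ => (x 0 : L2 ℂ) := by
      ext1 n
      have := hrel 0 n
      rw [zero_add] at this
      exact this.symm
    rw [this]
    exact tendsto_const_nhds
  have hsup : ∀ n : ℕ, ‖w * star φ ^ n‖ ^ 2 ≤ 1 / ((n : ℝ) + 1) := by
    intro n
    have h1 : ‖w * star φ ^ n‖ ≤ √(1 / ((n : ℝ) + 1)) := by
      rw [ContinuousMap.norm_le _ (Real.sqrt_nonneg _)]
      intro t
      apply Real.le_sqrt_of_sq_le
      rw [ContinuousMap.mul_apply, ContinuousMap.pow_apply, norm_mul, norm_pow,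
        ContinuousMap.star_apply, norm_star, mul_pow]
      have h2 := h.norm_sq t
      set s := ‖φ t‖ ^ 2 with hs
      have hs0 : 0 ≤ s := by positivity
      have hs1 : s ≤ 1 := by nlinarith [sq_nonneg ‖w t‖]
      have h3 : ‖w t‖ ^ 2 = 1 - s := by linarith
      have h4 : (‖φ t‖ ^ n) ^ 2 = s ^ n := by rw [hs, ← pow_mul, ← pow_mul, mul_comm]
      rw [h3, h4, le_div_iff₀ (by positivity)]
      have h5 : ((n : ℝ) + 1) * s ^ n ≤ ∑ j ∈ Finset.range (n + 1), s ^ j := by
        have : ∑ j ∈ Finset.range (n + 1), s ^ n ≤ ∑ j ∈ Finset.range (n + 1), s ^ j := by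
          apply Finset.sum_le_sum
          intro j hj
          exact pow_le_pow_of_le_one hs0 hs1 (Nat.lt_succ_iff.1 (Finset.mem_range.1 hj))
        simpa using this
      have h6 := mul_neg_geom_sum s (n + 1)
      have h7 : 0 ≤ s ^ (n + 1) := by positivity
      nlinarith
    calc ‖w * star φ ^ n‖ ^ 2 ≤ √(1 / ((n : ℝ) + 1)) ^ 2 := by gcongr
      _ = 1 / ((n : ℝ) + 1) := Real.sq_sqrt (by positivity)
  have hw0 : mulC w cl = 0 := by
    have h1 : Tendsto (fun n => mulC w (c n)) atTop (𝓝 (mulC w cl)) :=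
      ((mulC w).continuous.tendsto _).comp hcl
    have h2 : Tendsto (fun n => mulC w (c n)) atTop (𝓝 0) := by
      have h3 : ∀ n, ‖mulC w (c n)‖ ≤ √(1 / ((n : ℝ) + 1)) * M := by
        intro n
        have e : mulC w (c n) = mulC (w * star φ ^ n) (x n : L2 ℂ) := mulC_mulC _ _ _
        rw [e]
        refine (norm_mulC_apply_le _ _).trans ?_
        have h4 : ‖w * star φ ^ n‖ ≤ √(1 / ((n : ℝ) + 1)) := by
          apply Real.le_sqrt_of_sq_le
          exact hsup n
        exact mul_le_mul h4 (hM n) (norm_nonneg _) (Real.sqrt_nonneg _)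
      have h5 : Tendsto (fun n : ℕ => √(1 / ((n : ℝ) + 1)) * M) atTop (𝓝 (√0 * M)) :=
        ((Real.continuous_sqrt.tendsto 0).comp tendsto_one_div_add_atTop_nhds_zero_nat).mul_const _
      rw [Real.sqrt_zero, zero_mul] at h5
      exact squeeze_zero_norm h3 h5
    exact tendsto_nhds_unique h1 h2
  have hcw : ∀ᵐ t ∂mu, w t ≠ 0 → cl t = 0 := by
    filter_upwards [coeFn_mulC w cl, Lp.eq_zero_iff_ae_eq_zero.1 hw0] with t h1 h2 h3
    have h4 : w t • cl t = 0 := h1.symm.trans h2
    exact (smul_eq_zero.1 h4).resolve_left h3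
  by_cases hx0 : x 0 = 0
  · exact Or.inl hx0
  right
  intro y hy
  by_contra hyne
  have hyne' : (y : L2 ℂ) ≠ 0 := fun h0 => hyne (Subtype.ext h0)
  have hyae := H2_ae_ne_zero y.2 hyne'
  have hint : Integrable (fun t => conj (cl t) * (y : L2 ℂ) t) mu := by
    have := L2.integrable_inner (𝕜 := ℂ) cl (y : L2 ℂ)
    refine this.congr (ae_of_all _ fun t => ?_)
    simp only [RCLike.inner_apply]
    ring
  have hmom : ∀ n : ℕ, ∫ t, (φ t) ^ n * (conj (cl t) * (y : L2 ℂ) t) ∂mu = 0 := by
    intro n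
    have h1 := hy n
    have e1 : ⟪(((Tp h.anal)†) ^ n) (x 0), y⟫_ℂ = ⟪x 0, ((Tp h.anal) ^ n) y⟫_ℂ := by
      rw [← ContinuousLinearMap.star_eq_adjoint, ← star_pow,
        ContinuousLinearMap.star_eq_adjoint, ContinuousLinearMap.adjoint_inner_left]
    have e2 : ⟪x 0, ((Tp h.anal) ^ n) y⟫_ℂ = ⟪(x 0 : L2 ℂ), mulC (φ ^ n) (y : L2 ℂ)⟫_ℂ := by
      rw [← Tp_pow_coe h.anal]
      rfl
    have e3 : mulC (φ ^ n) (y : L2 ℂ) ∈ H2 ℂ := by
      rw [← Tp_pow_coe h.anal]
      exact (((Tp h.anal) ^ n) y).2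
    rw [e1, e2, ← hP, inner_riesz_left e3, L2.inner_def] at h1
    rw [← h1]
    apply integral_congr_ae
    filter_upwards [coeFn_mulC (φ ^ n) (y : L2 ℂ)] with t ht
    rw [ht, RCLike.inner_apply, ContinuousMap.pow_apply, smul_eq_mul]
    ring
  have hk0 := h.moment hint (by
    filter_upwards [hcw] with t ht hwt
    rw [ht hwt, map_zero, zero_mul]) hmom
  have hcl0 : cl = 0 := by
    apply Lp.eq_zero_iff_ae_eq_zero.2
    filter_upwards [hk0, hyae] with t h1 h2
    have h3 : conj (cl t) * (y : L2 ℂ) t = 0 := h1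
    have h4 := (mul_eq_zero.1 h3).resolve_right h2
    exact (map_eq_zero _).1 h4
  apply hx0
  apply Subtype.ext
  rw [← hP, hcl0]
  exact map_zero _

end Pool.Agent.Helper917.Hardy
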