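import Mathlib

set_option autoImplicit false
open Filter Topology Set ZeroAtInfty

namespace Pool.Agent.Helper917.Nuss

section basic

variable {E : Type*} [NormedAddCommGroup E]

/-- the null sequence with given entries -/
noncomputable def mk0 (u : ℕ → E) (h : Tendsto u atTop (𝓝 0)) : C₀(ℕ, E) :=
  ⟨⟨u, continuous_of_discreteTopology⟩, by
    rw [cocompact_eq_cofinite, Nat.cofinite_eq_atTop]; exact h⟩

@[simp] theorem mk0_apply (u : ℕ → E) (h : Tendsto u atTop (𝓝 0)) (j : ℕ) : mk0 u h j = u j := rfl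

theorem tendsto0 (x : C₀(ℕ, E)) : Tendsto x atTop (𝓝 0) := by
  have := x.zero_at_infty'
  rw [cocompact_eq_cofinite, Nat.cofinite_eq_atTop] at this
  exact this

theorem norm_coord_le (x : C₀(ℕ, E)) (i : ℕ) : ‖x i‖ ≤ ‖x‖ := by
  rw [← ZeroAtInftyContinuousMap.norm_toBCF_eq_norm]
  exact x.toBCF.norm_coe_le_norm i

theorem norm_le_of (x : C₀(ℕ, E)) {c : ℝ} (hc : 0 ≤ c) (h : ∀ i, ‖x i‖ ≤ c) : ‖x‖ ≤ c := by
  rw [← ZeroAtInftyContinuousMap.norm_toBCF_eq_norm]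
  exact (BoundedContinuousFunction.norm_le hc).2 h

theorem continuous_coord (j : ℕ) : Continuous fun x : C₀(ℕ, E) => x j := by
  refine (LipschitzWith.of_dist_le_mul (K := 1) fun x y => ?_).continuous
  rw [dist_eq_norm, dist_eq_norm, NNReal.coe_one, one_mul]
  exact norm_coord_le (x - y) j

theorem continuousAt_c0 {X : Type*} [TopologicalSpace X] {Φ : X → C₀(ℕ, E)} {ξ₀ : X}
    (hc : ∀ j, ContinuousAt (fun ξ => Φ ξ j) ξ₀)
    (ht : ∀ ε : ℝ, 0 < ε → ∃ J : ℕ, ∀ᶠ ξ in 𝓝 ξ₀, ∀ j, J ≤ j → ‖Φ ξ j‖ ≤ ε) :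
    ContinuousAt Φ ξ₀ := by
  rw [ContinuousAt, Metric.tendsto_nhds]
  intro ε hε
  obtain ⟨J, hJ⟩ := ht (ε / 4) (by positivity)
  have h1 : ∀ᶠ ξ in 𝓝 ξ₀, ∀ j ∈ Finset.range J, dist (Φ ξ j) (Φ ξ₀ j) < ε / 2 := by
    rw [Filter.eventually_all_finset]
    intro j _
    exact (Metric.tendsto_nhds.1 (hc j)) (ε / 2) (by positivity)
  have h0 := hJ.self_of_nhds
  filter_upwards [hJ, h1] with ξ h2 h3
  rw [dist_eq_norm]
  refine lt_of_le_of_lt (norm_le_of _ (c := ε / 2) (by positivity) fun j => ?_) (by linarith)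
  rcases lt_or_ge j J with hj | hj
  · have := h3 j (Finset.mem_range.2 hj)
    rw [dist_eq_norm] at this
    exact this.le
  · calc ‖(Φ ξ - Φ ξ₀) j‖ = ‖Φ ξ j - Φ ξ₀ j‖ := rfl
      _ ≤ ‖Φ ξ j‖ + ‖Φ ξ₀ j‖ := norm_sub_le _ _
      _ ≤ ε / 2 := by linarith [h2 j hj, h0 j hj]

/-- uniform smallness of tails on compact sets -/
theorem tail_uniform (K : Set C₀(ℕ, E)) (hK : IsCompact K) (ε : ℝ) (hε : 0 < ε) :
    ∃ J : ℕ, ∀ x ∈ K, ∀ j, J ≤ j → ‖x j‖ < ε := by
  have h1 : ∀ x ∈ K, ∃ J : ℕ, ∀ j, J ≤ j → ‖x j‖ < ε / 2 := by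
    intro x _
    have := (Metric.tendsto_atTop.1 (tendsto0 x)) (ε / 2) (by positivity)
    obtain ⟨J, hJ⟩ := this
    exact ⟨J, fun j hj => by simpa using hJ j hj⟩
  choose! J hJ using h1
  obtain ⟨t, htK, ht⟩ := hK.elim_nhds_subcover (fun x => Metric.ball x (ε / 2))
    (fun x _ => Metric.ball_mem_nhds x (by positivity))
  refine ⟨t.sup J, fun x hx j hj => ?_⟩
  obtain ⟨y, hy, hxy⟩ := mem_iUnion₂.1 (ht hx)
  have h2 : ‖y j‖ < ε / 2 := hJ y (htK y hy) j (le_trans (Finset.le_sup hy) hj)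
  have h3 : ‖(x - y) j‖ ≤ ‖x - y‖ := norm_coord_le _ _
  have h4 : ‖x - y‖ < ε / 2 := by rw [← dist_eq_norm]; exact hxy
  have h5 : x j = y j + (x - y) j := by
    simp
  rw [h5]
  calc ‖y j + (x - y) j‖ ≤ ‖y j‖ + ‖(x - y) j‖ := norm_add_le _ _
    _ < ε := by linarith

end basic

section sg

/-- size of a nonnegative defect sequence, entries damped by 1/(j+1) -/
theorem sg_tendsto (v : ℕ → ℝ) :
    Tendsto (fun j : ℕ => min (max (v j) 0) (1 / ((j : ℝ) + 1))) atTop (𝓝 0) := by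
  refine squeeze_zero (fun j => ?_) (fun j => min_le_right _ _)
    tendsto_one_div_add_atTop_nhds_zero_nat
  exact le_min (le_max_right _ _) (by positivity)

noncomputable def sg (v : ℕ → ℝ) : ℝ := ‖mk0 _ (sg_tendsto v)‖

theorem sg_nonneg (v : ℕ → ℝ) : 0 ≤ sg v := norm_nonneg _

theorem sg_ge (v : ℕ → ℝ) (j : ℕ) : min (v j) (1 / ((j : ℝ) + 1)) ≤ sg v := by
  have h := norm_coord_le (mk0 _ (sg_tendsto v)) j
  rw [mk0_apply] at h
  refine le_trans ?_ (le_trans (le_abs_self _) h)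
  exact min_le_min_right _ (le_max_left _ _)

theorem sg_le_of_lt (v : ℕ → ℝ) (j : ℕ) (h : sg v < 1 / ((j : ℝ) + 1)) : v j ≤ sg v := by
  have h1 := sg_ge v j
  rcases min_le_iff.1 h1 with h2 | h2
  · exact h2
  · exact absurd h2 (not_le.2 h)

theorem sg_eq_zero_of (v : ℕ → ℝ) (h : ∀ j, v j ≤ 0) : sg v = 0 := by
  have : mk0 _ (sg_tendsto v) = 0 := by
    ext j
    rw [mk0_apply, max_eq_right (h j)]
    simp only [ZeroAtInftyContinuousMap.coe_zero, Pi.zero_apply]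
    exact min_eq_left (by positivity)
  rw [sg, this, norm_zero]

theorem sg_eq_zero_imp (v : ℕ → ℝ) (h : sg v = 0) (j : ℕ) : v j ≤ 0 := by
  have := sg_le_of_lt v j (by rw [h]; positivity)
  rwa [h] at this

theorem sg_le_one (v : ℕ → ℝ) : sg v ≤ 1 := by
  refine norm_le_of _ zero_le_one fun j => ?_
  rw [mk0_apply, Real.norm_of_nonneg (le_min (le_max_right _ _) (by positivity))]
  refine le_trans (min_le_right _ _) ?_
  rw [div_le_one (by positivity)]
  linarith [(Nat.cast_nonneg j : (0 : ℝ) ≤ j)]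

theorem sg_continuousAt {X : Type*} [TopologicalSpace X] {v : X → ℕ → ℝ} {ξ₀ : X}
    (hv : ∀ j, ContinuousAt (fun ξ => v ξ j) ξ₀) : ContinuousAt (fun ξ => sg (v ξ)) ξ₀ := by
  unfold sg
  refine ContinuousAt.norm (continuousAt_c0 (fun j => ?_) fun ε hε => ?_)
  · simp only [mk0_apply]
    exact ((hv j).max continuousAt_const).min continuousAt_const
  · obtain ⟨J, hJ⟩ := exists_nat_one_div_lt hε
    refine ⟨J, Eventually.of_forall fun ξ j hj => ?_⟩
    rw [mk0_apply, Real.norm_of_nonneg (le_min (le_max_right _ _) (by positivity))]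
    refine le_trans (min_le_right _ _) (le_trans ?_ hJ.le)
    apply one_div_le_one_div_of_le (by positivity)
    have : (J : ℝ) ≤ j := by exact_mod_cast hj
    linarith

theorem sg_continuous {X : Type*} [TopologicalSpace X] {v : X → ℕ → ℝ}
    (hv : ∀ j, Continuous (fun ξ => v ξ j)) : Continuous (fun ξ => sg (v ξ)) :=
  continuous_iff_continuousAt.2 fun _ => sg_continuousAt fun j => (hv j).continuousAt

end sg

end Pool.Agent.Helper917.Nuss
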