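import Pool.Agent.Helper917.NussC0

set_option autoImplicit false
open Filter Topology Set ZeroAtInfty

namespace Pool.Agent.Helper917.Nuss

noncomputable def cl (t : ℝ) : ℝ := max 0 (min 1 t)

theorem cl_continuous : Continuous cl := by unfold cl; fun_prop
theorem cl_nonneg (t : ℝ) : 0 ≤ cl t := le_max_left _ _
theorem cl_le_one (t : ℝ) : cl t ≤ 1 := max_le zero_le_one (min_le_left _ _)
theorem cl_of_nonpos {t : ℝ} (h : t ≤ 0) : cl t = 0 := by
  unfold cl; rw [min_eq_right (by linarith), max_eq_left h]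
theorem cl_of_one_le {t : ℝ} (h : 1 ≤ t) : cl t = 1 := by
  unfold cl; rw [min_eq_left h, max_eq_right zero_le_one]
theorem cl_of_mem {t : ℝ} (h0 : 0 ≤ t) (h1 : t ≤ 1) : cl t = t := by
  unfold cl; rw [min_eq_right h1, max_eq_right h0]

/-- cut time as seen from index j -/
noncomputable def kap (j : ℕ) (σ : ℝ) : ℝ := max 0 (1 / max σ (1 / ((j : ℝ) + 2)) - 2)

theorem kap_continuous (j : ℕ) : Continuous (kap j) := by
  unfold kap
  refine continuous_const.max ((Continuous.div continuous_const (continuous_id.max continuous_const)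
    fun σ => ?_).sub continuous_const)
  have : (0 : ℝ) < 1 / ((j : ℝ) + 2) := by positivity
  exact (lt_of_lt_of_le this (le_max_right _ _)).ne'

theorem kap_nonneg (j : ℕ) (σ : ℝ) : 0 ≤ kap j σ := le_max_left _ _

theorem kap_of_le {j : ℕ} {σ : ℝ} (h : σ ≤ 1 / ((j : ℝ) + 2)) : kap j σ = j := by
  unfold kap
  rw [max_eq_right h, one_div_one_div, max_eq_right (by
    have : (0 : ℝ) ≤ j := Nat.cast_nonneg j
    linarith)]
  ring

theorem kap_of_ge {j : ℕ} {σ : ℝ} (h : 1 / ((j : ℝ) + 2) ≤ σ) : kap j σ = max 0 (1 / σ - 2) := by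
  unfold kap; rw [max_eq_left h]

theorem kap_le (j : ℕ) (σ : ℝ) : kap j σ ≤ j := by
  unfold kap
  refine max_le (Nat.cast_nonneg j) ?_
  have h1 : (0 : ℝ) < 1 / ((j : ℝ) + 2) := by positivity
  have h2 : 1 / max σ (1 / ((j : ℝ) + 2)) ≤ 1 / (1 / ((j : ℝ) + 2)) :=
    one_div_le_one_div_of_le h1 (le_max_right _ _)
  rw [one_div_one_div] at h2
  linarith

section

variable {H : Type} [NormedAddCommGroup H] [NormedSpace ℝ H]

/-- the Banach space carrying the example -/
abbrev XX (H : Type) [NormedAddCommGroup H] : Type := H × (C₀(ℕ, H) × C₀(ℕ, ℝ))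

/-- interpolated position at real time t (steps with index below j) -/
noncomputable def pos (ξ : XX H) (j : ℕ) (t : ℝ) : H :=
  ξ.1 + ∑ i ∈ Finset.range j, cl (t - i) • ξ.2.1 i

theorem pos_continuous (j : ℕ) : Continuous fun q : XX H × ℝ => pos q.1 j q.2 := by
  unfold pos
  refine (continuous_fst.comp continuous_fst).add (continuous_finsetSum _ fun i _ => ?_)
  refine Continuous.smul (cl_continuous.comp (continuous_snd.sub continuous_const)) ?_
  exact (continuous_coord i).comp (continuous_fst.comp (continuous_snd.comp continuous_fst))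

theorem pos_succ_of_le (ξ : XX H) {j : ℕ} {t : ℝ} (h : t ≤ j) : pos ξ (j + 1) t = pos ξ j t := by
  unfold pos
  rw [Finset.sum_range_succ, cl_of_nonpos (by linarith), zero_smul, add_zero]

theorem pos_of_le (ξ : XX H) {j k : ℕ} {t : ℝ} (h : t ≤ j) (hjk : j ≤ k) :
    pos ξ k t = pos ξ j t := by
  induction k, hjk using Nat.le_induction with
  | base => rfl
  | succ k hk ih =>
    rw [pos_succ_of_le ξ (le_trans h (by exact_mod_cast hk)), ih]

theorem pos_nat (ξ : XX H) (j : ℕ) : pos ξ j j = ξ.1 + ∑ i ∈ Finset.range j, ξ.2.1 i := by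
  unfold pos
  congr 1
  refine Finset.sum_congr rfl fun i hi => ?_
  rw [cl_of_one_le, one_smul]
  have : (i : ℝ) + 1 ≤ j := by exact_mod_cast Finset.mem_range.1 hi
  linarith

theorem pos_between (ξ : XX H) (i : ℕ) {t : ℝ} (h0 : (i : ℝ) ≤ t) (h1 : t ≤ i + 1) :
    pos ξ (i + 1) t = pos ξ i i + (t - i) • ξ.2.1 i := by
  unfold pos
  rw [Finset.sum_range_succ, cl_of_mem (by linarith) (by linarith), add_assoc]
  congr 2
  refine Finset.sum_congr rfl fun l hl => ?_
  have : (l : ℝ) + 1 ≤ i := by exact_mod_cast Finset.mem_range.1 hl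
  rw [cl_of_one_le (by linarith), cl_of_one_le (by linarith)]

/-- steering data: slow continuations towards A -/
structure Steer (A : Set H) (C : H → ℝ → H) : Prop where
  zero : ∀ p, C p 0 = p
  cont : Continuous fun q : H × ℝ => C q.1 q.2
  tail : ∀ p₀ : H, ∀ ε : ℝ, 0 < ε → ∃ T : ℝ, ∀ᶠ p in 𝓝 p₀, ∀ u, T ≤ u →
    Metric.infDist (C p u) A ≤ ε ∧ ‖C p (u + 1) - C p u‖ ≤ ε
  near : ∀ ε : ℝ, 0 < ε → ∃ η : ℝ, 0 < η ∧ ∀ p, Metric.infDist p A < η → ∀ u, 0 ≤ u →
    Metric.infDist (C p u) A ≤ ε ∧ ∀ v, u ≤ v → v ≤ u + 1 → ‖C p v - C p u‖ ≤ ε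

variable (A : Set H) (C : H → ℝ → H)

noncomputable def defect (ξ : XX H) (j : ℕ) : ℝ := Metric.infDist (pos ξ j j) A - ξ.2.2 j

noncomputable def sig (ξ : XX H) : ℝ := sg (defect A ξ)

theorem defect_continuous (j : ℕ) : Continuous fun ξ : XX H => defect A ξ j := by
  unfold defect
  refine Continuous.sub ?_ ?_
  · exact (Metric.continuous_infDist_pt A).comp
      ((pos_continuous j).comp (continuous_id.prodMk continuous_const))
  · exact (continuous_coord j).comp (continuous_snd.comp continuous_snd)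

theorem sig_continuous : Continuous (sig (H := H) A) := sg_continuous (defect_continuous A)

/-- the cut sequence -/
noncomputable def zz (ξ : XX H) (j : ℕ) : H :=
  C (pos ξ j (kap j (sig A ξ))) (j - kap j (sig A ξ))

variable {A C}

theorem zz_continuous (hC : Steer A C) (j : ℕ) : Continuous fun ξ : XX H => zz A C ξ j := by
  unfold zz
  have hk : Continuous fun ξ : XX H => kap j (sig A ξ) :=
    (kap_continuous j).comp (sig_continuous A)
  exact hC.cont.comp (((pos_continuous j).comp (continuous_id.prodMk hk)).prodMk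
    (continuous_const.sub hk))

theorem zz_of_small (hC : Steer A C) {ξ : XX H} {j : ℕ} (h : sig A ξ ≤ 1 / ((j : ℝ) + 2)) :
    zz A C ξ j = pos ξ j j := by
  unfold zz; rw [kap_of_le h, sub_self, hC.zero]

theorem zz_zero (hC : Steer A C) (ξ : XX H) : zz A C ξ 0 = ξ.1 := by
  have h0 : kap 0 (sig A ξ) = 0 := by
    have h1 := kap_le 0 (sig A ξ)
    have h2 := kap_nonneg 0 (sig A ξ)
    simp only [Nat.cast_zero] at h1
    linarith
  unfold zz
  rw [h0, Nat.cast_zero, sub_zero, hC.zero]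
  simp [pos]

theorem defect_le_of_small {ξ : XX H} {j : ℕ} (h : sig A ξ < 1 / ((j : ℝ) + 1)) :
    Metric.infDist (pos ξ j j) A ≤ ξ.2.2 j + sig A ξ := by
  have := sg_le_of_lt _ j h
  unfold defect at this
  have h2 : sg (defect A ξ) = sig A ξ := rfl
  unfold sig at *
  unfold defect at *
  linarith

/-- tails in the case of positive defect -/
theorem tail_pos (hC : Steer A C) (ξ₀ : XX H) (h0 : 0 < sig A ξ₀) (ε : ℝ) (hε : 0 < ε) :
    ∃ J : ℕ, ∀ᶠ ξ in 𝓝 ξ₀, ∀ j, J ≤ j →
      ‖zz A C ξ (j + 1) - zz A C ξ j‖ ≤ ε ∧ Metric.infDist (zz A C ξ j) A ≤ ε := by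
  set σ₀ := sig A ξ₀ with hσ₀
  obtain ⟨J1, hJ1⟩ := exists_nat_one_div_lt (show 0 < σ₀ / 2 by positivity)
  have hJ1' : ∀ j : ℕ, J1 ≤ j → 1 / ((j : ℝ) + 2) ≤ σ₀ / 2 := by
    intro j hj
    refine le_trans (one_div_le_one_div_of_le (by positivity) ?_) hJ1.le
    have : (J1 : ℝ) ≤ j := by exact_mod_cast hj
    linarith
  -- near ξ₀ the defect stays above σ₀ / 2
  have hev : ∀ᶠ ξ in 𝓝 ξ₀, σ₀ / 2 < sig A ξ :=
    (sig_continuous A).continuousAt.eventually (lt_mem_nhds (by linarith))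
  -- the branching point
  set P : XX H → H := fun ξ => pos ξ J1 (max 0 (1 / sig A ξ - 2)) with hP
  have hPc : ContinuousAt P ξ₀ := by
    have h1 : ContinuousAt (fun ξ : XX H => max 0 (1 / sig A ξ - 2)) ξ₀ := by
      refine continuousAt_const.max (ContinuousAt.sub (ContinuousAt.div continuousAt_const
        (sig_continuous A).continuousAt h0.ne') continuousAt_const)
    exact (pos_continuous J1).continuousAt.comp (f := fun ξ : XX H => (ξ, max 0 (1 / sig A ξ - 2)))
      (continuousAt_id.prodMk h1)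
  obtain ⟨T, hT⟩ := hC.tail (P ξ₀) ε hε
  have hT' := hPc.eventually hT
  obtain ⟨J2, hJ2⟩ := exists_nat_ge T
  refine ⟨J1 + J2, ?_⟩
  filter_upwards [hev, hT'] with ξ hξ hξT j hj
  have hk : ∀ i : ℕ, J1 ≤ i → kap i (sig A ξ) = max 0 (1 / sig A ξ - 2) := fun i hi =>
    kap_of_ge (le_trans (hJ1' i hi) hξ.le)
  have hkJ : max 0 (1 / sig A ξ - 2) ≤ (J1 : ℝ) := by
    rw [← hk J1 le_rfl]; exact kap_le _ _
  have hz : ∀ i : ℕ, J1 ≤ i → zz A C ξ i = C (P ξ) (i - max 0 (1 / sig A ξ - 2)) := by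
    intro i hi
    unfold zz
    rw [hk i hi, pos_of_le ξ hkJ hi]
  have hJ1j : J1 ≤ j := by omega
  have hTj : T ≤ (j : ℝ) - max 0 (1 / sig A ξ - 2) := by
    have : (J1 : ℝ) + J2 ≤ j := by exact_mod_cast hj
    linarith
  obtain ⟨h1, h2⟩ := hξT _ hTj
  rw [hz j hJ1j, hz (j + 1) (by omega)]
  refine ⟨?_, h1⟩
  have : ((j + 1 : ℕ) : ℝ) - max 0 (1 / sig A ξ - 2) = (j : ℝ) - max 0 (1 / sig A ξ - 2) + 1 := by
    push_cast; ring
  rw [this]
  exact h2

/-- tails in the case of zero defect -/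
theorem tail_zero (hC : Steer A C) (ξ₀ : XX H) (h0 : sig A ξ₀ = 0) (ε : ℝ) (hε : 0 < ε) :
    ∃ J : ℕ, ∀ᶠ ξ in 𝓝 ξ₀, ∀ j, J ≤ j →
      ‖zz A C ξ (j + 1) - zz A C ξ j‖ ≤ ε ∧ Metric.infDist (zz A C ξ j) A ≤ ε := by
  obtain ⟨η, hη, hnear⟩ := hC.near (ε / 2) (by positivity)
  set δ := min η ε / 8 with hδ
  have hδ0 : 0 < δ := by positivity
  have hδη : 8 * δ ≤ η := by have := min_le_left η ε; rw [hδ]; linarith
  have hδε : 8 * δ ≤ ε := by have := min_le_right η ε; rw [hδ]; linarith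
  obtain ⟨Ja, hJa⟩ := (Metric.tendsto_atTop.1 (tendsto0 ξ₀.2.1)) δ hδ0
  obtain ⟨Jb, hJb⟩ := (Metric.tendsto_atTop.1 (tendsto0 ξ₀.2.2)) δ hδ0
  set J := max Ja Jb with hJ
  refine ⟨J, ?_⟩
  have hσ : ∀ᶠ ξ in 𝓝 ξ₀, sig A ξ < min δ (1 / ((J : ℝ) + 4)) :=
    (sig_continuous A).continuousAt.eventually (gt_mem_nhds (by rw [h0]; positivity))
  have hx : ∀ᶠ ξ in 𝓝 ξ₀, dist ξ ξ₀ < δ := Metric.eventually_nhds_iff.2 ⟨δ, hδ0, fun _ h => h⟩
  filter_upwards [hσ, hx] with ξ hσξ hd j hj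
  have hσδ : sig A ξ < δ := lt_of_lt_of_le hσξ (min_le_left _ _)
  have hσJ : sig A ξ < 1 / ((J : ℝ) + 4) := lt_of_lt_of_le hσξ (min_le_right _ _)
  have hσ0 : 0 ≤ sig A ξ := sg_nonneg _
  have hdx : ‖ξ.2.1 - ξ₀.2.1‖ < δ := by
    rw [← dist_eq_norm]
    refine lt_of_le_of_lt ?_ hd
    rw [Prod.dist_eq, Prod.dist_eq]
    exact le_trans (le_max_left _ _) (le_max_right _ _)
  have hdy : ‖ξ.2.2 - ξ₀.2.2‖ < δ := by
    rw [← dist_eq_norm]
    refine lt_of_le_of_lt ?_ hd
    rw [Prod.dist_eq, Prod.dist_eq]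
    exact le_trans (le_max_right _ _) (le_max_right _ _)
  have hxs : ∀ i, J ≤ i → ‖ξ.2.1 i‖ ≤ 2 * δ := by
    intro i hi
    have h1 : ‖ξ₀.2.1 i‖ < δ := by simpa using hJa i (le_trans (le_max_left _ _) hi)
    have h2 : ‖(ξ.2.1 - ξ₀.2.1) i‖ ≤ ‖ξ.2.1 - ξ₀.2.1‖ := norm_coord_le _ _
    have h3 : ξ.2.1 i = ξ₀.2.1 i + (ξ.2.1 - ξ₀.2.1) i := by simp
    rw [h3]
    refine le_trans (norm_add_le _ _) (by linarith)
  have hys : ∀ i, J ≤ i → ξ.2.2 i ≤ 2 * δ := by
    intro i hi
    have h1 : ‖ξ₀.2.2 i‖ < δ := by simpa using hJb i (le_trans (le_max_right _ _) hi)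
    have h2 : ‖(ξ.2.2 - ξ₀.2.2) i‖ ≤ ‖ξ.2.2 - ξ₀.2.2‖ := norm_coord_le _ _
    have h3 : ξ.2.2 i = ξ₀.2.2 i + (ξ.2.2 - ξ₀.2.2) i := by simp
    rw [h3]
    refine le_trans (le_abs_self _) ?_
    rw [← Real.norm_eq_abs]
    exact le_trans (norm_add_le _ _) (by linarith)
  -- distance at integer times below the cut
  have hdist : ∀ i : ℕ, J ≤ i → sig A ξ < 1 / ((i : ℝ) + 1) →
      Metric.infDist (pos ξ i i) A ≤ 3 * δ := by
    intro i hi hs
    have := defect_le_of_small hs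
    linarith [hys i hi]
  have hjj : (0 : ℝ) ≤ j := Nat.cast_nonneg j
  rcases le_or_gt (sig A ξ) (1 / ((j : ℝ) + 3)) with hcase | hcase
  · -- no cut up to j + 1
    have hc1 : sig A ξ ≤ 1 / (((j + 1 : ℕ) : ℝ) + 2) := by
      push_cast
      have : (j : ℝ) + 1 + 2 = j + 3 := by ring
      rw [this]; exact hcase
    have hc0 : sig A ξ ≤ 1 / ((j : ℝ) + 2) :=
      le_trans hcase (one_div_le_one_div_of_le (by positivity) (by linarith))
    have hc2 : sig A ξ < 1 / ((j : ℝ) + 1) :=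
      lt_of_le_of_lt hc0 (one_div_lt_one_div_of_lt (by positivity) (by linarith))
    rw [zz_of_small hC hc1, zz_of_small hC hc0]
    refine ⟨?_, le_trans (hdist j hj hc2) (by linarith)⟩
    rw [pos_nat, pos_nat, Finset.sum_range_succ]
    have : ξ.1 + (∑ i ∈ Finset.range j, ξ.2.1 i + ξ.2.1 j) -
        (ξ.1 + ∑ i ∈ Finset.range j, ξ.2.1 i) = ξ.2.1 j := by abel
    rw [this]
    exact le_trans (hxs j hj) (by linarith)
  · -- the cut time s
    have hσpos : 0 < sig A ξ := lt_trans (by positivity) hcase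
    set s : ℝ := 1 / sig A ξ - 2 with hs
    have hs1 : s < j + 1 := by
      have : 1 / sig A ξ < (j : ℝ) + 3 := by
        rw [div_lt_iff₀ hσpos]
        have hcase' := hcase
        rw [div_lt_iff₀ (by positivity)] at hcase'
        linarith
      rw [hs]; linarith
    have hs2 : (J : ℝ) + 2 < s := by
      have : (J : ℝ) + 4 < 1 / sig A ξ := by
        rw [lt_div_iff₀ hσpos]
        rw [lt_div_iff₀ (by positivity)] at hσJ
        linarith
      rw [hs]; linarith
    have hs0 : 0 ≤ s := by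
      have : (0 : ℝ) ≤ J := Nat.cast_nonneg J
      linarith
    have hmax : max 0 (1 / sig A ξ - 2) = s := max_eq_right hs0
    set i := ⌊s⌋₊ with hi
    have hi0 : (i : ℝ) ≤ s := Nat.floor_le hs0
    have hi1 : s < i + 1 := Nat.lt_floor_add_one s
    have hJi : J ≤ i := by
      have : (J : ℝ) < i + 1 := by linarith
      have h2 : J < i + 1 := by exact_mod_cast this
      omega
    have hij : i ≤ j := by
      have : (i : ℝ) < j + 1 := by linarith
      have h2 : i < j + 1 := by exact_mod_cast this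
      omega
    have hσi : sig A ξ < 1 / ((i : ℝ) + 1) := by
      rw [lt_div_iff₀ (by positivity)]
      have h1 : ((i : ℝ) + 1) < 1 / sig A ξ := by
        have : (i : ℝ) + 1 ≤ s + 1 := by linarith
        rw [hs] at this; linarith
      rw [lt_div_iff₀ hσpos] at h1
      linarith
    set p := pos ξ (i + 1) s with hp
    have hpb : p = pos ξ i i + (s - i) • ξ.2.1 i := pos_between ξ i hi0 hi1.le
    have hpn : ‖p - pos ξ i i‖ ≤ 2 * δ := by
      rw [hpb, add_sub_cancel_left, norm_smul, Real.norm_of_nonneg (by linarith)]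
      calc (s - i) * ‖ξ.2.1 i‖ ≤ 1 * (2 * δ) :=
            mul_le_mul (by linarith) (hxs i hJi) (norm_nonneg _) zero_le_one
        _ = 2 * δ := one_mul _
    have hpd : Metric.infDist p A < η := by
      have h1 : Metric.infDist p A ≤ Metric.infDist (pos ξ i i) A + dist p (pos ξ i i) :=
        Metric.infDist_le_infDist_add_dist
      rw [dist_eq_norm] at h1
      have h2 := hdist i hJi hσi
      linarith
    have hn := hnear p hpd
    have hz1 : zz A C ξ (j + 1) = C p ((j : ℝ) + 1 - s) := by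
      unfold zz
      rw [kap_of_ge (by
        push_cast
        have : (j : ℝ) + 1 + 2 = j + 3 := by ring
        rw [this]; exact hcase.le), hmax, pos_of_le ξ (j := i + 1) (by push_cast; exact hi1.le)
        (by omega)]
      push_cast
      rfl
    rcases le_or_gt s j with hsj | hsj
    · have hz0 : zz A C ξ j = C p ((j : ℝ) - s) := by
        unfold zz
        have hge : 1 / ((j : ℝ) + 2) ≤ sig A ξ := by
          rw [div_le_iff₀ (by positivity)]
          have h1 : 1 / sig A ξ ≤ (j : ℝ) + 2 := by rw [hs] at hsj; linarith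
          rw [div_le_iff₀ hσpos] at h1
          linarith
        rw [kap_of_ge hge, hmax]
        rcases Nat.lt_or_ge i j with hlt | hge'
        · rw [pos_of_le ξ (j := i + 1) (by push_cast; exact hi1.le) (by omega)]
        · have hij' : i = j := le_antisymm hij hge'
          have : pos ξ (j + 1) s = pos ξ j s := pos_succ_of_le ξ hsj
          rw [← this, hp, hij']
      obtain ⟨h1, h2⟩ := hn ((j : ℝ) - s) (by linarith)
      rw [hz0, hz1]
      refine ⟨le_trans (h2 _ (by linarith) (by linarith)) (by linarith), by linarith⟩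
    · have hij' : i = j := by
        have : (j : ℝ) < i + 1 := by linarith
        have h2 : j < i + 1 := by exact_mod_cast this
        omega
      have hlt : sig A ξ ≤ 1 / ((j : ℝ) + 2) := by
        rw [le_div_iff₀ (by positivity)]
        have h1 : (j : ℝ) + 2 ≤ 1 / sig A ξ := by rw [hs] at hsj; linarith
        rw [le_div_iff₀ hσpos] at h1
        linarith
      obtain ⟨h1, h2⟩ := hn 0 le_rfl
      have h3 := h2 ((j : ℝ) + 1 - s) (by linarith) (by linarith)
      rw [hC.zero] at h3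
      rw [zz_of_small hC hlt, hz1]
      rw [hij'] at hpn
      refine ⟨?_, ?_⟩
      · calc ‖C p ((j : ℝ) + 1 - s) - pos ξ j j‖
            = ‖(C p ((j : ℝ) + 1 - s) - p) + (p - pos ξ j j)‖ := by congr 1; abel
          _ ≤ ‖C p ((j : ℝ) + 1 - s) - p‖ + ‖p - pos ξ j j‖ := norm_add_le _ _
          _ ≤ ε := by linarith
      · have := hdist i hJi hσi
        rw [hij'] at this
        linarith

theorem tail_all (hC : Steer A C) (ξ₀ : XX H) (ε : ℝ) (hε : 0 < ε) :
    ∃ J : ℕ, ∀ᶠ ξ in 𝓝 ξ₀, ∀ j, J ≤ j →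
      ‖zz A C ξ (j + 1) - zz A C ξ j‖ ≤ ε ∧ Metric.infDist (zz A C ξ j) A ≤ ε := by
  rcases (sg_nonneg (defect A ξ₀)).lt_or_eq with h | h
  · exact tail_pos hC ξ₀ h ε hε
  · exact tail_zero hC ξ₀ h.symm ε hε

end

end Pool.Agent.Helper917.Nuss
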