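import Pool.Agent.Helper917.NussPath

set_option autoImplicit false
open Filter Topology Set ZeroAtInfty

namespace Pool.Agent.Helper917.Nuss

variable {E : Type} [NormedAddCommGroup E] [NormedSpace ℝ E]

noncomputable def gN (k : ℝ → E → E) (N : ℕ) (p : C₀(ℕ, E)) (θ : ℝ) : ℝ :=
  ∑ j ∈ Finset.range (N + 1),
    ‖(k 0)^[N - j] ((1 - θ) • hat p N + θ • k 0 (hat p (N + 1))) - hat p j‖

noncomputable def DN (k : ℝ → E → E) (p : C₀(ℕ, E)) (N : ℕ) : ℝ :=
  |‖hat p N‖ - 1| + sSup (gN k N p '' Icc 0 1)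

/-- total defect of p relative to the inverse limit -/
noncomputable def sp (k : ℝ → E → E) (p : C₀(ℕ, E)) : ℝ := sg (DN k p)

variable {k : ℝ → E → E} {u : E}

theorem k0_continuous (hk : KD k u) : Continuous (k 0) :=
  hk.cont.comp (continuous_const.prodMk continuous_id)

theorem gN_continuous (hk : KD k u) (N : ℕ) : Continuous (Function.uncurry (gN k N)) := by
  unfold Function.uncurry gN
  refine continuous_finsetSum _ fun j _ => ?_
  have h1 : Continuous fun q : C₀(ℕ, E) × ℝ =>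
      (1 - q.2) • hat q.1 N + q.2 • k 0 (hat q.1 (N + 1)) :=
    ((continuous_const.sub continuous_snd).smul ((hat_continuous N).comp continuous_fst)).add
      (continuous_snd.smul ((k0_continuous hk).comp ((hat_continuous (N + 1)).comp continuous_fst)))
  exact ((((k0_continuous hk).iterate (N - j)).comp h1).sub
    ((hat_continuous j).comp continuous_fst)).norm

theorem gN_nonneg (k : ℝ → E → E) (N : ℕ) (p : C₀(ℕ, E)) (θ : ℝ) : 0 ≤ gN k N p θ :=
  Finset.sum_nonneg fun _ _ => norm_nonneg _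

theorem gN_bdd (hk : KD k u) (N : ℕ) (p : C₀(ℕ, E)) : BddAbove (gN k N p '' Icc 0 1) := by
  have h1 : Continuous (gN k N p) := (gN_continuous hk N).comp (continuous_const.prodMk continuous_id)
  exact (isCompact_Icc.image h1).bddAbove

theorem gN_le (hk : KD k u) (N : ℕ) (p : C₀(ℕ, E)) {θ : ℝ} (h0 : 0 ≤ θ) (h1 : θ ≤ 1) :
    gN k N p θ ≤ sSup (gN k N p '' Icc 0 1) :=
  le_csSup (gN_bdd hk N p) ⟨θ, ⟨h0, h1⟩, rfl⟩

theorem DN_continuous (hk : KD k u) (N : ℕ) : Continuous fun p => DN k p N := by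
  unfold DN
  refine Continuous.add ?_ ?_
  · exact (((hat_continuous N).norm).sub continuous_const).abs
  · exact isCompact_Icc.continuous_sSup (gN_continuous hk N)

theorem sp_continuous (hk : KD k u) : Continuous (sp (E := E) k) := sg_continuous (DN_continuous hk)

theorem sSup_gN_nonneg (hk : KD k u) (N : ℕ) (p : C₀(ℕ, E)) : 0 ≤ sSup (gN k N p '' Icc 0 1) :=
  le_trans (gN_nonneg k N p 0) (gN_le hk N p le_rfl zero_le_one)

theorem iter_hat {p : C₀(ℕ, E)} (hp : p ∈ IA k) (i : ℕ) :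
    ∀ j, (k 0)^[i] (hat p (j + i)) = hat p j := by
  induction i with
  | zero => intro j; rfl
  | succ i ih =>
    intro j
    rw [Function.iterate_succ_apply]
    have h1 : j + (i + 1) = (j + i) + 1 := by omega
    rw [h1, (hp (j + i)).2, ih]

theorem sp_zero_of_mem {p : C₀(ℕ, E)} (hp : p ∈ IA k) : sp k p = 0 := by
  refine sg_eq_zero_of _ fun N => ?_
  have h1 : ∀ θ : ℝ, gN k N p θ = 0 := by
    intro θ
    unfold gN
    refine Finset.sum_eq_zero fun j hj => ?_
    have hjN : j ≤ N := by have := Finset.mem_range.1 hj; omega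
    rw [(hp N).2, ← add_smul, sub_add_cancel, one_smul]
    have h2 := iter_hat hp (N - j) j
    rw [show j + (N - j) = N by omega] at h2
    rw [h2, sub_self, norm_zero]
  unfold DN
  rw [(hp N).1, sub_self, abs_zero, zero_add]
  have : gN k N p '' Icc 0 1 = {0} := by
    ext y
    constructor
    · rintro ⟨θ, _, rfl⟩; exact h1 θ
    · rintro rfl; exact ⟨0, ⟨le_rfl, zero_le_one⟩, h1 0⟩
  rw [this, csSup_singleton]

theorem mem_of_sp_zero (hk : KD k u) {p : C₀(ℕ, E)} (h : sp k p = 0) : p ∈ IA k := by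
  have h1 : ∀ N, DN k p N ≤ 0 := fun N => sg_eq_zero_imp _ h N
  have h2 : ∀ N, |‖hat p N‖ - 1| = 0 ∧ sSup (gN k N p '' Icc 0 1) = 0 := by
    intro N
    have h3 := h1 N
    unfold DN at h3
    have h4 := abs_nonneg (‖hat p N‖ - 1)
    have h5 := sSup_gN_nonneg hk N p
    constructor <;> linarith
  intro j
  constructor
  · have := abs_eq_zero.1 (h2 j).1
    linarith
  · have h3 : gN k (j + 1) p 0 ≤ 0 :=
      le_trans (gN_le hk (j + 1) p le_rfl zero_le_one) (h2 (j + 1)).2.le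
    unfold gN at h3
    have h4 : ‖(k 0)^[j + 1 - j] ((1 - (0 : ℝ)) • hat p (j + 1) +
        (0 : ℝ) • k 0 (hat p (j + 1 + 1))) - hat p j‖ ≤ 0 := by
      refine le_trans ?_ h3
      exact Finset.single_le_sum (f := fun i => ‖(k 0)^[j + 1 - i] ((1 - (0 : ℝ)) • hat p (j + 1) +
        (0 : ℝ) • k 0 (hat p (j + 1 + 1))) - hat p i‖) (fun _ _ => norm_nonneg _)
        (Finset.mem_range.2 (by omega))
    rw [show j + 1 - j = 1 by omega, sub_zero, one_smul, zero_smul, add_zero] at h4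
    exact sub_eq_zero.1 (norm_le_zero_iff.1 h4)

/-- cut depth -/
noncomputable def ss (k : ℝ → E → E) (p : C₀(ℕ, E)) : ℝ := max 0 (1 / sp k p - 4)

section est

variable {p : C₀(ℕ, E)} {s : ℝ} {N : ℕ}

/-- the standing estimates at depth N -/
theorem basic_est (hk : KD k u) (hσ : 0 < sp k p) (hs : s = 1 / sp k p - 4) (hN : (N : ℝ) ≤ s)
    (hN1 : s < N + 1) (τ : ℝ) :
    |‖hat p N‖ - 1| ≤ sp k p ∧ ∀ j, j ≤ N → ‖(k 0)^[N - j] (VV k p s τ N) - hat p j‖ ≤ sp k p := by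
  have h1 : sp k p < 1 / ((N : ℝ) + 1) := by
    rw [lt_div_iff₀ (by positivity)]
    have h2 : (N : ℝ) + 1 < 1 / sp k p := by linarith
    rw [lt_div_iff₀ hσ] at h2
    linarith
  have h2 : DN k p N ≤ sp k p := sg_le_of_lt _ N h1
  unfold DN at h2
  have h3 := abs_nonneg (‖hat p N‖ - 1)
  have h4 := sSup_gN_nonneg hk N p
  refine ⟨by linarith, fun j hj => ?_⟩
  have h5 := gN_le hk N p (θ := s - N) (by linarith) (by linarith)
  rw [VV_mid hN hN1]
  have h6 : ‖(k 0)^[N - j] ((1 - (s - N)) • hat p N + (s - N) • k 0 (hat p (N + 1))) - hat p j‖ ≤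
      gN k N p (s - N) := by
    unfold gN
    exact Finset.single_le_sum (f := fun i => ‖(k 0)^[N - i] ((1 - (s - N)) • hat p N +
      (s - N) • k 0 (hat p (N + 1))) - hat p i‖) (fun _ _ => norm_nonneg _)
      (Finset.mem_range.2 (by omega))
  linarith

theorem norm_hat_near (hσ8 : sp k p ≤ 1 / 8) (h : |‖hat p N‖ - 1| ≤ sp k p)
    {v : E} (hv : ‖v - hat p N‖ ≤ sp k p) : 1 / 2 ≤ ‖v‖ ∧ ‖v‖ ≤ 5 / 4 := by
  have h1 := (abs_le.1 h)
  have h2 : ‖hat p N‖ ≤ ‖v‖ + ‖v - hat p N‖ := by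
    have := norm_sub_le v (v - hat p N)
    rwa [sub_sub_cancel] at this
  have h3 : ‖v‖ ≤ ‖hat p N‖ + ‖v - hat p N‖ := by
    have := norm_add_le (hat p N) (v - hat p N)
    rwa [add_sub_cancel] at this
  constructor <;> linarith [h1.1, h1.2]

/-- bounds for the coordinates of the approximating point -/
theorem hat_Q_le (hk : KD k u) (hσ : 0 < sp k p) (hσ8 : sp k p ≤ 1 / 8)
    (hs : s = 1 / sp k p - 4) (hN : (N : ℝ) ≤ s) (hN1 : s < N + 1) (τ : ℝ) (j : ℕ) :
    ‖hat (Q k u p s τ) j‖ ≤ 2 := by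
  obtain ⟨h1, h2⟩ := basic_est hk hσ hs hN hN1 τ
  have h3 := h2 N le_rfl
  rw [Nat.sub_self] at h3
  have h4 := norm_hat_near hσ8 h1 h3
  change 1 / 2 ≤ ‖VV k p s τ N‖ ∧ ‖VV k p s τ N‖ ≤ 5 / 4 at h4
  rw [hat_Q]
  have hc0 := cl_nonneg (s - j)
  have hc1 := cl_le_one (s - j)
  rcases lt_or_ge N j with hj | hj
  · have : (N : ℝ) + 1 ≤ j := by exact_mod_cast hj
    rw [cl_of_nonpos (by linarith), zero_smul, zero_add, sub_zero, one_smul, hk.hu]
    norm_num
  · have hV : ‖VV k p s τ j‖ ≤ 5 / 4 := by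
      rcases hj.lt_or_eq with h | h
      · rw [VV_unit' hk hN h4.1 h]; norm_num
      · rw [h]; exact h4.2
    refine le_trans (norm_add_le _ _) ?_
    rw [norm_smul, norm_smul, Real.norm_of_nonneg hc0, Real.norm_of_nonneg (by linarith), hk.hu]
    have h5 : cl (s - j) * ‖VV k p s τ j‖ ≤ 1 * (5 / 4) :=
      mul_le_mul hc1 hV (norm_nonneg _) zero_le_one
    rcases hj.lt_or_eq with h | h
    · rw [VV_unit' hk hN h4.1 h]; linarith
    · nlinarith [norm_nonneg (VV k p s τ j)]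

theorem hat_Q_low (hN : (N : ℝ) ≤ s) (τ : ℝ) {j : ℕ} (hj : j < N) :
    hat (Q k u p s τ) j = VV k p s τ j := by
  have : (j : ℝ) + 1 ≤ N := by exact_mod_cast hj
  rw [hat_Q, cl_of_one_le (by linarith), one_smul, sub_self, zero_smul, add_zero]

theorem norm_coord_le_infDist (hk : KD k u) (p : C₀(ℕ, E)) (j : ℕ) :
    ‖p j‖ ≤ (1 / 2 : ℝ) ^ j + Metric.infDist p (IA k) := by
  have hne : (IA k).Nonempty := ⟨a0 u, a0_mem hk⟩
  have h1 : ∀ a ∈ IA k, ‖p j‖ - (1 / 2 : ℝ) ^ j ≤ dist p a := by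
    intro a ha
    have h2 : ‖a j‖ = (1 / 2 : ℝ) ^ j := by rw [norm_coord_hat, (ha j).1, mul_one]
    have h3 : ‖(p - a) j‖ ≤ ‖p - a‖ := norm_coord_le _ _
    have h4 : p j = a j + (p - a) j := by simp
    have h5 : ‖p j‖ ≤ ‖a j‖ + ‖(p - a) j‖ := by
      conv_lhs => rw [h4]
      exact norm_add_le _ _
    rw [dist_eq_norm]
    linarith
  have := (Metric.le_infDist hne).2 h1
  linarith

/-- the start of the path stays near p -/
theorem Q0_near (hk : KD k u) (hσ : 0 < sp k p) (hσ8 : sp k p ≤ 1 / 8)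
    (hs : s = 1 / sp k p - 4) (hN : (N : ℝ) ≤ s) (hN1 : s < N + 1) :
    ‖Q k u p s 0 - p‖ ≤ sp k p + 3 * (1 / 2 : ℝ) ^ N + Metric.infDist p (IA k) := by
  obtain ⟨h1, h2⟩ := basic_est hk hσ hs hN hN1 0
  have hd := Metric.infDist_nonneg (x := p) (s := IA k)
  refine norm_le_of _ (by positivity) fun j => ?_
  rcases lt_or_ge j N with hj | hj
  · have h3 := h2 j hj.le
    rw [← VV_iter0 hN (N - j) j (by omega)] at h3
    rw [norm_coord_hat, hat_sub, hat_Q_low hN 0 hj]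
    have h4 : (1 / 2 : ℝ) ^ j ≤ 1 := pow_le_one₀ (by norm_num) (by norm_num)
    have h5 : (0 : ℝ) ≤ (1 / 2) ^ N := by positivity
    calc (1 / 2 : ℝ) ^ j * ‖VV k p s 0 j - hat p j‖ ≤ 1 * sp k p :=
          mul_le_mul h4 h3 (norm_nonneg _) zero_le_one
      _ ≤ _ := by linarith
  · have h3 : ‖Q k u p s 0 j‖ ≤ 2 * (1 / 2 : ℝ) ^ N := by
      rw [norm_coord_hat]
      have h4 := hat_Q_le hk hσ hσ8 hs hN hN1 0 j
      have h5 : (1 / 2 : ℝ) ^ j ≤ (1 / 2) ^ N := pow_le_pow_of_le_one (by norm_num) (by norm_num) hj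
      calc (1 / 2 : ℝ) ^ j * ‖hat (Q k u p s 0) j‖ ≤ (1 / 2) ^ N * 2 :=
            mul_le_mul h5 h4 (norm_nonneg _) (by positivity)
        _ = _ := by ring
    have h4 := norm_coord_le_infDist hk p j
    have h5 : (1 / 2 : ℝ) ^ j ≤ (1 / 2) ^ N := pow_le_pow_of_le_one (by norm_num) (by norm_num) hj
    calc ‖(Q k u p s 0 - p) j‖ = ‖Q k u p s 0 j - p j‖ := rfl
      _ ≤ ‖Q k u p s 0 j‖ + ‖p j‖ := norm_sub_le _ _
      _ ≤ _ := by linarith

/-- the end of the second phase is near the base point -/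
theorem Q1_near (hk : KD k u) (hσ : 0 < sp k p) (hσ8 : sp k p ≤ 1 / 8)
    (hs : s = 1 / sp k p - 4) (hN : (N : ℝ) ≤ s) (hN1 : s < N + 1) (h2 : 2 ≤ N) :
    ‖Q k u p s 1 - a0 u‖ ≤ 3 * (1 / 2 : ℝ) ^ (N - 1) := by
  refine norm_sub_le_of_hat (by positivity) fun j => ?_
  rw [hat_a0 hk]
  rcases lt_or_ge j (N - 1) with hj | hj
  · rw [hat_Q_low hN 1 (by omega), VV_iter hN h2 (N - 2 - j) j (by omega), VV_end hk hN hN1 h2,
      iter_unit hk, sub_self, norm_zero, mul_zero]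
    positivity
  · have h4 := hat_Q_le hk hσ hσ8 hs hN hN1 1 j
    have h5 : (1 / 2 : ℝ) ^ j ≤ (1 / 2) ^ (N - 1) :=
      pow_le_pow_of_le_one (by norm_num) (by norm_num) hj
    have h6 : ‖hat (Q k u p s 1) j - u‖ ≤ 3 := by
      refine le_trans (norm_sub_le _ _) ?_
      rw [hk.hu]; linarith
    calc (1 / 2 : ℝ) ^ j * ‖hat (Q k u p s 1) j - u‖ ≤ (1 / 2) ^ (N - 1) * 3 :=
          mul_le_mul h5 h6 (norm_nonneg _) (by positivity)
      _ = _ := by ring

end est

/-- the steering path stays near the inverse limit -/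
theorem path_near [ProperSpace E] (hk : KD k u) (ε : ℝ) (hε : 0 < ε) :
    ∃ η : ℝ, 0 < η ∧ ∀ p : C₀(ℕ, E), p ∉ IA k → Metric.infDist p (IA k) < η →
      ∀ x : ℝ, Metric.infDist (WW k u p (ss k p) x) (IA k) ≤ ε := by
  have hne : (IA k).Nonempty := ⟨a0 u, a0_mem hk⟩
  obtain ⟨m₀, hm₀⟩ := K1 hk ε hε
  obtain ⟨n₁, hn₁⟩ := exists_pow_lt_of_lt_one (show 0 < ε / 12 by positivity)
    (show (1 / 2 : ℝ) < 1 by norm_num)
  set N₀ := max m₀ n₁ + 3 with hN₀
  obtain ⟨η₁, hη₁, hη₁'⟩ := near_compact (IA_compact hk) hne (sp_continuous hk)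
    (fun a ha => sp_zero_of_mem ha) (min (ε / 4) (1 / ((N₀ : ℝ) + 8))) (by positivity)
  refine ⟨min η₁ (ε / 8), by positivity, fun p hp hd x => ?_⟩
  have hd1 : Metric.infDist p (IA k) < η₁ := lt_of_lt_of_le hd (min_le_left _ _)
  have hd2 : Metric.infDist p (IA k) < ε / 8 := lt_of_lt_of_le hd (min_le_right _ _)
  have hσ1 := hη₁' p hd1
  have hσε : sp k p < ε / 4 := lt_of_lt_of_le hσ1 (min_le_left _ _)
  have hσN : sp k p < 1 / ((N₀ : ℝ) + 8) := lt_of_lt_of_le hσ1 (min_le_right _ _)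
  have hσ : 0 < sp k p := by
    refine lt_of_le_of_ne (sg_nonneg _) fun h => hp (mem_of_sp_zero hk h.symm)
  have hN₀0 : (0 : ℝ) ≤ N₀ := Nat.cast_nonneg _
  have hσ8 : sp k p ≤ 1 / 8 :=
    le_trans hσN.le (one_div_le_one_div_of_le (by norm_num) (by linarith))
  have hbig : (N₀ : ℝ) + 8 < 1 / sp k p := by
    rw [lt_div_iff₀ hσ]
    rw [lt_div_iff₀ (by positivity)] at hσN
    linarith
  have hss : ss k p = 1 / sp k p - 4 := by
    unfold ss
    exact max_eq_right (by linarith)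
  set s := ss k p with hs
  have hs0 : 0 ≤ s := by rw [hss]; linarith
  set N := ⌊s⌋₊ with hNdef
  have hN : (N : ℝ) ≤ s := Nat.floor_le hs0
  have hN1 : s < N + 1 := Nat.lt_floor_add_one s
  have hN₀N : N₀ ≤ N := by
    have : (N₀ : ℝ) < N + 1 := by rw [hss] at hN1; linarith
    have h2 : N₀ < N + 1 := by exact_mod_cast this
    omega
  have hpow : (1 / 2 : ℝ) ^ (N - 1) ≤ ε / 12 :=
    le_trans (pow_le_pow_of_le_one (by norm_num) (by norm_num) (by omega)) hn₁.le
  have hpow' : (1 / 2 : ℝ) ^ N ≤ ε / 12 :=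
    le_trans (pow_le_pow_of_le_one (by norm_num) (by norm_num) (by omega)) hn₁.le
  rcases le_total x 1 with hx1 | hx1
  · -- first phase
    have hW : WW k u p s x = (1 - cl x) • p + cl x • Q k u p s 0 := by
      unfold WW
      rw [cl_of_nonpos (show x - 2 ≤ 0 by linarith), cl_of_nonpos (show x - 1 ≤ 0 by linarith)]
      simp
    have h1 : dist (WW k u p s x) p ≤ ‖Q k u p s 0 - p‖ := by
      rw [dist_eq_norm, hW]
      have : (1 - cl x) • p + cl x • Q k u p s 0 - p = cl x • (Q k u p s 0 - p) := by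
        rw [smul_sub, sub_smul, one_smul]; abel
      rw [this, norm_smul, Real.norm_of_nonneg (cl_nonneg x)]
      calc cl x * ‖Q k u p s 0 - p‖ ≤ 1 * ‖Q k u p s 0 - p‖ :=
            mul_le_mul_of_nonneg_right (cl_le_one x) (norm_nonneg _)
        _ = _ := one_mul _
    have h2 := Q0_near hk hσ hσ8 hss hN hN1
    have h3 := Metric.infDist_le_infDist_add_dist (s := IA k) (x := WW k u p s x) (y := p)
    linarith
  · rcases le_total x 2 with hx2 | hx2
    · -- second phase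
      have hW : WW k u p s x = Q k u p s (cl (x - 1)) := by
        unfold WW
        rw [cl_of_nonpos (show x - 2 ≤ 0 by linarith), cl_of_one_le hx1]
        simp
      rw [hW]
      obtain ⟨h1, h2⟩ := basic_est hk hσ hss hN hN1 (cl (x - 1))
      have h3 := h2 N le_rfl
      rw [Nat.sub_self] at h3
      have h4 := (norm_hat_near hσ8 h1 h3).1
      change 1 / 2 ≤ ‖VV k p s (cl (x - 1)) N‖ at h4
      refine hm₀ (N - 2) (by omega) (VV k p s (cl (x - 1)) (N - 2))
        (VV_unit' hk hN h4 (by omega)) _ (fun j hj => ?_) (fun j _ => ?_)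
      · rw [hat_Q_low hN _ (by omega)]
        exact VV_iter hN (by omega) (N - 2 - j) j (by omega)
      · exact hat_Q_le hk hσ hσ8 hss hN hN1 _ j
    · -- third phase
      have hW : WW k u p s x = (1 - cl (x - 2)) • Q k u p s 1 + cl (x - 2) • a0 u := by
        unfold WW
        rw [cl_of_one_le (show 1 ≤ x - 1 by linarith), cl_of_one_le hx1]
        simp
      have h1 : dist (WW k u p s x) (a0 u) ≤ ‖Q k u p s 1 - a0 u‖ := by
        rw [dist_eq_norm, hW]
        have : (1 - cl (x - 2)) • Q k u p s 1 + cl (x - 2) • a0 u - a0 u =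
            (1 - cl (x - 2)) • (Q k u p s 1 - a0 u) := by
          rw [smul_sub, sub_smul, sub_smul, one_smul, one_smul]; abel
        have hc0 := cl_nonneg (x - 2)
        have hc1 := cl_le_one (x - 2)
        rw [this, norm_smul, Real.norm_of_nonneg (by linarith)]
        calc (1 - cl (x - 2)) * ‖Q k u p s 1 - a0 u‖ ≤ 1 * ‖Q k u p s 1 - a0 u‖ :=
              mul_le_mul_of_nonneg_right (by linarith) (norm_nonneg _)
          _ = _ := one_mul _
      have h2 := Q1_near hk hσ hσ8 hss hN hN1 (by omega)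
      have h3 := Metric.infDist_le_dist_of_mem (x := WW k u p s x) (a0_mem hk)
      linarith

end Pool.Agent.Helper917.Nuss
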