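import Pool.Agent.Helper917.NussCut

set_option autoImplicit false
open Filter Topology Set ZeroAtInfty

namespace Pool.Agent.Helper917.Nuss

/-- a null homotopy of the bonding map k 0 on the unit sphere, extended to the whole space -/
structure KD {E : Type} [NormedAddCommGroup E] [NormedSpace ℝ E] (k : ℝ → E → E) (u : E) :
    Prop where
  cont : Continuous fun q : ℝ × E => k q.1 q.2
  norm_le : ∀ t x, ‖k t x‖ ≤ 1
  norm_eq : ∀ t x, 1 / 2 ≤ ‖x‖ → ‖k t x‖ = 1
  one : ∀ x, k 1 x = u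
  unit : ∀ t, k t u = u
  hu : ‖u‖ = 1

variable {E : Type} [NormedAddCommGroup E] [NormedSpace ℝ E]

/-- rescaled coordinates -/
noncomputable def hat (p : C₀(ℕ, E)) (j : ℕ) : E := (2 : ℝ) ^ j • p j

theorem hat_continuous (j : ℕ) : Continuous fun p : C₀(ℕ, E) => hat p j := by
  unfold hat; exact (continuous_coord j).const_smul _

theorem coord_eq (p : C₀(ℕ, E)) (j : ℕ) : p j = (1 / 2 : ℝ) ^ j • hat p j := by
  unfold hat
  rw [smul_smul, ← mul_pow]
  norm_num

theorem norm_coord_hat (p : C₀(ℕ, E)) (j : ℕ) : ‖p j‖ = (1 / 2 : ℝ) ^ j * ‖hat p j‖ := by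
  conv_lhs => rw [coord_eq p j]
  rw [norm_smul, norm_pow]
  norm_num

theorem hat_sub (p q : C₀(ℕ, E)) (j : ℕ) : hat (p - q) j = hat p j - hat q j := by
  unfold hat
  rw [← smul_sub]
  rfl

/-- the inverse limit -/
def IA (k : ℝ → E → E) : Set C₀(ℕ, E) :=
  {p | ∀ j, ‖hat p j‖ = 1 ∧ k 0 (hat p (j + 1)) = hat p j}

theorem emb_tendsto (w : ℕ → E) (h : ∀ j, ‖w j‖ ≤ 2) :
    Tendsto (fun j => (1 / 2 : ℝ) ^ j • w j) atTop (𝓝 0) := by
  rw [tendsto_zero_iff_norm_tendsto_zero]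
  have h1 : Tendsto (fun j : ℕ => (1 / 2 : ℝ) ^ j * 2) atTop (𝓝 0) := by
    have := (tendsto_pow_atTop_nhds_zero_of_lt_one (show (0 : ℝ) ≤ 1 / 2 by norm_num)
      (by norm_num)).mul_const 2
    simpa using this
  refine squeeze_zero (fun j => norm_nonneg _) (fun j => ?_) h1
  rw [norm_smul, norm_pow]
  have : ‖(1 / 2 : ℝ)‖ = 1 / 2 := by norm_num
  rw [this]
  exact mul_le_mul_of_nonneg_left (h j) (by positivity)

open Classical in
/-- sequence with given rescaled coordinates -/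
noncomputable def emb (w : ℕ → E) : C₀(ℕ, E) :=
  if h : ∀ j, ‖w j‖ ≤ 2 then mk0 _ (emb_tendsto w h) else 0

theorem emb_apply {w : ℕ → E} (h : ∀ j, ‖w j‖ ≤ 2) (j : ℕ) : emb w j = (1 / 2 : ℝ) ^ j • w j := by
  unfold emb
  rw [dif_pos h]
  rfl

theorem hat_emb {w : ℕ → E} (h : ∀ j, ‖w j‖ ≤ 2) (j : ℕ) : hat (emb w) j = w j := by
  unfold hat
  rw [emb_apply h, smul_smul, ← mul_pow]
  norm_num

theorem norm_sub_le_of_hat {p q : C₀(ℕ, E)} {c : ℝ} (hc : 0 ≤ c)
    (h : ∀ j, (1 / 2 : ℝ) ^ j * ‖hat p j - hat q j‖ ≤ c) : ‖p - q‖ ≤ c := by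
  refine norm_le_of _ hc fun j => ?_
  rw [norm_coord_hat, hat_sub]
  exact h j

/-- product of unit spheres -/
def SS (E : Type) [NormedAddCommGroup E] : Set (ℕ → E) := Set.pi univ fun _ => Metric.sphere (0 : E) 1

theorem mem_SS {w : ℕ → E} : w ∈ SS E ↔ ∀ j, ‖w j‖ = 1 := by
  simp [SS]

theorem SS_bd {w : ℕ → E} (h : w ∈ SS E) (j : ℕ) : ‖w j‖ ≤ 2 := by
  rw [mem_SS.1 h j]; norm_num

theorem SS_compact [ProperSpace E] : IsCompact (SS E) :=
  isCompact_univ_pi fun _ => isCompact_sphere _ _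

theorem emb_continuousOn : ContinuousOn (emb : (ℕ → E) → C₀(ℕ, E)) (SS E) := by
  rw [continuousOn_iff_continuous_domRestrict, continuous_iff_continuousAt]
  intro w₀
  refine continuousAt_c0 (fun j => ?_) fun ε hε => ?_
  · have : (fun w : SS E => (SS E).domRestrict emb w j) = fun w : SS E => (1 / 2 : ℝ) ^ j • (w : ℕ → E) j := by
      funext w
      exact emb_apply (SS_bd w.2) j
    rw [this]
    exact (((continuous_apply j).comp continuous_subtype_val).const_smul _).continuousAt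
  · obtain ⟨J, hJ⟩ := exists_pow_lt_of_lt_one hε (show (1 / 2 : ℝ) < 1 by norm_num)
    refine ⟨J, Eventually.of_forall fun w j hj => ?_⟩
    have : (SS E).domRestrict emb w j = (1 / 2 : ℝ) ^ j • (w : ℕ → E) j := emb_apply (SS_bd w.2) j
    rw [this, norm_smul, mem_SS.1 w.2 j, mul_one, norm_pow]
    have h2 : ‖(1 / 2 : ℝ)‖ = 1 / 2 := by norm_num
    rw [h2]
    exact le_trans (pow_le_pow_of_le_one (by norm_num) (by norm_num) hj) hJ.le

theorem IA_eq (k : ℝ → E → E) :
    IA k = emb '' (SS E ∩ {w | ∀ j, k 0 (w (j + 1)) = w j}) := by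
  ext p
  constructor
  · intro hp
    have hb : ∀ j, ‖hat p j‖ ≤ 2 := fun j => by rw [(hp j).1]; norm_num
    refine ⟨hat p, ⟨mem_SS.2 fun j => (hp j).1, fun j => (hp j).2⟩, ?_⟩
    ext j
    rw [emb_apply hb, ← coord_eq]
  · rintro ⟨w, ⟨hw1, hw2⟩, rfl⟩ j
    rw [hat_emb (SS_bd hw1), hat_emb (SS_bd hw1)]
    exact ⟨mem_SS.1 hw1 j, hw2 j⟩

theorem compat_closed {k : ℝ → E → E} {u : E} (hk : KD k u) (m : ℕ) :
    IsClosed {w : ℕ → E | ∀ j, j < m → k 0 (w (j + 1)) = w j} := by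
  have h0 : Continuous (k 0) := hk.cont.comp (continuous_const.prodMk continuous_id)
  simp only [ofPred_forall]
  refine isClosed_iInter fun j => isClosed_iInter fun _ => ?_
  exact isClosed_eq (h0.comp (continuous_apply _)) (continuous_apply _)

theorem IA_compact [ProperSpace E] {k : ℝ → E → E} {u : E} (hk : KD k u) : IsCompact (IA k) := by
  have h0 : Continuous (k 0) := hk.cont.comp (continuous_const.prodMk continuous_id)
  rw [IA_eq]
  have hc : IsClosed {w : ℕ → E | ∀ j, k 0 (w (j + 1)) = w j} := by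
    simp only [ofPred_forall]
    refine isClosed_iInter fun j => ?_
    exact isClosed_eq (h0.comp (continuous_apply _)) (continuous_apply _)
  exact (SS_compact.inter_right hc).image_of_continuousOn (emb_continuousOn.mono inter_subset_left)

/-- the base point -/
noncomputable def a0 (u : E) : C₀(ℕ, E) := emb fun _ => u

theorem hat_a0 {k : ℝ → E → E} {u : E} (hk : KD k u) (j : ℕ) : hat (a0 u) j = u :=
  hat_emb (fun _ => by rw [hk.hu]; norm_num) j

theorem a0_mem {k : ℝ → E → E} {u : E} (hk : KD k u) : a0 u ∈ IA k := by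
  intro j
  rw [hat_a0 hk, hat_a0 hk]
  exact ⟨hk.hu, hk.unit 0⟩

theorem iter_norm {k : ℝ → E → E} {u : E} (hk : KD k u) (n : ℕ) {v : E} (hv : ‖v‖ = 1) :
    ‖(k 0)^[n] v‖ = 1 := by
  induction n with
  | zero => exact hv
  | succ n ih =>
    rw [Function.iterate_succ_apply']
    exact hk.norm_eq 0 _ (by rw [ih]; norm_num)

/-- points whose lower coordinates come from a single deep coordinate are near the limit set -/
theorem K1 [ProperSpace E] {k : ℝ → E → E} {u : E} (hk : KD k u) (ε : ℝ) (hε : 0 < ε) :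
    ∃ m₀ : ℕ, ∀ m, m₀ ≤ m → ∀ v : E, ‖v‖ = 1 → ∀ q : C₀(ℕ, E),
      (∀ j, j ≤ m → hat q j = (k 0)^[m - j] v) → (∀ j, m < j → ‖hat q j‖ ≤ 2) →
      Metric.infDist q (IA k) ≤ ε := by
  set g : (ℕ → E) → ℝ := fun w => Metric.infDist (emb w) (IA k) with hg
  have hgc : ContinuousOn g (SS E) :=
    (Metric.continuous_infDist_pt (IA k)).comp_continuousOn emb_continuousOn
  have hBad : IsCompact (SS E ∩ g ⁻¹' (Ici (ε / 2))) := by
    have h1 : IsClosed (SS E ∩ g ⁻¹' (Ici (ε / 2))) :=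
      hgc.preimage_isClosed_of_isClosed SS_compact.isClosed isClosed_Ici
    exact SS_compact.of_isClosed_subset h1 inter_subset_left
  obtain ⟨m1, hm1⟩ := hBad.elim_directed_family_closed
    (fun m : ℕ => {w : ℕ → E | ∀ j, j < m → k 0 (w (j + 1)) = w j}) (compat_closed hk) (by
      rw [eq_empty_iff_forall_notMem]
      rintro w ⟨⟨hw1, hw2⟩, hw3⟩
      rw [mem_iInter] at hw3
      have hw4 : emb w ∈ IA k := by
        rw [IA_eq]
        exact ⟨w, ⟨hw1, fun j => hw3 (j + 1) j (Nat.lt_succ_self j)⟩, rfl⟩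
      have hw5 : g w = 0 := Metric.infDist_zero_of_mem hw4
      have hw6 : ε / 2 ≤ g w := hw2
      linarith) (by
      intro a b
      exact ⟨max a b, fun w hw j hj => hw j (lt_of_lt_of_le hj (le_max_left _ _)),
        fun w hw j hj => hw j (lt_of_lt_of_le hj (le_max_right _ _))⟩)
  obtain ⟨m2, hm2⟩ := exists_pow_lt_of_lt_one (show 0 < ε / 6 by positivity)
    (show (1 / 2 : ℝ) < 1 by norm_num)
  refine ⟨max m1 m2, fun m hm v hv q hq1 hq2 => ?_⟩
  set w : ℕ → E := fun j => if j ≤ m then (k 0)^[m - j] v else u with hw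
  have hwS : w ∈ SS E := mem_SS.2 fun j => by
    rw [hw]
    by_cases hj : j ≤ m
    · simp only [hj, if_true]; exact iter_norm hk _ hv
    · simp only [hj, if_false]; exact hk.hu
  have hwc : ∀ j, j < m1 → k 0 (w (j + 1)) = w j := by
    intro j hj
    have h1 : j + 1 ≤ m := le_trans hj (le_trans (le_max_left _ _) hm)
    have h2 : j ≤ m := by omega
    simp only [hw, h1, h2, if_true]
    rw [← Function.iterate_succ_apply' (k 0)]
    congr 1
    omega
  have hgw : g w < ε / 2 := by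
    by_contra hcon
    have : w ∈ SS E ∩ g ⁻¹' (Ici (ε / 2)) ∩ {w : ℕ → E | ∀ j, j < m1 → k 0 (w (j + 1)) = w j} :=
      ⟨⟨hwS, not_lt.1 hcon⟩, hwc⟩
    rw [hm1] at this
    exact this
  have hdist : dist q (emb w) ≤ ε / 2 := by
    rw [dist_eq_norm]
    refine norm_sub_le_of_hat (by positivity) fun j => ?_
    rw [hat_emb (SS_bd hwS)]
    by_cases hj : j ≤ m
    · rw [hq1 j hj]
      simp only [hw, hj, if_true, sub_self, norm_zero, mul_zero]
      positivity
    · have h3 : ‖hat q j - w j‖ ≤ 3 := by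
        refine le_trans (norm_sub_le _ _) ?_
        have := hq2 j (not_le.1 hj)
        have h4 := mem_SS.1 hwS j
        linarith
      have h5 : (1 / 2 : ℝ) ^ j ≤ ε / 6 := by
        refine le_trans (pow_le_pow_of_le_one (by norm_num) (by norm_num) ?_) hm2.le
        exact le_trans (le_trans (le_max_right _ _) hm) (not_le.1 hj).le
      calc (1 / 2 : ℝ) ^ j * ‖hat q j - w j‖ ≤ (ε / 6) * 3 :=
            mul_le_mul h5 h3 (norm_nonneg _) (by positivity)
        _ = ε / 2 := by ring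
  have := Metric.infDist_le_infDist_add_dist (s := IA k) (x := q) (y := emb w)
  have h6 : Metric.infDist (emb w) (IA k) = g w := rfl
  linarith

/-- uniform smallness near a compact zero set -/
theorem near_compact {X : Type*} [MetricSpace X] {A : Set X} (hA : IsCompact A) (hAn : A.Nonempty)
    {f : X → ℝ} (hf : Continuous f) (h0 : ∀ a ∈ A, f a = 0) (c : ℝ) (hc : 0 < c) :
    ∃ η : ℝ, 0 < η ∧ ∀ p, Metric.infDist p A < η → f p < c := by
  have hopen : IsOpen {p | f p < c} := isOpen_lt hf continuous_const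
  have hsub : A ⊆ {p | f p < c} := fun a ha => by
    show f a < c
    rw [h0 a ha]; exact hc
  obtain ⟨η, hη, hsub'⟩ := hA.exists_thickening_subset_open hopen hsub
  refine ⟨η, hη, fun p hp => hsub' ?_⟩
  rw [Metric.mem_thickening_iff_infDist_lt hAn]
  exact hp

/-- coordinatewise isometry -/
theorem Gc_tendsto (L : E →ₗᵢ[ℝ] E) (x : C₀(ℕ, E)) : Tendsto (fun j => L (x j)) atTop (𝓝 0) := by
  have h2 := (L.continuous.tendsto 0).comp (tendsto0 x)
  rw [map_zero] at h2
  exact h2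

theorem norm_eq_of_coord {F : Type*} [NormedAddCommGroup F] (x : C₀(ℕ, E)) (y : C₀(ℕ, F))
    (h : ∀ j, ‖x j‖ = ‖y j‖) : ‖x‖ = ‖y‖ := by
  refine le_antisymm ?_ ?_
  · exact norm_le_of _ (norm_nonneg _) fun j => by rw [h]; exact norm_coord_le _ _
  · exact norm_le_of _ (norm_nonneg _) fun j => by rw [← h]; exact norm_coord_le _ _

noncomputable def Gc (L : E →ₗᵢ[ℝ] E) : C₀(ℕ, E) →ₗᵢ[ℝ] C₀(ℕ, E) where
  toFun x := mk0 _ (Gc_tendsto L x)
  map_add' x y := by
    ext j
    show L (x j + y j) = L (x j) + L (y j)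
    rw [map_add]
  map_smul' c x := by
    ext j
    show L (c • x j) = c • L (x j)
    rw [map_smul]
  norm_map' x := norm_eq_of_coord _ _ fun j => L.norm_map _

theorem hat_Gc (L : E →ₗᵢ[ℝ] E) (x : C₀(ℕ, E)) (j : ℕ) : hat (Gc L x) j = L (hat x j) := by
  unfold hat
  rw [map_smul]
  rfl

theorem Gc_mem {k : ℝ → E → E} {L : E →ₗᵢ[ℝ] E}
    (hL : ∀ x, ‖x‖ = 1 → k 0 (L x) = L (k 0 x)) : ∀ a ∈ IA k, Gc L a ∈ IA k := by
  intro a ha j
  rw [hat_Gc, hat_Gc, L.norm_map]
  refine ⟨(ha j).1, ?_⟩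
  rw [hL _ (ha (j + 1)).1, (ha j).2]

theorem Gc_fix {k : ℝ → E → E} {L : E →ₗᵢ[ℝ] E} (hL : ∀ x, L x = x → x = 0) :
    ∀ a ∈ IA k, Gc L a ≠ a := by
  intro a ha h
  have h1 : L (hat a 0) = hat a 0 := by rw [← hat_Gc, h]
  have h2 := hL _ h1
  have h3 := (ha 0).1
  rw [h2, norm_zero] at h3
  exact zero_ne_one h3

end Pool.Agent.Helper917.Nuss
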