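import Pool.Agent.Helper917.NussInv

set_option autoImplicit false
open Filter Topology Set ZeroAtInfty

namespace Pool.Agent.Helper917.Nuss

variable {E : Type} [NormedAddCommGroup E] [NormedSpace ℝ E]

noncomputable def lam (s : ℝ) (j : ℕ) : ℝ := max 0 (1 - |s - (j + 2)|)

noncomputable def tt (s τ : ℝ) (j : ℕ) : ℝ := cl (2 * lam s j * τ)

/-- coordinates obtained from the deeper coordinates by controlled bonding -/
noncomputable def UU (k : ℝ → E → E) (p : C₀(ℕ, E)) (s τ : ℝ) : ℕ → ℕ → E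
  | 0, j => hat p j
  | m + 1, j => (1 - cl (s - j)) • hat p j + cl (s - j) • k (tt s τ j) (UU k p s τ m (j + 1))

theorem UU_continuous {k : ℝ → E → E} {u : E} (hk : KD k u) (m j : ℕ) :
    Continuous fun q : C₀(ℕ, E) × ℝ × ℝ => UU k q.1 q.2.1 q.2.2 m j := by
  induction m generalizing j with
  | zero => exact (hat_continuous j).comp continuous_fst
  | succ m ih =>
    have hs : Continuous fun q : C₀(ℕ, E) × ℝ × ℝ => q.2.1 := continuous_fst.comp continuous_snd
    have hτ : Continuous fun q : C₀(ℕ, E) × ℝ × ℝ => q.2.2 := continuous_snd.comp continuous_snd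
    have hc : Continuous fun q : C₀(ℕ, E) × ℝ × ℝ => cl (q.2.1 - j) :=
      cl_continuous.comp (hs.sub continuous_const)
    have ht : Continuous fun q : C₀(ℕ, E) × ℝ × ℝ => tt q.2.1 q.2.2 j := by
      unfold tt lam
      refine cl_continuous.comp ?_
      fun_prop
    have h1 : Continuous fun q : C₀(ℕ, E) × ℝ × ℝ =>
        k (tt q.2.1 q.2.2 j) (UU k q.1 q.2.1 q.2.2 m (j + 1)) :=
      hk.cont.comp (ht.prodMk (ih (j + 1)))
    exact ((continuous_const.sub hc).smul ((hat_continuous j).comp continuous_fst)).add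
      (hc.smul h1)

theorem UU_stable (k : ℝ → E → E) (p : C₀(ℕ, E)) (s τ : ℝ) (m j : ℕ) (h : s ≤ (j : ℝ) + m) :
    UU k p s τ (m + 1) j = UU k p s τ m j := by
  induction m generalizing j with
  | zero =>
    have h0 : cl (s - j) = 0 := cl_of_nonpos (by simpa using h)
    show (1 - cl (s - j)) • hat p j + cl (s - j) • _ = hat p j
    rw [h0, zero_smul, add_zero, sub_zero, one_smul]
  | succ m ih =>
    have h1 := ih (j + 1) (by push_cast at h ⊢; linarith)
    show (1 - cl (s - j)) • hat p j + cl (s - j) • k (tt s τ j) (UU k p s τ (m + 1) (j + 1)) = _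
    rw [h1]
    rfl

theorem UU_stable' (k : ℝ → E → E) (p : C₀(ℕ, E)) (s τ : ℝ) (m m' j : ℕ) (h : s ≤ (j : ℝ) + m)
    (hm : m ≤ m') : UU k p s τ m' j = UU k p s τ m j := by
  induction m', hm using Nat.le_induction with
  | base => rfl
  | succ n hn ih =>
    rw [UU_stable k p s τ n j (by
      have : (m : ℝ) ≤ n := by exact_mod_cast hn
      linarith), ih]

noncomputable def VV (k : ℝ → E → E) (p : C₀(ℕ, E)) (s τ : ℝ) (j : ℕ) : E :=
  UU k p s τ ⌈s⌉₊ j

theorem VV_eq (k : ℝ → E → E) (p : C₀(ℕ, E)) (s τ : ℝ) (m j : ℕ) (h : s ≤ m) :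
    VV k p s τ j = UU k p s τ m j := by
  unfold VV
  have h1 : s ≤ (⌈s⌉₊ : ℝ) := Nat.le_ceil s
  have h2 : (0 : ℝ) ≤ j := Nat.cast_nonneg j
  exact (UU_stable' k p s τ ⌈s⌉₊ m j (by linarith) (Nat.ceil_le.2 h)).symm

theorem VV_rec (k : ℝ → E → E) (p : C₀(ℕ, E)) (s τ : ℝ) (j : ℕ) :
    VV k p s τ j = (1 - cl (s - j)) • hat p j + cl (s - j) • k (tt s τ j) (VV k p s τ (j + 1)) := by
  have h1 : s ≤ (⌈s⌉₊ : ℝ) := Nat.le_ceil s
  rw [VV_eq k p s τ (⌈s⌉₊ + 1) j (by push_cast; linarith)]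
  rfl

theorem Q_tendsto (k : ℝ → E → E) (u : E) (p : C₀(ℕ, E)) (s τ : ℝ) :
    Tendsto (fun j : ℕ => (1 / 2 : ℝ) ^ j •
      (cl (s - j) • VV k p s τ j + (1 - cl (s - j)) • u)) atTop (𝓝 0) := by
  have h1 : Tendsto (fun j : ℕ => (1 / 2 : ℝ) ^ j • u) atTop (𝓝 0) := by
    have := (tendsto_pow_atTop_nhds_zero_of_lt_one (show (0 : ℝ) ≤ 1 / 2 by norm_num)
      (by norm_num)).smul_const u
    simpa using this
  refine h1.congr' ?_
  filter_upwards [eventually_ge_atTop ⌈s⌉₊] with j hj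
  have : s ≤ (j : ℝ) := Nat.ceil_le.1 hj
  rw [cl_of_nonpos (by linarith), zero_smul, zero_add, sub_zero, one_smul]

/-- the approximating point -/
noncomputable def Q (k : ℝ → E → E) (u : E) (p : C₀(ℕ, E)) (s τ : ℝ) : C₀(ℕ, E) :=
  mk0 _ (Q_tendsto k u p s τ)

theorem Q_apply (k : ℝ → E → E) (u : E) (p : C₀(ℕ, E)) (s τ : ℝ) (j : ℕ) :
    Q k u p s τ j = (1 / 2 : ℝ) ^ j • (cl (s - j) • VV k p s τ j + (1 - cl (s - j)) • u) := rfl

theorem hat_Q (k : ℝ → E → E) (u : E) (p : C₀(ℕ, E)) (s τ : ℝ) (j : ℕ) :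
    hat (Q k u p s τ) j = cl (s - j) • VV k p s τ j + (1 - cl (s - j)) • u := by
  unfold hat
  rw [Q_apply, smul_smul, ← mul_pow]
  norm_num

theorem Q_continuous {k : ℝ → E → E} {u : E} (hk : KD k u) :
    Continuous fun q : C₀(ℕ, E) × ℝ × ℝ => Q k u q.1 q.2.1 q.2.2 := by
  rw [continuous_iff_continuousAt]
  intro q₀
  have hs : Continuous fun q : C₀(ℕ, E) × ℝ × ℝ => q.2.1 := continuous_fst.comp continuous_snd
  obtain ⟨M, hM⟩ := exists_nat_ge (q₀.2.1 + 1)
  have hev : ∀ᶠ q : C₀(ℕ, E) × ℝ × ℝ in 𝓝 q₀, q.2.1 < M :=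
    hs.continuousAt.eventually (gt_mem_nhds (by linarith))
  refine continuousAt_c0 (fun j => ?_) fun ε hε => ?_
  · have hcont : Continuous fun q : C₀(ℕ, E) × ℝ × ℝ => (1 / 2 : ℝ) ^ j •
        (cl (q.2.1 - j) • UU k q.1 q.2.1 q.2.2 M j + (1 - cl (q.2.1 - j)) • u) := by
      have hc : Continuous fun q : C₀(ℕ, E) × ℝ × ℝ => cl (q.2.1 - j) :=
        cl_continuous.comp (hs.sub continuous_const)
      exact ((hc.smul (UU_continuous hk M j)).add
        ((continuous_const.sub hc).smul continuous_const)).const_smul _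
    refine hcont.continuousAt.congr ?_
    filter_upwards [hev] with q hq
    rw [Q_apply, VV_eq k q.1 q.2.1 q.2.2 M j hq.le]
  · have hb : ∃ J : ℕ, (1 / 2 : ℝ) ^ J * ‖u‖ < ε := by
      have h1 : Tendsto (fun j : ℕ => (1 / 2 : ℝ) ^ j * ‖u‖) atTop (𝓝 0) := by
        have := (tendsto_pow_atTop_nhds_zero_of_lt_one (show (0 : ℝ) ≤ 1 / 2 by norm_num)
          (by norm_num)).mul_const ‖u‖
        simpa using this
      exact ((tendsto_order.1 h1).2 ε hε).exists
    obtain ⟨J, hJ⟩ := hb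
    refine ⟨max J M, ?_⟩
    filter_upwards [hev] with q hq j hj
    have hjM : (M : ℝ) ≤ j := by exact_mod_cast le_trans (le_max_right _ _) hj
    rw [Q_apply, cl_of_nonpos (by linarith), zero_smul, zero_add, sub_zero, one_smul, norm_smul,
      norm_pow]
    have h2 : ‖(1 / 2 : ℝ)‖ = 1 / 2 := by norm_num
    rw [h2]
    refine le_trans (mul_le_mul_of_nonneg_right (pow_le_pow_of_le_one (by norm_num) (by norm_num)
      (le_trans (le_max_left _ _) hj)) (norm_nonneg _)) hJ.le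

/-- the whole path -/
noncomputable def WW (k : ℝ → E → E) (u : E) (p : C₀(ℕ, E)) (s x : ℝ) : C₀(ℕ, E) :=
  (1 - cl (x - 2)) • ((1 - cl x) • p + cl x • Q k u p s (cl (x - 1))) + cl (x - 2) • a0 u

theorem WW_continuous {k : ℝ → E → E} {u : E} (hk : KD k u) :
    Continuous fun q : C₀(ℕ, E) × ℝ × ℝ => WW k u q.1 q.2.1 q.2.2 := by
  unfold WW
  have hs : Continuous fun q : C₀(ℕ, E) × ℝ × ℝ => q.2.1 := continuous_fst.comp continuous_snd
  have hx : Continuous fun q : C₀(ℕ, E) × ℝ × ℝ => q.2.2 := continuous_snd.comp continuous_snd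
  have h1 : Continuous fun q : C₀(ℕ, E) × ℝ × ℝ => cl q.2.2 := cl_continuous.comp hx
  have h2 : Continuous fun q : C₀(ℕ, E) × ℝ × ℝ => cl (q.2.2 - 1) :=
    cl_continuous.comp (hx.sub continuous_const)
  have h3 : Continuous fun q : C₀(ℕ, E) × ℝ × ℝ => cl (q.2.2 - 2) :=
    cl_continuous.comp (hx.sub continuous_const)
  have hQ : Continuous fun q : C₀(ℕ, E) × ℝ × ℝ => Q k u q.1 q.2.1 (cl (q.2.2 - 1)) :=
    (Q_continuous hk).comp (continuous_fst.prodMk (hs.prodMk h2))
  exact ((continuous_const.sub h3).smul (((continuous_const.sub h1).smul continuous_fst).add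
    (h1.smul hQ))).add (h3.smul continuous_const)

theorem WW_zero (k : ℝ → E → E) (u : E) (p : C₀(ℕ, E)) (s : ℝ) : WW k u p s 0 = p := by
  unfold WW
  rw [cl_of_nonpos (show (0 : ℝ) - 2 ≤ 0 by norm_num), cl_of_nonpos (le_refl (0 : ℝ))]
  simp

theorem WW_end (k : ℝ → E → E) (u : E) (p : C₀(ℕ, E)) (s : ℝ) {x : ℝ} (hx : 3 ≤ x) :
    WW k u p s x = a0 u := by
  unfold WW
  rw [cl_of_one_le (show (1 : ℝ) ≤ x - 2 by linarith)]
  simp

/-- clamp to [0,3] -/
theorem cl_clamp0 (x : ℝ) : cl (max 0 (min 3 x)) = cl x := by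
  rcases le_total x 0 with h | h
  · rw [min_eq_right (by linarith), max_eq_left h, cl_of_nonpos le_rfl, cl_of_nonpos h]
  · rcases le_total x 3 with h3 | h3
    · rw [min_eq_right h3, max_eq_right h]
    · rw [min_eq_left h3, max_eq_right (by norm_num), cl_of_one_le (by norm_num),
        cl_of_one_le (by linarith)]

theorem cl_clamp1 (x : ℝ) : cl (max 0 (min 3 x) - 1) = cl (x - 1) := by
  rcases le_total x 0 with h | h
  · rw [min_eq_right (by linarith), max_eq_left h, cl_of_nonpos (by norm_num),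
      cl_of_nonpos (by linarith)]
  · rcases le_total x 3 with h3 | h3
    · rw [min_eq_right h3, max_eq_right h]
    · rw [min_eq_left h3, max_eq_right (by norm_num), cl_of_one_le (by norm_num),
        cl_of_one_le (by linarith)]

theorem cl_clamp2 (x : ℝ) : cl (max 0 (min 3 x) - 2) = cl (x - 2) := by
  rcases le_total x 0 with h | h
  · rw [min_eq_right (by linarith), max_eq_left h, cl_of_nonpos (by norm_num),
      cl_of_nonpos (by linarith)]
  · rcases le_total x 3 with h3 | h3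
    · rw [min_eq_right h3, max_eq_right h]
    · rw [min_eq_left h3, max_eq_right (by norm_num), cl_of_one_le (by norm_num),
        cl_of_one_le (by linarith)]

theorem WW_clamp (k : ℝ → E → E) (u : E) (p : C₀(ℕ, E)) (s x : ℝ) :
    WW k u p s (max 0 (min 3 x)) = WW k u p s x := by
  unfold WW
  rw [cl_clamp0, cl_clamp1, cl_clamp2]

section facts

variable {k : ℝ → E → E} {u : E} {p : C₀(ℕ, E)} {s τ : ℝ} {N : ℕ}

theorem VV_high (hN1 : s < N + 1) {j : ℕ} (hj : N + 1 ≤ j) : VV k p s τ j = hat p j := by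
  have : (N : ℝ) + 1 ≤ j := by exact_mod_cast hj
  rw [VV_rec, cl_of_nonpos (by linarith), zero_smul, add_zero, sub_zero, one_smul]

theorem lam_zero_of_ge {j : ℕ} (h : 1 ≤ |s - (j + 2)|) : lam s j = 0 := by
  unfold lam
  exact max_eq_left (by linarith)

theorem tt_zero_of_ge {j : ℕ} (h : 1 ≤ |s - (j + 2)|) : tt s τ j = 0 := by
  unfold tt
  rw [lam_zero_of_ge h]
  exact cl_of_nonpos (by simp)

theorem tt_tau_zero (s : ℝ) (j : ℕ) : tt s 0 j = 0 := by
  unfold tt
  exact cl_of_nonpos (by simp)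

theorem VV_mid (hN : (N : ℝ) ≤ s) (hN1 : s < N + 1) : VV k p s τ N =
    (1 - (s - N)) • hat p N + (s - N) • k 0 (hat p (N + 1)) := by
  rw [VV_rec, VV_high hN1 le_rfl, cl_of_mem (by linarith) (by linarith), tt_zero_of_ge]
  rw [le_abs]
  right
  linarith

theorem VV_low (hN : (N : ℝ) ≤ s) {j : ℕ} (hj : j < N) :
    VV k p s τ j = k (tt s τ j) (VV k p s τ (j + 1)) := by
  have : (j : ℝ) + 1 ≤ N := by exact_mod_cast hj
  rw [VV_rec, cl_of_one_le (by linarith), sub_self, zero_smul, zero_add, one_smul]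

theorem VV_low0 (hN : (N : ℝ) ≤ s) {j : ℕ} (hj : j + 3 ≤ N) :
    VV k p s τ j = k 0 (VV k p s τ (j + 1)) := by
  have : (j : ℝ) + 3 ≤ N := by exact_mod_cast hj
  rw [VV_low hN (by omega), tt_zero_of_ge]
  rw [le_abs]
  left
  linarith

theorem VV_unit (hk : KD k u) (hN : (N : ℝ) ≤ s) (hh : 1 / 2 ≤ ‖VV k p s τ N‖) (i : ℕ) :
    ∀ j, j + i + 1 = N → ‖VV k p s τ j‖ = 1 := by
  induction i with
  | zero =>
    intro j hj
    have hj' : j + 1 = N := by omega
    rw [VV_low hN (by omega), hj']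
    exact hk.norm_eq _ _ hh
  | succ i ih =>
    intro j hj
    rw [VV_low hN (by omega)]
    refine hk.norm_eq _ _ ?_
    rw [ih (j + 1) (by omega)]
    norm_num

theorem VV_unit' (hk : KD k u) (hN : (N : ℝ) ≤ s) (hh : 1 / 2 ≤ ‖VV k p s τ N‖) {j : ℕ}
    (hj : j < N) : ‖VV k p s τ j‖ = 1 :=
  VV_unit hk hN hh (N - j - 1) j (by omega)

theorem VV_iter0 (hN : (N : ℝ) ≤ s) (i : ℕ) :
    ∀ j, j + i = N → VV k p s 0 j = (k 0)^[i] (VV k p s 0 N) := by
  induction i with
  | zero => intro j hj; rw [show j = N by omega]; rfl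
  | succ i ih =>
    intro j hj
    rw [VV_low hN (by omega), tt_tau_zero, ih (j + 1) (by omega), Function.iterate_succ_apply']

theorem VV_iter (hN : (N : ℝ) ≤ s) (h2 : 2 ≤ N) (i : ℕ) :
    ∀ j, j + i = N - 2 → VV k p s τ j = (k 0)^[i] (VV k p s τ (N - 2)) := by
  induction i with
  | zero => intro j hj; rw [show j = N - 2 by omega]; rfl
  | succ i ih =>
    intro j hj
    rw [VV_low0 hN (by omega), ih (j + 1) (by omega), Function.iterate_succ_apply']

theorem VV_end (hk : KD k u) (hN : (N : ℝ) ≤ s) (hN1 : s < N + 1) (h2 : 2 ≤ N) :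
    VV k p s 1 (N - 2) = u := by
  obtain ⟨M, rfl⟩ : ∃ M, N = M + 2 := ⟨N - 2, by omega⟩
  push_cast at hN hN1
  have hM : M + 2 - 2 = M := by omega
  rw [hM]
  have hN' : ((M + 2 : ℕ) : ℝ) ≤ s := by push_cast; exact hN
  rcases le_total (1 / 2) (s - (M + 2)) with h | h
  · have h1 : tt s 1 (M + 1) = 1 := by
      unfold tt lam
      push_cast
      rw [abs_of_nonpos (by linarith), max_eq_right (by linarith), cl_of_one_le (by linarith)]
    rw [VV_low hN' (by omega), VV_low hN' (j := M + 1) (by omega), h1, hk.one, hk.unit]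
  · have h1 : tt s 1 M = 1 := by
      unfold tt lam
      rw [abs_of_nonneg (by linarith), max_eq_right (by linarith), cl_of_one_le (by linarith)]
    rw [VV_low hN' (by omega), h1, hk.one]

theorem iter_unit (hk : KD k u) (n : ℕ) : (k 0)^[n] u = u := by
  induction n with
  | zero => rfl
  | succ n ih => rw [Function.iterate_succ_apply', ih, hk.unit]

end facts

end Pool.Agent.Helper917.Nuss
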