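import Pool.Agent.Helper917.NussCut

set_option autoImplicit false
open Filter Topology Set Quaternion

namespace Pool.Agent.Helper917.Nuss

abbrev QQ : Type := ℍ[ℝ]

/-- quaternion with given components -/
def mkQ (a b c d : ℝ) : QQ := ⟨a, b, c, d⟩

@[simp] theorem mkQ_re (a b c d : ℝ) : (mkQ a b c d).re = a := rfl
@[simp] theorem mkQ_imI (a b c d : ℝ) : (mkQ a b c d).imI = b := rfl
@[simp] theorem mkQ_imJ (a b c d : ℝ) : (mkQ a b c d).imJ = c := rfl
@[simp] theorem mkQ_imK (a b c d : ℝ) : (mkQ a b c d).imK = d := rfl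

theorem continuous_mkq {X : Type*} [TopologicalSpace X] {a b c d : X → ℝ} (ha : Continuous a)
    (hb : Continuous b) (hc : Continuous c) (hd : Continuous d) :
    Continuous fun x => mkQ (a x) (b x) (c x) (d x) := by
  have h : (fun x => mkQ (a x) (b x) (c x) (d x)) = fun x => a x • mkQ 1 0 0 0 +
      b x • mkQ 0 1 0 0 + c x • mkQ 0 0 1 0 + d x • mkQ 0 0 0 1 := by
    funext x
    ext <;> simp
  rw [h]
  fun_prop

/-- square the first complex coordinate -/
def Sq (x : QQ) : QQ := mkQ (x.re ^ 2 - x.imI ^ 2) (2 * x.re * x.imI) x.imJ x.imK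

/-- path of conjugators -/
def mq (t : ℝ) : QQ := mkQ t t (1 - t) 0

/-- second homotopy, ends at the quaternion square -/
def Cq (r : ℝ) (x : QQ) : QQ :=
  mkQ (x.re ^ 2 - x.imI ^ 2 - r * (x.imJ ^ 2 + x.imK ^ 2)) (2 * x.re * x.imI)
    (2 * r * x.re * x.imJ - (1 - r) * x.imK) ((1 - r) * x.imJ + 2 * r * x.re * x.imK)

noncomputable def Phi (t1 t2 : ℝ) (x : QQ) : QQ := mq t1 * Sq x * (mq t1)⁻¹ + (Cq t2 x - Cq 0 x)

theorem Sq_ne {x : QQ} (hx : x ≠ 0) : Sq x ≠ 0 := by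
  intro h
  apply hx
  have h1 : x.re ^ 2 - x.imI ^ 2 = 0 := congrArg QuaternionAlgebra.re h
  have h2 : 2 * x.re * x.imI = 0 := congrArg QuaternionAlgebra.imI h
  have h3 : x.imJ = 0 := congrArg QuaternionAlgebra.imJ h
  have h4 : x.imK = 0 := congrArg QuaternionAlgebra.imK h
  have h5 : x.re ^ 2 = 0 := by nlinarith [sq_nonneg x.re, sq_nonneg x.imI, sq_nonneg (x.re * x.imI)]
  have h6 : x.re = 0 := by simpa using h5
  have h7 : x.imI = 0 := by
    have : x.imI ^ 2 = 0 := by linarith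
    simpa using this
  ext
  · exact h6
  · exact h7
  · exact h3
  · exact h4

theorem mq_ne (t : ℝ) : mq t ≠ 0 := by
  intro h
  have h1 : t = 0 := congrArg QuaternionAlgebra.re h
  have h2 : 1 - t = 0 := congrArg QuaternionAlgebra.imJ h
  linarith

theorem Cq_ne {r : ℝ} (hr1 : r ≤ 1) {x : QQ} (hx : x ≠ 0) : Cq r x ≠ 0 := by
  intro h
  apply hx
  have h1 : x.re ^ 2 - x.imI ^ 2 - r * (x.imJ ^ 2 + x.imK ^ 2) = 0 :=
    congrArg QuaternionAlgebra.re h
  have h2 : 2 * x.re * x.imI = 0 := congrArg QuaternionAlgebra.imI h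
  have h3 : 2 * r * x.re * x.imJ - (1 - r) * x.imK = 0 := congrArg QuaternionAlgebra.imJ h
  have h4 : (1 - r) * x.imJ + 2 * r * x.re * x.imK = 0 := congrArg QuaternionAlgebra.imK h
  set a := x.re with ha
  set b := x.imI with hb
  set c := x.imJ with hc
  set d := x.imK with hd
  -- (2ra)^2 + (1-r)^2 times (c^2+d^2) vanishes
  have h5 : ((2 * r * a) ^ 2 + (1 - r) ^ 2) * (c ^ 2 + d ^ 2) = 0 := by
    have : ((2 * r * a) ^ 2 + (1 - r) ^ 2) * (c ^ 2 + d ^ 2) =
      (2 * r * a * c - (1 - r) * d) ^ 2 + ((1 - r) * c + 2 * r * a * d) ^ 2 := by ring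
    rw [this, h3, h4]; ring
  have hcd : c ^ 2 + d ^ 2 = 0 := by
    rcases mul_eq_zero.1 h5 with h6 | h6
    · have h7 : (1 - r) ^ 2 = 0 := by nlinarith [sq_nonneg (2 * r * a), sq_nonneg (1 - r)]
      have h8 : r = 1 := by
        have : 1 - r = 0 := by simpa using h7
        linarith
      have h9 : a = 0 := by
        have h10 : (2 * r * a) ^ 2 = 0 := by nlinarith [sq_nonneg (2 * r * a), sq_nonneg (1 - r)]
        rw [h8] at h10
        have h11 : 2 * 1 * a = 0 := by simpa using h10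
        linarith
      rw [h8, h9] at h1
      nlinarith [sq_nonneg b, sq_nonneg c, sq_nonneg d]
    · exact h6
  have hc0 : c = 0 := by
    have : c ^ 2 = 0 := by nlinarith [sq_nonneg c, sq_nonneg d]
    simpa using this
  have hd0 : d = 0 := by
    have : d ^ 2 = 0 := by nlinarith [sq_nonneg c, sq_nonneg d]
    simpa using this
  rw [hcd] at h1
  have h12 : a * b = 0 := by linarith
  have ha2 : a ^ 2 = 0 := by
    rcases mul_eq_zero.1 h12 with h | h
    · rw [h]; ring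
    · rw [h] at h1; linarith
  have ha0 : a = 0 := by simpa using ha2
  have hb0 : b = 0 := by
    have : b ^ 2 = 0 := by rw [ha0] at h1; linarith
    simpa using this
  ext
  · exact ha0
  · exact hb0
  · exact hc0
  · exact hd0

theorem Cq_one (x : QQ) : Cq 1 x = x * x := by
  ext <;> simp only [Cq, mkQ_re, mkQ_imI, mkQ_imJ, mkQ_imK, Quaternion.re_mul, Quaternion.imI_mul,
    Quaternion.imJ_mul, Quaternion.imK_mul] <;> ring

theorem mq_one_conj (x : QQ) : mq 1 * Sq x * (mq 1)⁻¹ = Cq 0 x := by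
  rw [mul_inv_eq_iff_eq_mul₀ (mq_ne 1)]
  ext <;> simp only [Cq, mq, Sq, mkQ_re, mkQ_imI, mkQ_imJ, mkQ_imK, Quaternion.re_mul,
    Quaternion.imI_mul, Quaternion.imJ_mul, Quaternion.imK_mul] <;> ring

theorem Phi_one_left (t2 : ℝ) (x : QQ) : Phi 1 t2 x = Cq t2 x := by
  unfold Phi
  rw [mq_one_conj]; abel

theorem Phi_zero_right (t1 : ℝ) (x : QQ) : Phi t1 0 x = mq t1 * Sq x * (mq t1)⁻¹ := by
  unfold Phi
  rw [sub_self, add_zero]

/-- the equivariant degree two map -/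
def Fq (x : QQ) : QQ := mkQ (x.re ^ 2 - x.imI ^ 2) (-(2 * x.re * x.imI)) x.imJ (-x.imK)

theorem Phi_zero_zero (x : QQ) : Phi 0 0 x = Fq x := by
  rw [Phi_zero_right, mul_inv_eq_iff_eq_mul₀ (mq_ne 0)]
  ext <;> simp only [Fq, mq, Sq, mkQ_re, mkQ_imI, mkQ_imJ, mkQ_imK, Quaternion.re_mul,
    Quaternion.imI_mul, Quaternion.imJ_mul, Quaternion.imK_mul] <;> ring

theorem Phi_ne (t : ℝ) {x : QQ} (hx : x ≠ 0) : Phi (cl (2 * t)) (cl (2 * t - 1)) x ≠ 0 := by
  rcases le_total (2 * t) 1 with h | h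
  · rw [cl_of_nonpos (show 2 * t - 1 ≤ 0 by linarith), Phi_zero_right]
    exact mul_ne_zero (mul_ne_zero (mq_ne _) (Sq_ne hx)) (inv_ne_zero (mq_ne _))
  · rw [cl_of_one_le h, Phi_one_left]
    exact Cq_ne (cl_le_one _) hx

theorem Phi_unit (t1 t2 : ℝ) : Phi t1 t2 1 = 1 := by
  have h1 : Sq 1 = 1 := by ext <;> simp [Sq]
  have h2 : ∀ r, Cq r 1 = 1 := by intro r; ext <;> simp [Cq]
  unfold Phi
  rw [h1, h2, h2, sub_self, add_zero, mul_one, mul_inv_cancel₀ (mq_ne t1)]

theorem continuous_re' : Continuous fun q : QQ => q.re := Quaternion.continuous_re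
theorem continuous_imI' : Continuous fun q : QQ => q.imI := Quaternion.continuous_imI
theorem continuous_imJ' : Continuous fun q : QQ => q.imJ := Quaternion.continuous_imJ
theorem continuous_imK' : Continuous fun q : QQ => q.imK := Quaternion.continuous_imK

theorem Phi_continuous : Continuous fun q : (ℝ × ℝ) × QQ => Phi q.1.1 q.1.2 q.2 := by
  have hre : Continuous fun q : (ℝ × ℝ) × QQ => q.2.re := continuous_re'.comp continuous_snd
  have hI : Continuous fun q : (ℝ × ℝ) × QQ => q.2.imI := continuous_imI'.comp continuous_snd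
  have hJ : Continuous fun q : (ℝ × ℝ) × QQ => q.2.imJ := continuous_imJ'.comp continuous_snd
  have hK : Continuous fun q : (ℝ × ℝ) × QQ => q.2.imK := continuous_imK'.comp continuous_snd
  have h1 : Continuous fun q : (ℝ × ℝ) × QQ => q.1.1 := continuous_fst.comp continuous_fst
  have h2 : Continuous fun q : (ℝ × ℝ) × QQ => q.1.2 := continuous_snd.comp continuous_fst
  have hm : Continuous fun q : (ℝ × ℝ) × QQ => mq q.1.1 := by
    unfold mq
    exact continuous_mkq h1 h1 (continuous_const.sub h1) continuous_const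
  have hS : Continuous fun q : (ℝ × ℝ) × QQ => Sq q.2 := by
    unfold Sq
    exact continuous_mkq (by fun_prop) (by fun_prop) hJ hK
  have hC : Continuous fun q : (ℝ × ℝ) × QQ => Cq q.1.2 q.2 := by
    unfold Cq
    exact continuous_mkq (by fun_prop) (by fun_prop) (by fun_prop) (by fun_prop)
  have hC0 : Continuous fun q : (ℝ × ℝ) × QQ => Cq 0 q.2 := by
    unfold Cq
    exact continuous_mkq (by fun_prop) (by fun_prop) (by fun_prop) (by fun_prop)
  unfold Phi
  exact ((hm.mul hS).mul (hm.inv₀ fun q => mq_ne _)).add (hC.sub hC0)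

/-- normalisation -/
noncomputable def nq (x : QQ) : QQ := ‖x‖⁻¹ • x

theorem nq_norm {x : QQ} (hx : x ≠ 0) : ‖nq x‖ = 1 := by
  unfold nq
  rw [norm_smul, norm_inv, norm_norm, inv_mul_cancel₀ (norm_ne_zero_iff.2 hx)]

theorem nq_ne {x : QQ} (hx : x ≠ 0) : nq x ≠ 0 := by
  rw [← norm_ne_zero_iff, nq_norm hx]; exact one_ne_zero

theorem nq_of_unit {x : QQ} (hx : ‖x‖ = 1) : nq x = x := by
  unfold nq; rw [hx, inv_one, one_smul]

noncomputable def hk (t : ℝ) (x : QQ) : QQ :=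
  ‖Phi (cl (2 * t)) (cl (2 * t - 1)) (nq x)‖ •
    (nq x * (Phi (cl (2 * t)) (cl (2 * t - 1)) (nq x))⁻¹ * nq x)

theorem hk_norm (t : ℝ) {x : QQ} (hx : x ≠ 0) : ‖hk t x‖ = 1 := by
  unfold hk
  rw [norm_smul, norm_norm, norm_mul, norm_mul, nq_norm hx, norm_inv, one_mul, mul_one,
    mul_inv_cancel₀ (norm_ne_zero_iff.2 (Phi_ne t (nq_ne hx)))]

theorem hk_continuousAt {q : ℝ × QQ} (hq : q.2 ≠ 0) :
    ContinuousAt (fun q : ℝ × QQ => hk q.1 q.2) q := by
  have hn : ContinuousAt (fun q : ℝ × QQ => nq q.2) q := by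
    unfold nq
    exact (ContinuousAt.inv₀ (continuousAt_snd.norm) (norm_ne_zero_iff.2 hq)).smul continuousAt_snd
  have h1 : ContinuousAt (fun q : ℝ × QQ => cl (2 * q.1)) q :=
    (cl_continuous.comp (continuous_const.mul continuous_fst)).continuousAt
  have h2 : ContinuousAt (fun q : ℝ × QQ => cl (2 * q.1 - 1)) q :=
    (cl_continuous.comp ((continuous_const.mul continuous_fst).sub continuous_const)).continuousAt
  have hP : ContinuousAt (fun q : ℝ × QQ => Phi (cl (2 * q.1)) (cl (2 * q.1 - 1)) (nq q.2)) q :=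
    ContinuousAt.comp (f := fun q : ℝ × QQ => ((cl (2 * q.1), cl (2 * q.1 - 1)), nq q.2))
      Phi_continuous.continuousAt ((h1.prodMk h2).prodMk hn)
  unfold hk
  exact hP.norm.smul ((hn.mul (hP.inv₀ (Phi_ne _ (nq_ne hq)))).mul hn)

/-- the null homotopy, extended to all quaternions -/
noncomputable def kq (t : ℝ) (x : QQ) : QQ := 1 + cl (4 * ‖x‖ - 1) • (hk t x - 1)

theorem kq_continuous : Continuous fun q : ℝ × QQ => kq q.1 q.2 := by
  rw [continuous_iff_continuousAt]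
  intro q
  by_cases hq : q.2 = 0
  · have : ∀ᶠ r : ℝ × QQ in 𝓝 q, kq r.1 r.2 = 1 := by
      have h1 : ContinuousAt (fun r : ℝ × QQ => ‖r.2‖) q := continuousAt_snd.norm
      have h2 : ∀ᶠ r : ℝ × QQ in 𝓝 q, ‖r.2‖ < 1 / 4 := by
        refine h1.eventually (gt_mem_nhds ?_)
        simp [hq]
      filter_upwards [h2] with r hr
      unfold kq
      rw [cl_of_nonpos (by linarith), zero_smul, add_zero]
    refine ContinuousAt.congr (continuousAt_const (y := (1 : QQ))) ?_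
    filter_upwards [this] with r hr using hr.symm
  · unfold kq
    have h1 : ContinuousAt (fun r : ℝ × QQ => cl (4 * ‖r.2‖ - 1)) q :=
      cl_continuous.continuousAt.comp (f := fun r : ℝ × QQ => 4 * ‖r.2‖ - 1)
        ((continuousAt_const.mul continuousAt_snd.norm).sub continuousAt_const)
    exact continuousAt_const.add (h1.smul ((hk_continuousAt hq).sub continuousAt_const))

theorem kq_of_ge (t : ℝ) {x : QQ} (hx : 1 / 2 ≤ ‖x‖) : kq t x = hk t x := by
  unfold kq
  rw [cl_of_one_le (by linarith), one_smul]; abel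

theorem kq_norm (t : ℝ) {x : QQ} (hx : 1 / 2 ≤ ‖x‖) : ‖kq t x‖ = 1 := by
  rw [kq_of_ge t hx]
  refine hk_norm t ?_
  intro h
  rw [h, norm_zero] at hx
  linarith

theorem kq_norm_le (t : ℝ) (x : QQ) : ‖kq t x‖ ≤ 1 := by
  by_cases hx : x = 0
  · unfold kq
    rw [hx, norm_zero, cl_of_nonpos (by linarith), zero_smul, add_zero, norm_one]
  · unfold kq
    set c := cl (4 * ‖x‖ - 1) with hc
    have h0 : 0 ≤ c := cl_nonneg _
    have h1 : c ≤ 1 := cl_le_one _
    have h2 : (1 : QQ) + c • (hk t x - 1) = (1 - c) • (1 : QQ) + c • hk t x := by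
      rw [smul_sub, sub_smul, one_smul]; abel
    rw [h2]
    refine le_trans (norm_add_le _ _) ?_
    rw [norm_smul, norm_smul, norm_one, hk_norm t hx, Real.norm_of_nonneg h0,
      Real.norm_of_nonneg (by linarith)]
    linarith

theorem kq_one (x : QQ) : kq 1 x = 1 := by
  by_cases hx : x = 0
  · unfold kq
    rw [hx, norm_zero, cl_of_nonpos (by linarith), zero_smul, add_zero]
  · have h : hk 1 x = 1 := by
      have h1 : Phi (cl (2 * 1)) (cl (2 * 1 - 1)) (nq x) = nq x * nq x := by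
        rw [cl_of_one_le (by norm_num), cl_of_one_le (by norm_num), Phi_one_left, Cq_one]
      unfold hk
      rw [h1, norm_mul, nq_norm hx, mul_one, one_smul, mul_inv_rev, ← mul_assoc,
        mul_inv_cancel₀ (nq_ne hx), one_mul, inv_mul_cancel₀ (nq_ne hx)]
    unfold kq
    rw [h, sub_self, smul_zero, add_zero]

theorem kq_unit (t : ℝ) : kq t 1 = 1 := by
  rw [kq_of_ge t (by rw [norm_one]; norm_num)]
  unfold hk
  rw [nq_of_unit norm_one, Phi_unit, norm_one, inv_one, one_smul, mul_one, mul_one]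

/-- the rotation of order six -/
noncomputable def aq : QQ := mkQ (Real.sqrt 3 / 2) (-(1 / 2)) 0 0

theorem aq_norm : ‖aq‖ = 1 := by
  have h : ‖aq‖ * ‖aq‖ = 1 := by
    rw [← Quaternion.normSq_eq_norm_mul_self, Quaternion.normSq_def']
    show (Real.sqrt 3 / 2) ^ 2 + (-(1 / 2)) ^ 2 + 0 ^ 2 + 0 ^ 2 = (1 : ℝ)
    rw [div_pow, Real.sq_sqrt (by norm_num)]
    norm_num
  nlinarith [norm_nonneg aq]

theorem aq_ne : aq ≠ 0 := by
  rw [← norm_ne_zero_iff, aq_norm]; exact one_ne_zero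

noncomputable def Lq : QQ →ₗᵢ[ℝ] QQ where
  toFun x := -(aq * x * aq)
  map_add' x y := by rw [mul_add, add_mul, neg_add]
  map_smul' c x := by
    simp
  norm_map' x := by
    show ‖-(aq * x * aq)‖ = ‖x‖
    rw [norm_neg, norm_mul, norm_mul, aq_norm, one_mul, mul_one]

theorem Lq_apply (x : QQ) : Lq x = -(aq * x * aq) := rfl

theorem Lq_comp (x : QQ) : Lq x = mkQ (-(1 / 2) * x.re - Real.sqrt 3 / 2 * x.imI)
    (Real.sqrt 3 / 2 * x.re - (1 / 2) * x.imI) (-x.imJ) (-x.imK) := by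
  have h3 : Real.sqrt 3 * Real.sqrt 3 = 3 := Real.mul_self_sqrt (by norm_num)
  rw [Lq_apply]
  ext
  · simp only [Quaternion.re_neg, aq, mkQ_re, mkQ_imI, mkQ_imJ, mkQ_imK, Quaternion.re_mul,
      Quaternion.imI_mul, Quaternion.imJ_mul, Quaternion.imK_mul]
    linear_combination (-(1 / 4) * x.re) * h3
  · simp only [Quaternion.imI_neg, aq, mkQ_re, mkQ_imI, mkQ_imJ, mkQ_imK, Quaternion.re_mul,
      Quaternion.imI_mul, Quaternion.imJ_mul, Quaternion.imK_mul]
    linear_combination (-(1 / 4) * x.imI) * h3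
  · simp only [Quaternion.imJ_neg, aq, mkQ_re, mkQ_imI, mkQ_imJ, mkQ_imK, Quaternion.re_mul,
      Quaternion.imI_mul, Quaternion.imJ_mul, Quaternion.imK_mul]
    linear_combination (-(1 / 4) * x.imJ) * h3
  · simp only [Quaternion.imK_neg, aq, mkQ_re, mkQ_imI, mkQ_imJ, mkQ_imK, Quaternion.re_mul,
      Quaternion.imI_mul, Quaternion.imJ_mul, Quaternion.imK_mul]
    linear_combination (-(1 / 4) * x.imK) * h3

theorem Fq_equiv (x : QQ) : Fq (Lq x) = Lq (Fq x) := by
  have h3 : Real.sqrt 3 * Real.sqrt 3 = 3 := Real.mul_self_sqrt (by norm_num)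
  rw [Lq_comp, Lq_comp]
  ext
  · simp only [Fq, mkQ_re, mkQ_imI, mkQ_imJ, mkQ_imK]
    linear_combination ((1 / 4) * (x.imI ^ 2 - x.re ^ 2)) * h3
  · simp only [Fq, mkQ_re, mkQ_imI, mkQ_imJ, mkQ_imK]
    linear_combination ((1 / 2) * (x.imI * x.re)) * h3
  · simp only [Fq, mkQ_re, mkQ_imI, mkQ_imJ, mkQ_imK]
  · simp only [Fq, mkQ_re, mkQ_imI, mkQ_imJ, mkQ_imK]

theorem kq_equiv {x : QQ} (hx : ‖x‖ = 1) : kq 0 (Lq x) = Lq (kq 0 x) := by
  have hL : ‖Lq x‖ = 1 := by rw [LinearIsometry.norm_map, hx]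
  rw [kq_of_ge 0 (by rw [hL]; norm_num), kq_of_ge 0 (by rw [hx]; norm_num)]
  unfold hk
  rw [nq_of_unit hL, nq_of_unit hx, cl_of_nonpos (show (2 : ℝ) * 0 ≤ 0 by norm_num),
    cl_of_nonpos (show (2 : ℝ) * 0 - 1 ≤ 0 by norm_num), Phi_zero_zero, Phi_zero_zero, Fq_equiv,
    LinearIsometry.norm_map, map_smul]
  congr 1
  have ha : aq ≠ 0 := aq_ne
  rw [Lq_apply, Lq_apply, Lq_apply]
  have h1 : (-(aq * Fq x * aq))⁻¹ = -(aq⁻¹ * (Fq x)⁻¹ * aq⁻¹) := by
    rw [inv_neg, mul_inv_rev, mul_inv_rev, mul_assoc]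
  rw [h1]
  have h2 : -(aq * x * aq) * -(aq⁻¹ * (Fq x)⁻¹ * aq⁻¹) * -(aq * x * aq) =
      -(aq * x * (aq * aq⁻¹) * (Fq x)⁻¹ * (aq⁻¹ * aq) * x * aq) := by
    simp only [neg_mul, mul_neg, neg_neg, mul_assoc]
  rw [h2, mul_inv_cancel₀ ha, inv_mul_cancel₀ ha]
  simp only [mul_one, mul_assoc]

theorem Lq_fix {x : QQ} (h : Lq x = x) : x = 0 := by
  have h3 : Real.sqrt 3 * Real.sqrt 3 = 3 := Real.mul_self_sqrt (by norm_num)
  rw [Lq_comp] at h
  have h1 : -(1 / 2) * x.re - Real.sqrt 3 / 2 * x.imI = x.re := congrArg QuaternionAlgebra.re h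
  have h2 : Real.sqrt 3 / 2 * x.re - (1 / 2) * x.imI = x.imI := congrArg QuaternionAlgebra.imI h
  have h4 : -x.imJ = x.imJ := congrArg QuaternionAlgebra.imJ h
  have h5 : -x.imK = x.imK := congrArg QuaternionAlgebra.imK h
  have h6 : x.imI = 0 := by
    have h7 : x.re = - (Real.sqrt 3 / 3) * x.imI := by linarith
    rw [h7] at h2
    nlinarith
  have h7 : x.re = 0 := by rw [h6] at h1; linarith
  ext
  · exact h7
  · exact h6
  · show x.imJ = 0
    linarith
  · show x.imK = 0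
    linarith

end Pool.Agent.Helper917.Nuss
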