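import Pool.Agent.Helper917.NussCut

set_option autoImplicit false
open Filter Topology Set ZeroAtInfty

namespace Pool.Agent.Helper917.Nuss

variable {H : Type} [NormedAddCommGroup H] [NormedSpace ℝ H] {A : Set H} {C : H → ℝ → H}

theorem zz_step_tendsto (hC : Steer A C) (ξ : XX H) :
    Tendsto (fun j => zz A C ξ (j + 1) - zz A C ξ j) atTop (𝓝 0) := by
  rw [Metric.tendsto_atTop]
  intro ε hε
  obtain ⟨J, hJ⟩ := tail_all hC ξ (ε / 2) (by positivity)
  refine ⟨J, fun j hj => ?_⟩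
  rw [dist_zero_right]
  linarith [(hJ.self_of_nhds j hj).1]

theorem zz_dist_tendsto (hC : Steer A C) (ξ : XX H) :
    Tendsto (fun j => max (ξ.2.2 j) (Metric.infDist (zz A C ξ j) A)) atTop (𝓝 0) := by
  have h1 : Tendsto (fun j => Metric.infDist (zz A C ξ j) A) atTop (𝓝 0) := by
    rw [Metric.tendsto_atTop]
    intro ε hε
    obtain ⟨J, hJ⟩ := tail_all hC ξ (ε / 2) (by positivity)
    refine ⟨J, fun j hj => ?_⟩
    rw [dist_zero_right, Real.norm_of_nonneg Metric.infDist_nonneg]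
    linarith [(hJ.self_of_nhds j hj).2]
  have := (tendsto0 ξ.2.2).max h1
  simpa using this

/-- the retraction -/
noncomputable def rr (hC : Steer A C) (ξ : XX H) : XX H :=
  (ξ.1, (mk0 _ (zz_step_tendsto hC ξ), mk0 _ (zz_dist_tendsto hC ξ)))

theorem tail_coord {E : Type*} [NormedAddCommGroup E] (x₀ : C₀(ℕ, E)) (ε : ℝ) (hε : 0 < ε) :
    ∃ J : ℕ, ∀ᶠ x in 𝓝 x₀, ∀ j, J ≤ j → ‖x j‖ ≤ ε := by
  obtain ⟨J, hJ⟩ := (Metric.tendsto_atTop.1 (tendsto0 x₀)) (ε / 2) (by positivity)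
  refine ⟨J, ?_⟩
  filter_upwards [Metric.ball_mem_nhds x₀ (show 0 < ε / 2 by positivity)] with x hx j hj
  have h1 : ‖x₀ j‖ < ε / 2 := by simpa using hJ j hj
  have h2 : ‖(x - x₀) j‖ ≤ ‖x - x₀‖ := norm_coord_le _ _
  have h3 : ‖x - x₀‖ < ε / 2 := by rw [← dist_eq_norm]; exact hx
  have h4 : x j = x₀ j + (x - x₀) j := by simp
  rw [h4]
  refine le_trans (norm_add_le _ _) (by linarith)

theorem rr_continuous (hC : Steer A C) : Continuous (rr hC) := by
  rw [continuous_iff_continuousAt]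
  intro ξ₀
  refine ContinuousAt.prodMk continuousAt_fst (ContinuousAt.prodMk ?_ ?_)
  · refine continuousAt_c0 (fun j => ?_) fun ε hε => ?_
    · simp only [mk0_apply]
      exact ((zz_continuous hC (j + 1)).sub (zz_continuous hC j)).continuousAt
    · obtain ⟨J, hJ⟩ := tail_all hC ξ₀ ε hε
      refine ⟨J, ?_⟩
      filter_upwards [hJ] with ξ h j hj
      rw [mk0_apply]
      exact (h j hj).1
  · refine continuousAt_c0 (fun j => ?_) fun ε hε => ?_
    · simp only [mk0_apply]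
      exact (((continuous_coord j).comp (continuous_snd.comp continuous_snd)).max
        ((Metric.continuous_infDist_pt A).comp (zz_continuous hC j))).continuousAt
    · obtain ⟨J, hJ⟩ := tail_all hC ξ₀ ε hε
      obtain ⟨J', hJ'⟩ := tail_coord ξ₀.2.2 ε hε
      have hJ'' : ∀ᶠ ξ : XX H in 𝓝 ξ₀, ∀ j, J' ≤ j → ‖ξ.2.2 j‖ ≤ ε :=
        (continuousAt_snd.comp continuousAt_snd : ContinuousAt (fun ξ : XX H => ξ.2.2) ξ₀).eventually
          hJ'
      refine ⟨max J J', ?_⟩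
      filter_upwards [hJ, hJ''] with ξ h h' j hj
      rw [mk0_apply, Real.norm_eq_abs, abs_le]
      have h1 := (h j (le_trans (le_max_left _ _) hj)).2
      have h2 := h' j (le_trans (le_max_right _ _) hj)
      rw [Real.norm_eq_abs, abs_le] at h2
      exact ⟨le_trans h2.1 (le_max_left _ _), max_le h2.2 h1⟩

theorem pos_rr (hC : Steer A C) (ξ : XX H) (j : ℕ) : pos (rr hC ξ) j j = zz A C ξ j := by
  rw [pos_nat]
  have : ∑ i ∈ Finset.range j, (rr hC ξ).2.1 i = zz A C ξ j - zz A C ξ 0 :=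
    Finset.sum_range_sub (fun i => zz A C ξ i) j
  rw [this, zz_zero hC]
  simp [rr]

/-- the set of admissible slow sequences -/
def ZZ (A : Set H) : Set (XX H) := {ξ | ∀ j : ℕ, Metric.infDist (pos ξ j j) A ≤ ξ.2.2 j}

theorem rr_mem (hC : Steer A C) (ξ : XX H) : rr hC ξ ∈ ZZ A := by
  intro j
  rw [pos_rr]
  exact le_max_right _ _

theorem rr_of_mem (hC : Steer A C) {ξ : XX H} (h : ξ ∈ ZZ A) : rr hC ξ = ξ := by
  have hs : sig A ξ = 0 := sg_eq_zero_of _ fun j => by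
    have := h j
    unfold defect
    linarith
  have hz : ∀ j : ℕ, zz A C ξ j = pos ξ j j := fun j =>
    zz_of_small hC (by rw [hs]; positivity)
  refine Prod.ext rfl (Prod.ext ?_ ?_)
  · ext j
    show zz A C ξ (j + 1) - zz A C ξ j = ξ.2.1 j
    rw [hz, hz, pos_nat, pos_nat, Finset.sum_range_succ]
    abel
  · ext j
    show max (ξ.2.2 j) (Metric.infDist (zz A C ξ j) A) = ξ.2.2 j
    rw [hz]
    exact max_eq_left (h j)

variable (G : H →ₗᵢ[ℝ] H)

theorem shiftG_tendsto (x : C₀(ℕ, H)) : Tendsto (fun j => G (x (j + 1))) atTop (𝓝 0) := by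
  have h1 : Tendsto (fun j => x (j + 1)) atTop (𝓝 0) := (tendsto0 x).comp (tendsto_add_atTop_nat 1)
  have h2 := (G.continuous.tendsto 0).comp h1
  rw [map_zero] at h2
  exact h2

theorem shift_tendsto (x : C₀(ℕ, ℝ)) : Tendsto (fun j => x (j + 1)) atTop (𝓝 0) :=
  (tendsto0 x).comp (tendsto_add_atTop_nat 1)

/-- the shift twisted by G -/
noncomputable def f0 (ξ : XX H) : XX H :=
  (G (ξ.1 + ξ.2.1 0), (mk0 _ (shiftG_tendsto G ξ.2.1), mk0 _ (shift_tendsto ξ.2.2)))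

theorem f0_continuous : Continuous (f0 G) := by
  refine Continuous.prodMk ?_ (Continuous.prodMk ?_ ?_)
  · exact G.continuous.comp (continuous_fst.add
      ((continuous_coord 0).comp (continuous_fst.comp continuous_snd)))
  · have : Continuous fun x : C₀(ℕ, H) => mk0 _ (shiftG_tendsto G x) := by
      refine (LipschitzWith.of_dist_le_mul (K := 1) fun x y => ?_).continuous
      rw [dist_eq_norm, dist_eq_norm, NNReal.coe_one, one_mul]
      refine norm_le_of _ (norm_nonneg _) fun j => ?_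
      show ‖G (x (j + 1)) - G (y (j + 1))‖ ≤ _
      rw [← map_sub, G.norm_map]
      exact norm_coord_le (x - y) (j + 1)
    exact this.comp (continuous_fst.comp continuous_snd)
  · have : Continuous fun x : C₀(ℕ, ℝ) => mk0 _ (shift_tendsto x) := by
      refine (LipschitzWith.of_dist_le_mul (K := 1) fun x y => ?_).continuous
      rw [dist_eq_norm, dist_eq_norm, NNReal.coe_one, one_mul]
      refine norm_le_of _ (norm_nonneg _) fun j => ?_
      exact norm_coord_le (x - y) (j + 1)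
    exact this.comp (continuous_snd.comp continuous_snd)

theorem pos_f0 (ξ : XX H) (j : ℕ) : pos (f0 G ξ) j j = G (pos ξ (j + 1) ((j + 1 : ℕ) : ℝ)) := by
  rw [pos_nat, pos_nat, Finset.sum_range_succ', map_add, map_add, map_sum]
  show G (ξ.1 + ξ.2.1 0) + ∑ i ∈ Finset.range j, G (ξ.2.1 (i + 1)) = _
  rw [map_add]
  abel

theorem infDist_G_le (hA : A.Nonempty) (hG : ∀ a ∈ A, G a ∈ A) (p : H) :
    Metric.infDist (G p) A ≤ Metric.infDist p A := by
  rw [Metric.le_infDist hA]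
  intro a ha
  calc Metric.infDist (G p) A ≤ dist (G p) (G a) := Metric.infDist_le_dist_of_mem (hG a ha)
    _ = dist p a := G.isometry.dist_eq _ _

theorem f0_mem (hA : A.Nonempty) (hG : ∀ a ∈ A, G a ∈ A) {ξ : XX H} (h : ξ ∈ ZZ A) :
    f0 G ξ ∈ ZZ A := by
  intro j
  rw [pos_f0]
  exact le_trans (infDist_G_le G hA hG _) (h (j + 1))

/-- the map of the example -/
noncomputable def ff (hC : Steer A C) (ξ : XX H) : XX H := f0 G (rr hC ξ)

theorem ff_continuous (hC : Steer A C) : Continuous (ff G hC) :=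
  (f0_continuous G).comp (rr_continuous hC)

theorem f0_iter_mem (hA : A.Nonempty) (hG : ∀ a ∈ A, G a ∈ A) (n : ℕ) {ξ : XX H} (h : ξ ∈ ZZ A) :
    (f0 G)^[n] ξ ∈ ZZ A := by
  induction n with
  | zero => exact h
  | succ n ih => rw [Function.iterate_succ_apply']; exact f0_mem G hA hG ih

theorem ff_iter_of_mem (hA : A.Nonempty) (hG : ∀ a ∈ A, G a ∈ A) (hC : Steer A C) (n : ℕ)
    {ξ : XX H} (h : ξ ∈ ZZ A) : (ff G hC)^[n] ξ = (f0 G)^[n] ξ := by
  induction n with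
  | zero => rfl
  | succ n ih =>
    rw [Function.iterate_succ_apply', Function.iterate_succ_apply', ih]
    unfold ff
    rw [rr_of_mem hC (f0_iter_mem G hA hG n h)]

theorem ff_iter (hA : A.Nonempty) (hG : ∀ a ∈ A, G a ∈ A) (hC : Steer A C) (n : ℕ) (ξ : XX H) :
    (ff G hC)^[n + 1] ξ = (f0 G)^[n + 1] (rr hC ξ) := by
  rw [Function.iterate_succ_apply, Function.iterate_succ_apply]
  exact ff_iter_of_mem G hA hG hC n (f0_mem G hA hG (rr_mem hC ξ))

theorem f0_iter_x (n : ℕ) (ξ : XX H) (j : ℕ) : ‖((f0 G)^[n] ξ).2.1 j‖ = ‖ξ.2.1 (j + n)‖ := by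
  induction n generalizing ξ with
  | zero => rfl
  | succ n ih =>
    rw [Function.iterate_succ_apply, ih]
    show ‖G (ξ.2.1 (j + n + 1))‖ = _
    rw [G.norm_map]
    rfl

theorem f0_iter_y (n : ℕ) (ξ : XX H) (j : ℕ) : ((f0 G)^[n] ξ).2.2 j = ξ.2.2 (j + n) := by
  induction n generalizing ξ with
  | zero => rfl
  | succ n ih =>
    rw [Function.iterate_succ_apply, ih]
    rfl

/-- the attractor -/
def AA (A : Set H) : Set (XX H) := (fun a => ((a, (0, 0)) : XX H)) '' A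

theorem AA_compact (hA : IsCompact A) : IsCompact (AA A) :=
  hA.image (continuous_id.prodMk continuous_const)

theorem attract (hA : IsCompact A) (hAn : A.Nonempty) (hG : ∀ a ∈ A, G a ∈ A) (hC : Steer A C)
    (K : Set (XX H)) (hK : IsCompact K) (U : Set (XX H)) (hU : U ∈ nhdsSet (AA A)) :
    ∃ N : ℕ, ∀ n : ℕ, N ≤ n → (ff G hC)^[n] '' K ⊆ U := by
  obtain ⟨V, hVo, hAV, hVU⟩ := mem_nhdsSet_iff_exists.1 hU
  obtain ⟨ε, hε, hεV⟩ := (AA_compact hA).exists_thickening_subset_open hVo hAV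
  have hK' : IsCompact (rr hC '' K) := hK.image (rr_continuous hC)
  obtain ⟨J1, hJ1⟩ := tail_uniform _ (hK'.image (continuous_fst.comp continuous_snd)) (ε / 2)
    (by positivity)
  obtain ⟨J2, hJ2⟩ := tail_uniform _ (hK'.image (continuous_snd.comp continuous_snd)) (ε / 2)
    (by positivity)
  refine ⟨max J1 J2 + 1, fun n hn => ?_⟩
  rintro _ ⟨ξ, hξ, rfl⟩
  refine hVU (hεV ?_)
  obtain ⟨m, rfl⟩ : ∃ m, n = m + 1 := ⟨n - 1, by omega⟩
  rw [ff_iter G hAn hG hC]
  set ζ := rr hC ξ with hζ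
  have hζZ : ζ ∈ ZZ A := rr_mem hC ξ
  have hxs : ∀ j, max J1 J2 ≤ j → ‖ζ.2.1 j‖ < ε / 2 := fun j hj =>
    hJ1 _ ⟨ζ, ⟨ξ, hξ, rfl⟩, rfl⟩ j (le_trans (le_max_left _ _) hj)
  have hys : ∀ j, max J1 J2 ≤ j → ‖ζ.2.2 j‖ < ε / 2 := fun j hj =>
    hJ2 _ ⟨ζ, ⟨ξ, hξ, rfl⟩, rfl⟩ j (le_trans (le_max_right _ _) hj)
  set w := (f0 G)^[m + 1] ζ with hw
  have hwZ : w ∈ ZZ A := f0_iter_mem G hAn hG (m + 1) hζZ
  have hw0 : Metric.infDist w.1 A ≤ w.2.2 0 := by
    have := hwZ 0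
    rw [pos_nat] at this
    simpa using this
  have hw1 : ‖w.2.1‖ ≤ ε / 2 := norm_le_of _ (by positivity) fun j => by
    rw [hw, f0_iter_x]
    exact (hxs _ (by omega)).le
  have hw2 : ‖w.2.2‖ ≤ ε / 2 := norm_le_of _ (by positivity) fun j => by
    rw [hw, f0_iter_y]
    exact (hys _ (by omega)).le
  obtain ⟨a, ha, hda⟩ := hA.exists_infDist_eq_dist hAn w.1
  rw [Metric.mem_thickening_iff]
  refine ⟨(a, (0, 0)), ⟨a, ha, rfl⟩, ?_⟩
  rw [Prod.dist_eq, Prod.dist_eq]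
  refine max_lt ?_ (max_lt ?_ ?_)
  · rw [← hda]
    have h0 := norm_coord_le w.2.2 0
    rw [Real.norm_eq_abs] at h0
    have : w.2.2 0 ≤ ‖w.2.2‖ := le_trans (le_abs_self _) h0
    linarith
  · show dist w.2.1 0 < ε
    rw [dist_zero_right]; linarith
  · show dist w.2.2 0 < ε
    rw [dist_zero_right]; linarith

theorem ff_on_AA (hC : Steer A C) {a : H} (ha : a ∈ A) :
    ff G hC (a, (0, 0)) = (G a, (0, 0)) := by
  have hmem : ((a, (0, 0)) : XX H) ∈ ZZ A := by
    intro j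
    rw [pos_nat]
    simp [Metric.infDist_zero_of_mem ha]
  unfold ff
  rw [rr_of_mem hC hmem]
  refine Prod.ext ?_ (Prod.ext ?_ ?_)
  · show G (a + (0 : C₀(ℕ, H)) 0) = G a
    simp
  · ext j
    show G ((0 : C₀(ℕ, H)) (j + 1)) = (0 : C₀(ℕ, H)) j
    simp
  · ext j
    rfl

/-- Part I: from steering data to a fixed point free example -/
theorem example_of_steer [CompleteSpace H] (hA : IsCompact A) (hAn : A.Nonempty)
    (hG : ∀ a ∈ A, G a ∈ A) (hfix : ∀ a ∈ A, G a ≠ a) (hC : Steer A C) :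
    ¬ (∀ (X : Type) [NormedAddCommGroup X] [NormedSpace ℝ X] [CompleteSpace X]
      (f : X → X), Continuous f →
      ∀ A : Set X, IsCompact A →
        (∀ K : Set X, IsCompact K → ∀ U ∈ nhdsSet A,
          ∃ N : ℕ, ∀ n : ℕ, N ≤ n → f^[n] '' K ⊆ U) →
        ∃ x ∈ A, f x = x) := by
  intro h
  obtain ⟨x, ⟨a, ha, rfl⟩, hx⟩ := h (XX H) (ff G hC) (ff_continuous G hC) (AA A) (AA_compact hA)
    (fun K hK U hU => attract G hA hAn hG hC K hK U hU)
  rw [ff_on_AA G hC ha] at hx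
  exact hfix a ha (congrArg Prod.fst hx)

end Pool.Agent.Helper917.Nuss
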