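import Pool.Agent.Helper917.NussEst
import Pool.Agent.Helper917.NussRetr

set_option autoImplicit false
open Filter Topology Set ZeroAtInfty

namespace Pool.Agent.Helper917.Nuss

variable {E : Type} [NormedAddCommGroup E] [NormedSpace ℝ E] {k : ℝ → E → E} {u : E}

/-- path in natural time -/
noncomputable def PP (k : ℝ → E → E) (u : E) (p : C₀(ℕ, E)) (x : ℝ) : C₀(ℕ, E) :=
  WW k u p (ss k p) x

theorem PP_continuousAt (hk : KD k u) {q : C₀(ℕ, E) × ℝ} (hq : q.1 ∉ IA k) :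
    ContinuousAt (fun q : C₀(ℕ, E) × ℝ => PP k u q.1 q.2) q := by
  have h0 : sp k q.1 ≠ 0 := fun h => hq (mem_of_sp_zero hk h)
  have h1 : ContinuousAt (fun q : C₀(ℕ, E) × ℝ => sp k q.1) q :=
    ((sp_continuous hk).comp continuous_fst).continuousAt
  have h2 : ContinuousAt (fun q : C₀(ℕ, E) × ℝ => ss k q.1) q := by
    unfold ss
    exact continuousAt_const.max ((continuousAt_const.div h1 h0).sub continuousAt_const)
  exact (WW_continuous hk).continuousAt.comp
    (f := fun q : C₀(ℕ, E) × ℝ => (q.1, (ss k q.1, q.2)))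
    (continuousAt_fst.prodMk (h2.prodMk continuousAt_snd))

theorem clamp_lip (x y : ℝ) : |max 0 (min 3 x) - max 0 (min 3 y)| ≤ |x - y| := by
  refine le_trans (abs_max_sub_max_le_max _ _ _ _) ?_
  rw [sub_self, abs_zero]
  refine max_le (abs_nonneg _) ?_
  refine le_trans (abs_min_sub_min_le_max _ _ _ _) ?_
  rw [sub_self, abs_zero]
  exact max_le (abs_nonneg _) le_rfl

theorem local_speed [ProperSpace E] (hk : KD k u) (p₀ : C₀(ℕ, E)) (hp₀ : p₀ ∉ IA k) :
    ∃ T : ℝ, 1 ≤ T ∧ ∀ᶠ p in 𝓝 p₀, ∀ x x' : ℝ, |x - x'| ≤ 1 / T →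
      ‖PP k u p x - PP k u p x'‖ ≤ Metric.infDist p (IA k) := by
  have hcl : IsClosed (IA k) := (IA_compact hk).isClosed
  have hne : (IA k).Nonempty := ⟨a0 u, a0_mem hk⟩
  set D : Set (C₀(ℕ, E) × (ℝ × ℝ)) := (IA k)ᶜ ×ˢ univ with hD
  have hDo : IsOpen D := hcl.isOpen_compl.prod isOpen_univ
  set F : C₀(ℕ, E) × (ℝ × ℝ) → ℝ := fun q =>
    ‖PP k u q.1 q.2.1 - PP k u q.1 q.2.2‖ - Metric.infDist q.1 (IA k) with hF
  have hFc : ContinuousOn F D := by
    intro q hq
    refine ContinuousAt.continuousWithinAt ?_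
    have h1 : ContinuousAt (fun q : C₀(ℕ, E) × (ℝ × ℝ) => PP k u q.1 q.2.1) q :=
      ContinuousAt.comp (f := fun q : C₀(ℕ, E) × (ℝ × ℝ) => (q.1, q.2.1))
        (PP_continuousAt hk (q := (q.1, q.2.1)) hq.1) (by fun_prop)
    have h2 : ContinuousAt (fun q : C₀(ℕ, E) × (ℝ × ℝ) => PP k u q.1 q.2.2) q :=
      ContinuousAt.comp (f := fun q : C₀(ℕ, E) × (ℝ × ℝ) => (q.1, q.2.2))
        (PP_continuousAt hk (q := (q.1, q.2.2)) hq.1) (by fun_prop)
    exact (h1.sub h2).norm.sub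
      ((Metric.continuous_infDist_pt (IA k)).comp continuous_fst).continuousAt
  have hO : IsOpen (D ∩ F ⁻¹' Iio 0) := hFc.isOpen_inter_preimage hDo isOpen_Iio
  have hΔ : IsCompact ((fun x : ℝ => (x, x)) '' Icc 0 3) :=
    isCompact_Icc.image (continuous_id.prodMk continuous_id)
  have hd0 : 0 < Metric.infDist p₀ (IA k) := (hcl.notMem_iff_infDist_pos hne).1 hp₀
  obtain ⟨U, V, hU, hV, hpU, hΔV, hUV⟩ := generalized_tube_lemma (isCompact_singleton (x := p₀)) hΔ hO
    (by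
      rintro ⟨p, y⟩ ⟨hp, ⟨x, hx, rfl⟩⟩
      have hp' : p = p₀ := hp
      subst hp'
      refine ⟨⟨hp₀, mem_univ _⟩, ?_⟩
      show ‖PP k u p x - PP k u p x‖ - Metric.infDist p (IA k) < 0
      rw [sub_self, norm_zero]
      linarith)
  obtain ⟨δ, hδ, hδV⟩ := hΔ.exists_thickening_subset_open hV hΔV
  refine ⟨max 1 (2 / δ), le_max_left _ _, ?_⟩
  filter_upwards [hU.mem_nhds (hpU rfl)] with p hp x x' hxx
  have h1 : |x - x'| < δ := by
    refine lt_of_le_of_lt hxx ?_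
    have h2 : 1 / max 1 (2 / δ) ≤ 1 / (2 / δ) :=
      one_div_le_one_div_of_le (by positivity) (le_max_right _ _)
    rw [one_div_div] at h2
    linarith
  have h3 : ((max 0 (min 3 x), max 0 (min 3 x')) : ℝ × ℝ) ∈ V := by
    refine hδV ?_
    rw [Metric.mem_thickening_iff]
    refine ⟨(max 0 (min 3 x), max 0 (min 3 x)), ⟨max 0 (min 3 x),
      ⟨le_max_left _ _, max_le (by norm_num) (min_le_left _ _)⟩, rfl⟩, ?_⟩
    rw [Prod.dist_eq, dist_self, max_eq_right dist_nonneg, Real.dist_eq]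
    refine lt_of_le_of_lt (clamp_lip x' x) ?_
    rw [abs_sub_comm]
    exact h1
  have h4 := (hUV (show (p, (max 0 (min 3 x), max 0 (min 3 x'))) ∈ U ×ˢ V from ⟨hp, h3⟩)).2
  have h5 : ‖PP k u p (max 0 (min 3 x)) - PP k u p (max 0 (min 3 x'))‖ -
      Metric.infDist p (IA k) < 0 := h4
  unfold PP at h5 ⊢
  rw [WW_clamp, WW_clamp] at h5
  linarith

theorem exists_speed [ProperSpace E] (hk : KD k u) :
    ∃ T : C({p : C₀(ℕ, E) // p ∉ IA k}, ℝ), ∀ p : {p : C₀(ℕ, E) // p ∉ IA k}, 1 ≤ T p ∧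
      ∀ x x' : ℝ, |x - x'| ≤ 1 / T p →
        ‖PP k u p.1 x - PP k u p.1 x'‖ ≤ Metric.infDist p.1 (IA k) := by
  refine exists_continuous_forall_mem_convex_of_local_const
    (t := fun p : {p : C₀(ℕ, E) // p ∉ IA k} => {T : ℝ | 1 ≤ T ∧ ∀ x x' : ℝ, |x - x'| ≤ 1 / T →
        ‖PP k u p.1 x - PP k u p.1 x'‖ ≤ Metric.infDist p.1 (IA k)}) ?_ ?_
  · intro p
    refine Set.OrdConnected.convex ⟨?_⟩
    rintro T₁ ⟨h1, h2⟩ T₂ _ T ⟨hT, _⟩
    exact ⟨le_trans h1 hT, fun x x' hxx => h2 x x' (le_trans hxx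
      (one_div_le_one_div_of_le (by linarith) hT))⟩
  · rintro ⟨p₀, hp₀⟩
    obtain ⟨T, hT1, hT⟩ := local_speed hk p₀ hp₀
    refine ⟨T, ?_⟩
    have : ∀ᶠ q : {p : C₀(ℕ, E) // p ∉ IA k} in 𝓝 ⟨p₀, hp₀⟩, ∀ x x' : ℝ, |x - x'| ≤ 1 / T →
      ‖PP k u q.1 x - PP k u q.1 x'‖ ≤ Metric.infDist q.1 (IA k) :=
      (continuous_subtype_val.continuousAt (x := (⟨p₀, hp₀⟩ : {p : C₀(ℕ, E) // p ∉ IA k}))).eventually hT
    filter_upwards [this] with q hq
    exact ⟨hT1, hq⟩

/-- the inverse limit admits steering data -/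
theorem exists_steer [ProperSpace E] (hk : KD k u) : ∃ C : C₀(ℕ, E) → ℝ → C₀(ℕ, E),
    Steer (IA k) C := by
  classical
  have hcl : IsClosed (IA k) := (IA_compact hk).isClosed
  have hne : (IA k).Nonempty := ⟨a0 u, a0_mem hk⟩
  obtain ⟨T, hT⟩ := exists_speed (k := k) (u := u) hk
  set Tf : C₀(ℕ, E) → ℝ := fun p => if h : p ∉ IA k then T ⟨p, h⟩ else 1 with hTf
  have hTf_of : ∀ {p : C₀(ℕ, E)} (h : p ∉ IA k), Tf p = T ⟨p, h⟩ := by
    intro p h
    simp only [hTf, h, not_false_iff, dif_pos]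
  have hTf1 : ∀ p : C₀(ℕ, E), 1 ≤ Tf p := by
    intro p
    by_cases h : p ∉ IA k
    · rw [hTf_of h]; exact (hT _).1
    · simp only [hTf, dif_neg h]; exact le_rfl
  have hTfc : ∀ {p : C₀(ℕ, E)}, p ∉ IA k → ContinuousAt Tf p := by
    intro p hp
    have h1 : ContinuousOn Tf (IA k)ᶜ := by
      rw [continuousOn_iff_continuous_domRestrict]
      have : (IA k)ᶜ.domRestrict Tf = T := by
        funext q
        exact hTf_of q.2
      rw [this]
      exact T.continuous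
    exact h1.continuousAt (hcl.isOpen_compl.mem_nhds hp)
  set C : C₀(ℕ, E) → ℝ → C₀(ℕ, E) := fun p v => if p ∈ IA k then p else PP k u p (v / Tf p) with hC
  have hCin : ∀ {p : C₀(ℕ, E)}, p ∈ IA k → ∀ v, C p v = p := fun hp v => if_pos hp
  have hCout : ∀ {p : C₀(ℕ, E)}, p ∉ IA k → ∀ v, C p v = PP k u p (v / Tf p) :=
    fun hp v => if_neg hp
  have hC0 : ∀ p, C p 0 = p := by
    intro p
    by_cases hp : p ∈ IA k
    · exact hCin hp 0
    · rw [hCout hp, zero_div]; exact WW_zero k u p _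
  have hstep : ∀ p : C₀(ℕ, E), ∀ v v' : ℝ, |v - v'| ≤ 1 → ‖C p v - C p v'‖ ≤ Metric.infDist p (IA k) := by
    intro p v v' hv
    by_cases hp : p ∈ IA k
    · rw [hCin hp, hCin hp, sub_self, norm_zero]
      exact Metric.infDist_nonneg
    · rw [hCout hp, hCout hp]
      refine (hT ⟨p, hp⟩).2 _ _ ?_
      have hpos : 0 < Tf p := by linarith [hTf1 p]
      rw [← hTf_of hp, ← sub_div, abs_div, abs_of_pos hpos]
      exact div_le_div_of_nonneg_right hv hpos.le
  have hfar : ∀ p : C₀(ℕ, E), ∀ n : ℕ, ∀ v : ℝ, |v| ≤ n → ‖C p v - p‖ ≤ n * Metric.infDist p (IA k) := by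
    intro p n
    induction n with
    | zero =>
      intro v hv
      have : v = 0 := by
        have : |v| ≤ 0 := by simpa using hv
        exact abs_nonpos_iff.1 this
      rw [this, hC0, sub_self, norm_zero]
      simp
    | succ n ih =>
      intro v hv
      push_cast at hv ⊢
      have hn : (0 : ℝ) < (n : ℝ) + 1 := by positivity
      have h1 : |v * (n / (n + 1))| ≤ n := by
        rw [abs_mul, abs_of_nonneg (by positivity : (0 : ℝ) ≤ (n : ℝ) / (n + 1))]
        calc |v| * ((n : ℝ) / (n + 1)) ≤ (n + 1) * ((n : ℝ) / (n + 1)) :=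
              mul_le_mul_of_nonneg_right hv (by positivity)
          _ = n := by field_simp
      have h2 : |v - v * (n / (n + 1))| ≤ 1 := by
        have : v - v * (n / (n + 1)) = v / (n + 1) := by field_simp; ring
        rw [this, abs_div, abs_of_pos hn, div_le_one hn]
        exact hv
      have h3 := ih _ h1
      have h4 := hstep p _ _ h2
      calc ‖C p v - p‖ = ‖(C p v - C p (v * (n / (n + 1)))) + (C p (v * (n / (n + 1))) - p)‖ := by
            congr 1; abel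
        _ ≤ _ := norm_add_le _ _
        _ ≤ (n + 1) * Metric.infDist p (IA k) := by linarith
  have hnear : ∀ ε : ℝ, 0 < ε → ∃ η : ℝ, 0 < η ∧ ∀ p, Metric.infDist p (IA k) < η → ∀ v, 0 ≤ v →
      Metric.infDist (C p v) (IA k) ≤ ε ∧ ∀ v', v ≤ v' → v' ≤ v + 1 → ‖C p v' - C p v‖ ≤ ε := by
    intro ε hε
    obtain ⟨η, hη, h⟩ := path_near hk ε hε
    refine ⟨min η ε, by positivity, fun p hp v _ => ⟨?_, fun v' h1 h2 => ?_⟩⟩
    · by_cases hpA : p ∈ IA k
      · rw [hCin hpA, Metric.infDist_zero_of_mem hpA]; exact hε.le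
      · rw [hCout hpA]
        exact h p hpA (lt_of_lt_of_le hp (min_le_left _ _)) _
    · refine le_trans (hstep p v' v ?_) (le_trans hp.le (min_le_right _ _))
      rw [abs_of_nonneg (by linarith)]
      linarith
  refine ⟨C, hC0, ?_, ?_, hnear⟩
  · -- continuity
    rw [continuous_iff_continuousAt]
    rintro ⟨p₀, v₀⟩
    by_cases hp₀ : p₀ ∈ IA k
    · rw [Metric.continuousAt_iff]
      intro ε hε
      obtain ⟨n, hn⟩ := exists_nat_ge (|v₀| + 1)
      refine ⟨min 1 (ε / (n + 2)), by positivity, ?_⟩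
      rintro ⟨p, v⟩ hpv
      rw [Prod.dist_eq, max_lt_iff] at hpv
      obtain ⟨h1, h2⟩ := hpv
      have h1' : dist p p₀ < ε / (n + 2) := lt_of_lt_of_le h1 (min_le_right _ _)
      have h2' : |v - v₀| < 1 := lt_of_lt_of_le (by rw [← Real.dist_eq]; exact h2) (min_le_left _ _)
      have hv : |v| ≤ n := by
        have : |v| ≤ |v - v₀| + |v₀| := by
          have := abs_add_le (v - v₀) v₀
          rwa [sub_add_cancel] at this
        linarith
      have h3 := hfar p n v hv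
      have h4 : Metric.infDist p (IA k) ≤ dist p p₀ := Metric.infDist_le_dist_of_mem hp₀
      show dist (C p v) (C p₀ v₀) < ε
      rw [hCin hp₀]
      have hn0 : (0 : ℝ) ≤ n := Nat.cast_nonneg n
      calc dist (C p v) p₀ ≤ dist (C p v) p + dist p p₀ := dist_triangle _ _ _
        _ ≤ n * dist p p₀ + dist p p₀ := by
            rw [dist_eq_norm (C p v) p]
            have := mul_le_mul_of_nonneg_left h4 hn0
            linarith
        _ = (n + 1) * dist p p₀ := by ring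
        _ ≤ (n + 1) * (ε / (n + 2)) := mul_le_mul_of_nonneg_left h1'.le (by positivity)
        _ < ε := by
            rw [mul_div_assoc', div_lt_iff₀ (by positivity)]
            nlinarith
    · have h1 : ContinuousAt (fun q : C₀(ℕ, E) × ℝ => PP k u q.1 (q.2 / Tf q.1)) (p₀, v₀) := by
        have h2 : ContinuousAt (fun q : C₀(ℕ, E) × ℝ => Tf q.1) (p₀, v₀) :=
          ContinuousAt.comp (f := fun q : C₀(ℕ, E) × ℝ => q.1) (hTfc hp₀) continuousAt_fst
        have h3 : ContinuousAt (fun q : C₀(ℕ, E) × ℝ => q.2 / Tf q.1) (p₀, v₀) :=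
          continuousAt_snd.div h2 (by
            have := hTf1 p₀
            show Tf p₀ ≠ 0
            linarith)
        exact ContinuousAt.comp (f := fun q : C₀(ℕ, E) × ℝ => (q.1, q.2 / Tf q.1))
          (PP_continuousAt hk (q := (p₀, v₀ / Tf p₀)) hp₀) (continuousAt_fst.prodMk h3)
      refine h1.congr ?_
      have h5 : (IA k)ᶜ ∈ 𝓝 p₀ := hcl.isOpen_compl.mem_nhds hp₀
      have h4 : ∀ᶠ q : C₀(ℕ, E) × ℝ in 𝓝 (p₀, v₀), q.1 ∉ IA k :=
        (continuousAt_fst : ContinuousAt (fun q : C₀(ℕ, E) × ℝ => q.1) (p₀, v₀)).preimage_mem_nhds h5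
      filter_upwards [h4] with q hq
      exact (hCout hq _).symm
  · -- tails
    intro p₀ ε hε
    by_cases hp₀ : p₀ ∈ IA k
    · obtain ⟨η, hη, h⟩ := hnear ε hε
      refine ⟨0, ?_⟩
      have h1 : ∀ᶠ p in 𝓝 p₀, Metric.infDist p (IA k) < η := by
        have h2 : ContinuousAt (fun p : C₀(ℕ, E) => Metric.infDist p (IA k)) p₀ :=
          (Metric.continuous_infDist_pt (IA k)).continuousAt
        refine h2.eventually (gt_mem_nhds ?_)
        show Metric.infDist p₀ (IA k) < η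
        rw [Metric.infDist_zero_of_mem hp₀]
        exact hη
      filter_upwards [h1] with p hp v hv
      obtain ⟨h3, h4⟩ := h p hp v hv
      exact ⟨h3, h4 (v + 1) (by linarith) le_rfl⟩
    · have h1 : ∀ᶠ p in 𝓝 p₀, Tf p < Tf p₀ + 1 :=
        (hTfc hp₀).eventually (gt_mem_nhds (by linarith))
      have h2 : ∀ᶠ p in 𝓝 p₀, p ∉ IA k := hcl.isOpen_compl.mem_nhds hp₀
      refine ⟨3 * (Tf p₀ + 1), ?_⟩
      filter_upwards [h1, h2] with p hp1 hp2 v hv
      have hpos : 0 < Tf p := by linarith [hTf1 p]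
      have h3 : ∀ v', 3 * (Tf p₀ + 1) ≤ v' → C p v' = a0 u := by
        intro v' hv'
        rw [hCout hp2]
        refine WW_end k u p _ ?_
        rw [le_div_iff₀ hpos]
        linarith
      rw [h3 v hv, h3 (v + 1) (by linarith), sub_self, norm_zero,
        Metric.infDist_zero_of_mem (a0_mem hk)]
      exact ⟨hε.le, hε.le⟩

end Pool.Agent.Helper917.Nuss
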