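import Mathlib

set_option autoImplicit false

open scoped ComplexConjugate

namespace Pool.Agent.Helper917.Hardy

open Complex

lemma sqrt_sq' (c : ℂ) : c.sqrt ^ 2 = c := by
  have := cpow_nat_inv_pow c (n := 2) two_ne_zero
  simpa [Complex.sqrt] using this

lemma sqrt_re_nonneg (c : ℂ) : 0 ≤ c.sqrt.re := by
  rw [Complex.sqrt, cpow_inv_two_re]
  exact Real.sqrt_nonneg _

/-- `|Im √c| ≤ Re √c` if `Re c ≥ 0` -/
lemma sqrt_im_le {c : ℂ} (hc : 0 ≤ c.re) : |c.sqrt.im| ≤ c.sqrt.re := by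
  have h1 := congrArg Complex.re (sqrt_sq' c)
  rw [sq, mul_re] at h1
  have h2 := sqrt_re_nonneg c
  rw [← abs_of_nonneg h2]
  apply sq_le_sq.1
  nlinarith

/-- `ω = √2 e^{iπ/4} = 1 + i` (up to the positive factor `√2`) divided by `√2` -/
noncomputable def om : ℂ := (1 + I) / (√2 : ℝ)

lemma om_sq : om ^ 2 = I := by
  unfold om
  rw [div_pow, add_sq, I_sq]
  have : ((√2 : ℝ) : ℂ) ^ 2 = 2 := by
    rw [← ofReal_pow, Real.sq_sqrt (by norm_num)]
    norm_num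
  rw [this]
  ring

lemma norm_om : ‖om‖ = 1 := by
  have h := congrArg norm om_sq
  rw [norm_pow, norm_I] at h
  exact (pow_eq_one_iff_of_nonneg (norm_nonneg _) two_ne_zero).1 h

/-- `a = √(1 + z)` -/
noncomputable def aa (z : ℂ) : ℂ := (1 + z).sqrt

/-- `ω b` with `b = √(1 - z)` -/
noncomputable def bb (z : ℂ) : ℂ := om * (1 - z).sqrt

/-- the denominator -/
noncomputable def dd (z : ℂ) : ℂ := (1 + I / 4) * aa z + bb z

/-- the numerator -/
noncomputable def nn (z : ℂ) : ℂ := (1 - I / 4) * aa z + bb z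

/-- The symbol: a conformal map of the disc onto a circular triangle touching the circle along an arc. -/
noncomputable def Phi (z : ℂ) : ℂ := nn z / dd z

lemma aa_sq (z : ℂ) : aa z ^ 2 = 1 + z := sqrt_sq' _

lemma bb_sq (z : ℂ) : bb z ^ 2 = I * (1 - z) := by
  rw [bb, mul_pow, om_sq, sqrt_sq']

/-- `P = ω b ā` -/
noncomputable def PP (z : ℂ) : ℂ := bb z * conj (aa z)

lemma PP_sq (z : ℂ) : PP z ^ 2 = I * (1 - z) * (1 + conj z) := by
  rw [PP, mul_pow, bb_sq, ← map_pow, aa_sq]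
  simp

lemma re_nonneg_of_norm_le {z : ℂ} (hz : ‖z‖ ≤ 1) : 0 ≤ (1 + z).re ∧ 0 ≤ (1 - z).re := by
  have := abs_re_le_norm z
  have h2 := abs_le.1 (this.trans hz)
  simp only [add_re, sub_re, one_re]
  constructor <;> linarith [h2.1, h2.2]

lemma PP_re_add_im {z : ℂ} (hz : ‖z‖ ≤ 1) : 0 ≤ (PP z).re + (PP z).im := by
  obtain ⟨h1, h2⟩ := re_nonneg_of_norm_le hz
  have ha := sqrt_im_le h1
  have hb := sqrt_im_le h2
  have ha0 := sqrt_re_nonneg (1 + z)
  have hb0 := sqrt_re_nonneg (1 - z)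
  set a := (1 + z).sqrt
  set b := (1 - z).sqrt
  have hab : 0 ≤ a.re * b.re + a.im * b.im := by
    have h3 : |a.im * b.im| ≤ a.re * b.re := by
      rw [abs_mul]
      gcongr
    linarith [(abs_le.1 h3).1]
  have h4 : (PP z).re + (PP z).im = 2 / √2 * (a.re * b.re + a.im * b.im) := by
    have h5 : PP z = ((1 / √2 : ℝ) : ℂ) * ((1 + I) * (b * conj a)) := by
      show om * b * conj a = _
      unfold om
      push_cast
      ring
    rw [h5, re_ofReal_mul, im_ofReal_mul]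
    simp only [mul_re, mul_im, add_re, add_im, one_re, one_im, I_re, I_im, conj_re, conj_im]
    ring
  rw [h4]
  positivity

lemma PP_re_im {z : ℂ} : (PP z).re ^ 2 - (PP z).im ^ 2 = 2 * z.im ∧
    2 * ((PP z).re * (PP z).im) = 1 - ‖z‖ ^ 2 := by
  have h1 := PP_sq z
  have h2 := congrArg re h1
  have h3 := congrArg im h1
  have h4 : ‖z‖ ^ 2 = z.re * z.re + z.im * z.im := by
    rw [← normSq_eq_norm_sq, normSq_apply]
  rw [h4]
  simp only [sq, mul_re, mul_im, I_re, I_im, sub_re, sub_im, add_re, add_im, one_re, one_im,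
    conj_re, conj_im] at h2 h3
  constructor
  · nlinarith
  · nlinarith

lemma PP_nonneg {z : ℂ} (hz : ‖z‖ ≤ 1) : 0 ≤ (PP z).re ∧ 0 ≤ (PP z).im := by
  have h1 := PP_re_add_im hz
  obtain ⟨-, h2⟩ := PP_re_im (z := z)
  have h3 : 0 ≤ (PP z).re * (PP z).im := by
    have : ‖z‖ ^ 2 ≤ 1 := by nlinarith [norm_nonneg z]
    nlinarith
  constructor
  · by_contra hneg
    push Not at hneg
    have : 0 < (PP z).im := by linarith
    nlinarith
  · by_contra hneg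
    push Not at hneg
    have : 0 < (PP z).re := by linarith
    nlinarith

lemma norm_sq_aa (z : ℂ) : ‖aa z‖ ^ 2 = ‖1 + z‖ := by
  rw [← norm_pow, aa_sq]

lemma norm_sq_bb (z : ℂ) : ‖bb z‖ ^ 2 = ‖1 - z‖ := by
  rw [← norm_pow, bb_sq, norm_mul, norm_I, one_mul]

/-- `|D|²` -/
lemma norm_sq_dd (z : ℂ) : ‖dd z‖ ^ 2 =
    ‖aa z‖ ^ 2 + ‖bb z‖ ^ 2 + 2 * (PP z).re + ‖aa z‖ ^ 2 / 16 + (PP z).im / 2 := by
  simp only [← normSq_eq_norm_sq, normSq_apply, dd, PP, mul_re, mul_im, add_re, add_im, one_re,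
    one_im, conj_re, conj_im, div_ofNat_re, div_ofNat_im, I_re, I_im]
  ring

/-- `|N|²` -/
lemma norm_sq_nn (z : ℂ) : ‖nn z‖ ^ 2 =
    ‖aa z‖ ^ 2 + ‖bb z‖ ^ 2 + 2 * (PP z).re + ‖aa z‖ ^ 2 / 16 - (PP z).im / 2 := by
  simp only [← normSq_eq_norm_sq, normSq_apply, nn, PP, mul_re, mul_im, add_re, add_im, one_re,
    one_im, conj_re, conj_im, div_ofNat_re, div_ofNat_im, I_re, I_im, sub_re, sub_im]
  ring

lemma two_le_norm_sq_dd {z : ℂ} (hz : ‖z‖ ≤ 1) : 2 + ‖aa z‖ ^ 2 / 16 ≤ ‖dd z‖ ^ 2 := by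
  rw [norm_sq_dd, norm_sq_aa, norm_sq_bb]
  obtain ⟨h1, h2⟩ := PP_nonneg hz
  have h3 : (2 : ℝ) ≤ ‖1 + z‖ + ‖1 - z‖ := by
    calc (2 : ℝ) = ‖(1 + z) + (1 - z)‖ := by
          rw [show (1 + z) + (1 - z) = (2 : ℂ) by ring]
          norm_num
      _ ≤ _ := norm_add_le _ _
  linarith

lemma dd_ne_zero {z : ℂ} (hz : ‖z‖ ≤ 1) : dd z ≠ 0 := by
  intro h
  have := two_le_norm_sq_dd hz
  rw [h, norm_zero] at this
  nlinarith [sq_nonneg ‖aa z‖]

lemma norm_Phi_sq {z : ℂ} (hz : ‖z‖ ≤ 1) : ‖Phi z‖ ^ 2 = 1 - (PP z).im / ‖dd z‖ ^ 2 := by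
  have h1 : ‖dd z‖ ^ 2 ≠ 0 := by
    have := dd_ne_zero hz
    positivity
  rw [Phi, norm_div, div_pow, eq_sub_iff_add_eq, ← add_div, div_eq_one_iff_eq h1, norm_sq_nn,
    norm_sq_dd]
  ring

lemma norm_Phi_le {z : ℂ} (hz : ‖z‖ ≤ 1) : ‖Phi z‖ ≤ 1 := by
  have h1 := norm_Phi_sq hz
  have h2 := (PP_nonneg hz).2
  have h3 : 0 ≤ (PP z).im / ‖dd z‖ ^ 2 := by positivity
  nlinarith [norm_nonneg (Phi z)]

lemma norm_Phi_eq_one_iff {z : ℂ} (hz : ‖z‖ = 1) : ‖Phi z‖ = 1 ↔ 0 ≤ z.im := by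
  have h1 := norm_Phi_sq hz.le
  obtain ⟨h2, h3⟩ := PP_nonneg hz.le
  obtain ⟨h4, h5⟩ := PP_re_im (z := z)
  rw [hz] at h5
  have h6 : 0 < ‖dd z‖ ^ 2 := by
    have := dd_ne_zero hz.le
    positivity
  constructor
  · intro h
    rw [h] at h1
    have h7 : (PP z).im / ‖dd z‖ ^ 2 = 0 := by linarith
    have h8 : (PP z).im = 0 := by
      rcases div_eq_zero_iff.1 h7 with h9 | h9
      · exact h9
      · exact absurd h9 h6.ne'
    rw [h8] at h4
    nlinarith [sq_nonneg (PP z).re]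
  · intro h
    have h8 : (PP z).im = 0 := by
      by_contra hne
      have h9 : 0 < (PP z).im := lt_of_le_of_ne h3 (Ne.symm hne)
      have h10 : (PP z).re = 0 := by
        have : (PP z).re * (PP z).im = 0 := by linarith
        exact (mul_eq_zero.1 this).resolve_right hne
      rw [h10] at h4
      nlinarith
    rw [h8, zero_div, sub_zero] at h1
    exact (pow_eq_one_iff_of_nonneg (norm_nonneg _) two_ne_zero).1 h1

lemma norm_one_sub_Phi {z : ℂ} (hz : ‖z‖ ≤ 1) : ‖1 - Phi z‖ ≤ 1 / 2 := by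
  have hd := dd_ne_zero hz
  have h1 : 1 - Phi z = (I / 2 * aa z) / dd z := by
    rw [Phi, eq_div_iff hd, sub_mul, div_mul_cancel₀ _ hd]
    unfold dd nn
    ring
  have h2 : 0 < ‖dd z‖ := norm_pos_iff.2 hd
  rw [h1, norm_div, norm_mul, div_le_iff₀ h2]
  have h3 : ‖(I / 2 : ℂ)‖ = 1 / 2 := by simp
  rw [h3]
  have h4 : ‖aa z‖ ≤ ‖dd z‖ := by
    apply le_of_sq_le_sq _ h2.le
    have h5 := norm_sq_dd z
    obtain ⟨h6, h7⟩ := PP_nonneg hz
    nlinarith [sq_nonneg ‖aa z‖, sq_nonneg ‖bb z‖]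
  linarith

lemma Phi_inj {z₁ z₂ : ℂ} (h1 : ‖z₁‖ ≤ 1) (h2 : ‖z₂‖ ≤ 1) (h : Phi z₁ = Phi z₂) : z₁ = z₂ := by
  have hd1 := dd_ne_zero h1
  have hd2 := dd_ne_zero h2
  rw [Phi, Phi, div_eq_div_iff hd1 hd2] at h
  have h3 : bb z₁ * aa z₂ = bb z₂ * aa z₁ := by
    unfold nn dd at h
    have h4 : I * (bb z₁ * aa z₂ - bb z₂ * aa z₁) = 0 := by
      linear_combination 2 * h
    have h5 := (mul_eq_zero.1 h4).resolve_left I_ne_zero
    exact sub_eq_zero.1 h5
  have h4 : (bb z₁ * aa z₂) ^ 2 = (bb z₂ * aa z₁) ^ 2 := by rw [h3]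
  rw [mul_pow, mul_pow, bb_sq, bb_sq, aa_sq, aa_sq] at h4
  have h5 : I * (2 * (z₂ - z₁)) = 0 := by linear_combination h4
  have h6 := (mul_eq_zero.1 h5).resolve_left I_ne_zero
  have h7 := (mul_eq_zero.1 h6).resolve_left two_ne_zero
  exact (sub_eq_zero.1 h7).symm

lemma continuousOn_Phi : ContinuousOn Phi (Metric.closedBall 0 1) := by
  intro z hz
  have hz' : ‖z‖ ≤ 1 := by simpa using hz
  obtain ⟨h1, h2⟩ := re_nonneg_of_norm_le hz'
  have ha : ContinuousAt aa z := (continuousAt_sqrt (Or.inl h1)).comp (by fun_prop)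
  have hb : ContinuousAt bb z :=
    continuousAt_const.mul ((continuousAt_sqrt (Or.inl h2)).comp (by fun_prop))
  have hn : ContinuousAt nn z := (continuousAt_const.mul ha).add hb
  have hd : ContinuousAt dd z := (continuousAt_const.mul ha).add hb
  exact (hn.div hd (dd_ne_zero hz')).continuousWithinAt

lemma differentiableAt_Phi {z : ℂ} (hz : ‖z‖ < 1) : DifferentiableAt ℂ Phi z := by
  have h0 := abs_re_le_norm z
  have h2 := abs_lt.1 (h0.trans_lt hz)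
  have e1 : (1 + z) ∈ slitPlane := by
    left; simp only [add_re, one_re]; linarith [h2.1]
  have e2 : (1 - z) ∈ slitPlane := by
    left; simp only [sub_re, one_re]; linarith [h2.2]
  have ha : DifferentiableAt ℂ aa z :=
    (differentiableAt_sqrt e1).comp z (by fun_prop)
  have hb : DifferentiableAt ℂ bb z :=
    (differentiableAt_const _).mul ((differentiableAt_sqrt e2).comp z (by fun_prop))
  have hn : DifferentiableAt ℂ nn z := ((differentiableAt_const _).mul ha).add hb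
  have hd : DifferentiableAt ℂ dd z := ((differentiableAt_const _).mul ha).add hb
  exact hn.div hd (dd_ne_zero hz.le)

end Pool.Agent.Helper917.Hardy
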