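import Mathlib
import Pool.Agent.Helper917.VecL2
import Pool.Agent.Helper917.HardyDefs
import Pool.Agent.Helper917.HardySeq
import Pool.Agent.Helper917.ModelSp
import Pool.Agent.Helper917.ModelMain
import Pool.Agent.Helper917.StarOuter
import Pool.Agent.Helper917.UniqH2
import Pool.Agent.Helper917.SymBasic

set_option autoImplicit false

open MeasureTheory AddCircle Filter Topology
open scoped ComplexConjugate ENNReal InnerProductSpace InnerProduct

namespace Pool.Agent.Helper917.Hardy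

variable {φ w : C(Circ, ℂ)}

lemma Sym.norm_adj_le (h : Sym φ w) (x : H2 ℂ) : ‖((Tp h.anal)†) x‖ ≤ ‖x‖ := by
  have e : ‖((Tp h.anal)†) x‖ = ‖riesz (mulC (star φ) (x : L2 ℂ))‖ := by
    rw [← Tp_adj_coe h.anal]
    rfl
  rw [e]
  refine (norm_riesz_le _).trans ((norm_mulC_apply_le _ _).trans ?_)
  have : ‖star φ‖ ≤ 1 := by
    have := h.norm_star_pow 1
    rwa [pow_one] at this
  calc ‖star φ‖ * ‖(x : L2 ℂ)‖ ≤ 1 * ‖(x : L2 ℂ)‖ := by gcongr
    _ = ‖x‖ := by rw [one_mul]; rfl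

lemma Sym.antitone_adj (h : Sym φ w) (x : H2 ℂ) :
    Antitone fun n : ℕ => ‖(((Tp h.anal)†) ^ n) x‖ := by
  apply antitone_nat_of_succ_le
  intro n
  rw [pow_succ', mul_apply_eq_comp]
  exact h.norm_adj_le _

lemma Sym.pure_step (h : Sym φ w) {x y : H2 ℂ} (c : ℂ) (hc : ‖c‖ < 1)
    (hxy : ((Tp h.anal)†) x = c • x + y)
    (hy : Tendsto (fun n : ℕ => (((Tp h.anal)†) ^ n) y) atTop (𝓝 0)) :
    Tendsto (fun n : ℕ => (((Tp h.anal)†) ^ n) x) atTop (𝓝 0) := by
  have hanti := h.antitone_adj x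
  have hbdd : BddBelow (Set.range fun n : ℕ => ‖(((Tp h.anal)†) ^ n) x‖) :=
    ⟨0, by rintro _ ⟨n, rfl⟩; exact norm_nonneg _⟩
  have hL := tendsto_atTop_ciInf hanti hbdd
  set L := ⨅ n : ℕ, ‖(((Tp h.anal)†) ^ n) x‖ with hLdef
  have hL0 : 0 ≤ L := Real.iInf_nonneg fun n => norm_nonneg _
  have h1 : ∀ n : ℕ, ‖(((Tp h.anal)†) ^ (n + 1)) x‖ ≤
      ‖c‖ * ‖(((Tp h.anal)†) ^ n) x‖ + ‖(((Tp h.anal)†) ^ n) y‖ := by
    intro n
    rw [pow_succ, mul_apply_eq_comp, hxy, map_add, map_smul, ← norm_smul]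
    exact norm_add_le _ _
  have h2 : Tendsto (fun n : ℕ => ‖(((Tp h.anal)†) ^ (n + 1)) x‖) atTop (𝓝 L) :=
    (tendsto_add_atTop_iff_nat 1).2 hL
  have h3 : Tendsto (fun n : ℕ => ‖c‖ * ‖(((Tp h.anal)†) ^ n) x‖ + ‖(((Tp h.anal)†) ^ n) y‖) atTop
      (𝓝 (‖c‖ * L + 0)) := by
    refine (hL.const_mul _).add ?_
    simpa using hy.norm
  have h4 := le_of_tendsto_of_tendsto' h2 h3 h1
  have h5 : L = 0 := by nlinarith
  rw [h5] at hL
  exact tendsto_zero_iff_norm_tendsto_zero.2 hL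

/-- polynomials of degree `< k` -/
lemma Sym.pure_poly (h : Sym φ w) (k : ℕ) : ∀ x : H2 ℂ,
    (∀ l : ℤ, (k : ℤ) ≤ l → fourierCoeff (x : L2 ℂ) l = 0) →
    Tendsto (fun n : ℕ => (((Tp h.anal)†) ^ n) x) atTop (𝓝 0) := by
  induction k with
  | zero =>
    intro x hx
    have : x = 0 := by
      apply Subtype.ext
      apply ext_H2 x.2 (H2 ℂ).zero_mem
      intro n
      rw [hx n (by simp), ← coeffL_apply]
      exact (map_zero _).symm
    rw [this]
    simp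
  | succ k ih =>
    intro x hx
    have hT : ∀ l : ℤ, (k : ℤ) ≤ l → fourierCoeff ((((Tp h.anal)†) x : H2 ℂ) : L2 ℂ) l =
        conj (fourierCoeff φ 0) * fourierCoeff (x : L2 ℂ) l := by
      intro l hl
      have e1 : fourierCoeff ((((Tp h.anal)†) x : H2 ℂ) : L2 ℂ) l = ⟪mulC φ (mono l 1 : L2 ℂ), x⟫_ℂ := by
        rw [Tp_adj_coe, inner_mulC_left]
        have := inner_mono l (1 : ℂ) (riesz (mulC (star φ) (x : L2 ℂ)))
        rw [inner_riesz_right (mono_mem_H2 l (by omega) 1)] at this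
        rw [this]
        simp
      rw [e1]
      refine (hasSum_inner_fourierCoeff (mulC φ (mono l 1 : L2 ℂ)) (x : L2 ℂ)).unique ?_
      have e2 : (fun n : ℤ => ⟪fourierCoeff (mulC φ (mono l 1 : L2 ℂ)) n,
          fourierCoeff (x : L2 ℂ) n⟫_ℂ) =
          fun n => if n = l then conj (fourierCoeff φ 0) * fourierCoeff (x : L2 ℂ) l else 0 := by
        ext n
        rw [fourierCoeff_mulC_mono, mul_one]
        rcases lt_trichotomy n l with hn | hn | hn
        · rw [h.anal _ (by omega), inner_zero_left, if_neg hn.ne]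
        · subst hn
          rw [sub_self, if_pos rfl, RCLike.inner_apply, mul_comm]
        · rw [hx n (by push_cast; omega), inner_zero_right, if_neg hn.ne']
      rw [e2]
      exact hasSum_ite_eq l _
    set y : H2 ℂ := ((Tp h.anal)†) x - conj (fourierCoeff φ 0) • x with hy
    have hyc : ∀ l : ℤ, (k : ℤ) ≤ l → fourierCoeff (y : L2 ℂ) l = 0 := by
      intro l hl
      have e : (y : L2 ℂ) = ((((Tp h.anal)†) x : H2 ℂ) : L2 ℂ) - conj (fourierCoeff φ 0) • (x : L2 ℂ) := rfl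
      rw [e, fourierCoeff_sub', fourierCoeff_smul', hT l hl, smul_eq_mul, sub_self]
    refine h.pure_step (conj (fourierCoeff φ 0)) ?_ ?_ (ih y hyc)
    · rw [RCLike.norm_conj]
      exact h.mean
    · rw [hy]
      abel

theorem Sym.pure (h : Sym φ w) : Pure (Tp h.anal) := by
  intro x
  rw [Metric.tendsto_atTop]
  intro ε hε
  -- approximate `x` by a polynomial
  have hs := (fourierBasis (T := (1 : ℝ))).hasSum_repr (x : L2 ℂ)
  obtain ⟨s, hs⟩ := ((hs.eventually (Metric.ball_mem_nhds (x : L2 ℂ) (half_pos hε))).exists)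
  set p : L2 ℂ := ∑ i ∈ s, (fourierBasis (T := (1 : ℝ))).repr (x : L2 ℂ) i •
    (fourierBasis (T := (1 : ℝ))) i with hp
  have hpc : ∀ l : ℤ, fourierCoeff p l = if l ∈ s then fourierCoeff (x : L2 ℂ) l else 0 := by
    intro l
    rw [← fourierBasis_repr, hp, map_sum]
    simp only [map_smul]
    have : ∀ i : ℤ, ((fourierBasis (T := (1 : ℝ))).repr (fourierBasis (T := (1 : ℝ)) i)) l
        = if l = i then 1 else 0 := by
      intro i
      rw [HilbertBasis.repr_self, lp.single_apply]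
      by_cases h1 : l = i
      · subst h1; simp
      · simp [h1]
    have e : ((∑ i ∈ s, (fourierBasis (T := (1 : ℝ))).repr (x : L2 ℂ) i •
        (fourierBasis (T := (1 : ℝ))).repr (fourierBasis (T := (1 : ℝ)) i) :
        lp (fun _ : ℤ => ℂ) 2) : ℤ → ℂ) l = ∑ i ∈ s, fourierCoeff (x : L2 ℂ) i *
        (if l = i then 1 else 0) := by
      rw [lp.coeFn_sum, Finset.sum_apply]
      refine Finset.sum_congr rfl fun i _ => ?_
      rw [lp.coeFn_smul, Pi.smul_apply, this, fourierBasis_repr, smul_eq_mul]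
    rw [e]
    simp
  have hpH : p ∈ H2 ℂ := by
    intro l hl
    rw [hpc, x.2 l hl]
    simp
  obtain ⟨k, hk⟩ : ∃ k : ℕ, ∀ l ∈ s, l < (k : ℤ) := by
    obtain ⟨b, hb⟩ := s.bddAbove
    refine ⟨(b + 1).toNat, fun l hl => ?_⟩
    have := hb hl
    omega
  have hpp := h.pure_poly k ⟨p, hpH⟩ (fun l hl => by
    show fourierCoeff p l = 0
    rw [hpc, if_neg]
    intro hls
    exact absurd (hk l hls) (not_lt.2 hl))
  obtain ⟨N, hN⟩ := Metric.tendsto_atTop.1 hpp (ε / 2) (half_pos hε)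
  refine ⟨N, fun n hn => ?_⟩
  have h1 := hN n hn
  rw [dist_zero_right] at h1 ⊢
  have h2 : ‖(((Tp h.anal)†) ^ n) (x - ⟨p, hpH⟩)‖ ≤ ‖x - ⟨p, hpH⟩‖ := by
    have := h.antitone_adj (x - ⟨p, hpH⟩) (Nat.zero_le n)
    simpa using this
  have h3 : ‖x - ⟨p, hpH⟩‖ < ε / 2 := by
    have e : ‖x - ⟨p, hpH⟩‖ = dist p (x : L2 ℂ) := by
      rw [dist_comm, dist_eq_norm]
      rfl
    rw [e]
    exact hs
  have h4 : (((Tp h.anal)†) ^ n) x = (((Tp h.anal)†) ^ n) (x - ⟨p, hpH⟩) +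
      (((Tp h.anal)†) ^ n) ⟨p, hpH⟩ := by
    rw [← map_add, sub_add_cancel]
  rw [h4]
  calc _ ≤ ‖(((Tp h.anal)†) ^ n) (x - ⟨p, hpH⟩)‖ + ‖(((Tp h.anal)†) ^ n) ⟨p, hpH⟩‖ :=
        norm_add_le _ _
    _ < ε := by linarith

end Pool.Agent.Helper917.Hardy
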