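import Mathlib
import Pool.Agent.Helper917.VecL2
import Pool.Agent.Helper917.HardyDefs
import Pool.Agent.Helper917.HardySeq
import Pool.Agent.Helper917.Collig
import Pool.Agent.Helper917.ColligBd
import Pool.Agent.Helper917.ConcreteColl
import Pool.Agent.Helper917.SymBasic
import Pool.Agent.Helper917.SymPure

set_option autoImplicit false

open MeasureTheory AddCircle Filter Topology
open scoped ComplexConjugate ENNReal InnerProductSpace InnerProduct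

namespace Pool.Agent.Helper917.Hardy

instance factTwoNeTop : Fact ((2 : ℝ≥0∞) ≠ ∞) := ⟨by norm_num⟩

instance scL2 : SecondCountableTopology (L2 ℂ) := inferInstance

instance scH2 : SecondCountableTopology (H2 ℂ) := inferInstance

variable {φ w : C(Circ, ℂ)}

/-- the multiplier `w̄ / (1 - z φ̄)` -/
noncomputable def mz (φ w : C(Circ, ℂ)) (z : ℂ) (s : Circ) : ℂ :=
  conj (w s) / (1 - z * conj (φ s))

lemma mz_aesm (z : ℂ) : AEStronglyMeasurable (mz φ w z) mu := by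
  unfold mz
  have h1 : Measurable fun s : Circ => conj (w s) :=
    (Complex.continuous_conj.comp w.continuous).measurable
  have h2 : Measurable fun s : Circ => 1 - z * conj (φ s) :=
    (continuous_const.sub (continuous_const.mul
      (Complex.continuous_conj.comp φ.continuous))).measurable
  exact (h1.div h2).aestronglyMeasurable

lemma Sym.norm_w_le (h : Sym φ w) (t : Circ) : ‖w t‖ ≤ 1 := by
  have := h.norm_sq t
  nlinarith [norm_nonneg (w t), sq_nonneg ‖φ t‖]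

lemma Sym.norm_mz_le (h : Sym φ w) {z : ℂ} {δ : ℝ} (hδ : 0 < δ)
    (hz : ∀ s, w s ≠ 0 → δ ≤ ‖1 - z * conj (φ s)‖) (s : Circ) : ‖mz φ w z s‖ ≤ 1 / δ := by
  unfold mz
  by_cases hw : w s = 0
  · rw [hw, map_zero, zero_div, norm_zero]
    positivity
  · rw [norm_div, RCLike.norm_conj]
    have h1 := hz s hw
    have h2 := h.norm_w_le s
    gcongr

/-- the operator `g ↦ P₊ (w̄ g / (1 - z φ̄))` -/
noncomputable def Rm (h : Sym φ w) {z : ℂ} {δ : ℝ} (hδ : 0 < δ)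
    (hz : ∀ s, w s ≠ 0 → δ ≤ ‖1 - z * conj (φ s)‖) : L2 ℂ →L[ℂ] H2 ℂ :=
  (H2 ℂ).orthogonalProjectionOnto ∘L
    mulS (mz φ w z) (mz_aesm z) (1 / δ) (ae_of_all _ (h.norm_mz_le hδ hz))

lemma Rm_coe (h : Sym φ w) {z : ℂ} {δ : ℝ} (hδ : 0 < δ)
    (hz : ∀ s, w s ≠ 0 → δ ≤ ‖1 - z * conj (φ s)‖) (g : L2 ℂ) :
    (Rm h hδ hz g : L2 ℂ) = riesz (mulS (mz φ w z) (mz_aesm z) (1 / δ)
      (ae_of_all _ (h.norm_mz_le hδ hz)) g) := rfl

lemma riesz_smul (c : ℂ) (f : L2 ℂ) : riesz (c • f) = c • riesz f :=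
  map_smul (H2 ℂ).starProjection c f

lemma riesz_sub (f g : L2 ℂ) : riesz (f - g) = riesz f - riesz g :=
  map_sub (H2 ℂ).starProjection f g

lemma Rm_eq (h : Sym φ w) {z : ℂ} {δ : ℝ} (hδ : 0 < δ)
    (hz : ∀ s, w s ≠ 0 → δ ≤ ‖1 - z * conj (φ s)‖) (g : L2 ℂ) :
    Rm h hδ hz g = ((Cp w)†) g + z • ((Tp h.anal)†) (Rm h hδ hz g) := by
  apply Subtype.ext
  show (Rm h hδ hz g : L2 ℂ) = ((((Cp w)†) g : H2 ℂ) : L2 ℂ) +
    z • ((((Tp h.anal)†) (Rm h hδ hz g) : H2 ℂ) : L2 ℂ)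
  rw [Tp_adj_coe, Cp_adj_coe, Rm_coe, riesz_star_riesz h.anal, ← riesz_smul, ← riesz_add]
  congr 1
  apply Lp.ext
  set m := mulS (mz φ w z) (mz_aesm z) (1 / δ) (ae_of_all _ (h.norm_mz_le hδ hz)) g with hm
  filter_upwards [coeFn_mulS (mz φ w z) (mz_aesm z) (1 / δ) (ae_of_all _ (h.norm_mz_le hδ hz)) g,
    Lp.coeFn_add (mulC (star w) g) (z • mulC (star φ) m), Lp.coeFn_smul z (mulC (star φ) m),
    coeFn_mulC (star φ) m, coeFn_mulC (star w) g] with s h1 h2 h3 h4 h5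
  rw [h2, Pi.add_apply, h3, Pi.smul_apply, h4, h5, hm, h1]
  simp only [ContinuousMap.star_apply, smul_eq_mul, Complex.star_def, mz]
  by_cases hw : w s = 0
  · simp [hw]
  · have hne : 1 - z * conj (φ s) ≠ 0 := by
      intro h0
      have := hz s hw
      rw [h0, norm_zero] at this
      linarith
    field_simp
    ring

lemma Rz_eq_Rm (h : Sym φ w) {z : ℂ} (hz1 : ‖z‖ < 1) {δ : ℝ} (hδ : 0 < δ)
    (hz : ∀ s, w s ≠ 0 → δ ≤ ‖1 - z * conj (φ s)‖) :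
    Rz (Tp h.anal) (Cp w) z = Rm h hδ hz := by
  obtain ⟨F, _, _, _, _, B, D, hU⟩ := exists_uColl h.iso
  obtain ⟨u, hu⟩ := hU.isUnit hz1
  ext1 g
  have h1 := hU.Rz_eq hz1 g
  have h2 := Rm_eq h hδ hz g
  set a := Rz (Tp h.anal) (Cp w) z g
  set b := Rm h hδ hz g
  have h3 : (u : H2 ℂ →L[ℂ] H2 ℂ) (a - b) = 0 := by
    rw [hu, ContinuousLinearMap.sub_apply, one_apply_eq_self, ContinuousLinearMap.smul_apply,
      map_sub, smul_sub]
    have e1 : a - z • ((Tp h.anal)†) a = ((Cp w)†) g := by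
      rw [sub_eq_iff_eq_add]
      exact h1
    have e2 : b - z • ((Tp h.anal)†) b = ((Cp w)†) g := by
      rw [sub_eq_iff_eq_add]
      exact h2
    calc a - b - (z • ((Tp h.anal)†) a - z • ((Tp h.anal)†) b)
        = (a - z • ((Tp h.anal)†) a) - (b - z • ((Tp h.anal)†) b) := by abel
      _ = 0 := by rw [e1, e2, sub_self]
  have h4 := congrArg (fun x => ((u⁻¹ : (H2 ℂ →L[ℂ] H2 ℂ)ˣ) : H2 ℂ →L[ℂ] H2 ℂ) x) h3
  simp only [map_zero] at h4
  rw [← mul_apply_eq_comp, Units.inv_mul, one_apply_eq_self] at h4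
  exact sub_eq_zero.1 h4

lemma mz_diff (h : Sym φ w) {ζ : ℂ} (hζ : ‖ζ‖ = 1) {δ : ℝ} (hδ : 0 < δ)
    (hz : ∀ s, w s ≠ 0 → δ ≤ ‖1 - ζ * conj (φ s)‖) {r : ℝ} (hr : r ∈ Set.Ioo (0 : ℝ) 1)
    (hrδ : 1 - r ≤ δ / 2) (s : Circ) :
    ‖mz φ w (r * ζ) s - mz φ w ζ s‖ ≤ (1 - r) * (2 / δ ^ 2) := by
  have hr1 : 0 ≤ 1 - r := by linarith [hr.2]
  by_cases hw : w s = 0
  · simp only [mz, hw, map_zero, zero_div, sub_self, norm_zero]
    positivity
  · have ha := hz s hw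
    set a := 1 - ζ * conj (φ s) with hadef
    set ar := 1 - (r * ζ) * conj (φ s) with har
    have hsub : ar - a = ((1 - r : ℝ) : ℂ) * (ζ * conj (φ s)) := by
      rw [hadef, har]; push_cast; ring
    have hn : ‖ζ * conj (φ s)‖ ≤ 1 := by
      rw [norm_mul, hζ, one_mul, RCLike.norm_conj]
      exact h.norm_le s
    have hsubn : ‖ar - a‖ ≤ 1 - r := by
      rw [hsub, norm_mul, Complex.norm_real, Real.norm_of_nonneg hr1]
      nlinarith
    have har2 : δ / 2 ≤ ‖ar‖ := by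
      have : ‖a‖ ≤ ‖ar‖ + ‖ar - a‖ := by
        calc ‖a‖ = ‖ar - (ar - a)‖ := by congr 1; ring
          _ ≤ _ := norm_sub_le _ _
      linarith
    have ha0 : a ≠ 0 := by
      intro h0
      rw [h0, norm_zero] at ha
      linarith
    have har0 : ar ≠ 0 := by
      intro h0
      rw [h0, norm_zero] at har2
      linarith
    have e : mz φ w (r * ζ) s - mz φ w ζ s = -(conj (w s) * (ar - a)) / (ar * a) := by
      simp only [mz, ← hadef, ← har]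
      field_simp
      ring
    rw [e, norm_div, norm_neg, norm_mul, norm_mul, RCLike.norm_conj, div_le_iff₀ (by positivity)]
    have h1 := h.norm_w_le s
    have h2 : δ / 2 * δ ≤ ‖ar‖ * ‖a‖ := by
      have := norm_nonneg ar
      gcongr
    calc ‖w s‖ * ‖ar - a‖ ≤ 1 * (1 - r) := by gcongr
      _ = (1 - r) * (2 / δ ^ 2) * (δ / 2 * δ) := by field_simp
      _ ≤ (1 - r) * (2 / δ ^ 2) * (‖ar‖ * ‖a‖) := by gcongr

lemma Sym.tendsto_Rz (h : Sym φ w) {ζ : ℂ} (hζ : ‖ζ‖ = 1) {δ : ℝ} (hδ : 0 < δ)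
    (hz : ∀ s, w s ≠ 0 → δ ≤ ‖1 - ζ * conj (φ s)‖) :
    Tendsto (fun r : ℝ => Rz (Tp h.anal) (Cp w) (r * ζ)) (𝓝[<] 1) (𝓝 (Rm h hδ hz)) := by
  refine (tendsto_iff_norm_sub_tendsto_zero (E := L2 ℂ →L[ℂ] H2 ℂ)).2 ?_
  have hbd : Tendsto (fun r : ℝ => (1 - r) * (2 / δ ^ 2)) (𝓝[<] 1) (𝓝 0) := by
    have : Tendsto (fun r : ℝ => (1 - r) * (2 / δ ^ 2)) (𝓝 1) (𝓝 ((1 - 1) * (2 / δ ^ 2))) :=
      (tendsto_const_nhds.sub tendsto_id).mul_const _
    rw [sub_self, zero_mul] at this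
    exact this.mono_left nhdsWithin_le_nhds
  have hev : ∀ᶠ r : ℝ in 𝓝[<] 1, 1 - r ≤ δ / 2 := by
    have : Tendsto (fun r : ℝ => (1 - r)) (𝓝 1) (𝓝 (1 - 1)) := tendsto_const_nhds.sub tendsto_id
    rw [sub_self] at this
    exact (this.mono_left nhdsWithin_le_nhds).eventually (ge_mem_nhds (half_pos hδ))
  refine squeeze_zero' (Eventually.of_forall fun r => ContinuousLinearMap.opNorm_nonneg _) ?_ hbd
  filter_upwards [eventually_Ioo, hev] with r hr hrδ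
  have hr1 : 0 ≤ 1 - r := by linarith [hr.2]
  have hrz : ‖(r * ζ : ℂ)‖ < 1 := by
    rw [norm_mul, hζ, mul_one, Complex.norm_real, Real.norm_of_nonneg hr.1.le]
    exact hr.2
  have hz' : ∀ s, w s ≠ 0 → δ / 2 ≤ ‖1 - (r * ζ : ℂ) * conj (φ s)‖ := by
    intro s hw
    have ha := hz s hw
    have hn : ‖ζ * conj (φ s)‖ ≤ 1 := by
      rw [norm_mul, hζ, one_mul, RCLike.norm_conj]
      exact h.norm_le s
    have e : (1 - (r * ζ : ℂ) * conj (φ s)) = (1 - ζ * conj (φ s)) -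
        (-(((1 - r : ℝ) : ℂ) * (ζ * conj (φ s)))) := by push_cast; ring
    have h1 := norm_sub_norm_le (1 - ζ * conj (φ s)) (-(((1 - r : ℝ) : ℂ) * (ζ * conj (φ s))))
    rw [← e, norm_neg, norm_mul, Complex.norm_real, Real.norm_of_nonneg hr1] at h1
    nlinarith
  rw [Rz_eq_Rm h hrz (half_pos hδ) hz']
  apply ContinuousLinearMap.opNorm_le_bound _ (by positivity)
  intro g
  rw [ContinuousLinearMap.sub_apply]
  have e : ‖Rm h (half_pos hδ) hz' g - Rm h hδ hz g‖ =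
      ‖riesz (mulS (mz φ w (r * ζ)) (mz_aesm _) (1 / (δ / 2))
        (ae_of_all _ (h.norm_mz_le (half_pos hδ) hz')) g -
        mulS (mz φ w ζ) (mz_aesm _) (1 / δ) (ae_of_all _ (h.norm_mz_le hδ hz)) g)‖ := by
    rw [riesz_sub, ← Rm_coe, ← Rm_coe]
    rfl
  rw [e]
  refine (norm_riesz_le _).trans ?_
  apply Lp.norm_le_mul_norm_of_ae_le_mul
  filter_upwards [coeFn_mulS (mz φ w (r * ζ)) (mz_aesm _) (1 / (δ / 2))
      (ae_of_all _ (h.norm_mz_le (half_pos hδ) hz')) g,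
    coeFn_mulS (mz φ w ζ) (mz_aesm _) (1 / δ) (ae_of_all _ (h.norm_mz_le hδ hz)) g,
    Lp.coeFn_sub (mulS (mz φ w (r * ζ)) (mz_aesm _) (1 / (δ / 2))
        (ae_of_all _ (h.norm_mz_le (half_pos hδ) hz')) g)
        (mulS (mz φ w ζ) (mz_aesm _) (1 / δ) (ae_of_all _ (h.norm_mz_le hδ hz)) g)]
    with s h1 h2 h3
  rw [h3, Pi.sub_apply, h1, h2, ← sub_smul, norm_smul]
  gcongr
  exact mz_diff h hζ hδ hz hr hrδ s

/-- the boundary values of the resolvent -/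
noncomputable def RbS (h : Sym φ w) (t : Circ) : L2 ℂ →L[ℂ] H2 ℂ :=
  limUnder (𝓝[<] (1 : ℝ)) fun r : ℝ => Rz (Tp h.anal) (Cp w) (r * fourier 1 t)

theorem Sym.hasBd (h : Sym φ w) : HasBd (Tp h.anal) (Cp w) (RbS h) := by
  show ∀ᵐ t ∂mu, _
  filter_upwards [h.gap] with t ht
  obtain ⟨δ, hδ, hz⟩ := ht
  exact tendsto_nhds_limUnder ⟨_, h.tendsto_Rz (norm_fourier_apply 1 t) hδ hz⟩

end Pool.Agent.Helper917.Hardy
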