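import Mathlib
import Pool.Agent.Helper917.VecL2
import Pool.Agent.Helper917.HardyDefs
import Pool.Agent.Helper917.SymBasic
import Pool.Agent.Helper917.PhiFun

set_option autoImplicit false

open MeasureTheory AddCircle Filter Topology
open scoped ComplexConjugate ENNReal InnerProductSpace InnerProduct

namespace Pool.Agent.Helper917.Hardy

lemma norm_fourier_one (t : Circ) : ‖(fourier 1 t : ℂ)‖ = 1 := by
  rw [fourier_apply, Circle.norm_coe]

lemma fourier_one_injective : Function.Injective fun t : Circ => (fourier 1 t : ℂ) := by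
  intro s t h
  simp only [fourier_one] at h
  exact injective_toCircle one_ne_zero (Circle.coe_injective h)

/-- the symbol on the circle -/
noncomputable def phiC : C(Circ, ℂ) where
  toFun t := Phi (fourier 1 t)
  continuous_toFun := by
    refine continuousOn_Phi.comp_continuous (fourier 1).continuous fun t => ?_
    rw [mem_closedBall_zero_iff, norm_fourier_one]

lemma phiC_apply (t : Circ) : phiC t = Phi (fourier 1 t) := rfl

/-- `w = √(1 - |φ|²)` -/
noncomputable def wC : C(Circ, ℂ) where
  toFun t := ((√(1 - ‖phiC t‖ ^ 2) : ℝ) : ℂ)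
  continuous_toFun := by fun_prop

lemma wC_apply (t : Circ) : wC t = ((√(1 - ‖phiC t‖ ^ 2) : ℝ) : ℂ) := rfl

lemma norm_phiC_le (t : Circ) : ‖phiC t‖ ≤ 1 := norm_Phi_le (norm_fourier_one t).le

lemma wC_eq_zero_iff (t : Circ) : wC t = 0 ↔ 0 ≤ (fourier 1 t : ℂ).im := by
  rw [← norm_Phi_eq_one_iff (norm_fourier_one t), wC_apply, ← phiC_apply]
  have h1 := norm_phiC_le t
  have h2 := norm_nonneg (phiC t)
  constructor
  · intro h
    have h3 : √(1 - ‖phiC t‖ ^ 2) = 0 := by exact_mod_cast h
    rw [Real.sqrt_eq_zero (by nlinarith)] at h3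
    nlinarith
  · intro h
    rw [h]
    norm_num

lemma phiC_anal (n : ℤ) (hn : n < 0) : fourierCoeff phiC n = 0 := by
  obtain ⟨m, rfl⟩ : ∃ m : ℕ, n = -((m : ℤ) + 1) := ⟨(-n - 1).toNat, by omega⟩
  rw [fourierCoeff_eq_intervalIntegral phiC _ 0]
  have h1 : (∮ z in C(0, 1), z ^ m * Phi z) = 0 := by
    apply Complex.circleIntegral_eq_zero_of_differentiable_on_off_countable zero_le_one
      Set.countable_empty
    · exact (continuousOn_id.pow m).mul continuousOn_Phi
    · intro z hz
      have hz' : ‖z‖ < 1 := by simpa using hz.1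
      exact (differentiableAt_id.pow m).mul (differentiableAt_Phi hz')
  rw [circleIntegral] at h1
  have h2 : ∀ x : ℝ, @fourier 1 (- -((m : ℤ) + 1)) (x : Circ) • phiC (x : Circ) =
      Complex.I⁻¹ * (deriv (circleMap 0 1) (2 * Real.pi * x) •
        ((circleMap 0 1 (2 * Real.pi * x)) ^ m * Phi (circleMap 0 1 (2 * Real.pi * x)))) := by
    intro x
    have e1 : circleMap 0 1 (2 * Real.pi * x) = fourier 1 (x : Circ) := by
      rw [circleMap, fourier_coe_apply]
      simp only [Complex.ofReal_one, zero_add, one_mul]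
      congr 1
      push_cast
      ring
    have e2 : (fourier (- -((m : ℤ) + 1)) (x : Circ) : ℂ) = (fourier 1 (x : Circ) : ℂ) ^ (m + 1) := by
      rw [fourier_coe_apply, fourier_coe_apply, ← Complex.exp_nat_mul]
      congr 1
      push_cast
      ring
    rw [deriv_circleMap, e1, e2, phiC_apply, smul_eq_mul, smul_eq_mul, pow_succ]
    have hI := Complex.I_ne_zero
    field_simp
  simp_rw [h2]
  rw [intervalIntegral.integral_const_mul]
  have h3 := intervalIntegral.integral_comp_mul_left (a := 0) (b := 0 + 1)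
    (fun θ : ℝ => deriv (circleMap 0 1) θ • ((circleMap 0 1 θ) ^ m * Phi (circleMap 0 1 θ)))
    (c := 2 * Real.pi) (by positivity)
  rw [h3, zero_add, mul_zero, mul_one, h1]
  simp

lemma fourier_quarter : (fourier 1 (((1 / 4 : ℝ) : Circ)) : ℂ).im = 1 := by
  rw [fourier_coe_apply]
  have : (2 * Real.pi * Complex.I * (1 : ℤ) * ((1 / 4 : ℝ) : ℂ) / (1 : ℝ) : ℂ) =
      (Real.pi / 2 : ℝ) * Complex.I := by
    push_cast
    ring
  rw [this, Complex.exp_ofReal_mul_I_im, Real.sin_pi_div_two]

instance nontrivialCirc : Nontrivial Circ := by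
  refine ⟨((1 / 4 : ℝ) : Circ), 0, fun h => ?_⟩
  have h1 := fourier_quarter
  rw [h, fourier_eval_zero] at h1
  simp at h1

lemma isClosed_im : IsClosed {t : Circ | (fourier 1 t : ℂ).im ≤ 0} :=
  isClosed_le (Complex.continuous_im.comp (fourier 1).continuous) continuous_const

lemma phiC_pos : mu {t | wC t = 0} ≠ 0 := by
  have h1 : {t : Circ | 0 < (fourier 1 t : ℂ).im} ⊆ {t | wC t = 0} := by
    intro t ht
    exact (wC_eq_zero_iff t).2 (le_of_lt ht)
  have h2 : IsOpen {t : Circ | 0 < (fourier 1 t : ℂ).im} :=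
    isOpen_lt continuous_const (Complex.continuous_im.comp (fourier 1).continuous)
  have h3 : {t : Circ | 0 < (fourier 1 t : ℂ).im}.Nonempty := by
    refine ⟨((1 / 4 : ℝ) : Circ), ?_⟩
    show 0 < (fourier 1 (((1 / 4 : ℝ) : Circ)) : ℂ).im
    rw [fourier_quarter]
    exact one_pos
  exact ((h2.measure_pos mu h3).trans_le (measure_mono h1)).ne'

lemma phiC_mean : ‖fourierCoeff phiC 0‖ < 1 := by
  have h1 : ‖fourierCoeff phiC 0‖ ≤ ∫ t, ‖phiC t‖ ∂mu := by
    unfold fourierCoeff
    refine (norm_integral_le_integral_norm _).trans (le_of_eq ?_)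
    congr 1
    ext t
    simp [fourier_zero]
  have h2 : 0 < ∫ t, (1 - ‖phiC t‖) ∂mu := by
    have hc : Continuous fun t : Circ => 1 - ‖phiC t‖ := by fun_prop
    refine hc.integral_pos_of_hasCompactSupport_nonneg_nonzero (x := ((-(1 / 4) : ℝ) : Circ))
      (HasCompactSupport.of_compactSpace _) (fun t => ?_) ?_
    · show 0 ≤ 1 - ‖phiC t‖
      linarith [norm_phiC_le t]
    · intro h0
      have h3 : ‖Phi (fourier 1 ((-(1 / 4) : ℝ) : Circ))‖ = 1 := by
        have : ‖phiC ((-(1 / 4) : ℝ) : Circ)‖ = 1 := by linarith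
        exact this
      rw [norm_Phi_eq_one_iff (norm_fourier_one _), fourier_coe_apply] at h3
      have : (2 * Real.pi * Complex.I * (1 : ℤ) * ((-(1 / 4) : ℝ) : ℂ) / (1 : ℝ) : ℂ) =
          (-(Real.pi / 2) : ℝ) * Complex.I := by
        push_cast
        ring
      rw [this, Complex.exp_ofReal_mul_I_im, Real.sin_neg, Real.sin_pi_div_two] at h3
      linarith
  have h4 : ∫ t, (1 - ‖phiC t‖) ∂mu = 1 - ∫ t, ‖phiC t‖ ∂mu := by
    rw [integral_sub (integrable_const _)]
    · simp
    · exact (phiC.continuous.norm.integrable_of_hasCompactSupport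
        (HasCompactSupport.of_compactSpace _))
  linarith

lemma phiC_gap : ∀ᵐ t ∂mu, ∃ δ > 0, ∀ s, wC s ≠ 0 → δ ≤ ‖1 - fourier 1 t * conj (phiC s)‖ := by
  have hnull : ∀ c : ℂ, ∀ᵐ t : Circ ∂mu, (fourier 1 t : ℂ) ≠ c := by
    intro c
    rw [ae_iff]
    have hsub : {t : Circ | ¬ (fourier 1 t : ℂ) ≠ c}.Subsingleton := by
      intro s hs t ht
      apply fourier_one_injective
      simp only [not_not, Set.mem_ofPred_eq] at hs ht
      show (fourier 1 s : ℂ) = fourier 1 t
      rw [hs, ht]
    exact hsub.measure_zero mu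
  filter_upwards [hnull (Phi 1), hnull (Phi (-1))] with t h1 h2
  set A : Set Circ := {s : Circ | (fourier 1 s : ℂ).im ≤ 0}
  have hA : IsCompact A := isClosed_im.isCompact
  have hcont : Continuous fun s : Circ => ‖1 - fourier 1 t * conj (phiC s)‖ := by fun_prop
  have hpos : ∀ s ∈ A, 0 < ‖1 - fourier 1 t * conj (phiC s)‖ := by
    intro s hs
    rw [norm_pos_iff]
    intro h0
    have h3 : (fourier 1 t : ℂ) * conj (phiC s) = 1 := (sub_eq_zero.1 h0).symm
    have h4 : ‖phiC s‖ = 1 := by
      have := congrArg norm h3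
      rwa [norm_mul, norm_fourier_one, one_mul, RCLike.norm_conj, norm_one] at this
    have h5 : phiC s = fourier 1 t := by
      have h6 : phiC s * conj (phiC s) = 1 := by
        rw [Complex.mul_conj', h4]
        norm_num
      have h7 : conj (phiC s) ≠ 0 := by
        intro h8
        rw [h8, mul_zero] at h3
        exact zero_ne_one h3
      exact mul_right_cancel₀ h7 (h6.trans h3.symm)
    have h6 : 0 ≤ (fourier 1 s : ℂ).im := (norm_Phi_eq_one_iff (norm_fourier_one s)).1 h4
    have h7 : (fourier 1 s : ℂ).im = 0 := le_antisymm hs h6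
    have h8 : (fourier 1 s : ℂ).re = 1 ∨ (fourier 1 s : ℂ).re = -1 := by
      have := norm_fourier_one s
      rw [Complex.norm_def, Complex.normSq_apply, h7, mul_zero, add_zero, Real.sqrt_eq_one] at this
      have h9 : ((fourier 1 s : ℂ).re - 1) * ((fourier 1 s : ℂ).re + 1) = 0 := by linarith
      rcases mul_eq_zero.1 h9 with h | h
      · left; linarith
      · right; linarith
    rcases h8 with h8 | h8
    · apply h1
      rw [← h5, phiC_apply]
      congr 1
      exact Complex.ext (by simpa using h8) (by simpa using h7)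
    · apply h2
      rw [← h5, phiC_apply]
      congr 1
      exact Complex.ext (by simpa using h8) (by simpa using h7)
  have hwA : ∀ s, wC s ≠ 0 → s ∈ A := by
    intro s hs
    by_contra hsA
    apply hs
    rw [wC_eq_zero_iff]
    have : ¬ (fourier 1 s : ℂ).im ≤ 0 := hsA
    linarith
  by_cases hAe : A.Nonempty
  · obtain ⟨s0, hs0, hmin⟩ := hA.exists_isMinOn hAe hcont.continuousOn
    exact ⟨_, hpos s0 hs0, fun s hs => hmin (hwA s hs)⟩
  · exact ⟨1, one_pos, fun s hs => absurd ⟨s, hwA s hs⟩ hAe⟩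

theorem sym_phi : Sym phiC wC where
  anal := phiC_anal
  rel := by
    ext t
    simp only [ContinuousMap.add_apply, ContinuousMap.mul_apply, ContinuousMap.star_apply,
      ContinuousMap.one_apply, Complex.star_def, Complex.conj_mul']
    rw [wC_apply, Complex.norm_real, Real.norm_of_nonneg (Real.sqrt_nonneg _)]
    have h1 : (√(1 - ‖phiC t‖ ^ 2)) ^ 2 = 1 - ‖phiC t‖ ^ 2 := Real.sq_sqrt (by
      have := norm_phiC_le t
      nlinarith [norm_nonneg (phiC t)])
    rw [← Complex.ofReal_pow, ← Complex.ofReal_pow, h1]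
    push_cast
    ring
  near t := norm_one_sub_Phi (norm_fourier_one t).le
  inj s t h := fourier_one_injective
    (Phi_inj (norm_fourier_one s).le (norm_fourier_one t).le h)
  pos := phiC_pos
  mean := phiC_mean
  gap := phiC_gap

end Pool.Agent.Helper917.Hardy
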